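import Pool.Agent.Z7.Defs
import Pool.Agent.Z6.A3

namespace Pool.Agent.Z7

open Pool.Agent.ZL2 Filter Topology
open Pool.Agent.Z5 (fr Gen ev2)
open Pool.Agent.Z6 (dt)

variable {m : ℕ} [NeZero m]

/-- Row Z7-A2a. Few points of the orbits are close to a given point: `Z5.noatom` for the coordinate `y_0` (`|y_0 - y*_0| ≤ ‖y - y*‖` in the sup norm). -/
theorem noatom {U : Filter ℕ} {ι : ℕ → Type} [∀ n, Fintype (ι n)] {κ : ℝ} {y : ∀ n, ι n → (Fin m → ℂ)}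
    (hG : Gen (k := 1) U κ (fun n σ _ => y n σ 0)) (w0 : Fin m → ℂ) {θ : ℝ} (hθ : 0 < θ) :
    ∃ δ : ℝ, 0 < δ ∧ ∀ᶠ n in U, fr (fun σ : ι n => ‖y n σ - w0‖ < δ) ≤ θ := by
  obtain ⟨δ, hδ, h⟩ := Z5.noatom hG (w0 0) hθ
  refine ⟨δ, hδ, ?_⟩
  filter_upwards [h] with n hn
  refine le_trans (Z5.fr_mono fun σ hσ => ?_) hn
  exact lt_of_le_of_lt (norm_le_pi_norm (y n σ - w0) 0) hσ

/-- Row Z7-A2b. `lg · i` is continuous where `y_i ≠ 0`. -/
theorem continuousAt_lg {κ : Type} [Fintype κ] {y : κ → ℂ} {i : κ} (hy : y i ≠ 0) : ContinuousAt (fun y : κ → ℂ => lg y i) y := by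
  unfold lg
  exact ContinuousAt.log (continuousAt_apply i y).norm (norm_pos_iff.2 hy).ne'

/-- Row Z7-A2c. As `Z6.KA_tail`. -/
theorem KA_tail (D : Cv m) {ι : Type} [Fintype ι] [Nonempty ι] (y : ι → Fin m → ℂ) (hy : ∀ σ, y σ ∈ D.C) (B : ℝ)
    (hB : ∀ i, ∑ σ, |lg (y σ) i| ≤ B * Fintype.card ι) {A : ℝ} (hA : 0 < A) :
    fr (fun σ => y σ ∉ D.KA A) ≤ m * (B / A) := by
  have h1 : fr (fun σ => y σ ∉ D.KA A) ≤
      fr (fun σ => ∃ i ∈ (Finset.univ : Finset (Fin m)), A < |lg (y σ) i|) := by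
    refine Z5.fr_mono fun σ hσ => ?_
    by_contra hcon
    refine hσ ⟨hy σ, fun i => ?_⟩
    by_contra hi
    exact hcon ⟨i, Finset.mem_univ i, not_le.1 hi⟩
  refine h1.trans ((Z5.fr_exists _ _).trans ?_)
  refine (Finset.sum_le_sum fun i _ =>
    Z5.fr_markov (fun σ => lg (y σ) i) B A hA (hB i)).trans ?_
  rw [Finset.sum_const, Finset.card_univ, Fintype.card_fin, nsmul_eq_mul]

/-- Row Z7-A2d. As `Z6.tube`, on the curve `D.C` (compactness: `D.cpt`). -/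
theorem tube (D : Cv m) {U : Filter ℕ} (A : ℝ) {un vn : ℕ → Fin m → ℝ} {u v : Fin m → ℝ} {ε : ℕ → ℝ}
    (hu : Tendsto un U (𝓝 u)) (hv : Tendsto vn U (𝓝 v)) (hε : Tendsto ε U (𝓝 0)) {O : Set (Fin m → ℂ)} (hO : IsOpen O)
    (h : ∀ y ∈ D.KA A, dt u (lg y) = 0 → dt v (lg y) = 0 → y ∈ O) :
    ∀ᶠ n in U, ∀ y ∈ D.KA A, |dt (un n) (lg y)| ≤ ε n → |dt (vn n) (lg y)| ≤ ε n → y ∈ O := by
  rcases (D.KA A \ O).eq_empty_or_nonempty with hem | hne
  · exact Eventually.of_forall fun n t ht _ _ => Set.sdiff_eq_empty.1 hem ht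
  have hK : IsCompact (D.KA A \ O) := (D.cpt A).diff hO
  have hdt : ∀ w : Fin m → ℝ, ∀ t ∈ D.KA A, ContinuousAt (fun t => dt w (lg t)) t := by
    intro w t ht
    unfold Pool.Agent.Z6.dt
    exact tendsto_finsetSum _ fun i _ => (continuousAt_lg (D.ne t ht.1 i)).const_mul (w i)
  have hcont : ContinuousOn (fun t => |dt u (lg t)| + |dt v (lg t)|) (D.KA A \ O) := fun t ht =>
    ((hdt u t ht.1).abs.add (hdt v t ht.1).abs).continuousWithinAt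
  obtain ⟨t0, ht0, hmin⟩ := hK.exists_isMinOn hne hcont
  have hpos : 0 < |dt u (lg t0)| + |dt v (lg t0)| := by
    by_contra hcon
    have h1 := abs_nonneg (dt u (lg t0))
    have h2 := abs_nonneg (dt v (lg t0))
    exact ht0.2 (h t0 ht0.1 (abs_eq_zero.1 (by linarith)) (abs_eq_zero.1 (by linarith)))
  have hlim : Tendsto (fun n => A * (∑ i, |un n i - u i|) + A * (∑ i, |vn n i - v i|) + 2 * ε n) U (𝓝 0) := by
    simpa using (((Z6.a2_tend hu).const_mul A).add ((Z6.a2_tend hv).const_mul A)).add (hε.const_mul 2)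
  filter_upwards [hlim.eventually (gt_mem_nhds hpos)] with n hn
  intro t ht hut hvt
  by_contra htO
  have h1 : |dt u (lg t0)| + |dt v (lg t0)| ≤ |dt u (lg t)| + |dt v (lg t)| :=
    hmin ⟨ht, htO⟩
  have h2 := Z6.a2_dt_sub u (un n) (lg t) ht.2
  have h3 := Z6.a2_dt_sub v (vn n) (lg t) ht.2
  linarith

/-- Few points of the orbits are close to a given finite set. -/
theorem few_near {U : Filter ℕ} {ι : ℕ → Type} [∀ n, Fintype (ι n)] {κ : ℝ} {y : ∀ n, ι n → (Fin m → ℂ)}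
    (hG : Gen (k := 1) U κ (fun n σ _ => y n σ 0)) (F : Finset (Fin m → ℂ)) {θ0 : ℝ} (h0 : 0 < θ0) :
    ∃ δ : (Fin m → ℂ) → ℝ, (∀ z, 0 < δ z) ∧
      ∀ᶠ n in U, fr (fun σ : ι n => ∃ z ∈ F, ‖y n σ - z‖ < δ z) ≤ θ0 := by
  obtain ⟨θ, hθ⟩ : ∃ θ : ℝ, θ = θ0 / ((F.card : ℝ) + 1) := ⟨_, rfl⟩
  have hθ0 : 0 < θ := by rw [hθ]; positivity
  choose δ hδ0 hδ using fun z : Fin m → ℂ => noatom hG z hθ0
  refine ⟨δ, hδ0, ?_⟩
  have h4 : ∀ᶠ n in U, ∀ z ∈ F, fr (fun σ : ι n => ‖y n σ - z‖ < δ z) ≤ θ := by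
    rw [Filter.eventually_all_finset]
    intro z _
    exact hδ z
  filter_upwards [h4] with n hn
  refine (Z5.fr_exists F fun z σ => ‖y n σ - z‖ < δ z).trans ?_
  refine (Finset.sum_le_sum hn).trans ?_
  rw [Finset.sum_const, nsmul_eq_mul, hθ, mul_div_assoc', div_le_iff₀ (by positivity)]
  nlinarith

/-- Row Z7-A2e. As `Z6.lemI`, for the curve `D.C`, and with an arbitrary finite index type `J` for the `en n j`. -/
theorem lemI (D : Cv m) (hH : HHp D) (U : Ultrafilter ℕ) {ι : ℕ → Type} [∀ n, Fintype (ι n)] [∀ n, Nonempty (ι n)] {κ B : ℝ}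
    {J : Type} [Finite J] (y : ∀ n, ι n → Fin m → ℂ)
    (hG : Gen (k := 1) (U : Filter ℕ) κ (fun n σ _ => y n σ 0)) (hy : ∀ n σ, y n σ ∈ D.C)
    (hB : ∀ n i, ∑ σ, |lg (y n σ) i| ≤ B * Fintype.card (ι n))
    (cn : ℕ → Fin m → ℝ) (en : ℕ → J → Fin m → ℝ) (h1 : ∀ n, dt (cn n) (cn n) = 1)
    (h2 : ∀ n j, dt (en n j) (en n j) = 1) (h3 : ∀ n j, dt (cn n) (en n j) = 0) (ε : ℕ → ℝ)
    (hε : Tendsto ε (U : Filter ℕ) (𝓝 0))
    (hS : ∀ᶠ n in (U : Filter ℕ), 1 / 2 ≤ fr (fun σ : ι n => ∃ j, |dt (cn n) (lg (y n σ))| ≤ ε n ∧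
      |dt (en n j) (lg (y n σ))| ≤ ε n)) : False := by
  obtain ⟨c', hc', hcc⟩ := Z6.a3_lim U cn h1
  have he : ∀ j : J, ∃ e' : Fin m → ℝ, Tendsto (fun n => en n j) (U : Filter ℕ) (𝓝 e') ∧
      dt e' e' = 1 := fun j => Z6.a3_lim U (fun n => en n j) fun n => h2 n j
  choose e' he' hee using he
  have hce : ∀ j, dt c' (e' j) = 0 := by
    intro j
    have h := Z6.a3_tendsto hc' (he' j)
    simp only [h3] at h
    exact tendsto_nhds_unique h tendsto_const_nhds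
  -- the compact set
  set A : ℝ := max (8 * (m * B)) 1 with hA
  have hA0 : 0 < A := lt_of_lt_of_le one_pos (le_max_right _ _)
  have hBA : m * (B / A) ≤ 1 / 8 := by
    rw [← mul_div_assoc, div_le_iff₀ hA0]
    have := le_max_left (8 * (m * B)) 1
    rw [← hA] at this
    linarith
  have htail : ∀ n, fr (fun σ : ι n => y n σ ∉ D.KA A) ≤ 1 / 8 := fun n =>
    (KA_tail D (y n) (hy n) B (hB n) hA0).trans hBA
  -- neighbourhood of the exceptional set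
  obtain ⟨δE, hδE0, hδE⟩ := few_near hG D.hE.toFinset (θ0 := 1 / 8) (by norm_num)
  obtain ⟨OE, hOE⟩ : ∃ OE : Set (Fin m → ℂ), OE = ⋃ z ∈ D.hE.toFinset, Metric.ball z (δE z) := ⟨_, rfl⟩
  have hOEo : IsOpen OE := by rw [hOE]; exact isOpen_biUnion fun z _ => Metric.isOpen_ball
  have hEO : ∀ z ∈ D.E, z ∈ OE := by
    intro z hz
    rw [hOE]
    exact Set.mem_biUnion (D.hE.mem_toFinset.2 hz) (Metric.mem_ball_self (hδE0 z))
  have hcpt : IsCompact (D.KA A \ OE) := (D.cpt A).diff hOEo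
  have hfin : ∀ j, {s | s ∈ D.KA A \ OE ∧ dt c' (lg s) = 0 ∧ dt (e' j) (lg s) = 0}.Finite := by
    intro j
    by_contra hinf
    obtain ⟨y0, hy0, hacc⟩ := Set.Infinite.exists_accPt_of_subset_isCompact hinf hcpt (fun s hs => hs.1)
    obtain ⟨O, hO, hOy⟩ := hH c' (e' j) (Z6.a3_indep hcc (hee j) (hce j)) y0 hy0.1.1 (fun h => hy0.2 (hEO _ h))
    rw [accPt_iff_nhds] at hacc
    obtain ⟨s, ⟨hs1, hs2⟩, hs3⟩ := hacc O hO
    exact hs3 (hOy s hs1 hs2.1.1.1 hs2.2.1 hs2.2.2)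
  have hZ : (⋃ j, {s | s ∈ D.KA A \ OE ∧ dt c' (lg s) = 0 ∧ dt (e' j) (lg s) = 0}).Finite :=
    Set.finite_iUnion hfin
  set F : Finset (Fin m → ℂ) := hZ.toFinset with hF
  obtain ⟨δ, hδ0, hballs⟩ := few_near hG F (θ0 := 1 / 8) (by norm_num)
  set O : Set (Fin m → ℂ) := OE ∪ ⋃ z ∈ F, Metric.ball z (δ z) with hO
  have hOo : IsOpen O := hOEo.union (isOpen_biUnion fun z _ => Metric.isOpen_ball)
  have htube : ∀ᶠ n in (U : Filter ℕ), ∀ j, ∀ s ∈ D.KA A, |dt (cn n) (lg s)| ≤ ε n →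
      |dt (en n j) (lg s)| ≤ ε n → s ∈ O := by
    rw [Filter.eventually_all]
    intro j
    refine tube D A hc' (he' j) hε hOo ?_
    intro s hs q1 q2
    by_cases hsE : s ∈ OE
    · exact Or.inl hsE
    · right
      have hs' : s ∈ F := by
        rw [hF, Set.Finite.mem_toFinset]
        exact Set.mem_iUnion.2 ⟨j, ⟨hs, hsE⟩, q1, q2⟩
      exact Set.mem_biUnion hs' (Metric.mem_ball_self (hδ0 s))
  obtain ⟨n, q1, q2, q3, q4⟩ := ((hS.and (hballs.and (htube.and hδE)))).exists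
  have h5 : fr (fun σ : ι n => ∃ j, |dt (cn n) (lg (y n σ))| ≤ ε n ∧
      |dt (en n j) (lg (y n σ))| ≤ ε n) ≤
      fr (fun σ : ι n => y n σ ∉ D.KA A) + (fr (fun σ : ι n => ∃ z ∈ F, ‖y n σ - z‖ < δ z) +
        fr (fun σ : ι n => ∃ z ∈ D.hE.toFinset, ‖y n σ - z‖ < δE z)) := by
    refine le_trans (Z5.fr_mono (Q := fun σ : ι n => y n σ ∉ D.KA A ∨ ((∃ z ∈ F, ‖y n σ - z‖ < δ z) ∨
      ∃ z ∈ D.hE.toFinset, ‖y n σ - z‖ < δE z)) ?_) ((Z5.fr_or _ _).trans (add_le_add le_rfl (Z5.fr_or _ _)))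
    rintro σ ⟨j, r1, r2⟩
    by_cases hK : y n σ ∈ D.KA A
    · right
      rcases q3 j _ hK r1 r2 with h6 | h6
      · right
        rw [hOE, Set.mem_iUnion₂] at h6
        obtain ⟨z, hz, hb⟩ := h6
        exact ⟨z, hz, by rwa [Metric.mem_ball, dist_eq_norm] at hb⟩
      · left
        rw [Set.mem_iUnion₂] at h6
        obtain ⟨z, hz, hb⟩ := h6
        exact ⟨z, hz, by rwa [Metric.mem_ball, dist_eq_norm] at hb⟩
    · exact Or.inl hK
  have h7 := htail n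
  linarith

end Pool.Agent.Z7
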