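import Pool.Agent.Z7.A2
import Pool.Agent.Z6.A4

namespace Pool.Agent.Z7

open Pool.Agent.ZL2 Filter Topology
open Pool.Agent.Z5 (fr Gen ev2)
open Pool.Agent.Z6 (dt)

variable {m : ℕ} [NeZero m]

/-- The value as a sum over the support. -/
theorem a4_evP {m : ℕ} (Φ : MvPolynomial (Fin 2) (MvPolynomial (Fin m) ℂ)) (x : Fin 2 → ℂ) (y : Fin m → ℂ) :
    evP Φ x y = ∑ α ∈ Φ.support, MvPolynomial.eval y (Φ.coeff α) * ∏ j, x j ^ α j := by
  unfold evP
  rw [MvPolynomial.eval_map, MvPolynomial.eval₂_eq']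

/-- Two comparable terms in a vanishing sum of complex numbers. -/
theorem a4_two {ι : Type} (s : Finset ι) (T : ι → ℂ) (hT : ∀ k ∈ s, T k ≠ 0)
    (hs : s.Nonempty) (h : ∑ k ∈ s, T k = 0) :
    ∃ k ∈ s, ∃ l ∈ s, k ≠ l ∧ |Real.log ‖T k‖ - Real.log ‖T l‖| ≤ Real.log s.card := by
  classical
  obtain ⟨k, hk, hmax⟩ := Finset.exists_max_image s (fun k => Real.log ‖T k‖) hs
  have h1 : T k = - ∑ l ∈ s.erase k, T l := by
    have := Finset.add_sum_erase s T hk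
    rw [h] at this
    exact eq_neg_of_add_eq_zero_left this
  have hne : (s.erase k).Nonempty := by
    rw [Finset.nonempty_iff_ne_empty]
    intro h0
    rw [h0, Finset.sum_empty, neg_zero] at h1
    exact hT k hk h1
  obtain ⟨l, hl, hmax'⟩ := Finset.exists_max_image (s.erase k) (fun k => Real.log ‖T k‖) hne
  have hls := Finset.mem_of_mem_erase hl
  refine ⟨k, hk, l, hls, (Finset.ne_of_mem_erase hl).symm, ?_⟩
  rw [abs_of_nonneg (sub_nonneg.2 (hmax l hls))]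
  have h2 : ∀ l' ∈ s.erase k, ‖T l'‖ ≤ ‖T l‖ := fun l' hl' =>
    (Real.log_le_log_iff (norm_pos_iff.2 (hT l' (Finset.mem_of_mem_erase hl')))
      (norm_pos_iff.2 (hT l hls))).1 (hmax' l' hl')
  have h3 : ‖T k‖ ≤ (s.erase k).card * ‖T l‖ := by
    rw [h1, norm_neg]
    refine (norm_sum_le _ _).trans ?_
    have := Finset.sum_le_card_nsmul _ _ _ h2
    rwa [nsmul_eq_mul] at this
  have hc : (0 : ℝ) < (s.erase k).card := by exact_mod_cast Finset.card_pos.2 hne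
  have h4 := Real.log_le_log (norm_pos_iff.2 (hT k hk)) h3
  rw [Real.log_mul hc.ne' (norm_ne_zero_iff.2 (hT l hls))] at h4
  have h5 : Real.log (s.erase k).card ≤ Real.log s.card := by
    refine Real.log_le_log hc ?_
    exact_mod_cast Finset.card_le_card (Finset.erase_subset _ _)
  linarith

/-- Row Z7-A4a. The amoeba of the fibre: at a zero of `Φ` two different terms are comparable: let `α` be a term of the largest absolute value `T_α = ‖φ_α(y)‖ ∏ ‖x_j‖^α_j`; `T_α ≤ ∑_{β ≠ α} T_β ≤ N max_{β ≠ α} T_β`, `N = card support`. (If the support has only one element then `Φ(x,y) ≠ 0`.) -/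
theorem amoeba (S : Sf m) {x : Fin 2 → ℂ} {y : Fin m → ℂ} (hx : ∀ j, x j ≠ 0) (hy : y ∈ S.C) (hyE : y ∉ S.E)
    (hΦ : evP S.Φ x y = 0) : ∃ α ∈ S.Φ.support, ∃ β ∈ S.Φ.support, α ≠ β ∧
      |∑ j, ((α j : ℝ) - (β j : ℝ)) * lg x j| ≤ Real.log S.Φ.support.card +
        |Real.log ‖MvPolynomial.eval y (S.Φ.coeff α)‖| + |Real.log ‖MvPolynomial.eval y (S.Φ.coeff β)‖| := by
  have hT : ∀ α ∈ S.Φ.support, MvPolynomial.eval y (S.Φ.coeff α) * ∏ j, x j ^ α j ≠ 0 := fun α hα =>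
    mul_ne_zero (S.coef y hy hyE α hα) (Finset.prod_ne_zero_iff.2 fun j _ => pow_ne_zero _ (hx j))
  obtain ⟨α0, hα0, -⟩ := S.nd 0
  rw [a4_evP] at hΦ
  obtain ⟨α, hα, β, hβ, hne, h1⟩ := a4_two S.Φ.support _ hT ⟨α0, hα0⟩ hΦ
  refine ⟨α, hα, β, hβ, hne, ?_⟩
  have hlog : ∀ α ∈ S.Φ.support, Real.log ‖MvPolynomial.eval y (S.Φ.coeff α) * ∏ j, x j ^ α j‖ =
      Real.log ‖MvPolynomial.eval y (S.Φ.coeff α)‖ + ∑ j, (α j : ℝ) * lg x j := by
    intro α hα
    rw [norm_mul, Real.log_mul (norm_ne_zero_iff.2 (S.coef y hy hyE α hα))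
      (norm_ne_zero_iff.2 (Finset.prod_ne_zero_iff.2 fun j _ => pow_ne_zero _ (hx j))), norm_prod,
      Real.log_prod (fun j _ => norm_ne_zero_iff.2 (pow_ne_zero _ (hx j)))]
    congr 1
    refine Finset.sum_congr rfl fun j _ => ?_
    rw [norm_pow, Real.log_pow]
    rfl
  rw [hlog α hα, hlog β hβ] at h1
  have h2 : ∑ j, ((α j : ℝ) - (β j : ℝ)) * lg x j = ∑ j, (α j : ℝ) * lg x j - ∑ j, (β j : ℝ) * lg x j := by
    rw [← Finset.sum_sub_distrib]
    exact Finset.sum_congr rfl fun j _ => by ring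
  rw [h2]
  have e1 := abs_le.1 h1
  have e2 := neg_abs_le (Real.log ‖MvPolynomial.eval y (S.Φ.coeff α)‖)
  have e3 := le_abs_self (Real.log ‖MvPolynomial.eval y (S.Φ.coeff α)‖)
  have e4 := neg_abs_le (Real.log ‖MvPolynomial.eval y (S.Φ.coeff β)‖)
  have e5 := le_abs_self (Real.log ‖MvPolynomial.eval y (S.Φ.coeff β)‖)
  refine abs_le.2 ⟨?_, ?_⟩ <;> linarith [e1.1, e1.2]

theorem a4_rwd (M : Fin 2 → Fin m → ℝ) (α β : Fin 2 →₀ ℕ) (v : Fin m → ℝ) :
    dt (rwd M α β) v = ∑ j, ((α j : ℝ) - (β j : ℝ)) * dt (M j) v := by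
  unfold rwd Pool.Agent.Z6.dt
  simp only [Finset.sum_mul, Finset.mul_sum]
  rw [Finset.sum_comm]
  exact Finset.sum_congr rfl fun j _ => Finset.sum_congr rfl fun i _ => by ring

theorem a4_core (hm : 2 ≤ m) {S : Sf m} (hH : HHp S.toCv) {U : Ultrafilter ℕ} (Z : Sq S U) {J : Type} [Finite J]
    (w : ℕ → J → Fin m → ℝ) (hw : ∀ n j, dt (w n j) (Z.u n) = 0) {K : ℝ} (hK : 0 ≤ K)
    (hr : ∀ j, ∀ A : ℝ, ∀ᶠ n in (U : Filter ℕ), A < Real.sqrt (dt (w n j) (w n j)))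
    (hP : ∀ᶠ n in (U : Filter ℕ), 1 / 2 ≤ fr (fun σ : Z.ι n => ∃ j, |dt (w n j) (lg (Z.y n σ))| ≤ K)) :
    False := by
  cases nonempty_fintype J
  choose e he1 he2 he3 using fun n j => Pool.Agent.Z6.a4_unit hm (Z.hu n) (hw n j)
  have hlim : Tendsto (fun n => ∑ j, K / Real.sqrt (dt (w n j) (w n j))) (U : Filter ℕ) (𝓝 0) := by
    have h1 : Tendsto (fun n => ∑ j, K / Real.sqrt (dt (w n j) (w n j)))
        (U : Filter ℕ) (𝓝 (∑ _j : J, (0 : ℝ))) := by
      refine tendsto_finsetSum _ fun j _ => ?_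
      refine Tendsto.const_div_atTop ?_ K
      rw [tendsto_atTop]
      exact fun A => (hr j A).mono fun n hn => hn.le
    rwa [Finset.sum_const_zero] at h1
  refine lemI S.toCv hH U Z.y Z.gen Z.hy Z.hB Z.u e Z.hu he1 he2 _ hlim ?_
  have hpos : ∀ᶠ n in (U : Filter ℕ), ∀ j, 0 < Real.sqrt (dt (w n j) (w n j)) := by
    rw [Filter.eventually_all]
    exact fun j => hr j 0
  filter_upwards [hP, hpos] with n h1 h2
  refine h1.trans (Z5.fr_mono fun σ => ?_)
  rintro ⟨j, hj⟩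
  have hnn : ∀ i, 0 ≤ K / Real.sqrt (dt (w n i) (w n i)) := fun i => div_nonneg hK (h2 i).le
  refine ⟨j, ?_, ?_⟩
  · rw [Z.r0 n σ, abs_zero]
    exact Finset.sum_nonneg fun i _ => hnn i
  · rw [he3 n j, abs_mul, abs_of_pos (h2 j)] at hj
    have h3 : |dt (e n j) (lg (Z.y n σ))| ≤ K / Real.sqrt (dt (w n j) (w n j)) := by
      rw [le_div_iff₀ (h2 j), mul_comm]
      exact hj
    exact h3.trans (Finset.single_le_sum (f := fun i => K / Real.sqrt (dt (w n i) (w n i)))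
      (fun i _ => hnn i) (Finset.mem_univ j))

/-- Row Z7-A4b. As `Z6.bddM`. The rows are `rwd M α β` for `α ≠ β` in the support of `Φ` (finitely many; `J` = these pairs in `lemI`), `∑_j (α_j - β_j) lg x_j = dt (rwd M α β) (lg y)`. Case 1: all rows unbounded along `U`: `amoeba`, with the mean values of the `|log ‖φ_α(y)‖|` bounded (`Z.hφ`): all but a proportion `≤ 1/4` of the `σ` have all of them
`≤ 4 (B + 1) card`. Case 2: one row bounded along `U` (on a set of `U`): by `hbig` (only its instances for the `n` in question) the mean values of `|lg x_j|` are bounded, while some `M n j1` is unbounded. -/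
theorem bddM (hm : 2 ≤ m) {S : Sf m} (hH : HHp S.toCv) {U : Ultrafilter ℕ} (Z : Sq S U)
    (hbig : ∀ α ∈ S.Φ.support, ∀ β ∈ S.Φ.support, α ≠ β → ∀ A : ℝ, ∃ C : ℝ, ∀ n, ∑ i, |rwd (Z.M n) α β i| ≤ A →
      ∀ j, ∑ σ, |lg (Z.x n σ) j| ≤ C * Fintype.card (Z.ι n)) :
    ∃ A, Z.Bdd A := by
  classical
  by_contra hno
  -- one of the rows `M n j` is unbounded
  obtain ⟨j1, hj1⟩ : ∃ j1 : Fin 2, ∀ A : ℝ, ∀ᶠ n in (U : Filter ℕ),
      A < Real.sqrt (dt (Z.M n j1) (Z.M n j1)) := by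
    by_contra hcon
    have hcon2 : ∀ j1 : Fin 2, ∃ A : ℝ, ∀ᶠ n in (U : Filter ℕ),
        Real.sqrt (dt (Z.M n j1) (Z.M n j1)) ≤ A := by
      intro j1
      by_contra h2
      refine hcon ⟨j1, fun A => ?_⟩
      by_contra h3
      refine h2 ⟨A, ?_⟩
      rw [← Ultrafilter.eventually_not] at h3
      exact h3.mono fun n hn => not_lt.1 hn
    choose A hA using hcon2
    refine hno ⟨max (A 0) (A 1), ?_⟩
    filter_upwards [hA 0, hA 1] with n q0 q1
    intro j i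
    match j with
    | 0 => exact ((Pool.Agent.Z6.a4_sq (Z.M n 0) i).trans q0).trans (le_max_left _ _)
    | 1 => exact ((Pool.Agent.Z6.a4_sq (Z.M n 1) i).trans q1).trans (le_max_right _ _)
  have horth : ∀ n (α β : Fin 2 →₀ ℕ), dt (rwd (Z.M n) α β) (Z.u n) = 0 := by
    intro n α β
    rw [a4_rwd]
    exact Finset.sum_eq_zero fun j _ => by rw [Z.hM n j, mul_zero]
  have hrow : ∀ n σ (α β : Fin 2 →₀ ℕ), dt (rwd (Z.M n) α β) (lg (Z.y n σ)) =
      ∑ j, ((α j : ℝ) - (β j : ℝ)) * lg (Z.x n σ) j := by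
    intro n σ α β
    rw [a4_rwd]
    exact Finset.sum_congr rfl fun j _ => by rw [Z.r1 n σ j]
  by_cases hall : ∀ α ∈ S.Φ.support, ∀ β ∈ S.Φ.support, α ≠ β → ∀ A : ℝ, ∀ᶠ n in (U : Filter ℕ),
      A < Real.sqrt (dt (rwd (Z.M n) α β) (rwd (Z.M n) α β))
  · -- case 1
    set N : ℝ := (S.Φ.support.card : ℝ) with hN
    have hN0 : 0 ≤ N := Nat.cast_nonneg _
    have hlN : 0 ≤ Real.log N := Real.log_natCast_nonneg _
    set B1 : ℝ := N * |Z.B| + 1 with hB1
    have hB10 : 0 < B1 := by positivity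
    have hG : ∀ n, ∑ σ, |(∑ α ∈ S.Φ.support, |Real.log ‖MvPolynomial.eval (Z.y n σ) (S.Φ.coeff α)‖|)| ≤
        B1 * Fintype.card (Z.ι n) := by
      intro n
      have hcard : (0 : ℝ) ≤ Fintype.card (Z.ι n) := Nat.cast_nonneg _
      have h1 : ∀ σ, |(∑ α ∈ S.Φ.support, |Real.log ‖MvPolynomial.eval (Z.y n σ) (S.Φ.coeff α)‖|)| =
          ∑ α ∈ S.Φ.support, |Real.log ‖MvPolynomial.eval (Z.y n σ) (S.Φ.coeff α)‖| := fun σ =>
        abs_of_nonneg (Finset.sum_nonneg fun _ _ => abs_nonneg _)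
      rw [Finset.sum_congr rfl fun σ _ => h1 σ, Finset.sum_comm]
      have h2 : ∀ α ∈ S.Φ.support, ∑ σ, |Real.log ‖MvPolynomial.eval (Z.y n σ) (S.Φ.coeff α)‖| ≤
          |Z.B| * Fintype.card (Z.ι n) := fun α hα =>
        (Z.hφ n α hα).trans (mul_le_mul_of_nonneg_right (le_abs_self _) hcard)
      refine (Finset.sum_le_card_nsmul _ _ _ h2).trans ?_
      rw [nsmul_eq_mul, hB1, ← mul_assoc]
      exact mul_le_mul_of_nonneg_right (by linarith) hcard
    refine a4_core hm hH Z (J := {p : {α // α ∈ S.Φ.support} × {α // α ∈ S.Φ.support} // p.1 ≠ p.2})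
      (fun n p => rwd (Z.M n) p.1.1.1 p.1.2.1) (fun n p => horth n _ _) (K := Real.log N + 4 * B1)
      (by positivity)
      (fun p => hall _ p.1.1.2 _ p.1.2.2 fun h => p.2 (Subtype.ext h)) (Filter.Eventually.of_forall fun n => ?_)
    have m1 := Z5.fr_markov (fun σ : Z.ι n => ∑ α ∈ S.Φ.support,
      |Real.log ‖MvPolynomial.eval (Z.y n σ) (S.Φ.coeff α)‖|) B1 (4 * B1) (by positivity) (hG n)
    have m2 : B1 / (4 * B1) = 1 / 4 := by
      field_simp
    rw [m2] at m1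
    have m3 : fr (fun _ : Z.ι n => True) ≤
        fr (fun σ : Z.ι n => ∃ p : {p : {α // α ∈ S.Φ.support} × {α // α ∈ S.Φ.support} // p.1 ≠ p.2},
          |dt (rwd (Z.M n) p.1.1.1 p.1.2.1) (lg (Z.y n σ))| ≤ Real.log N + 4 * B1) +
        fr (fun σ : Z.ι n => 4 * B1 < |(∑ α ∈ S.Φ.support,
          |Real.log ‖MvPolynomial.eval (Z.y n σ) (S.Φ.coeff α)‖|)|) := by
      refine le_trans (Z5.fr_mono fun σ _ => ?_) (Z5.fr_or _ _)
      rcases lt_or_ge (4 * B1) |(∑ α ∈ S.Φ.support,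
        |Real.log ‖MvPolynomial.eval (Z.y n σ) (S.Φ.coeff α)‖|)| with hg | hg
      · exact Or.inr hg
      left
      rw [abs_of_nonneg (Finset.sum_nonneg fun _ _ => abs_nonneg _)] at hg
      obtain ⟨α, hα, β, hβ, hne, h1⟩ := amoeba S (Z.hx n σ) (Z.hy n σ) (Z.hyE n σ) (Z.hΦ n σ)
      refine ⟨⟨(⟨α, hα⟩, ⟨β, hβ⟩), fun h => hne (congrArg Subtype.val h)⟩, ?_⟩
      show |dt (rwd (Z.M n) α β) (lg (Z.y n σ))| ≤ _
      rw [hrow]
      have h2 : |Real.log ‖MvPolynomial.eval (Z.y n σ) (S.Φ.coeff α)‖| +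
          |Real.log ‖MvPolynomial.eval (Z.y n σ) (S.Φ.coeff β)‖| ≤
          ∑ α ∈ S.Φ.support, |Real.log ‖MvPolynomial.eval (Z.y n σ) (S.Φ.coeff α)‖| := by
        rw [← Finset.sum_pair (f := fun α => |Real.log ‖MvPolynomial.eval (Z.y n σ) (S.Φ.coeff α)‖|) hne]
        refine Finset.sum_le_sum_of_subset_of_nonneg ?_ fun _ _ _ => abs_nonneg _
        intro γ hγ
        rcases Finset.mem_insert.1 hγ with rfl | hγ
        · exact hα
        · rw [Finset.mem_singleton.1 hγ]; exact hβ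
      linarith
    rw [Z5.fr_true] at m3
    linarith
  · -- case 2
    push Not at hall
    obtain ⟨α, hα, β, hβ, hne, A0, hA0⟩ := hall
    have hA0' : ∀ᶠ n in (U : Filter ℕ), Real.sqrt (dt (rwd (Z.M n) α β) (rwd (Z.M n) α β)) ≤ A0 := by
      have h3 : ¬ ∀ᶠ n in (U : Filter ℕ), A0 < Real.sqrt (dt (rwd (Z.M n) α β) (rwd (Z.M n) α β)) := by
        first
          | exact hA0
          | (intro h4; exact absurd h4 (by simpa [Filter.not_eventually] using hA0))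
      rw [← Ultrafilter.eventually_not] at h3
      exact h3.mono fun n hn => not_lt.1 hn
    obtain ⟨C, hC⟩ := hbig α hα β hβ hne (m * A0)
    set B' : ℝ := |C| + 1 with hB'
    have hB'0 : 0 < B' := by positivity
    refine a4_core hm hH Z (J := Unit) (fun n _ => Z.M n j1) (fun n _ => Z.hM n j1) (K := 2 * B') (by positivity)
      (fun _ => hj1) ?_
    filter_upwards [hA0'] with n hn
    have h5 : ∑ i, |rwd (Z.M n) α β i| ≤ m * A0 := by
      have h6 : ∀ i, |rwd (Z.M n) α β i| ≤ A0 := fun i => (Pool.Agent.Z6.a4_sq _ i).trans hn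
      refine (Finset.sum_le_card_nsmul _ _ _ fun i _ => h6 i).trans ?_
      rw [Finset.card_univ, Fintype.card_fin, nsmul_eq_mul]
    have hcard : (0 : ℝ) ≤ Fintype.card (Z.ι n) := Nat.cast_nonneg _
    have h8 : ∑ σ, |dt (Z.M n j1) (lg (Z.y n σ))| ≤ B' * Fintype.card (Z.ι n) := by
      have h6 := hC n h5 j1
      have h7 : ∀ σ, |dt (Z.M n j1) (lg (Z.y n σ))| = |lg (Z.x n σ) j1| := fun σ => by rw [Z.r1 n σ j1]
      rw [Finset.sum_congr rfl fun σ _ => h7 σ]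
      refine h6.trans (mul_le_mul_of_nonneg_right ?_ hcard)
      rw [hB']
      linarith [le_abs_self C]
    have h9 := Z5.fr_markov (fun σ => dt (Z.M n j1) (lg (Z.y n σ))) B' (2 * B') (by positivity) h8
    have h10 : B' / (2 * B') = 1 / 2 := by
      field_simp
    rw [h10] at h9
    have h11 : fr (fun _ : Z.ι n => True) ≤
        fr (fun σ : Z.ι n => ∃ _j : Unit, |dt (Z.M n j1) (lg (Z.y n σ))| ≤ 2 * B') +
        fr (fun σ : Z.ι n => 2 * B' < |dt (Z.M n j1) (lg (Z.y n σ))|) := by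
      refine le_trans (Z5.fr_mono fun σ _ => ?_) (Z5.fr_or _ _)
      rcases le_or_gt |dt (Z.M n j1) (lg (Z.y n σ))| (2 * B') with h | h
      · exact Or.inl ⟨(), h⟩
      · exact Or.inr h
    rw [Z5.fr_true] at h11
    linarith

end Pool.Agent.Z7
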