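import Pool.Agent.Z7.Defs
import Pool.Agent.Z5.B1

namespace Pool.Agent.Z7

open Pool.Agent.ZL2 Filter Topology

/-- The coefficients in `x^n = ∑_{k ≤ M} U_{n,k} x^k`, when `x^(M+1) = ∑_{k ≤ M} c_k x^k`. -/
noncomputable def b1_U {M : ℕ} (c : Fin (M + 1) → ℂ → ℂ) : ℕ → Fin (M + 1) → ℂ → ℂ
  | 0 => fun k _ => if k = 0 then 1 else 0
  | n + 1 => fun k t => (Fin.cases (motive := fun _ => ℂ) (0 : ℂ) (fun j => b1_U c n j.castSucc t) k : ℂ) +
      b1_U c n (Fin.last M) t * c k t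

theorem b1_U_diff {M : ℕ} (t0 : ℂ) (ρ : ℝ) (c : Fin (M + 1) → ℂ → ℂ)
    (hc : ∀ k, DifferentiableOn ℂ (c k) (Metric.ball t0 ρ)) (n : ℕ) :
    ∀ k, DifferentiableOn ℂ (b1_U c n k) (Metric.ball t0 ρ) := by
  induction n with
  | zero => intro k; exact differentiableOn_const _
  | succ n ih =>
    intro k
    have h2 : DifferentiableOn ℂ (fun t => b1_U c n (Fin.last M) t * c k t) (Metric.ball t0 ρ) :=
      (ih (Fin.last M)).mul (hc k)
    refine DifferentiableOn.add (f := fun t =>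
      (Fin.cases (motive := fun _ => ℂ) (0 : ℂ) (fun j => b1_U c n j.castSucc t) k : ℂ)) ?_ h2
    refine Fin.cases ?_ (fun j => ?_) k
    · simp only [Fin.cases_zero]
      exact differentiableOn_const _
    · simp only [Fin.cases_succ]
      exact ih j.castSucc

theorem b1_U_norm {M : ℕ} (c : Fin (M + 1) → ℂ → ℂ) (A : ℝ) (hA : 1 ≤ A) (t : ℂ) (hc : ∀ k, ‖c k t‖ ≤ A)
    (n : ℕ) : ∀ k, ‖b1_U c n k t‖ ≤ (2 * A) ^ n := by
  induction n with
  | zero =>
    intro k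
    simp only [b1_U, pow_zero]
    split_ifs <;> simp
  | succ n ih =>
    intro k
    have hp : 0 < (2 * A) ^ n := by positivity
    have h1 : ‖(Fin.cases (motive := fun _ => ℂ) (0 : ℂ) (fun j => b1_U c n j.castSucc t) k : ℂ)‖ ≤ (2 * A) ^ n := by
      refine Fin.cases ?_ (fun j => ?_) k
      · simp only [Fin.cases_zero, norm_zero]
        exact hp.le
      · simp only [Fin.cases_succ]
        exact ih j.castSucc
    have h2 : ‖b1_U c n (Fin.last M) t * c k t‖ ≤ (2 * A) ^ n * A := by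
      rw [norm_mul]
      exact mul_le_mul (ih _) (hc k) (norm_nonneg _) hp.le
    have h3 : (2 * A) ^ n ≤ (2 * A) ^ n * A := le_mul_of_one_le_right hp.le hA
    calc ‖b1_U c (n + 1) k t‖ ≤ _ := norm_add_le _ _
      _ ≤ (2 * A) ^ n * A + (2 * A) ^ n * A := by linarith
      _ = (2 * A) ^ (n + 1) := by rw [pow_succ]; ring

theorem b1_U_pow {M : ℕ} (c : Fin (M + 1) → ℂ → ℂ) (x t : ℂ)
    (h : x ^ (M + 1) = ∑ k, c k t * x ^ (k : ℕ)) (n : ℕ) :
    x ^ n = ∑ k, b1_U c n k t * x ^ (k : ℕ) := by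
  induction n with
  | zero =>
    rw [Fin.sum_univ_succ]
    simp [b1_U]
  | succ n ih =>
    have h1 : x ^ (n + 1) = (∑ j : Fin M, b1_U c n j.castSucc t * x ^ ((j : ℕ) + 1)) +
        b1_U c n (Fin.last M) t * x ^ (M + 1) := by
      rw [pow_succ, ih, Fin.sum_univ_castSucc, add_mul, Finset.sum_mul]
      simp only [Fin.val_castSucc, Fin.val_last]
      congr 1
      · refine Finset.sum_congr rfl fun j _ => ?_
        rw [pow_succ]; ring
      · rw [pow_succ]; ring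
    have h2 : ∑ k : Fin (M + 1), b1_U c (n + 1) k t * x ^ (k : ℕ) =
        (∑ k : Fin (M + 1), (Fin.cases (motive := fun _ => ℂ) (0 : ℂ) (fun j => b1_U c n j.castSucc t) k : ℂ) *
          x ^ (k : ℕ)) + b1_U c n (Fin.last M) t * ∑ k, c k t * x ^ (k : ℕ) := by
      rw [Finset.mul_sum, ← Finset.sum_add_distrib]
      refine Finset.sum_congr rfl fun k _ => ?_
      show ((Fin.cases (motive := fun _ => ℂ) (0 : ℂ) (fun j => b1_U c n j.castSucc t) k : ℂ) +
        b1_U c n (Fin.last M) t * c k t) * x ^ (k : ℕ) = _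
      ring
    rw [h1, h2, h, Fin.sum_univ_succ (f := fun k : Fin (M + 1) =>
      (Fin.cases (motive := fun _ => ℂ) (0 : ℂ) (fun j => b1_U c n j.castSucc t) k : ℂ) * x ^ (k : ℕ))]
    simp only [Fin.cases_zero, Fin.cases_succ, zero_mul, zero_add, Fin.val_succ]

/-- The coefficient of `x^k` in the monomial `x^a t^b`. -/
noncomputable def b1_h {M : ℕ} (c : Fin (M + 1) → ℂ → ℂ) (k : Fin (M + 1)) (a b : ℕ) (t : ℂ) : ℂ :=
  t ^ b * b1_U c a k t

theorem b1_h_diff {M : ℕ} (t0 : ℂ) (ρ : ℝ) (c : Fin (M + 1) → ℂ → ℂ)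
    (hc : ∀ k, DifferentiableOn ℂ (c k) (Metric.ball t0 ρ)) (k : Fin (M + 1)) (a b : ℕ) :
    DifferentiableOn ℂ (b1_h c k a b) (Metric.ball t0 ρ) := by
  unfold b1_h
  exact (differentiableOn_id.pow b).mul (b1_U_diff t0 ρ c hc a k)

theorem b1_h_norm {M : ℕ} (c : Fin (M + 1) → ℂ → ℂ) (A : ℝ) (hA : 1 ≤ A) (t : ℂ) (hc : ∀ k, ‖c k t‖ ≤ A)
    (ht : ‖t‖ ≤ A) (L : ℕ) (k : Fin (M + 1)) (a b : ℕ) (ha : a ≤ L) (hb : b ≤ L) :
    ‖b1_h c k a b t‖ ≤ (2 * A ^ 2) ^ L := by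
  unfold b1_h
  have h4 : (1 : ℝ) ≤ 2 * A := by linarith
  have h1 : ‖b1_U c a k t‖ ≤ (2 * A) ^ L :=
    (b1_U_norm c A hA t hc a k).trans (pow_le_pow_right₀ h4 ha)
  have h2 : ‖t ^ b‖ ≤ A ^ L := by
    rw [norm_pow]
    exact (pow_le_pow_left₀ (norm_nonneg _) ht b).trans (pow_le_pow_right₀ hA hb)
  rw [norm_mul]
  calc _ ≤ A ^ L * (2 * A) ^ L := mul_le_mul h2 h1 (norm_nonneg _) (by positivity)
    _ = (2 * A ^ 2) ^ L := by rw [← mul_pow]; ring

theorem b1_ev {M : ℕ} (c : Fin (M + 1) → ℂ → ℂ) {L : ℕ} (f : (Fin 2 → Fin (L + 1)) → ℤ) (x t : ℂ)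
    (h : x ^ (M + 1) = ∑ k, c k t * x ^ (k : ℕ)) :
    ev f ![x, t] = ∑ k : Fin (M + 1), x ^ (k : ℕ) * ∑ α, (f α : ℂ) * b1_h c k (α 0) (α 1) t := by
  unfold ev b1_h
  simp only [Finset.mul_sum]
  rw [Finset.sum_comm]
  refine Finset.sum_congr rfl fun α _ => ?_
  rw [Fin.prod_univ_two]
  simp only [Matrix.cons_val_zero, Matrix.cons_val_one]
  rw [b1_U_pow c x t h (α 0), Finset.sum_mul, Finset.mul_sum]
  refine Finset.sum_congr rfl fun k _ => ?_
  ring

theorem b1_exp {C C' : ℝ} (hCC : C ≤ C') {L : ℕ} (hL1 : (1 : ℝ) ≤ L) :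
    2 * Real.exp (-((C' + 2) * L)) < Real.exp (-(C * L)) := by
  have h1 : Real.exp (-((C' + 2) * L)) = Real.exp (-(C' * L)) * Real.exp (-(2 * L)) := by
    rw [← Real.exp_add]; ring_nf
  have h2 : Real.exp (-(C' * L)) ≤ Real.exp (-(C * L)) := by
    apply Real.exp_le_exp.2
    have := mul_le_mul_of_nonneg_right hCC (by linarith : (0 : ℝ) ≤ L)
    linarith
  have h3 : 2 * Real.exp (-(2 * (L : ℝ))) < 1 := by
    have h4 := Real.add_one_le_exp (2 * (L : ℝ))
    rw [Real.exp_neg, mul_inv_lt_iff₀ (Real.exp_pos _)]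
    linarith
  have h5 := Real.exp_pos (-(C' * L))
  rw [h1]
  calc 2 * (Real.exp (-(C' * L)) * Real.exp (-(2 * L)))
      = Real.exp (-(C' * L)) * (2 * Real.exp (-(2 * (L : ℝ)))) := by ring
    _ < Real.exp (-(C' * L)) * 1 := mul_lt_mul_of_pos_left h3 h5
    _ ≤ Real.exp (-(C * L)) := by rw [mul_one]; exact h2

theorem b1_sum {M : ℕ} (A W e : ℝ) (hA : 1 ≤ A) (x : ℂ) (hxA : ‖x‖ ≤ A) (G : Fin (M + 1) → ℂ)
    (hW : W = ((M : ℝ) + 1) * A ^ (M + 1)) (key : ∀ k, W * ‖G k‖ ≤ e) :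
    ‖∑ k : Fin (M + 1), x ^ (k : ℕ) * G k‖ ≤ e := by
  have hM0 : (0 : ℝ) ≤ M := Nat.cast_nonneg _
  have hterm : ∀ k : Fin (M + 1), ‖x ^ (k : ℕ) * G k‖ ≤ e / ((M : ℝ) + 1) := by
    intro k
    have hk := key k
    have n1 := norm_nonneg (G k)
    have hxk : ‖x ^ (k : ℕ)‖ ≤ A ^ (M + 1) := by
      rw [norm_pow]
      exact (pow_le_pow_left₀ (norm_nonneg _) hxA _).trans (pow_le_pow_right₀ hA k.2.le)
    rw [norm_mul, le_div_iff₀ (by linarith)]
    calc ‖x ^ (k : ℕ)‖ * ‖G k‖ * ((M : ℝ) + 1)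
        ≤ A ^ (M + 1) * ‖G k‖ * ((M : ℝ) + 1) := by
          exact mul_le_mul_of_nonneg_right (mul_le_mul_of_nonneg_right hxk n1) (by linarith)
      _ = W * ‖G k‖ := by rw [hW]; ring
      _ ≤ _ := hk
  refine (norm_sum_le _ _).trans ?_
  refine (Finset.sum_le_sum fun k _ => hterm k).trans (le_of_eq ?_)
  rw [Finset.sum_const, Finset.card_univ, Fintype.card_fin, nsmul_eq_mul]
  push_cast
  field_simp

/-- Row Z7-B1. As `Z5.arc_small`, for a monic equation of any degree `N ≥ 1`: `x^N = ∑_{k<N} c_k(t) x^k` gives `x^n = ∑_{k<N} U_{n,k}(t) x^k` with `U` holomorphic, `|U_{n,k}| ≤ (2 N A)^n`-like bounds. (For the number of conditions: `2 N lam L` against `(L+1)^2` unknowns.) -/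
theorem arc_small (N : ℕ) (hN : 1 ≤ N) (t0 : ℂ) (ρ A : ℝ) (hρ : 0 < ρ) (hA : 1 ≤ A) (c : Fin N → ℂ → ℂ)
    (hc : ∀ k, DifferentiableOn ℂ (c k) (Metric.ball t0 ρ))
    (hcA : ∀ k, ∀ t ∈ Metric.ball t0 ρ, ‖c k t‖ ≤ A)
    (htA : ∀ t ∈ Metric.ball t0 ρ, ‖t‖ ≤ A) (C : ℝ) :
    ∃ (L : ℕ) (f : (Fin 2 → Fin (L + 1)) → ℤ), 1 ≤ L ∧ f ≠ 0 ∧ (∀ α, |f α| ≤ 2 ^ L) ∧
      ∀ x t : ℂ, ‖t - t0‖ ≤ ρ / 2 → x ^ N = ∑ k, c k t * x ^ (k : ℕ) → ‖x‖ ≤ A →
        ‖ev f ![x, t]‖ < Real.exp (-(C * L)) := by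
  obtain ⟨M', rfl⟩ : ∃ M', N = M' + 1 := ⟨N - 1, by omega⟩
  obtain ⟨C', hC'⟩ : ∃ C' : ℝ, C' = max C 0 := ⟨_, rfl⟩
  have hC0 : 0 ≤ C' := by rw [hC']; exact le_max_right _ _
  have hCC : C ≤ C' := by rw [hC']; exact le_max_left _ _
  have hl2 : 0 < Real.log 2 := Real.log_pos (by norm_num)
  have hl4 : 0 < Real.log 4 := Real.log_pos (by norm_num)
  have hq : 0 < Real.log (3 / 2) := Real.log_pos (by norm_num)
  have hA2 : 1 ≤ A ^ 2 := one_le_pow₀ hA
  obtain ⟨s0, hs0⟩ : ∃ s0 : ℝ, s0 = Real.log (2 * A ^ 2) := ⟨_, rfl⟩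
  have hs00 : 0 ≤ s0 := by rw [hs0]; exact Real.log_nonneg (by linarith)
  obtain ⟨W, hW⟩ : ∃ W : ℝ, W = ((M' : ℝ) + 1) * A ^ (M' + 1) := ⟨_, rfl⟩
  have hAN : 1 ≤ A ^ (M' + 1) := one_le_pow₀ hA
  have hM'0 : (0 : ℝ) ≤ M' := Nat.cast_nonneg _
  have hW1 : 1 ≤ W := by
    rw [hW]
    exact one_le_mul_of_one_le_of_one_le (by linarith) hAN
  obtain ⟨e0, he0⟩ : ∃ e0 : ℝ, e0 = Real.log (3 * W) := ⟨_, rfl⟩
  have he00 : 0 ≤ e0 := by rw [he0]; exact Real.log_nonneg (by linarith)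
  obtain ⟨lam, hlam⟩ := exists_nat_ge ((e0 + 3 * Real.log 2 + s0 + C' + 2) / Real.log (3 / 2))
  rw [div_le_iff₀ hq] at hlam
  have hlam0 : (0 : ℝ) ≤ lam := Nat.cast_nonneg lam
  obtain ⟨s2, hs2⟩ : ∃ s2 : ℝ, s2 = e0 + lam + C' + 2 := ⟨_, rfl⟩
  have hs20 : 0 ≤ s2 := by rw [hs2]; positivity
  obtain ⟨L0, hL0⟩ := exists_nat_ge ((Real.log 4 + (1 + 2) * Real.log 2 + (s0 + s2)) *
    (4 * ((M' + 1 : ℕ) * lam : ℕ)) / Real.log 2)
  obtain ⟨L, hLdef⟩ : ∃ L, L = max 1 L0 := ⟨_, rfl⟩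
  have hL : 1 ≤ L := by rw [hLdef]; exact le_max_left _ _
  have hL1 : (1 : ℝ) ≤ L := by exact_mod_cast hL
  have hLs : (Real.log 4 + (1 + ((2 : ℕ) : ℝ)) * Real.log 2 + (s0 + s2)) *
      (2 ^ 2 * ((1 : ℕ) : ℝ) * (((M' + 1) * lam : ℕ) : ℝ) ^ 1) ≤ Real.log 2 * L := by
    rw [div_le_iff₀ hl2] at hL0
    have h1 : (L0 : ℝ) ≤ L := by
      rw [hLdef]
      exact_mod_cast le_max_right _ _
    have h2 := mul_le_mul_of_nonneg_right h1 hl2.le
    have h3 : (Real.log 4 + (1 + ((2 : ℕ) : ℝ)) * Real.log 2 + (s0 + s2)) *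
      (2 ^ 2 * ((1 : ℕ) : ℝ) * (((M' + 1) * lam : ℕ) : ℝ) ^ 1) =
      (Real.log 4 + (1 + 2) * Real.log 2 + (s0 + s2)) * (4 * ((M' + 1 : ℕ) * lam : ℕ)) := by
      push_cast; ring
    rw [h3]
    linarith
  obtain ⟨m, hm⟩ : ∃ m, m = lam * L := ⟨_, rfl⟩
  have hmr : (m : ℝ) = lam * L := by rw [hm]; push_cast; ring
  obtain ⟨M, hM⟩ : ∃ M : ℝ, M = (2 * A ^ 2) ^ L := ⟨_, rfl⟩
  have hM0 : 0 ≤ M := by rw [hM]; positivity
  have hMe : M = Real.exp (L * s0) := by
    rw [hM, hs0, bp5_pow _ (by positivity)]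
  have hT := fun (α : Fin 2 → Fin (L + 1)) (i : Fin (M' + 1)) =>
    Z5.b1_taylor t0 ρ M hρ hM0 (b1_h c i (α 0) (α 1)) (b1_h_diff t0 ρ c hc i _ _)
      (fun t ht => by
        rw [hM]
        exact b1_h_norm c A hA t (fun k => hcA k t ht) (htA t ht) L i _ _
          (Nat.lt_succ_iff.1 (α 0).2) (Nat.lt_succ_iff.1 (α 1).2))
  choose g hg1 hg2 using hT
  have hcardA : Fintype.card (Fin 2 → Fin (L + 1)) = (L + 1) ^ 2 := by simp
  obtain ⟨f, hf0, hf1, hf2⟩ := pigeon (A := Fin 2 → Fin (L + 1))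
    (J := Fin (M' + 1) × Fin m × Fin 2) (2 ^ L)
    (fun α j => if j.2.2 = 0 then (g α j.1 j.2.1).re else (g α j.1 j.2.1).im)
    (Real.exp (L * s0)) (Real.exp (-(L * s2)))
    (Real.exp_pos _) (Real.exp_pos _).le (by
      intro α j
      have h1 := hg1 α j.1 j.2.1
      rw [← hMe]
      split_ifs
      · exact (Complex.abs_re_le_norm _).trans h1
      · exact (Complex.abs_im_le_norm _).trans h1) (by
      have hcount := bp5_count 2 1 1 ((M' + 1) * lam) L (by norm_num) hL (s0 + s2)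
        (add_nonneg hs00 hs20) hLs
      have hcardJ : Fintype.card (Fin (M' + 1) × Fin m × Fin 2) ≤
          2 ^ 2 * (1 * ((M' + 1) * lam * L) ^ 1) := by
        simp only [Fintype.card_prod, Fintype.card_fin, hm]
        have : 0 ≤ (M' + 1) * lam * L := Nat.zero_le _
        nlinarith
      rw [hcardA]
      push_cast
      have e1 : 2 * 2 ^ L * ((L : ℝ) + 1) ^ 2 * Real.exp (L * s0) / Real.exp (-(L * s2)) =
          2 * 2 ^ L * ((L : ℝ) + 1) ^ 2 * Real.exp (L * (s0 + s2)) := by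
        rw [mul_div_assoc, ← Real.exp_sub]
        ring_nf
      rw [e1]
      refine lt_of_le_of_lt (pow_le_pow_right₀ ?_ hcardJ) hcount
      have : 0 ≤ 2 * 2 ^ L * ((L : ℝ) + 1) ^ 2 * Real.exp (L * (s0 + s2)) := by positivity
      linarith)
  refine ⟨L, f, hL, hf0, fun α => by have := hf1 α; exact_mod_cast this, fun x t ht hx hxA => ?_⟩
  have hfR : ∀ α, ‖(f α : ℂ)‖ ≤ 2 ^ L := by
    intro α
    rw [Complex.norm_intCast]
    have := hf1 α
    exact_mod_cast this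
  have hz : ‖(t - t0) / ((3 * ρ / 4 : ℝ) : ℂ)‖ ≤ 1 := by
    have hr : 0 < 3 * ρ / 4 := by positivity
    rw [norm_div, Complex.norm_real, Real.norm_of_nonneg hr.le, div_le_iff₀ hr]
    linarith
  have h2L : (2 : ℝ) ^ L = Real.exp (L * Real.log 2) := bp5_pow 2 (by norm_num) L
  have h23 : (2 / 3 : ℝ) ^ m = Real.exp (-(lam * L * Real.log (3 / 2))) := by
    rw [bp5_pow (2 / 3) (by norm_num), hmr]
    have : Real.log (2 / 3) = - Real.log (3 / 2) := by
      rw [← Real.log_inv]; norm_num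
    rw [this]
    ring_nf
  have hL6 : 3 * W ≤ Real.exp (L * e0) := by
    have h1 : 3 * W = Real.exp e0 := by rw [he0, Real.exp_log (by linarith)]
    rw [h1]
    exact Real.exp_le_exp.2 (le_mul_of_one_le_left he00 hL1)
  have key : ∀ i : Fin (M' + 1), W * ‖∑ α, (f α : ℂ) * b1_h c i (α 0) (α 1) t‖ ≤
      2 * Real.exp (-((C' + 2) * L)) := by
    intro i
    have p1 : ‖∑ α, (f α : ℂ) * (b1_h c i (α 0) (α 1) t -
        ∑ n ∈ Finset.range m, g α i n * ((t - t0) / ((3 * ρ / 4 : ℝ) : ℂ)) ^ n)‖ ≤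
        ((L : ℝ) + 1) ^ 2 * (2 ^ L * (3 * M * (2 / 3) ^ m)) := by
      refine (norm_sum_le _ _).trans ?_
      calc ∑ α : Fin 2 → Fin (L + 1), ‖(f α : ℂ) * (b1_h c i (α 0) (α 1) t -
            ∑ n ∈ Finset.range m, g α i n * ((t - t0) / ((3 * ρ / 4 : ℝ) : ℂ)) ^ n)‖
          ≤ ∑ _α : Fin 2 → Fin (L + 1), (2 ^ L * (3 * M * (2 / 3) ^ m)) := by
            refine Finset.sum_le_sum fun α _ => ?_
            rw [norm_mul]
            exact mul_le_mul (hfR α) (hg2 α i m t ht) (norm_nonneg _) (by positivity)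
        _ = _ := by
            rw [Finset.sum_const, Finset.card_univ, nsmul_eq_mul, hcardA]
            push_cast
            ring
    have p2 : ‖∑ α, (f α : ℂ) *
        ∑ n ∈ Finset.range m, g α i n * ((t - t0) / ((3 * ρ / 4 : ℝ) : ℂ)) ^ n‖ ≤
        m * (2 * Real.exp (-(L * s2))) := by
      have h1 : ∑ α, (f α : ℂ) *
          ∑ n ∈ Finset.range m, g α i n * ((t - t0) / ((3 * ρ / 4 : ℝ) : ℂ)) ^ n =
          ∑ n ∈ Finset.range m, (∑ α, (f α : ℂ) * g α i n) *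
            ((t - t0) / ((3 * ρ / 4 : ℝ) : ℂ)) ^ n := by
        simp only [Finset.mul_sum, Finset.sum_mul]
        rw [Finset.sum_comm]
        refine Finset.sum_congr rfl fun n _ => Finset.sum_congr rfl fun α _ => by ring
      rw [h1]
      refine (norm_sum_le _ _).trans ?_
      calc ∑ n ∈ Finset.range m, ‖(∑ α, (f α : ℂ) * g α i n) *
            ((t - t0) / ((3 * ρ / 4 : ℝ) : ℂ)) ^ n‖
          ≤ ∑ n ∈ Finset.range m, (2 * Real.exp (-(L * s2))) := by
            refine Finset.sum_le_sum fun n hn => ?_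
            rw [norm_mul, norm_pow]
            have hre : |(∑ α, (f α : ℂ) * g α i n).re| ≤ Real.exp (-(L * s2)) := by
              have h5 := hf2 (i, ⟨n, Finset.mem_range.1 hn⟩, 0)
              have h6 : (∑ α, (f α : ℂ) * g α i n).re = ∑ α, (f α : ℝ) * (g α i n).re := by
                rw [Complex.re_sum]
                refine Finset.sum_congr rfl fun α _ => ?_
                rw [Complex.mul_re, Complex.intCast_re, Complex.intCast_im]
                ring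
              rw [h6]
              simpa using h5
            have him : |(∑ α, (f α : ℂ) * g α i n).im| ≤ Real.exp (-(L * s2)) := by
              have h5 := hf2 (i, ⟨n, Finset.mem_range.1 hn⟩, 1)
              have h6 : (∑ α, (f α : ℂ) * g α i n).im = ∑ α, (f α : ℝ) * (g α i n).im := by
                rw [Complex.im_sum]
                refine Finset.sum_congr rfl fun α _ => ?_
                rw [Complex.mul_im, Complex.intCast_re, Complex.intCast_im]
                ring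
              rw [h6]
              simpa using h5
            have h7 : ‖∑ α, (f α : ℂ) * g α i n‖ ≤ 2 * Real.exp (-(L * s2)) := by
              refine (Complex.norm_le_abs_re_add_abs_im _).trans ?_
              linarith
            calc _ ≤ 2 * Real.exp (-(L * s2)) * 1 :=
                  mul_le_mul h7 (pow_le_one₀ (norm_nonneg _) hz) (by positivity) (by positivity)
              _ = _ := mul_one _
        _ = _ := by
            rw [Finset.sum_const, Finset.card_range, nsmul_eq_mul]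
    have hsplit : ∑ α, (f α : ℂ) * b1_h c i (α 0) (α 1) t =
        ∑ α, (f α : ℂ) * (b1_h c i (α 0) (α 1) t -
          ∑ n ∈ Finset.range m, g α i n * ((t - t0) / ((3 * ρ / 4 : ℝ) : ℂ)) ^ n) +
        ∑ α, (f α : ℂ) *
          ∑ n ∈ Finset.range m, g α i n * ((t - t0) / ((3 * ρ / 4 : ℝ) : ℂ)) ^ n := by
      rw [← Finset.sum_add_distrib]
      refine Finset.sum_congr rfl fun α _ => by ring
    have q1 : W * (((L : ℝ) + 1) ^ 2 * (2 ^ L * (3 * M * (2 / 3) ^ m))) ≤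
        Real.exp (-((C' + 2) * L)) := by
      have hb := bp5_card 2 L
      calc W * (((L : ℝ) + 1) ^ 2 * (2 ^ L * (3 * M * (2 / 3) ^ m)))
          = (3 * W) * (((L : ℝ) + 1) ^ 2 * (2 ^ L * (M * (2 / 3) ^ m))) := by ring
        _ ≤ Real.exp (L * e0) * (Real.exp ((2 : ℕ) * L * Real.log 2) *
              (Real.exp (L * Real.log 2) *
                (Real.exp (L * s0) * Real.exp (-(lam * L * Real.log (3 / 2)))))) := by
            rw [h2L, h23, hMe]
            refine mul_le_mul hL6 ?_ (by positivity) (by positivity)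
            exact mul_le_mul_of_nonneg_right hb (by positivity)
        _ = Real.exp (L * (e0 + 3 * Real.log 2 + s0) - lam * L * Real.log (3 / 2)) := by
            simp only [← Real.exp_add]
            congr 1
            push_cast
            ring
        _ ≤ Real.exp (-((C' + 2) * L)) := by
            apply Real.exp_le_exp.2
            have h5 := mul_le_mul_of_nonneg_left hlam (by linarith : (0 : ℝ) ≤ L)
            nlinarith
    have q2 : W * (m * (2 * Real.exp (-(L * s2)))) ≤ Real.exp (-((C' + 2) * L)) := by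
      have hm1 : (m : ℝ) ≤ Real.exp (lam * L) := by
        rw [hmr]
        have := Real.add_one_le_exp ((lam : ℝ) * L)
        linarith
      calc W * (m * (2 * Real.exp (-(L * s2))))
          = (2 * W) * (m * Real.exp (-(L * s2))) := by ring
        _ ≤ Real.exp (L * e0) * (Real.exp (lam * L) * Real.exp (-(L * s2))) := by
            refine mul_le_mul (le_trans (by linarith) hL6) ?_ (by positivity) (by positivity)
            exact mul_le_mul_of_nonneg_right hm1 (Real.exp_pos _).le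
        _ = Real.exp (-((C' + 2) * L)) := by
            simp only [← Real.exp_add]
            congr 1
            rw [hs2]
            ring
    rw [hsplit]
    calc W * ‖_ + _‖ ≤ W * (((L : ℝ) + 1) ^ 2 * (2 ^ L * (3 * M * (2 / 3) ^ m)) +
          m * (2 * Real.exp (-(L * s2)))) := by
          refine mul_le_mul_of_nonneg_left ((norm_add_le _ _).trans (add_le_add p1 p2)) (by linarith)
      _ = W * (((L : ℝ) + 1) ^ 2 * (2 ^ L * (3 * M * (2 / 3) ^ m))) +
          W * (m * (2 * Real.exp (-(L * s2)))) := by ring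
      _ ≤ 2 * Real.exp (-((C' + 2) * L)) := by linarith
  rw [b1_ev c f x t hx]
  exact lt_of_le_of_lt (b1_sum A W _ hA x hxA _ hW key) (b1_exp hCC hL1)

end Pool.Agent.Z7
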