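import Pool.Agent.Z6.S2

namespace Pool.Agent.Z7

open Filter Topology
open Pool.Agent.Z5 (Alg Dep ev2)

section s3_sec

open Pool.Agent.Z5 Pool.Agent.Z6

theorem s3_field {L : Type} [Field L] [Algebra ℂ L] (D : Derivation ℂ L L) {t : L} {r : ℕ} (x : Fin r → L)
    (hx : ∀ i, x i ≠ 0) (hxa : ∀ i, IsAlgebraic (Algebra.adjoin ℂ ({t} : Set L)) (x i)) (v : Fin r → ℂ)
    (heq : 0 = ∑ i, v i • (D (x i) / x i)) {q : ℕ} (b : Fin q → ℂ) (n : Fin r → Fin q → ℤ) (hb : LinearIndependent ℚ b)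
    (hv : ∀ i, v i = ∑ k, (n i k : ℂ) * b k) (k : Fin q) : D (∏ i, x i ^ n i k) = 0 := by
  have hy0 : ∀ k, ∏ i, x i ^ n i k ≠ 0 := fun k => Finset.prod_ne_zero_iff.2 fun i _ => zpow_ne_zero _ (hx i)
  have heq2 : D 0 = ∑ k, b k • (D (∏ i, x i ^ n i k) / ∏ i, x i ^ n i k) := by
    have h1 : ∀ k, b k • (D (∏ i, x i ^ n i k) / ∏ i, x i ^ n i k) = ∑ i, b k • ((n i k : L) * (D (x i) / x i)) := by
      intro k
      rw [s2_ld_prod D x hx (fun i => n i k), Finset.smul_sum]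
    rw [Finset.sum_congr rfl fun k _ => h1 k, Finset.sum_comm, map_zero, heq]
    refine Finset.sum_congr rfl fun i _ => ?_
    rw [hv i, Finset.sum_smul]
    refine Finset.sum_congr rfl fun k _ => ?_
    rw [Algebra.smul_def, Algebra.smul_def, map_mul, map_intCast]
    ring
  by_contra hk0
  obtain ⟨q', rfl⟩ : ∃ q', q = q' + 1 := ⟨q - 1, by have := k.2; omega⟩
  have hs : ¬ IsAlgebraic ℂ (∏ i, x i ^ n i k) := fun h => hk0 (s2_const D h)
  have hst := s2_alg_prod x hxa (fun i => n i k)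
  let e := Equiv.swap 0 k
  have he0 : e 0 = k := Equiv.swap_apply_left 0 k
  refine no_log D hk0 (fun k => ∏ i, x i ^ n i (e k.succ)) (fun k => hy0 _)
    (fun k => s2_exchange hs hst (s2_alg_prod x hxa (fun i => n i (e k.succ)))) (h := 0) isAlgebraic_zero
    (fun k => b (e k)) (hb.comp e e.injective) ?_
  rw [heq2, ← Equiv.sum_comp e, Fin.sum_univ_succ, he0]

theorem s3_prod_deriv {r : ℕ} (R : Fin r → ℂ → ℂ) (n : Fin r → ℤ) {t : ℂ} (hR : ∀ i, DifferentiableAt ℂ (R i) t)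
    (hR0 : ∀ i, R i t ≠ 0) (s : Finset (Fin r)) :
    HasDerivAt (fun t => ∏ i ∈ s, R i t ^ n i)
      ((∏ i ∈ s, R i t ^ n i) * ∑ i ∈ s, (n i : ℂ) * (deriv (R i) t / R i t)) t := by
  classical
  induction s using Finset.induction_on with
  | empty =>
    simp only [Finset.prod_empty, Finset.sum_empty, mul_zero]
    exact hasDerivAt_const t (1 : ℂ)
  | insert i s hi ih =>
    have h1 : HasDerivAt (fun t => R i t ^ n i) ((n i : ℂ) * R i t ^ (n i - 1) * deriv (R i) t) t :=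
      (hasDerivAt_zpow (n i) (R i t) (Or.inl (hR0 i))).comp t (hR i).hasDerivAt
    have h2 := h1.mul ih
    simp only [Finset.prod_insert hi, Finset.sum_insert hi]
    refine h2.congr_deriv ?_
    rw [zpow_sub_one₀ (hR0 i)]
    have := hR0 i
    field_simp

attribute [local instance] d1_alg d3_alg d3_tower

theorem s3_holo {t0 : ℂ} {ρ : ℝ} (hρ : 0 < ρ) {r : ℕ} (R : Fin r → ℂ → ℂ) (hR : ∀ i, Alg t0 ρ (R i))
    (hR0 : ∀ i, ∀ t ∈ Metric.ball t0 ρ, R i t ≠ 0) (v : Fin r → ℂ)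
    (hd : ∀ t ∈ Metric.ball t0 ρ, ∑ i, v i * (deriv (R i) t / R i t) = 0) :
    ∃ (q : ℕ) (b : Fin q → ℂ) (n : Fin r → Fin q → ℤ), LinearIndependent ℚ b ∧ (∀ i, v i = ∑ k, (n i k : ℂ) * b k) ∧
      ∀ k, ∃ z : ℂ, ∀ t ∈ Metric.ball t0 ρ, ∏ i, R i t ^ n i k = z := by
  have : Nontrivial (d1_H t0 ρ) := s2_nontrivial hρ
  have : IsDomain (d1_H t0 ρ) := NoZeroDivisors.to_isDomain _
  obtain ⟨D, hD⟩ := s2_frac (s2_D t0 ρ)
  have hRinv : ∀ i, DifferentiableOn ℂ (fun t => (R i t)⁻¹) (Metric.ball t0 ρ) := fun i => (hR i).1.inv (hR0 i)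
  have hmulA : ∀ i, d1_mk (R i) (hR i).1 * d1_mk _ (hRinv i) = 1 := by
    intro i
    refine d1_ext fun x => ?_
    rw [map_mul, d1_ev_mk, d1_ev_mk, map_one]
    exact mul_inv_cancel₀ (hR0 i x x.2)
  have hmul : ∀ i, algebraMap (d1_H t0 ρ) (FractionRing (d1_H t0 ρ)) (d1_mk (R i) (hR i).1) *
      algebraMap (d1_H t0 ρ) (FractionRing (d1_H t0 ρ)) (d1_mk _ (hRinv i)) = 1 := by
    intro i
    rw [← map_mul, hmulA, map_one]
  have hne : ∀ i, algebraMap (d1_H t0 ρ) (FractionRing (d1_H t0 ρ)) (d1_mk (R i) (hR i).1) ≠ 0 :=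
    fun i => left_ne_zero_of_mul_eq_one (hmul i)
  have hinv : ∀ i, algebraMap (d1_H t0 ρ) (FractionRing (d1_H t0 ρ)) (d1_mk _ (hRinv i)) =
      (algebraMap (d1_H t0 ρ) (FractionRing (d1_H t0 ρ)) (d1_mk (R i) (hR i).1))⁻¹ :=
    fun i => eq_inv_of_mul_eq_one_right (hmul i)
  have hld : ∀ i, D (algebraMap (d1_H t0 ρ) (FractionRing (d1_H t0 ρ)) (d1_mk (R i) (hR i).1)) /
      algebraMap (d1_H t0 ρ) (FractionRing (d1_H t0 ρ)) (d1_mk (R i) (hR i).1) =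
      algebraMap (d1_H t0 ρ) (FractionRing (d1_H t0 ρ)) (d1_mk (deriv (R i))
      ((hR i).1.deriv Metric.isOpen_ball) * d1_mk _ (hRinv i)) := by
    intro i
    rw [hD, s2_D_mk, div_eq_mul_inv, ← hinv, map_mul]
  have hA : (0 : d1_H t0 ρ) = ∑ i, v i • (d1_mk (deriv (R i))
      ((hR i).1.deriv Metric.isOpen_ball) * d1_mk _ (hRinv i)) := by
    refine d1_ext fun x => ?_
    rw [map_sum, map_zero]
    refine (hd x x.2).symm.trans ?_
    refine Finset.sum_congr rfl fun i _ => ?_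
    rw [Algebra.smul_def, map_mul, map_mul, d3_ev_algebraMap, d1_ev_mk, d1_ev_mk, div_eq_mul_inv]
  have heq : 0 = ∑ i, v i • (D (algebraMap (d1_H t0 ρ) (FractionRing (d1_H t0 ρ)) (d1_mk (R i) (hR i).1)) /
        algebraMap (d1_H t0 ρ) (FractionRing (d1_H t0 ρ)) (d1_mk (R i) (hR i).1)) := by
    rw [← map_zero (algebraMap (d1_H t0 ρ) (FractionRing (d1_H t0 ρ))), hA, map_sum]
    refine Finset.sum_congr rfl fun i _ => ?_
    rw [hld, Algebra.smul_def, Algebra.smul_def, map_mul, ← IsScalarTower.algebraMap_apply]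
  obtain ⟨q, b, n, hb, hv⟩ := s2_basis v
  refine ⟨q, b, n, hb, hv, fun k => ⟨∏ i, R i t0 ^ n i k, ?_⟩⟩
  have h0 := s3_field D (fun i => algebraMap (d1_H t0 ρ) (FractionRing (d1_H t0 ρ)) (d1_mk (R i) (hR i).1)) hne
    (fun i => s2_alg_frac hρ (d1_alg_of (hR i))) v heq b n hb hv k
  have h1 := s2_ld_prod D (fun i => algebraMap (d1_H t0 ρ) (FractionRing (d1_H t0 ρ)) (d1_mk (R i) (hR i).1)) hne
    (fun i => n i k)
  rw [h0, zero_div] at h1
  have h2 : (0 : d1_H t0 ρ) = ∑ i, (n i k : d1_H t0 ρ) * (d1_mk (deriv (R i))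
      ((hR i).1.deriv Metric.isOpen_ball) * d1_mk _ (hRinv i)) := by
    apply IsFractionRing.injective (d1_H t0 ρ) (FractionRing (d1_H t0 ρ))
    rw [map_zero, h1, map_sum]
    refine Finset.sum_congr rfl fun i _ => ?_
    rw [hld, map_mul _ (n i k : d1_H t0 ρ), map_intCast]
  have h3 : ∀ t ∈ Metric.ball t0 ρ, ∑ i, (n i k : ℂ) * (deriv (R i) t / R i t) = 0 := by
    intro t ht
    have := congrArg (d1_ev (⟨t, ht⟩ : Metric.ball t0 ρ)) h2
    rw [map_zero, map_sum] at this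
    rw [this]
    refine Finset.sum_congr rfl fun i _ => ?_
    rw [map_mul, map_mul, map_intCast, d1_ev_mk, d1_ev_mk, div_eq_mul_inv]
  have h4 : ∀ t ∈ Metric.ball t0 ρ, HasDerivAt (fun t => ∏ i, R i t ^ n i k) 0 t := by
    intro t ht
    have := s3_prod_deriv R (fun i => n i k) (fun i => (hR i).1.differentiableAt (Metric.isOpen_ball.mem_nhds ht))
      (fun i => hR0 i t ht) Finset.univ
    rwa [h3 t ht, mul_zero] at this
  intro t ht
  exact Metric.isOpen_ball.is_const_of_deriv_eq_zero (convex_ball t0 ρ).isPreconnected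
    (fun t ht => (h4 t ht).differentiableAt.differentiableWithinAt) (fun t ht => (h4 t ht).deriv) ht
    (Metric.mem_ball_self hρ)

end s3_sec

/-- Row Z7-S3a. Independence of logarithmic derivatives of algebraic functions. As in `Z6.log_alg` (with `h = 0`): choose a basis `θ_k` of the `ℚ`-span of the `v i` with `v i = ∑_k n_ik θ_k`, `n_ik ∈ ℤ`; `S_k = ∏_i R_i^(n_ik)`; `∑ θ_k S_k'/S_k = 0` forces all `S_k` to be constant (`no_log` of row Z6-S1 with `h = 0`, as in the proof of `log_alg`);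
some `(n_ik)_i` is not zero because `v ≠ 0`. -/
theorem log_indep {t0 : ℂ} {ρ : ℝ} (hρ : 0 < ρ) {r : ℕ} (R : Fin r → ℂ → ℂ) (hR : ∀ i, Alg t0 ρ (R i))
    (hR0 : ∀ i, ∀ t ∈ Metric.ball t0 ρ, R i t ≠ 0) (v : Fin r → ℂ) (hv : v ≠ 0)
    (hd : ∀ t ∈ Metric.ball t0 ρ, ∑ i, v i * (deriv (R i) t / R i t) = 0) :
    ∃ w : Fin r → ℤ, w ≠ 0 ∧ ∃ z : ℂ, ∀ t ∈ Metric.ball t0 ρ, ∏ i, R i t ^ w i = z := by
  obtain ⟨q, b, n, hb, hvn, hz⟩ := s3_holo hρ R hR hR0 v hd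
  by_contra H
  push Not at H
  apply hv
  funext i
  rw [hvn i, Pi.zero_apply]
  refine Finset.sum_eq_zero fun k _ => ?_
  have h1 : (fun i => n i k) = 0 := by
    by_contra hk
    obtain ⟨z, hz1⟩ := hz k
    obtain ⟨t, ht, h2⟩ := H (fun i => n i k) hk z
    exact h2 (hz1 t ht)
  have h2 : n i k = 0 := congrFun h1 i
  rw [h2, Int.cast_zero, zero_mul]

/-- Row Z7-S3b. Rational exponents. Basis `θ_k` of the `ℚ`-span of `1, μ_i`: `1 = ∑ n_0k θ_k`, `μ_i = ∑ n_ik θ_k` with integers (divide by a common denominator). All `X^(n_0k) ∏ R_i^(- n_ik)` are constant. For `k, l` eliminate `X`: `∏ R_i^(n_0l n_ik - n_0k n_il)` is constant, so `n_0l n_ik = n_0k n_il` (`hind`). Take `l` with `n_0l ≠ 0`: `μ_i = n_il / n_0l` and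
`N = |n_0l|`. (`g ≠ 0` because `X` has no zeros.) -/
theorem log_rat {t0 : ℂ} {ρ : ℝ} (hρ : 0 < ρ) {r : ℕ} (R : Fin r → ℂ → ℂ) (hR : ∀ i, Alg t0 ρ (R i))
    (hR0 : ∀ i, ∀ t ∈ Metric.ball t0 ρ, R i t ≠ 0)
    (hind : ∀ w : Fin r → ℤ, w ≠ 0 → ¬ ∃ z : ℂ, ∀ t ∈ Metric.ball t0 ρ, ∏ i, R i t ^ w i = z)
    {X : ℂ → ℂ} (hX : Alg t0 ρ X) (hX0 : ∀ t ∈ Metric.ball t0 ρ, X t ≠ 0) (μ : Fin r → ℝ)
    (hd : ∀ t ∈ Metric.ball t0 ρ, deriv X t / X t = ∑ i, (μ i : ℂ) * (deriv (R i) t / R i t)) :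
    ∃ (N : ℕ) (k : Fin r → ℤ) (g : ℂ), 0 < N ∧ g ≠ 0 ∧ (∀ i, N * μ i = k i) ∧
      ∀ t ∈ Metric.ball t0 ρ, X t ^ N = g * ∏ i, R i t ^ k i := by
  have ht0 : t0 ∈ Metric.ball t0 ρ := Metric.mem_ball_self hρ
  obtain ⟨q, b, n, hb, hvn, hz⟩ := s3_holo hρ (Fin.cons X R : Fin (r + 1) → ℂ → ℂ)
    (fun i => by
      refine Fin.cases ?_ (fun j => ?_) i
      · exact hX
      · exact hR j)
    (fun i => by
      refine Fin.cases ?_ (fun j => ?_) i
      · exact hX0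
      · exact hR0 j)
    (Fin.cons 1 (fun i => -(μ i : ℂ)) : Fin (r + 1) → ℂ)
    (fun t ht => by
      rw [Fin.sum_univ_succ]
      simp only [Fin.cons_zero, Fin.cons_succ]
      rw [hd t ht, one_mul, ← Finset.sum_add_distrib]
      exact Finset.sum_eq_zero fun i _ => by ring)
  simp only [Fin.prod_univ_succ, Fin.cons_zero, Fin.cons_succ] at hz
  have hv0 : (1 : ℂ) = ∑ k, (n 0 k : ℂ) * b k := by
    have := hvn 0
    rwa [Fin.cons_zero] at this
  have hvi : ∀ i : Fin r, -(μ i : ℂ) = ∑ k, (n i.succ k : ℂ) * b k := by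
    intro i
    have := hvn i.succ
    rwa [Fin.cons_succ] at this
  choose z hz using hz
  have hP0 : ∀ k, ∀ t ∈ Metric.ball t0 ρ, ∏ i : Fin r, R i t ^ n i.succ k ≠ 0 := fun k t ht =>
    Finset.prod_ne_zero_iff.2 fun i _ => zpow_ne_zero _ (hR0 i t ht)
  have hz0 : ∀ k, z k ≠ 0 := by
    intro k
    rw [← hz k t0 ht0]
    exact mul_ne_zero (zpow_ne_zero _ (hX0 t0 ht0)) (hP0 k t0 ht0)
  have hkl : ∀ k l (i : Fin r), n i.succ k * n 0 l = n i.succ l * n 0 k := by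
    intro k l
    by_contra H
    refine hind (fun i => n i.succ k * n 0 l - n i.succ l * n 0 k) ?_ ⟨z k ^ n 0 l * (z l ^ n 0 k)⁻¹, ?_⟩
    · intro h
      exact H fun i => sub_eq_zero.1 (congrFun h i)
    · intro t ht
      rw [← hz k t ht, ← hz l t ht, mul_zpow, mul_zpow, ← zpow_mul, ← zpow_mul, mul_comm (n 0 k) (n 0 l), mul_inv_rev,
        ← Finset.prod_zpow, ← Finset.prod_zpow, ← Finset.prod_inv_distrib]
      have h1 : X t ^ (n 0 l * n 0 k) ≠ 0 := zpow_ne_zero _ (hX0 t ht)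
      have h2 : ∏ i, R i t ^ (n i.succ k * n 0 l - n i.succ l * n 0 k) =
          (∏ i : Fin r, (R i t ^ n i.succ k) ^ n 0 l) * ∏ i : Fin r, ((R i t ^ n i.succ l) ^ n 0 k)⁻¹ := by
        rw [← Finset.prod_mul_distrib]
        refine Finset.prod_congr rfl fun i _ => ?_
        rw [zpow_sub₀ (hR0 i t ht), zpow_mul, zpow_mul, div_eq_mul_inv]
      rw [h2]
      field_simp
  obtain ⟨l, hl⟩ : ∃ l, n 0 l ≠ 0 := by
    by_contra H
    push Not at H
    have : (1 : ℂ) = 0 := by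
      rw [hv0]
      exact Finset.sum_eq_zero fun k _ => by rw [H k, Int.cast_zero, zero_mul]
    exact one_ne_zero this
  have hμ : ∀ i : Fin r, (n 0 l : ℝ) * μ i = -(n i.succ l : ℝ) := by
    intro i
    have h1 : (n 0 l : ℂ) * -(μ i : ℂ) = (n i.succ l : ℂ) := by
      have h2 : (n i.succ l : ℂ) = (n i.succ l : ℂ) * 1 := (mul_one _).symm
      rw [h2, hv0, hvi, Finset.mul_sum, Finset.mul_sum]
      refine Finset.sum_congr rfl fun k _ => ?_
      have h3 := congrArg (Int.cast : ℤ → ℂ) (hkl k l i)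
      push_cast at h3
      linear_combination (b k) * h3
    have h2 : (((n 0 l : ℝ) * μ i : ℝ) : ℂ) = ((-(n i.succ l : ℝ) : ℝ) : ℂ) := by
      push_cast
      linear_combination -h1
    exact_mod_cast h2
  have hXl : ∀ t ∈ Metric.ball t0 ρ, X t ^ n 0 l = z l * ∏ i : Fin r, R i t ^ (-n i.succ l) := by
    intro t ht
    rw [← hz l t ht, mul_assoc, ← Finset.prod_mul_distrib]
    have : ∏ i : Fin r, R i t ^ n i.succ l * R i t ^ (-n i.succ l) = 1 := by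
      refine Finset.prod_eq_one fun i _ => ?_
      rw [← zpow_add₀ (hR0 i t ht), add_neg_cancel, zpow_zero]
    rw [this, mul_one]
  rcases lt_or_gt_of_ne hl with hneg | hpos
  · obtain ⟨N, hN⟩ : ∃ N : ℕ, (N : ℤ) = -n 0 l := ⟨(-n 0 l).toNat, Int.toNat_of_nonneg (by omega)⟩
    have hNr : (N : ℝ) = -(n 0 l : ℝ) := by exact_mod_cast congrArg (Int.cast : ℤ → ℝ) hN
    refine ⟨N, fun i => n i.succ l, (z l)⁻¹, by omega, inv_ne_zero (hz0 l), fun i => ?_, fun t ht => ?_⟩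
    · rw [hNr, neg_mul, hμ i, neg_neg]
    · rw [← zpow_natCast, hN, zpow_neg, hXl t ht, mul_inv_rev, ← Finset.prod_inv_distrib, mul_comm]
      congr 1
      refine Finset.prod_congr rfl fun i _ => ?_
      rw [zpow_neg, inv_inv]
  · obtain ⟨N, hN⟩ : ∃ N : ℕ, (N : ℤ) = n 0 l := ⟨(n 0 l).toNat, Int.toNat_of_nonneg (by omega)⟩
    have hNr : (N : ℝ) = (n 0 l : ℝ) := by exact_mod_cast congrArg (Int.cast : ℤ → ℝ) hN
    refine ⟨N, fun i => -n i.succ l, z l, by omega, hz0 l, fun i => ?_, fun t ht => ?_⟩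
    · rw [hNr, hμ i]
      push_cast
      ring
    · rw [← zpow_natCast, hN, hXl t ht]

end Pool.Agent.Z7
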