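import Pool.Agent.Z7.A2
import Pool.Agent.Z6.B2
import Pool.Agent.Z5.C2
import Pool.Agent.Z7.S3

namespace Pool.Agent.Z7

open Pool.Agent.ZL2 Filter Topology
open Pool.Agent.Z5 (fr Gen ev2 Alg)
open Pool.Agent.Z6 (dt)

variable {m : ℕ} [NeZero m]

/-- Row Z7-B2a. Local parametrisation of the curve outside `E`: `Z5.chart` for each `q i` (at `(y0 0, y0 i)`), for `i = 0` replace the function by `id` (the point `y ∈ C` near `y0` has `y 0 = t` by definition; for `eq 0`: `q 0 (t, t) = 0` has to be shown for all `t` in the ball: by the uniqueness part of the chart it holds where `η_0 t = t`, i.e. for the `t = y 0` with `y ∈ C`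
near `y0`; if `y0` is not isolated in `C` the identity theorem gives it; if `y0` is an isolated point of `C` ... so assume that points of `C` with different `y 0` accumulate at `y0`: hypothesis `hacc`). Logarithms: `ℓ_i t = log (η_i t / η_i t0) + log (η_i t0)` on a small ball. -/
theorem exists_chart (D : Cv m) {y0 : Fin m → ℂ} (hy : y0 ∈ D.C) (hyE : y0 ∉ D.E)
    (hacc : ∀ O ∈ 𝓝 y0, ∃ y ∈ O, y ∈ D.C ∧ y 0 ≠ y0 0) {ρ0 : ℝ} (hρ0 : 0 < ρ0) :
    ∃ (ρ : ℝ) (η ℓ : Fin m → ℂ → ℂ), ρ ≤ ρ0 ∧ Chart D y0 ρ η ℓ := by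
  have hch := fun i => Z5.chart (D.q i) (D.hq y0 hy i) (D.sep y0 hy hyE i)
  choose r e ξ hr he hd hb heq huq using hch
  have hcont : ∀ i, ContinuousAt (fun y : Fin m → ℂ => y i) y0 := fun i => (continuous_apply i).continuousAt
  have hξc : ∀ i, ContinuousAt (ξ i) (y0 0) := fun i =>
    ((hd i).differentiableAt (Metric.ball_mem_nhds _ (hr i))).continuousAt
  have hnear : ∀ i, ∀ᶠ y : Fin m → ℂ in 𝓝 y0, y 0 ∈ Metric.ball (y0 0) (r i) ∧ ‖y i - y0 i‖ < e i := by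
    intro i
    refine ((hcont 0).eventually (Metric.ball_mem_nhds _ (hr i))).and ?_
    filter_upwards [(hcont i).eventually (Metric.ball_mem_nhds _ (he i))] with y h1
    rwa [dist_eq_norm] at h1
  have hid : Set.EqOn (ξ 0) (fun t => t) (Metric.ball (y0 0) (r 0)) := by
    refine AnalyticOnNhd.eqOn_of_preconnected_of_frequently_eq ((hd 0).analyticOnNhd Metric.isOpen_ball)
      (differentiableOn_id.analyticOnNhd Metric.isOpen_ball) (convex_ball _ _).isPreconnected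
      (Metric.mem_ball_self (hr 0)) ?_
    rw [Filter.frequently_iff]
    intro V hV
    rw [mem_nhdsWithin] at hV
    obtain ⟨O, hO, h0, hOV⟩ := hV
    have h2 : ∀ᶠ y : Fin m → ℂ in 𝓝 y0, y 0 ∈ O := (hcont 0).eventually (hO.mem_nhds h0)
    obtain ⟨y, ⟨hy1, hy2⟩, hy3, hy4⟩ := hacc _ (h2.and (hnear 0))
    exact ⟨y 0, hOV ⟨hy1, hy4⟩, (huq 0 (y 0) hy2.1 (y 0) hy2.2 (D.hq y hy3 0)).symm⟩
  have hev : ∀ᶠ t in 𝓝 (y0 0), ∀ i, t ∈ Metric.ball (y0 0) (r i) ∧ ξ i t / y0 i ∈ Complex.slitPlane := by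
    rw [Filter.eventually_all]
    intro i
    refine (Filter.Eventually.and (Metric.ball_mem_nhds _ (hr i)) ?_)
    refine ((hξc i).div_const (y0 i)).eventually (Complex.isOpen_slitPlane.mem_nhds ?_)
    show ξ i (y0 0) / y0 i ∈ Complex.slitPlane
    rw [hb i, div_self (D.ne y0 hy i)]
    exact Complex.one_mem_slitPlane
  obtain ⟨ρ1, hρ1, hball⟩ := Metric.eventually_nhds_iff_ball.mp hev
  have hsub : ∀ t ∈ Metric.ball (y0 0) (min ρ0 ρ1), t ∈ Metric.ball (y0 0) ρ1 := fun t ht =>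
    Metric.ball_subset_ball (min_le_right _ _) ht
  have hne : ∀ i, ∀ t ∈ Metric.ball (y0 0) (min ρ0 ρ1), ξ i t ≠ 0 := by
    intro i t ht h0
    have h1 := Complex.slitPlane_ne_zero (hball t (hsub t ht) i).2
    rw [h0, zero_div] at h1
    exact h1 rfl
  refine ⟨min ρ0 ρ1, ξ, fun i t => Complex.log (ξ i t / y0 i) + Complex.log (y0 i), min_le_left _ _, ?_⟩
  refine ⟨lt_min hρ0 hρ1, hb, fun t ht => hid (hball t (hsub t ht) 0).1, fun i => (hd i).mono fun t ht =>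
    (hball t (hsub t ht) i).1, hne, fun i t ht => heq i t (hball t (hsub t ht) i).1, fun i t ht => ?_,
    fun i t ht => ?_, ?_⟩
  · have h1 : HasDerivAt (ξ i) (deriv (ξ i) t) t :=
      ((hd i).differentiableAt (Metric.isOpen_ball.mem_nhds (hball t (hsub t ht) i).1)).hasDerivAt
    have h2 := ((h1.div_const (y0 i)).clog (hball t (hsub t ht) i).2).add_const (Complex.log (y0 i))
    refine h2.congr_deriv ?_
    have h3 := D.ne y0 hy i
    have h4 := hne i t ht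
    field_simp
  · have h3 := D.ne y0 hy i
    show Complex.exp (Complex.log (ξ i t / y0 i) + Complex.log (y0 i)) = ξ i t
    rw [Complex.exp_add, Complex.exp_log (Complex.slitPlane_ne_zero (hball t (hsub t ht) i).2), Complex.exp_log h3,
      div_mul_cancel₀ _ h3]
  · have h1 : ∀ᶠ y : Fin m → ℂ in 𝓝 y0, ∀ i, y 0 ∈ Metric.ball (y0 0) (r i) ∧ ‖y i - y0 i‖ < e i :=
      Filter.eventually_all.2 hnear
    have h2 : ∀ᶠ y : Fin m → ℂ in 𝓝 y0, y 0 ∈ Metric.ball (y0 0) (min ρ0 ρ1) :=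
      (hcont 0).eventually (Metric.ball_mem_nhds _ (lt_min hρ0 hρ1))
    filter_upwards [h1, h2] with y hy1 hy2 hyC
    exact ⟨hy2, fun i => huq i (y 0) (hy1 i).1 (y i) (hy1 i).2 (D.hq y hyC i)⟩

/-- Row Z7-B2b. Restriction of a chart to a smaller ball (`uniq` uses continuity of `y ↦ y 0`). -/
theorem Chart.mono {D : Cv m} {y0 : Fin m → ℂ} {ρ ρ' : ℝ} {η ℓ : Fin m → ℂ → ℂ} (h : Chart D y0 ρ η ℓ) (h1 : 0 < ρ')
    (h2 : ρ' ≤ ρ) : Chart D y0 ρ' η ℓ := by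
  have hs : ∀ t ∈ Metric.ball (y0 0) ρ', t ∈ Metric.ball (y0 0) ρ := fun t ht => Metric.ball_subset_ball h2 ht
  refine ⟨h1, h.base, fun t ht => h.id0 t (hs t ht), fun i => (h.diff i).mono hs, fun i t ht => h.ne i t (hs t ht),
    fun i t ht => h.eq i t (hs t ht), fun i t ht => h.der i t (hs t ht), fun i t ht => h.exp i t (hs t ht), ?_⟩
  have h3 : ∀ᶠ y : Fin m → ℂ in 𝓝 y0, y 0 ∈ Metric.ball (y0 0) ρ' :=
    ((continuous_apply (0 : Fin m)).continuousAt (x := y0)).eventually (Metric.ball_mem_nhds _ h1)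
  filter_upwards [h.uniq, h3] with y hy1 hy2 hyC
  exact ⟨hy2, (hy1 hyC).2⟩

/-- Row Z7-B2c. In a chart no nontrivial real combination of the logarithmic derivatives vanishes identically. If `∑ u_i η_i'/η_i = 0` on the ball, `log_indep` (row S3) gives `w ≠ 0` in `ℤ^m` with `∏ η_i^(w_i)` constant on the ball (the `η_i` are `Alg` because of `D.q i`), and infinitely many points of `C` near `y0` (with different `y 0`, `hacc`) contradict `D.mon`. -/
theorem Chart.not_const {D : Cv m} {y0 : Fin m → ℂ} {ρ : ℝ} {η ℓ : Fin m → ℂ → ℂ} (h : Chart D y0 ρ η ℓ)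
    (hacc : ∀ O ∈ 𝓝 y0, ∃ y ∈ O, y ∈ D.C ∧ y 0 ≠ y0 0) {u : Fin m → ℝ} (hu : u ≠ 0) :
    ¬ ∀ t ∈ Metric.ball (y0 0) ρ, ∑ i, (u i : ℂ) * (deriv (η i) t / η i t) = 0 := by
  intro hd
  have hv : (fun i => (u i : ℂ)) ≠ 0 := by
    intro h0
    apply hu
    funext i
    have h1 : (u i : ℂ) = 0 := congrFun h0 i
    exact Complex.ofReal_eq_zero.1 h1
  obtain ⟨w, hw, z, hz⟩ := log_indep h.pos η (fun i => ⟨h.diff i, D.q i, D.hq0 i, h.eq i⟩) h.ne
    (fun i => (u i : ℂ)) hv hd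
  have hfin := (D.mon w hw z).inter_of_left {y | y 0 ≠ y0 0}
  have hnot : y0 ∉ {y | y ∈ D.C ∧ ∏ i, y i ^ w i = z} ∩ {y | y 0 ≠ y0 0} := fun h1 => h1.2 rfl
  have hO : ({y | y ∈ D.C ∧ ∏ i, y i ^ w i = z} ∩ {y | y 0 ≠ y0 0})ᶜ ∈ 𝓝 y0 := hfin.isClosed.isOpen_compl.mem_nhds hnot
  obtain ⟨y, ⟨hy1, hy2⟩, hyC, hy0⟩ := hacc _ (Filter.inter_mem hO h.uniq)
  obtain ⟨hy3, hy4⟩ := hy2 hyC
  refine hy1 ⟨⟨hyC, ?_⟩, hy0⟩
  rw [← hz (y 0) hy3]
  exact Finset.prod_congr rfl fun i _ => by rw [← hy4 i]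

end Pool.Agent.Z7
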