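import Pool.Agent.Z7.Defs
import Pool.Agent.Z5.D1

namespace Pool.Agent.Z7

open Filter Topology

open Pool.Agent.Z5 (d1_H d1_mk d1_ev d1_ev_mk d1_ext)

theorem l1_norm {D : Type} [CommRing D] [IsDomain D] (p : Polynomial (FractionRing D)) :
    ∃ (b : D) (q : Polynomial D), b ≠ 0 ∧
      q.map (algebraMap D (FractionRing D)) = Polynomial.C (algebraMap D (FractionRing D) b) * p := by
  obtain ⟨b, hbM, hb⟩ := IsLocalization.integerNormalization_spec (nonZeroDivisors D) p
  refine ⟨b, IsLocalization.integerNormalization (nonZeroDivisors D) p, nonZeroDivisors.ne_zero hbM, ?_⟩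
  rw [hb, Algebra.smul_def]
  rfl

/-- Either a combination is a nonzero constant, or there is a common factor (up to a constant). -/
theorem l1_alg {D : Type} [CommRing D] [IsDomain D] (P Q : Polynomial D) (h0 : P.coeff 0 ≠ 0) :
    (∃ c : D, c ≠ 0 ∧ ∃ U W : Polynomial D, U * P + W * Q = Polynomial.C c) ∨
    (∃ c : D, c ≠ 0 ∧ ∃ H P1 Q1 : Polynomial D, 1 ≤ H.natDegree ∧ H.coeff 0 ≠ 0 ∧
      Polynomial.C c * P = H * P1 ∧ Polynomial.C c * Q = H * Q1) := by
  classical
  set φ := algebraMap D (FractionRing D) with hφ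
  have hinj : Function.Injective φ := IsFractionRing.injective D (FractionRing D)
  have hmap := Polynomial.map_injective φ hinj
  have hP0 : P.map φ ≠ 0 := by
    intro h
    apply h0
    have := congrArg (fun p => Polynomial.coeff p 0) h
    simp only [Polynomial.coeff_map, Polynomial.coeff_zero] at this
    exact hinj (by rw [this, map_zero])
  by_cases hc : IsCoprime (P.map φ) (Q.map φ)
  · left
    obtain ⟨u, w, h⟩ := hc
    obtain ⟨bu, U, hbu, hU⟩ := l1_norm u
    obtain ⟨bw, W, hbw, hW⟩ := l1_norm w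
    refine ⟨bu * bw, mul_ne_zero hbu hbw, Polynomial.C bw * U, Polynomial.C bu * W, ?_⟩
    apply hmap
    simp only [Polynomial.map_add, Polynomial.map_mul, Polynomial.map_C]
    rw [← hφ] at hU hW
    rw [hU, hW, map_mul, Polynomial.C_mul]
    linear_combination (Polynomial.C (φ bu) * Polynomial.C (φ bw)) * h
  · right
    set g := EuclideanDomain.gcd (P.map φ) (Q.map φ) with hg
    have hgu : ¬ IsUnit g := fun h => hc (EuclideanDomain.gcd_isUnit_iff.1 h)
    obtain ⟨p1, hp1⟩ := EuclideanDomain.gcd_dvd_left (P.map φ) (Q.map φ)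
    obtain ⟨q1, hq1⟩ := EuclideanDomain.gcd_dvd_right (P.map φ) (Q.map φ)
    rw [← hg] at hp1 hq1
    have hg0 : g ≠ 0 := by
      intro h
      rw [h, zero_mul] at hp1
      exact hP0 hp1
    obtain ⟨bg, G, hbg, hG⟩ := l1_norm g
    obtain ⟨bp, P1, hbp, hP1⟩ := l1_norm p1
    obtain ⟨bq, Q1, hbq, hQ1⟩ := l1_norm q1
    rw [← hφ] at hG hP1 hQ1
    have hdeg : 1 ≤ G.natDegree := by
      have h1 : (G.map φ).natDegree = g.natDegree := by
        rw [hG]
        exact Polynomial.natDegree_C_mul (fun h => hbg (hinj (by rw [h, map_zero])))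
      rw [Polynomial.natDegree_map_eq_of_injective hinj] at h1
      rw [h1]
      exact Polynomial.natDegree_pos_iff_degree_pos.2 (Polynomial.degree_pos_of_ne_zero_of_nonunit hg0 hgu)
    have e1 : Polynomial.C (bg * bp * bq) * P = G * (Polynomial.C bq * P1) := by
      apply hmap
      simp only [Polynomial.map_mul, Polynomial.map_C]
      rw [hG, hP1, hp1]
      simp only [map_mul]
      ring
    have e2 : Polynomial.C (bg * bp * bq) * Q = G * (Polynomial.C bp * Q1) := by
      apply hmap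
      simp only [Polynomial.map_mul, Polynomial.map_C]
      rw [hG, hQ1, hq1]
      simp only [map_mul]
      ring
    have hc0 : bg * bp * bq ≠ 0 := mul_ne_zero (mul_ne_zero hbg hbp) hbq
    refine ⟨bg * bp * bq, hc0, G, _, _, hdeg, ?_, e1, e2⟩
    intro h
    have := congrArg (fun p => Polynomial.coeff p 0) e1
    simp only [Polynomial.mul_coeff_zero, Polynomial.coeff_C_zero, h, zero_mul] at this
    exact mul_ne_zero hc0 h0 this

/-- a function representing an element of the ring of holomorphic functions -/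
noncomputable def l1_fn {t0 : ℂ} {ρ : ℝ} (f : d1_H t0 ρ) : ℂ → ℂ := Classical.choose f.2

theorem l1_diff {t0 : ℂ} {ρ : ℝ} (f : d1_H t0 ρ) : DifferentiableOn ℂ (l1_fn f) (Metric.ball t0 ρ) :=
  (Classical.choose_spec f.2).1

theorem l1_val {t0 : ℂ} {ρ : ℝ} (f : d1_H t0 ρ) (x : Metric.ball t0 ρ) : d1_ev x f = l1_fn f x :=
  (Classical.choose_spec f.2).2 x

theorem l1_ne {t0 : ℂ} {ρ : ℝ} {f : d1_H t0 ρ} (hf : f ≠ 0) : ∃ t ∈ Metric.ball t0 ρ, l1_fn f t ≠ 0 := by
  by_contra h
  push Not at h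
  apply hf
  refine d1_ext fun x => ?_
  rw [l1_val, map_zero]
  exact h x x.2

theorem l1_iso {t0 : ℂ} {ρ : ℝ} (hρ : 0 < ρ) {g : ℂ → ℂ} (hg : DifferentiableOn ℂ g (Metric.ball t0 ρ))
    (h : ∃ t ∈ Metric.ball t0 ρ, g t ≠ 0) : ∀ᶠ t in 𝓝 t0, t ≠ t0 → g t ≠ 0 := by
  have h1 : ∀ᶠ t in 𝓝[≠] t0, g t ≠ 0 := by
    by_contra hc
    obtain ⟨t, ht, h2⟩ := h
    apply h2
    exact (hg.analyticOnNhd Metric.isOpen_ball).eqOn_zero_of_preconnected_of_frequently_eq_zero
      (convex_ball t0 ρ).isPreconnected (Metric.mem_ball_self hρ)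
      (by
        rw [Filter.Frequently]
        intro h3
        exact hc h3) ht
  exact eventually_nhdsWithin_iff.1 h1

/-- the polynomial in `x_{1-j}` with coefficients polynomials in `x_j` -/
noncomputable def l1_pol {t0 : ℂ} {ρ : ℝ} (s : Finset (Fin 2 →₀ ℕ)) (A : (Fin 2 →₀ ℕ) → d1_H t0 ρ) (j : Fin 2) :
    Polynomial (Polynomial (d1_H t0 ρ)) :=
  ∑ α ∈ s, Polynomial.monomial (α (1 - j)) (Polynomial.monomial (α j) (A α))

theorem l1_prod (x : Fin 2 → ℂ) (α : Fin 2 →₀ ℕ) (j : Fin 2) :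
    ∏ i, x i ^ α i = x j ^ α j * x (1 - j) ^ α (1 - j) := by
  rw [Fin.prod_univ_two]
  fin_cases j
  · rfl
  · exact mul_comm _ _

theorem l1_eval {t0 : ℂ} {ρ : ℝ} (s : Finset (Fin 2 →₀ ℕ)) (a : (Fin 2 →₀ ℕ) → ℂ → ℂ)
    (ha : ∀ α, DifferentiableOn ℂ (a α) (Metric.ball t0 ρ)) (j : Fin 2) (t : Metric.ball t0 ρ) (x : Fin 2 → ℂ) :
    Polynomial.eval₂ (Polynomial.eval₂RingHom (d1_ev t) (x j)) (x (1 - j))
      (l1_pol s (fun α => d1_mk (a α) (ha α)) j) = ∑ α ∈ s, a α t * ∏ i, x i ^ α i := by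
  unfold l1_pol
  rw [Polynomial.eval₂_finsetSum]
  refine Finset.sum_congr rfl fun α _ => ?_
  rw [Polynomial.eval₂_monomial, Polynomial.coe_eval₂RingHom, Polynomial.eval₂_monomial, d1_ev_mk, l1_prod x α j]
  ring

theorem l1_coeff {t0 : ℂ} {ρ : ℝ} (s : Finset (Fin 2 →₀ ℕ)) (A : (Fin 2 →₀ ℕ) → d1_H t0 ρ) (j : Fin 2)
    (α : Fin 2 →₀ ℕ) (hα : α ∈ s) : ((l1_pol s A j).coeff (α (1 - j))).coeff (α j) = A α := by
  unfold l1_pol
  rw [Polynomial.finsetSum_coeff, Polynomial.finsetSum_coeff, Finset.sum_eq_single α]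
  · rw [Polynomial.coeff_monomial, if_pos rfl, Polynomial.coeff_monomial, if_pos rfl]
  · intro β _ hβ
    rw [Polynomial.coeff_monomial]
    split_ifs with h1
    · rw [Polynomial.coeff_monomial, if_neg]
      intro h2
      apply hβ
      ext i
      fin_cases j <;> fin_cases i
      · exact h2
      · exact h1
      · exact h1
      · exact h2
    · rw [Polynomial.coeff_zero]
  · intro h
    exact absurd hα h

/-- Row Z7-L1. Elimination over the ring of holomorphic functions. Two polynomials in `(x_0, x_1)` with coefficients holomorphic on a ball (supports `s, s'`, coefficients `a α`, `b β`) whose common zeros with `x_0, x_1 ≠ 0` are finitely many for a set of parameters `t` accumulating at `t0`: then each `x_j` satisfies one nontrivial polynomial equation with holomorphic coefficients. PROOF.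
Let `𝒪` = holomorphic functions on the ball (an integral domain; see Z5/D1), `𝓜` its fraction field, `j' = 1 - j`. `P, P'` as elements of `𝓜[x_j][x_j']`. If they are coprime over the field `𝓜(x_j)`: Bezout, clear denominators: `U P + W P' = R(x_j)` with `U, W ∈ 𝒪[x_0,x_1]` and `0 ≠ R ∈ 𝒪[x_j]`: the equation. Otherwise they have a common factor `H ∈ 𝓜[x_j][x_j']`
of positive degree in `x_j'` (Gauss: `𝓜[x_j]` is a principal ideal domain; primitive `H` divides `P` and `P'` in `𝓜[x_j][x_j']`); clearing denominators `c P = H P_1`, `c P' = H P'_1` with `0 ≠ c ∈ 𝒪` and all polynomials over `𝒪`. By `hnd` (for `j'`: some term of `P` has `α j' = 0` and coefficient not identically zero) `x_j'` does not divide `P`, so it does not divide `H`: `H` has a nonzero coefficient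
`h_0(t; x_j)` of `x_j'^0` and a nonzero leading coefficient `h_D(t; x_j)`, `D ≥ 1`. For the `t` near `t0`, `t ≠ t0`, `c(t) ≠ 0` and some coefficient of `h_0`, some coefficient of `h_D` (as polynomials in `x_j`) are nonzero at `t` (zeros of holomorphic functions are isolated). Choose such a `t` with finitely many common zeros (`hfin`). For all but finitely many `x_j ≠ 0` one has
`h_0, h_D ≠ 0`, so there is `x_j' ≠ 0` with `H = 0`: infinitely many common zeros, contradiction. -/
theorem elim {t0 : ℂ} {ρ : ℝ} (hρ : 0 < ρ) (s s' : Finset (Fin 2 →₀ ℕ)) (a b : (Fin 2 →₀ ℕ) → ℂ → ℂ)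
    (ha : ∀ α, DifferentiableOn ℂ (a α) (Metric.ball t0 ρ)) (hb : ∀ α, DifferentiableOn ℂ (b α) (Metric.ball t0 ρ))
    (hnd : ∀ j : Fin 2, ∃ α ∈ s, α j = 0 ∧ ∃ t ∈ Metric.ball t0 ρ, a α t ≠ 0)
    (hfin : ∀ O ∈ 𝓝 t0, ∃ t ∈ O, t ∈ Metric.ball t0 ρ ∧ t ≠ t0 ∧
      {x : Fin 2 → ℂ | (∀ j, x j ≠ 0) ∧ ∑ α ∈ s, a α t * ∏ j, x j ^ α j = 0 ∧
        ∑ α ∈ s', b α t * ∏ j, x j ^ α j = 0}.Finite) (j : Fin 2) :
    ∃ (N : ℕ) (c : Fin (N + 1) → ℂ → ℂ), (∀ k, DifferentiableOn ℂ (c k) (Metric.ball t0 ρ)) ∧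
      (∃ k, ∃ t ∈ Metric.ball t0 ρ, c k t ≠ 0) ∧
      ∀ t ∈ Metric.ball t0 ρ, ∀ x : Fin 2 → ℂ, (∀ j, x j ≠ 0) → ∑ α ∈ s, a α t * ∏ j, x j ^ α j = 0 →
        ∑ α ∈ s', b α t * ∏ j, x j ^ α j = 0 → ∑ k, c k t * x j ^ (k : ℕ) = 0 := by
  have : Nontrivial (d1_H t0 ρ) := by
    refine ⟨0, 1, fun h => ?_⟩
    have := congrArg (d1_ev ⟨t0, Metric.mem_ball_self hρ⟩) h
    rw [map_zero, map_one] at this
    exact zero_ne_one this
  have : IsDomain (d1_H t0 ρ) := NoZeroDivisors.to_isDomain _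
  set P := l1_pol s (fun α => d1_mk (a α) (ha α)) j with hP
  set Q := l1_pol s' (fun α => d1_mk (b α) (hb α)) j with hQ
  have hP0 : P.coeff 0 ≠ 0 := by
    obtain ⟨α, hα, h1, t, ht, h2⟩ := hnd (1 - j)
    intro h
    have h3 := l1_coeff s (fun α => d1_mk (a α) (ha α)) j α hα
    rw [h1, ← hP, h, Polynomial.coeff_zero] at h3
    apply h2
    have := congrArg (d1_ev ⟨t, ht⟩) h3
    rw [map_zero, d1_ev_mk] at this
    exact this.symm
  rcases l1_alg P Q hP0 with ⟨c, hc, U, W, hUW⟩ | ⟨c, hc, H, P1, Q1, hH1, hH0, e1, e2⟩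
  · refine ⟨c.natDegree, fun k => l1_fn (c.coeff k), fun k => l1_diff _, ⟨Fin.last _, ?_⟩, ?_⟩
    · have : c.coeff (Fin.last c.natDegree : ℕ) ≠ 0 := by
        rw [Fin.val_last]
        exact Polynomial.leadingCoeff_ne_zero.2 hc
      exact l1_ne this
    · intro t ht x _ h1 h2
      have h3 := congrArg (Polynomial.eval₂ (Polynomial.eval₂RingHom (d1_ev ⟨t, ht⟩) (x j)) (x (1 - j))) hUW
      rw [Polynomial.eval₂_add, Polynomial.eval₂_mul, Polynomial.eval₂_mul, hP, hQ, l1_eval s a ha j ⟨t, ht⟩ x,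
        l1_eval s' b hb j ⟨t, ht⟩ x, h1, h2, mul_zero, mul_zero, add_zero, Polynomial.eval₂_C,
        Polynomial.coe_eval₂RingHom, Polynomial.eval₂_eq_sum_range, ← Fin.sum_univ_eq_sum_range
          (fun k => (d1_ev ⟨t, ht⟩) (c.coeff k) * x j ^ k)] at h3
      rw [h3]
      refine Finset.sum_congr rfl fun k _ => ?_
      rw [l1_val]
  · exfalso
    set G := c * H.leadingCoeff * H.coeff 0 with hG
    have hHl : H.leadingCoeff ≠ 0 := by
      rw [Polynomial.leadingCoeff_ne_zero]
      intro h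
      rw [h, Polynomial.natDegree_zero] at hH1
      omega
    have hG0 : G ≠ 0 := mul_ne_zero (mul_ne_zero hc hHl) hH0
    have hev := l1_iso hρ (l1_diff G.leadingCoeff) (l1_ne (Polynomial.leadingCoeff_ne_zero.2 hG0))
    obtain ⟨t, htO, ht, htt, hF⟩ := hfin _ hev
    have htG : l1_fn G.leadingCoeff t ≠ 0 := htO htt
    set τ : Metric.ball t0 ρ := ⟨t, ht⟩ with hτ
    have hGt : G.map (d1_ev τ) ≠ 0 := by
      intro h
      apply htG
      have := congrArg (fun p => Polynomial.coeff p G.natDegree) h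
      simp only [Polynomial.coeff_map, Polynomial.coeff_zero, Polynomial.coeff_natDegree] at this
      rw [l1_val] at this
      exact this
    have hroots : {X : ℂ | (G.map (d1_ev τ)).IsRoot X}.Finite := Polynomial.finite_setOfPred_isRoot hGt
    have hinf : (({X : ℂ | (G.map (d1_ev τ)).IsRoot X} ∪ {0})ᶜ).Infinite :=
      (hroots.union (Set.finite_singleton 0)).infinite_compl
    apply hinf
    refine (hF.image (fun x => x j)).subset ?_
    intro X hX
    rw [Set.mem_compl_iff, Set.mem_union, not_or] at hX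
    obtain ⟨hX1, hX2⟩ := hX
    have hX0 : X ≠ 0 := hX2
    set ε : Polynomial (d1_H t0 ρ) →+* ℂ := Polynomial.eval₂RingHom (d1_ev τ) X with hε
    have hGX : ε G ≠ 0 := by
      intro h
      apply hX1
      show (G.map (d1_ev τ)).eval X = 0
      rw [Polynomial.eval_map]
      exact h
    rw [hG, map_mul, map_mul] at hGX
    have hcX : ε c ≠ 0 := fun h => hGX (by rw [h]; ring)
    have hlX : ε H.leadingCoeff ≠ 0 := fun h => hGX (by rw [h]; ring)
    have h0X : ε (H.coeff 0) ≠ 0 := fun h => hGX (by rw [h]; ring)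
    have hdeg : (H.map ε).natDegree = H.natDegree := Polynomial.natDegree_map_of_leadingCoeff_ne_zero _ hlX
    have hd0 : (H.map ε).degree ≠ 0 := by
      intro h
      have h7 : (H.map ε).natDegree = 0 := Polynomial.natDegree_eq_of_degree_eq_some h
      omega
    obtain ⟨Y, hY⟩ := IsAlgClosed.exists_root (H.map ε) hd0
    have hY' : Polynomial.eval₂ ε Y H = 0 := by
      rw [← Polynomial.eval_map]
      exact hY
    have hY0 : Y ≠ 0 := by
      intro h
      rw [h, Polynomial.eval₂_at_zero] at hY'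
      exact h0X hY'
    let x : Fin 2 → ℂ := fun i => if i = j then X else Y
    have hxj : x j = X := if_pos rfl
    have hxj' : x (1 - j) = Y := by
      refine if_neg ?_
      fin_cases j <;> decide
    refine ⟨x, ⟨?_, ?_, ?_⟩, hxj⟩
    · intro i
      show (if i = j then X else Y) ≠ 0
      split_ifs
      · exact hX0
      · exact hY0
    · have h3 := congrArg (Polynomial.eval₂ ε Y) e1
      rw [Polynomial.eval₂_mul, Polynomial.eval₂_mul, hY', zero_mul, Polynomial.eval₂_C] at h3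
      have h4 := (mul_eq_zero.1 h3).resolve_left hcX
      have h5 := l1_eval s a ha j τ x
      rw [hxj, hxj', ← hP] at h5
      rw [← h5]
      exact h4
    · have h3 := congrArg (Polynomial.eval₂ ε Y) e2
      rw [Polynomial.eval₂_mul, Polynomial.eval₂_mul, hY', zero_mul, Polynomial.eval₂_C] at h3
      have h4 := (mul_eq_zero.1 h3).resolve_left hcX
      have h5 := l1_eval s' b hb j τ x
      rw [hxj, hxj', ← hQ] at h5
      rw [← h5]
      exact h4

/-- Row Z7-L2. Normalisation: a nontrivial polynomial equation with holomorphic coefficients is monic near every point of a punctured neighbourhood. Let `N` be the largest `k` with `c k` not identically zero on the ball (near `t0`); the zeros of `c_N` are isolated, so on a punctured ball `c_N(t) ≠ 0`; near such a `t1` divide by `c_N`. (If `N = 0` then there are no points at all: `c_0 ≠ 0`; take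
then the degree `1`: the equation `x = 0·...`: multiply by `x`.) The functions are continuous so bounded on a smaller ball. -/
theorem monic_near {t0 : ℂ} {ρ : ℝ} (hρ : 0 < ρ) {N : ℕ} (c : Fin (N + 1) → ℂ → ℂ)
    (hc : ∀ k, DifferentiableOn ℂ (c k) (Metric.ball t0 ρ)) (hc0 : ∃ k, ∃ t ∈ Metric.ball t0 ρ, c k t ≠ 0) :
    ∃ ρ1 : ℝ, 0 < ρ1 ∧ ρ1 ≤ ρ ∧ ∀ t1 ∈ Metric.ball t0 ρ1, t1 ≠ t0 →
      ∃ (N' : ℕ) (ρ' A : ℝ) (e : Fin N' → ℂ → ℂ), 1 ≤ N' ∧ 0 < ρ' ∧ 1 ≤ A ∧ Metric.ball t1 ρ' ⊆ Metric.ball t0 ρ ∧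
        (∀ k, DifferentiableOn ℂ (e k) (Metric.ball t1 ρ')) ∧ (∀ k, ∀ t ∈ Metric.ball t1 ρ', ‖e k t‖ ≤ A) ∧
        ∀ t ∈ Metric.ball t1 ρ', ∀ X : ℂ, ∑ k, c k t * X ^ (k : ℕ) = 0 → X ^ N' = ∑ k, e k t * X ^ (k : ℕ) := by
  classical
  -- the largest index
  set T : Finset (Fin (N + 1)) := Finset.univ.filter fun k => ∃ t ∈ Metric.ball t0 ρ, c k t ≠ 0 with hT
  have hTne : T.Nonempty := by
    obtain ⟨k, hk⟩ := hc0
    exact ⟨k, Finset.mem_filter.2 ⟨Finset.mem_univ _, hk⟩⟩
  set n : Fin (N + 1) := T.max' hTne with hn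
  have hnT : n ∈ T := T.max'_mem hTne
  have hnz : ∃ t ∈ Metric.ball t0 ρ, c n t ≠ 0 := (Finset.mem_filter.1 hnT).2
  have hlarge : ∀ k, n < k → ∀ t ∈ Metric.ball t0 ρ, c k t = 0 := by
    intro k hk t ht
    by_contra h
    have : k ∈ T := Finset.mem_filter.2 ⟨Finset.mem_univ _, t, ht, h⟩
    exact absurd (T.le_max' k this) (not_le.2 hk)
  have hev := l1_iso hρ (hc n) hnz
  obtain ⟨ρ1, hρ1, h1⟩ := Metric.eventually_nhds_iff_ball.1 hev
  refine ⟨min ρ1 ρ, lt_min hρ1 hρ, min_le_right _ _, ?_⟩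
  intro t1 ht1 ht10
  have ht1a : t1 ∈ Metric.ball t0 ρ1 := Metric.ball_subset_ball (min_le_left _ _) ht1
  have ht1b : t1 ∈ Metric.ball t0 ρ := Metric.ball_subset_ball (min_le_right _ _) ht1
  have hcn : c n t1 ≠ 0 := h1 t1 ht1a ht10
  have hcont : ∀ k, ContinuousAt (c k) t1 := fun k =>
    (hc k).continuousOn.continuousAt (Metric.isOpen_ball.mem_nhds ht1b)
  -- the coefficients
  let N' : ℕ := max 1 (n : ℕ)
  let e : Fin N' → ℂ → ℂ := fun k t => if h : (k : ℕ) < n then -(c ⟨k, by omega⟩ t / c n t) else 0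
  have hecont : ∀ k, ContinuousAt (e k) t1 := by
    intro k
    by_cases h : (k : ℕ) < n
    · have : e k = fun t => -(c ⟨k, by omega⟩ t / c n t) := by
        funext t
        exact dif_pos h
      rw [this]
      exact ((hcont _).div (hcont n) hcn).neg
    · have : e k = fun _ => 0 := by
        funext t
        exact dif_neg h
      rw [this]
      exact continuousAt_const
  let A : ℝ := 1 + ∑ k, ‖e k t1‖
  have hA : ∀ k, ‖e k t1‖ < A := by
    intro k
    have := Finset.single_le_sum (f := fun k => ‖e k t1‖) (fun i _ => norm_nonneg _) (Finset.mem_univ k)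
    show ‖e k t1‖ < 1 + ∑ k, ‖e k t1‖
    have h2 : ‖e k t1‖ ≤ ∑ k, ‖e k t1‖ := this
    linarith
  have hev2 : ∀ᶠ t in 𝓝 t1, t ∈ Metric.ball t0 ρ ∧ c n t ≠ 0 ∧ ∀ k, ‖e k t‖ < A := by
    filter_upwards [Metric.isOpen_ball.mem_nhds ht1b, (hcont n).eventually_ne hcn,
      eventually_all.2 fun k => (hecont k).norm.eventually_lt_const (hA k)] with t h3 h4 h5
    exact ⟨h3, h4, h5⟩
  obtain ⟨ρ', hρ', h2⟩ := Metric.eventually_nhds_iff_ball.1 hev2
  refine ⟨N', ρ', A, e, le_max_left _ _, hρ', ?_, fun t ht => (h2 t ht).1, ?_, fun k t ht => (h2 t ht).2.2 k |>.le, ?_⟩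
  · have : 0 ≤ ∑ k, ‖e k t1‖ := Finset.sum_nonneg fun _ _ => norm_nonneg _
    show 1 ≤ 1 + ∑ k, ‖e k t1‖
    linarith
  · intro k
    by_cases h : (k : ℕ) < n
    · have : e k = fun t => -(c ⟨k, by omega⟩ t / c n t) := by
        funext t
        exact dif_pos h
      rw [this]
      have hs : Metric.ball t1 ρ' ⊆ Metric.ball t0 ρ := fun t ht => (h2 t ht).1
      exact (((hc _).mono hs).div ((hc n).mono hs) fun t ht => (h2 t ht).2.1).neg
    · have : e k = fun _ => 0 := by
        funext t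
        exact dif_neg h
      rw [this]
      exact differentiableOn_const _
  · intro t ht X hX
    obtain ⟨htb, hct, -⟩ := h2 t ht
    -- the sum up to `n`
    have hsum : ∑ k : Fin (N + 1), c k t * X ^ (k : ℕ) =
        (∑ k ∈ Finset.range (n : ℕ), (if h : k < n then c ⟨k, by omega⟩ t else 0) * X ^ k) + c n t * X ^ (n : ℕ) := by
      have e1 : ∑ k : Fin (N + 1), c k t * X ^ (k : ℕ) =
          ∑ k ∈ Finset.range (N + 1), (if h : k < N + 1 then c ⟨k, h⟩ t else 0) * X ^ k := by
        rw [← Fin.sum_univ_eq_sum_range (fun k => (if h : k < N + 1 then c ⟨k, h⟩ t else 0) * X ^ k)]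
        refine Finset.sum_congr rfl fun k _ => ?_
        rw [dif_pos k.2]
      rw [e1]
      have hsub : Finset.range ((n : ℕ) + 1) ⊆ Finset.range (N + 1) := by
        intro k hk
        rw [Finset.mem_range] at hk ⊢
        have := n.2
        omega
      rw [← Finset.sum_subset hsub]
      · rw [Finset.sum_range_succ, dif_pos n.2]
        congr 1
        refine Finset.sum_congr rfl fun k hk => ?_
        rw [Finset.mem_range] at hk
        have := n.2
        rw [dif_pos (by omega), dif_pos hk]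
      · intro k hk1 hk2
        rw [Finset.mem_range] at hk1 hk2
        rw [dif_pos hk1, hlarge ⟨k, hk1⟩ (by
          rw [Fin.lt_def]
          show (n : ℕ) < k
          omega) t htb, zero_mul]
    rw [hsum] at hX
    rcases Nat.eq_zero_or_pos (n : ℕ) with hn0 | hn0
    · exfalso
      have hr : Finset.range (n : ℕ) = ∅ := by rw [hn0]; rfl
      have hp : X ^ (n : ℕ) = 1 := by rw [hn0, pow_zero]
      rw [hr, Finset.sum_empty, zero_add, hp, mul_one] at hX
      exact hct hX
    · have hN' : N' = n := max_eq_right hn0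
      have e2 : ∑ k : Fin N', e k t * X ^ (k : ℕ) =
          ∑ k ∈ Finset.range N', (if h : k < n then -(c ⟨k, by omega⟩ t / c n t) else 0) * X ^ k := by
        rw [← Fin.sum_univ_eq_sum_range (fun k => (if h : k < n then -(c ⟨k, by omega⟩ t / c n t) else 0) * X ^ k)]
      rw [e2, hN']
      have e3 : ∑ k ∈ Finset.range (n : ℕ), (if h : k < n then -(c ⟨k, by omega⟩ t / c n t) else 0) * X ^ k =
          -(∑ k ∈ Finset.range (n : ℕ), (if h : k < n then c ⟨k, by omega⟩ t else 0) * X ^ k) / c n t := by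
        rw [neg_div, Finset.sum_div, ← Finset.sum_neg_distrib]
        refine Finset.sum_congr rfl fun k hk => ?_
        rw [Finset.mem_range] at hk
        rw [dif_pos hk, dif_pos hk]
        ring
      rw [e3]
      have e4 : c n t * X ^ (n : ℕ) =
          -(∑ k ∈ Finset.range (n : ℕ), (if h : k < n then c ⟨k, by omega⟩ t else 0) * X ^ k) := by
        linear_combination hX
      rw [← e4]
      field_simp

end Pool.Agent.Z7
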