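import Pool.Agent.Z7.B1
import Pool.Agent.Z7.B2
import Pool.Agent.Z7.L1
import Pool.Agent.Z5.C5

namespace Pool.Agent.Z7

open Pool.Agent.ZL2 Filter Topology
open Pool.Agent.Z5 (fr Gen ev2 Alg)
open Pool.Agent.Z6 (dt)

variable {m : ℕ} [NeZero m]

/-- Small polynomials near the point `y2` for the coordinate `x_j`. -/
def Good (S : Sf m) (u : Fin m → ℝ) (M : Fin 2 → Fin m → ℝ) (j : Fin 2) (y2 : Fin m → ℂ) : Prop :=
  ∃ O ∈ 𝓝 y2, ∀ C : ℝ, ∃ (L : ℕ) (f : (Fin 2 → Fin (L + 1)) → ℤ), 1 ≤ L ∧ f ≠ 0 ∧ (∀ α, |f α| ≤ 2 ^ L) ∧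
    ∀ (x : Fin 2 → ℂ) (y : Fin m → ℂ), y ∈ O → y ∈ S.C → dt u (lg y) = 0 → (∀ j, x j ≠ 0) →
      (∀ j, lg x j = dt (M j) (lg y)) → evP S.Φ x y = 0 → ‖ev f ![x j, y 0]‖ < Real.exp (-(C * L))

/-- the same functions on a ball inside, at another point of the chart -/
theorem b3_chart_at {D : Cv m} {y0 : Fin m → ℂ} {ρ : ℝ} {η ℓ : Fin m → ℂ → ℂ} (h : Chart D y0 ρ η ℓ)
    {y1 : Fin m → ℂ} {ρ' : ℝ} (hρ' : 0 < ρ') (hsub : Metric.ball (y1 0) ρ' ⊆ Metric.ball (y0 0) ρ)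
    (h1 : ∀ i, y1 i = η i (y1 0))
    (hu : ∀ᶠ y in 𝓝 y1, y ∈ D.C → y 0 ∈ Metric.ball (y0 0) ρ ∧ ∀ i, y i = η i (y 0)) :
    Chart D y1 ρ' η ℓ where
  pos := hρ'
  base i := (h1 i).symm
  id0 t ht := h.id0 t (hsub ht)
  diff i := (h.diff i).mono hsub
  ne i t ht := h.ne i t (hsub ht)
  eq i t ht := h.eq i t (hsub ht)
  der i t ht := h.der i t (hsub ht)
  exp i t ht := h.exp i t (hsub ht)
  uniq := by
    have hc : ContinuousAt (fun y : Fin m → ℂ => y 0) y1 := (continuous_apply 0).continuousAt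
    filter_upwards [hu, hc.eventually_mem (Metric.ball_mem_nhds (y1 0) hρ')] with y h2 h3 hy
    exact ⟨h3, (h2 hy).2⟩

theorem b3_der_diff {D : Cv m} {y0 : Fin m → ℂ} {ρ : ℝ} {η ℓ : Fin m → ℂ → ℂ} (h : Chart D y0 ρ η ℓ)
    (u : Fin m → ℝ) :
    DifferentiableOn ℂ (fun t => ∑ i, (u i : ℂ) * (deriv (η i) t / η i t)) (Metric.ball (y0 0) ρ) := by
  refine DifferentiableOn.fun_sum fun i _ => DifferentiableOn.const_mul ?_ _
  exact ((h.diff i).deriv Metric.isOpen_ball).div (h.diff i) (h.ne i)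

/-- Row Z7-B3a. Let `y*` be a point of the curve outside `E` where points of `C` with other `y_0` accumulate: near `y*` all other points of `C` are outside `E` and not critical for `u`. `exists_chart` at `y*`; `Chart.not_const`: the derivative `∑ u_i η_i'/η_i` of `f_0 = ∑ u_i ℓ_i` has isolated zeros. For `y1 ∈ C` near `y*` (`uniq`), `y1 ≠ y*` implies `y1 0 ≠ y* 0`, and
the same functions on a smaller ball are a chart at `y1` (for `uniq` at `y1`: a point near `y1` is near `y*`). -/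
theorem lev1 (D : Cv m) {y0 : Fin m → ℂ} (hy : y0 ∈ D.C) (hyE : y0 ∉ D.E)
    (hacc : ∀ O ∈ 𝓝 y0, ∃ y ∈ O, y ∈ D.C ∧ y 0 ≠ y0 0) {u : Fin m → ℝ} (hu : u ≠ 0) :
    ∃ O ∈ 𝓝 y0, ∀ y1 ∈ O, y1 ∈ D.C → y1 ≠ y0 → y1 ∉ D.E ∧ ∃ (ρ : ℝ) (η ℓ : Fin m → ℂ → ℂ), Chart D y1 ρ η ℓ ∧
      ∑ i, (u i : ℂ) * (deriv (η i) (y1 0) / η i (y1 0)) ≠ 0 := by
  obtain ⟨ρ, η, ℓ, -, hch⟩ := exists_chart D hy hyE hacc (ρ0 := 1) one_pos
  have hF := b3_der_diff hch u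
  have hne : ∀ᶠ t in 𝓝[≠] (y0 0), ∑ i, (u i : ℂ) * (deriv (η i) t / η i t) ≠ 0 := by
    by_contra hcon
    refine hch.not_const hacc hu ?_
    refine (hF.analyticOnNhd Metric.isOpen_ball).eqOn_zero_of_preconnected_of_frequently_eq_zero
      (convex_ball (y0 0) ρ).isPreconnected (Metric.mem_ball_self hch.pos) ?_
    exact hcon
  rw [eventually_nhdsWithin_iff] at hne
  have hc : ContinuousAt (fun y : Fin m → ℂ => y 0) y0 := (continuous_apply 0).continuousAt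
  have hE : ∀ᶠ y in 𝓝 y0, y ∉ D.E := D.hE.isClosed.isOpen_compl.mem_nhds hyE
  have hall : ∀ᶠ y in 𝓝 y0, (y ∉ D.E) ∧
      (∀ᶠ z in 𝓝 y, z ∈ D.C → z 0 ∈ Metric.ball (y0 0) ρ ∧ ∀ i, z i = η i (z 0)) ∧
      (y 0 ≠ y0 0 → ∑ i, (u i : ℂ) * (deriv (η i) (y 0) / η i (y 0)) ≠ 0) ∧ y 0 ∈ Metric.ball (y0 0) ρ := by
    filter_upwards [hE, hch.uniq.eventually_nhds, hc.eventually hne,
      hc.eventually_mem (Metric.ball_mem_nhds (y0 0) hch.pos)] with y h1 h2 h3 h4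
    exact ⟨h1, h2, h3, h4⟩
  refine ⟨_, hall, ?_⟩
  rintro y1 ⟨h1, h2, h3, h4⟩ hy1 hne1
  have h5 := h2.self_of_nhds hy1
  have h6 : y1 0 ≠ y0 0 := by
    intro e
    apply hne1
    funext i
    rw [h5.2 i, e, hch.base i]
  obtain ⟨ρ', hρ', hsub⟩ := Metric.isOpen_iff.1 Metric.isOpen_ball (y1 0) h4
  exact ⟨h1, ρ', η, ℓ, b3_chart_at hch hρ' hsub h5.2 h2, h3 h6⟩

omit [NeZero m] in
theorem b3_poly_diff {t : ℂ} {g : Fin m → ℂ → ℂ} (hg : ∀ i, DifferentiableAt ℂ (g i) t)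
    (P : MvPolynomial (Fin m) ℂ) :
    DifferentiableAt ℂ (fun t => MvPolynomial.eval (fun i => g i t) P) t := by
  have e : (fun t => MvPolynomial.eval (fun i => g i t) P) =
      fun t => ∑ d ∈ P.support, P.coeff d * ∏ i, (g i t) ^ d i := by
    funext t
    rw [MvPolynomial.eval_eq']
  rw [e]
  refine DifferentiableAt.fun_sum fun d _ => DifferentiableAt.const_mul ?_ _
  refine DifferentiableAt.fun_finsetProd fun i _ => (hg i).pow _

omit [NeZero m] in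
theorem b3_evP_eq (Φ : MvPolynomial (Fin 2) (MvPolynomial (Fin m) ℂ)) (x : Fin 2 → ℂ) (y : Fin m → ℂ) :
    evP Φ x y = ∑ α ∈ Φ.support, MvPolynomial.eval y (Φ.coeff α) * ∏ j, x j ^ α j := by
  unfold evP
  rw [MvPolynomial.eval_map, MvPolynomial.eval₂_eq']

/-- reversing a polynomial -/
theorem b3_alg (s : Finset (Fin 2 →₀ ℕ)) (D : Fin 2 →₀ ℕ) (hD : ∀ α ∈ s, α ≤ D) (a : (Fin 2 →₀ ℕ) → ℂ)
    (r x : Fin 2 → ℂ) (hx : ∀ j, x j ≠ 0) :
    ∑ β ∈ s.image (fun α => D - α), (a (D - β) * ∏ j, r j ^ (D - β) j) * ∏ j, x j ^ β j =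
      (∏ j, x j ^ D j) * ∑ α ∈ s, a α * ∏ j, (r j / x j) ^ α j := by
  classical
  rw [Finset.sum_image, Finset.mul_sum]
  · refine Finset.sum_congr rfl fun α hα => ?_
    have h1 : D - (D - α) = α := tsub_tsub_cancel_of_le (hD α hα)
    have h2 : ∀ j, x j ^ (D - α) j = x j ^ D j * (x j ^ α j)⁻¹ := by
      intro j
      rw [Finsupp.tsub_apply, pow_sub₀ _ (hx j) (hD α hα j)]
    simp only [h1, Fin.prod_univ_two, h2, div_pow]
    field_simp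
  · intro α hα β hβ h
    have h' : D - α = D - β := h
    rw [← tsub_tsub_cancel_of_le (hD α hα), h', tsub_tsub_cancel_of_le (hD β hβ)]

theorem b3_conj (s : Finset (Fin 2 →₀ ℕ)) (a : (Fin 2 →₀ ℕ) → ℂ) (w : Fin 2 → ℂ) :
    ∑ α ∈ s, (starRingEnd ℂ) (a α) * ∏ j, w j ^ α j =
      (starRingEnd ℂ) (∑ α ∈ s, a α * ∏ j, (starRingEnd ℂ) (w j) ^ α j) := by
  rw [map_sum]
  refine Finset.sum_congr rfl fun α _ => ?_
  simp only [map_mul, map_prod, map_pow, Complex.conj_conj]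

/-- the Schwarz function and the functions `R j` -/
theorem b3_setup {D : Cv m} {y1 : Fin m → ℂ} {u : Fin m → ℝ}
    (hu : dt u (lg y1) = 0) {ρ : ℝ} {η ℓ : Fin m → ℂ → ℂ} (hch : Chart D y1 ρ η ℓ)
    (hcr : ∑ i, (u i : ℂ) * (deriv (η i) (y1 0) / η i (y1 0)) ≠ 0) (M : Fin 2 → Fin m → ℝ) :
    ∃ (ρ2 : ℝ) (ζ : ℂ → ℂ) (R : Fin 2 → ℂ → ℂ), 0 < ρ2 ∧ ρ2 ≤ ρ ∧
      (∀ t ∈ Metric.ball (y1 0) ρ2, ζ t ∈ Metric.ball (y1 0) ρ ∧
        (∀ g : ℂ → ℂ, DifferentiableOn ℂ g (Metric.ball (y1 0) ρ) →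
          DifferentiableAt ℂ (fun t => (starRingEnd ℂ) (g (ζ t))) t) ∧
        (∀ j, DifferentiableAt ℂ (R j) t) ∧
        (dt u (lg fun i => η i t) = 0 → ζ t = t ∧
          ∀ j, R j t = ((Real.exp (2 * dt (M j) (lg fun i => η i t)) : ℝ) : ℂ))) := by
  have ht0m : y1 0 ∈ Metric.ball (y1 0) ρ := Metric.mem_ball_self hch.pos
  have hre : ∀ t ∈ Metric.ball (y1 0) ρ, (∑ i, (u i : ℂ) * ℓ i t).re = dt u (lg fun i => η i t) := by
    intro t ht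
    rw [Complex.re_sum]
    unfold Z6.dt
    refine Finset.sum_congr rfl fun i _ => ?_
    rw [Complex.re_ofReal_mul, hch.re_eq i ht]
  have hfd : ∀ t ∈ Metric.ball (y1 0) ρ,
      HasDerivAt (fun t => ∑ i, (u i : ℂ) * ℓ i t) (∑ i, (u i : ℂ) * (deriv (η i) t / η i t)) t := by
    intro t ht
    exact HasDerivAt.fun_sum (u := Finset.univ) (A := fun i t => (u i : ℂ) * ℓ i t)
      (A' := fun i => (u i : ℂ) * (deriv (η i) t / η i t)) (x := t)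
      (fun i _ => (hch.der i t ht).const_mul _)
  have hb : (fun i => η i (y1 0)) = y1 := funext hch.base
  have hre0 : (∑ i, (u i : ℂ) * ℓ i (y1 0)).re = 0 := by
    rw [hre _ ht0m, hb]; exact hu
  obtain ⟨ρ1, hρ1, χ, hχ, hχ2⟩ := Pool.Agent.Z5.schwarz (f := fun t => ∑ i, (u i : ℂ) * ℓ i t) (t0 := y1 0)
    (by
      filter_upwards [Metric.ball_mem_nhds (y1 0) hch.pos] with t ht
      exact (hfd t ht).differentiableAt)
    (by rw [(hfd _ ht0m).deriv]; exact hcr)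
    hre0
  have hχ0 : χ (y1 0) = (starRingEnd ℂ) (y1 0) := hχ2 _ (Metric.mem_ball_self hρ1) hre0
  have hχc : ContinuousAt χ (y1 0) :=
    (hχ.differentiableAt (Metric.ball_mem_nhds (y1 0) hρ1)).continuousAt
  have hnear : ∀ᶠ t in 𝓝 (y1 0), (starRingEnd ℂ) (χ t) ∈ Metric.ball (y1 0) ρ := by
    have h1 : ContinuousAt (fun t => (starRingEnd ℂ) (χ t)) (y1 0) :=
      Complex.continuous_conj.continuousAt.comp hχc
    have h2 : (starRingEnd ℂ) (χ (y1 0)) = y1 0 := by rw [hχ0, Complex.conj_conj]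
    have h3 : Metric.ball (y1 0) ρ ∈ 𝓝 ((starRingEnd ℂ) (χ (y1 0))) := by
      rw [h2]; exact Metric.ball_mem_nhds _ hch.pos
    exact h1 h3
  have hev : ∀ᶠ t in 𝓝 (y1 0), t ∈ Metric.ball (y1 0) ρ ∧ t ∈ Metric.ball (y1 0) ρ1 ∧
      (starRingEnd ℂ) (χ t) ∈ Metric.ball (y1 0) ρ := by
    filter_upwards [Metric.ball_mem_nhds _ hch.pos, Metric.ball_mem_nhds _ hρ1, hnear] with t a1 a2 a3
    exact ⟨a1, a2, a3⟩
  obtain ⟨ρ2', hρ2', hball⟩ := Metric.eventually_nhds_iff_ball.1 hev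
  have hball' : ∀ t ∈ Metric.ball (y1 0) (min ρ2' ρ), t ∈ Metric.ball (y1 0) ρ ∧ t ∈ Metric.ball (y1 0) ρ1 ∧
      (starRingEnd ℂ) (χ t) ∈ Metric.ball (y1 0) ρ := fun t ht =>
    hball t (Metric.ball_subset_ball (min_le_left _ _) ht)
  have hcc : ∀ g : ℂ → ℂ, DifferentiableOn ℂ g (Metric.ball (y1 0) ρ) →
      ∀ t ∈ Metric.ball (y1 0) (min ρ2' ρ),
        DifferentiableAt ℂ (fun t => (starRingEnd ℂ) (g ((starRingEnd ℂ) (χ t)))) t := by
    intro g hg t ht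
    obtain ⟨a1, a2, a3⟩ := hball' t ht
    have h3 : DifferentiableAt ℂ (fun s => (starRingEnd ℂ) (g ((starRingEnd ℂ) s))) (χ t) := by
      have h4 := (hg.differentiableAt (Metric.isOpen_ball.mem_nhds a3)).conj_conj
      rw [Complex.conj_conj] at h4
      exact h4
    exact h3.comp t (hχ.differentiableAt (Metric.isOpen_ball.mem_nhds a2))
  have hℓd : ∀ i, DifferentiableOn ℂ (ℓ i) (Metric.ball (y1 0) ρ) := fun i t ht =>
    (hch.der i t ht).differentiableAt.differentiableWithinAt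
  refine ⟨min ρ2' ρ, fun t => (starRingEnd ℂ) (χ t), fun j t => Complex.exp (2 * ∑ i, (M j i : ℂ) *
    ((ℓ i t + (starRingEnd ℂ) (ℓ i ((starRingEnd ℂ) (χ t)))) / 2)), lt_min hρ2' hch.pos, min_le_right _ _, ?_⟩
  intro t ht
  obtain ⟨a1, a2, a3⟩ := hball' t ht
  refine ⟨a3, fun g hg => hcc g hg t ht, ?_, ?_⟩
  · intro j
    refine DifferentiableAt.cexp ?_
    refine DifferentiableAt.const_mul ?_ _
    refine DifferentiableAt.fun_sum fun i _ => ?_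
    refine DifferentiableAt.const_mul ?_ _
    exact ((hch.der i t a1).differentiableAt.add (hcc (ℓ i) (hℓd i) t ht)).div_const 2
  · intro h2
    have e1 : (starRingEnd ℂ) (χ t) = t := by
      rw [hχ2 t a2 (by rw [hre t a1]; exact h2), Complex.conj_conj]
    refine ⟨e1, fun j => ?_⟩
    have e2 : ∑ i, (M j i : ℂ) * ((ℓ i t + (starRingEnd ℂ) (ℓ i ((starRingEnd ℂ) (χ t)))) / 2) =
        ((dt (M j) (lg fun i => η i t) : ℝ) : ℂ) := by
      unfold Z6.dt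
      push_cast
      refine Finset.sum_congr rfl fun i _ => ?_
      rw [e1, Complex.add_conj, hch.re_eq i a1]
      push_cast
      ring
    show Complex.exp (2 * ∑ i, (M j i : ℂ) *
      ((ℓ i t + (starRingEnd ℂ) (ℓ i ((starRingEnd ℂ) (χ t)))) / 2)) = _
    rw [e2]
    push_cast
    rfl

/-- the algebraic equation of `x j` over the holomorphic functions near `y1` -/
theorem b3_eq (S : Sf m) {y1 : Fin m → ℂ} (hy : y1 ∈ S.C) (hyE : y1 ∉ S.E) {u : Fin m → ℝ}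
    (hu : dt u (lg y1) = 0) {ρ : ℝ} {η ℓ : Fin m → ℂ → ℂ} (hch : Chart S.toCv y1 ρ η ℓ)
    (hcr : ∑ i, (u i : ℂ) * (deriv (η i) (y1 0) / η i (y1 0)) ≠ 0)
    (hacc : ∀ O ∈ 𝓝 y1, ∃ y ∈ O, y ∈ S.C ∧ y 0 ≠ y1 0 ∧ dt u (lg y) = 0) (M : Fin 2 → Fin m → ℝ) (j : Fin 2) :
    ∃ (ρ2 : ℝ) (N : ℕ) (c : Fin (N + 1) → ℂ → ℂ), 0 < ρ2 ∧ ρ2 ≤ ρ ∧
      (∀ k, DifferentiableOn ℂ (c k) (Metric.ball (y1 0) ρ2)) ∧
      (∃ k, ∃ t ∈ Metric.ball (y1 0) ρ2, c k t ≠ 0) ∧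
      ∀ (x : Fin 2 → ℂ) (y : Fin m → ℂ), y 0 ∈ Metric.ball (y1 0) ρ2 → (∀ i, y i = η i (y 0)) →
        dt u (lg y) = 0 → (∀ j, x j ≠ 0) → (∀ j, lg x j = dt (M j) (lg y)) → evP S.Φ x y = 0 →
        ∑ k, c k (y 0) * x j ^ (k : ℕ) = 0 := by
  classical
  obtain ⟨ρ2, ζ, R, hρ2, hle, hZ⟩ := b3_setup hu hch hcr M
  have hsub : Metric.ball (y1 0) ρ2 ⊆ Metric.ball (y1 0) ρ := Metric.ball_subset_ball hle
  obtain ⟨D, hD⟩ : ∃ D : Fin 2 →₀ ℕ, ∀ α ∈ S.Φ.support, α ≤ D :=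
    ⟨S.Φ.support.sup id, fun α hα => Finset.le_sup (f := id) hα⟩
  obtain ⟨a, ha⟩ : ∃ a : (Fin 2 →₀ ℕ) → ℂ → ℂ, a = fun α t => MvPolynomial.eval (fun i => η i t) (S.Φ.coeff α) :=
    ⟨_, rfl⟩
  obtain ⟨b, hb⟩ : ∃ b : (Fin 2 →₀ ℕ) → ℂ → ℂ, b = fun β t =>
    (starRingEnd ℂ) (a (D - β) (ζ t)) * ∏ j, R j t ^ (D - β) j := ⟨_, rfl⟩
  have had : ∀ α, DifferentiableOn ℂ (a α) (Metric.ball (y1 0) ρ) := by
    intro α t ht
    rw [ha]
    exact (b3_poly_diff (fun i => (hch.diff i).differentiableAt (Metric.isOpen_ball.mem_nhds ht))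
      _).differentiableWithinAt
  have hbd : ∀ β, DifferentiableOn ℂ (b β) (Metric.ball (y1 0) ρ2) := by
    intro β t ht
    obtain ⟨-, h1, h2, -⟩ := hZ t ht
    rw [hb]
    refine DifferentiableAt.differentiableWithinAt ?_
    refine (h1 _ (had _)).mul ?_
    exact DifferentiableAt.fun_finsetProd fun j _ => (h2 j).pow _
  -- the second sum
  have hsum : ∀ (t : ℂ) (x : Fin 2 → ℂ), (∀ j, x j ≠ 0) →
      ∑ β ∈ S.Φ.support.image (fun α => D - α), b β t * ∏ j, x j ^ β j =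
        (∏ j, x j ^ D j) * (starRingEnd ℂ) (∑ α ∈ S.Φ.support, a α (ζ t) *
          ∏ j, (starRingEnd ℂ) (R j t / x j) ^ α j) := by
    intro t x hx
    rw [← b3_conj]
    have := b3_alg S.Φ.support D hD (fun α => (starRingEnd ℂ) (a α (ζ t))) (fun j => R j t) x hx
    rw [← this, hb]
  -- the value of the first sum
  have hev : ∀ (y : Fin m → ℂ) (x : Fin 2 → ℂ), (∀ i, y i = η i (y 0)) →
      ∑ α ∈ S.Φ.support, a α (y 0) * ∏ j, x j ^ α j = evP S.Φ x y := by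
    intro y x h
    rw [b3_evP_eq, ha]
    have : (fun i => η i (y 0)) = y := funext fun i => (h i).symm
    simp only [this]
  obtain ⟨N, c, hc, hc0, hcx⟩ := elim hρ2 S.Φ.support (S.Φ.support.image (fun α => D - α)) a b
    (fun α => (had α).mono hsub) hbd
    (by
      intro j
      obtain ⟨α, hα, hαj⟩ := S.nd j
      refine ⟨α, hα, hαj, y1 0, Metric.mem_ball_self hρ2, ?_⟩
      rw [ha]
      have : (fun i => η i (y1 0)) = y1 := funext hch.base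
      simp only [this]
      exact S.coef y1 hy hyE α hα)
    (by
      intro O hO
      have hc0 : ContinuousAt (fun y : Fin m → ℂ => y 0) y1 := (continuous_apply 0).continuousAt
      have hE : ∀ᶠ y in 𝓝 y1, y ∉ S.E := S.hE.isClosed.isOpen_compl.mem_nhds hyE
      have hW : ∀ᶠ y in 𝓝 y1, y 0 ∈ O ∧ y 0 ∈ Metric.ball (y1 0) ρ2 ∧ y ∉ S.E ∧
          (y ∈ S.C → y 0 ∈ Metric.ball (y1 0) ρ ∧ ∀ i, y i = η i (y 0)) := by
        filter_upwards [hc0.eventually_mem hO, hc0.eventually_mem (Metric.ball_mem_nhds _ hρ2), hE,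
          hch.uniq] with y q1 q2 q3 q4
        exact ⟨q1, q2, q3, q4⟩
      obtain ⟨y, ⟨q1, q2, q3, q4⟩, hyC, hne, hlev⟩ := hacc _ hW
      have q5 := (q4 hyC).2
      have hyy : (fun i => η i (y 0)) = y := funext fun i => (q5 i).symm
      obtain ⟨-, -, -, hz⟩ := hZ _ q2
      rw [hyy] at hz
      obtain ⟨hz1, hz2⟩ := hz hlev
      refine ⟨y 0, q1, q2, hne, ?_⟩
      refine (S.nrec y hyC q3 (fun j => Real.exp (2 * dt (M j) (lg y))) fun j => Real.exp_pos _).subset ?_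
      rintro x ⟨hx0, hx1, hx2⟩
      refine ⟨hx0, ?_, ?_⟩
      · rw [← hev y x q5]; exact hx1
      · rw [hsum _ x hx0, hz1] at hx2
        have hD0 : (∏ j, x j ^ D j) ≠ 0 := Finset.prod_ne_zero_iff.2 fun j _ => pow_ne_zero _ (hx0 j)
        have h3 := (mul_eq_zero.1 hx2).resolve_left hD0
        rw [map_eq_zero, hev y _ q5] at h3
        rw [← h3]
        congr 1
        funext j
        rw [map_div₀, hz2 j, Complex.conj_ofReal])
    j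
  refine ⟨ρ2, N, c, hρ2, hle, hc, hc0, ?_⟩
  intro x y hy2 hyη hlev hx0 hxM hΦ
  have hyy : (fun i => η i (y 0)) = y := funext fun i => (hyη i).symm
  obtain ⟨-, -, -, hz⟩ := hZ _ hy2
  rw [hyy] at hz
  obtain ⟨hz1, hz2⟩ := hz hlev
  refine hcx _ hy2 x hx0 ?_ ?_
  · rw [hev y x hyη]; exact hΦ
  · rw [hsum _ x hx0, hz1, hev y _ hyη]
    have hw : (fun j => (starRingEnd ℂ) (R j (y 0) / x j)) = x := by
      funext j
      have h1 : ‖x j‖ = Real.exp (dt (M j) (lg y)) := by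
        rw [← hxM j]
        exact (Real.exp_log (norm_pos_iff.2 (hx0 j))).symm
      have h2 : ((Real.exp (2 * dt (M j) (lg y)) : ℝ) : ℂ) = (starRingEnd ℂ) (x j) * x j := by
        rw [mul_comm ((starRingEnd ℂ) (x j)), Complex.mul_conj, Complex.normSq_eq_norm_sq, h1, ← Real.exp_nat_mul]
        push_cast
        rfl
      rw [hz2 j, h2, mul_div_assoc, div_self (hx0 j), mul_one, Complex.conj_conj]
    rw [hw, hΦ, map_zero, mul_zero]

/-- Row Z7-B3b. The local equations. Let `y1` be a point of `C \ E` with `dt u (lg y1) = 0`, not critical, where other such points of `C` accumulate. PROOF. `f_0 = ∑ u_i ℓ_i`, `Re f_0 (t) = dt u (lg (η t))`; `Z5.schwarz`: `χ` near `t1 = y1 0`, `χ t = conj t` where `Re f_0 = 0`. `h^* s = conj (h (conj s))`. `η_i^*(χ t)` is holomorphic near `t1` and equal to `conj (η_i t)` on the level curve;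
`Λ_i = (ℓ_i t + ℓ_i^*(χ t))/2` equals `lg (η t) i` there; `R_j = exp (2 ∑ M_ji Λ_i)` equals `‖x_j‖^2` for the points of `K`, i.e. `conj (x_j) = R_j / x_j`. Multiply the conjugate of `Φ(x, y) = 0` by `x^D`, `D_j` = the largest exponent: with `a α t = φ_α (η t)` (`φ_α = Φ.coeff α`) and `b (D - α) t = φ_α^* (η^*(χ t)) ∏ R_j^(α_j)` (`φ_α^*` = the polynomial with conjugate coefficients)
the points `(x, y)` of `K` with `y` near `y1`, `t = y 0`, are common zeros of `∑ a α x^α` and `∑ b β x^β`. `elim`: `hnd` from `S.nd`, `S.coef` at `y1`; `hfin`: by the accumulation hypothesis there are `t ≠ t1` near `t1` on the level curve with `η t = y ∈ C \ E`, and there the common zeros are the `x` with `Φ(x, y) = 0`, `Φ(R_j / conj x_j, y) = 0` (conjugate the second equation): finite by `S.nrec` with `r = R` (real positive).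
So `∑ c_k(t) x_j^k = 0`; `monic_near` gives near every other `t2` a monic equation with bounded coefficients, `arc_small` (with `A` also bounding `‖t‖` and `‖x_j‖ = exp (dt (M j) (lg y))`). -/
theorem local_small (S : Sf m) {y1 : Fin m → ℂ} (hy : y1 ∈ S.C) (hyE : y1 ∉ S.E) {u : Fin m → ℝ}
    (hu : dt u (lg y1) = 0) {ρ : ℝ} {η ℓ : Fin m → ℂ → ℂ} (hch : Chart S.toCv y1 ρ η ℓ)
    (hcr : ∑ i, (u i : ℂ) * (deriv (η i) (y1 0) / η i (y1 0)) ≠ 0)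
    (hacc : ∀ O ∈ 𝓝 y1, ∃ y ∈ O, y ∈ S.C ∧ y 0 ≠ y1 0 ∧ dt u (lg y) = 0) (M : Fin 2 → Fin m → ℝ) (j : Fin 2) :
    ∃ O ∈ 𝓝 y1, ∀ y2 ∈ O, y2 ∈ S.C → dt u (lg y2) = 0 → y2 ≠ y1 → Good S u M j y2 := by
  obtain ⟨ρ2, N, c, hρ2, hle, hc, hc0, hx⟩ := b3_eq S hy hyE hu hch hcr hacc M j
  obtain ⟨ρ3, hρ3, hle3, hmon⟩ := monic_near hρ2 c hc hc0
  have hcont : ∀ w : Fin m → ℂ, ContinuousAt (fun y : Fin m → ℂ => y 0) w := fun w =>
    (continuous_apply 0).continuousAt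
  have hall : ∀ᶠ y in 𝓝 y1, (∀ᶠ z in 𝓝 y, z ∈ S.C → z 0 ∈ Metric.ball (y1 0) ρ ∧ ∀ i, z i = η i (z 0)) ∧
      y 0 ∈ Metric.ball (y1 0) ρ3 := by
    filter_upwards [hch.uniq.eventually_nhds, (hcont y1).eventually_mem (Metric.ball_mem_nhds _ hρ3)]
      with y h1 h2
    exact ⟨h1, h2⟩
  refine ⟨_, hall, ?_⟩
  rintro y2 ⟨h1, h2⟩ hy2 hlev2 hne
  have h3 := (h1.self_of_nhds hy2).2
  have hne0 : y2 0 ≠ y1 0 := by
    intro e
    apply hne
    funext i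
    rw [h3 i, e, hch.base i]
  obtain ⟨N', ρ', A, e, hN', hρ', hA, hsub', hed, heA, hex⟩ := hmon _ h2 hne0
  -- the bound of `x j`
  have hdt : ContinuousAt (fun y : Fin m → ℂ => dt (M j) (lg y)) y2 := by
    unfold Z6.dt
    refine tendsto_finsetSum _ fun i _ => ?_
    exact (continuousAt_lg (S.ne y2 hy2 i)).const_mul (M j i)
  have hdt2 : ∀ᶠ y in 𝓝 y2, dt (M j) (lg y) < dt (M j) (lg y2) + 1 :=
    hdt.eventually (gt_mem_nhds (by linarith))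
  obtain ⟨A2, hA2⟩ : ∃ A2 : ℝ, A2 = A + ‖y2 0‖ + ρ' + Real.exp (dt (M j) (lg y2) + 1) := ⟨_, rfl⟩
  have p1 := norm_nonneg (y2 0)
  have p2 := Real.exp_pos (dt (M j) (lg y2) + 1)
  have hO : ∀ᶠ y in 𝓝 y2, (y ∈ S.C → y 0 ∈ Metric.ball (y1 0) ρ ∧ ∀ i, y i = η i (y 0)) ∧
      y 0 ∈ Metric.ball (y2 0) (ρ' / 2) ∧ dt (M j) (lg y) < dt (M j) (lg y2) + 1 := by
    filter_upwards [h1, (hcont y2).eventually_mem (Metric.ball_mem_nhds _ (half_pos hρ')), hdt2]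
      with y q1 q2 q3
    exact ⟨q1, q2, q3⟩
  refine ⟨_, hO, fun C => ?_⟩
  obtain ⟨L, f, hL, hf, hfL, hsm⟩ := arc_small N' hN' (y2 0) ρ' A2 hρ' (by linarith) e hed
    (fun k t ht => (heA k t ht).trans (by linarith))
    (by
      intro t ht
      have q : ‖t - y2 0‖ < ρ' := by rwa [Metric.mem_ball, dist_eq_norm] at ht
      have q2 : ‖t‖ ≤ ‖t - y2 0‖ + ‖y2 0‖ := by
        have := norm_add_le (t - y2 0) (y2 0)
        rwa [sub_add_cancel] at this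
      linarith) C
  refine ⟨L, f, hL, hf, hfL, ?_⟩
  rintro x y ⟨q1, q2, q3⟩ hyC hlev hx0 hxM hΦ
  have q4 := (q1 hyC).2
  have q5 : y 0 ∈ Metric.ball (y2 0) ρ' := Metric.ball_subset_ball (by linarith) q2
  have q6 : ∑ k, c k (y 0) * x j ^ (k : ℕ) = 0 := hx x y (hsub' q5) q4 hlev hx0 hxM hΦ
  refine hsm (x j) (y 0) ?_ (hex _ q5 _ q6) ?_
  · rw [Metric.mem_ball, dist_eq_norm] at q2
    exact q2.le
  · have h4 : ‖x j‖ = Real.exp (dt (M j) (lg y)) := by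
      rw [← hxM j]
      exact (Real.exp_log (norm_pos_iff.2 (hx0 j))).symm
    have h5 : Real.exp (dt (M j) (lg y)) ≤ Real.exp (dt (M j) (lg y2) + 1) := Real.exp_le_exp.2 q3.le
    rw [h4]
    linarith

/-- balls of small frequency around finitely many points -/
theorem b3_balls {U : Filter ℕ} {ι : ℕ → Type} [∀ n, Fintype (ι n)] {κ : ℝ} {y : ∀ n, ι n → (Fin m → ℂ)}
    (hG : Gen (k := 1) U κ (fun n σ _ => y n σ 0)) (s : Finset (Fin m → ℂ)) {θ : ℝ} (hθ : 0 < θ) :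
    ∃ V : Set (Fin m → ℂ), IsOpen V ∧ (∀ w ∈ s, w ∈ V) ∧ ∀ᶠ n in U, fr (fun σ : ι n => y n σ ∈ V) ≤ θ := by
  have hθ' : 0 < θ / (s.card + 1) := by positivity
  choose δ hδ0 hδ using fun w : Fin m → ℂ => noatom hG w hθ'
  refine ⟨⋃ w ∈ s, Metric.ball w (δ w), isOpen_biUnion fun w _ => Metric.isOpen_ball,
    fun w hw => Set.mem_biUnion (Finset.mem_coe.2 hw) (Metric.mem_ball_self (hδ0 w)), ?_⟩
  have hall : ∀ᶠ n in U, ∀ w ∈ s, fr (fun σ : ι n => ‖y n σ - w‖ < δ w) ≤ θ / (s.card + 1) :=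
    (Filter.eventually_all_finset s).2 fun w _ => hδ w
  filter_upwards [hall] with n hn
  refine (Z5.fr_mono (Q := fun σ => ∃ w ∈ s, ‖y n σ - w‖ < δ w) ?_).trans ((Z5.fr_exists s _).trans ?_)
  · intro σ hσ
    obtain ⟨w, hw, h⟩ := Set.mem_iUnion₂.1 hσ
    exact ⟨w, hw, by rwa [Metric.mem_ball, dist_eq_norm] at h⟩
  · refine (Finset.sum_le_sum hn).trans ?_
    rw [Finset.sum_const, nsmul_eq_mul]
    rw [mul_div_assoc', div_le_iff₀ (by positivity)]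
    have : (0 : ℝ) ≤ (s.card : ℝ) := by positivity
    nlinarith

/-- Row Z7-B3c. Covering lemma. Choose for every `y ∈ L` the open `O_y` of the hypothesis; finitely many `O_{y_i}` cover `L`; balls around the centres `y_i` (`noatom`) of total `fr ≤ θ/2`: `V1`. `L \ V1` is compact and each of its points `z` has an `O'_z` with `O'_z ∩ Bad ⊆ {z}`; finitely many cover; balls around these finitely many `z_k` of total `fr ≤ θ/2`: `V2`. `Bad ⊆ V1 ∪ V2`. -/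
theorem cover {U : Filter ℕ} {ι : ℕ → Type} [∀ n, Fintype (ι n)] {κ : ℝ} {y : ∀ n, ι n → (Fin m → ℂ)}
    (hG : Gen (k := 1) U κ (fun n σ _ => y n σ 0)) {L Bad : Set (Fin m → ℂ)} (hL : IsCompact L) (hBL : Bad ⊆ L)
    (h : ∀ y0 ∈ L, ∃ O ∈ 𝓝 y0, ∀ z ∈ O, z ∈ L → z ≠ y0 → ∃ O' ∈ 𝓝 z, O' ∩ Bad ⊆ {z}) {θ : ℝ} (hθ : 0 < θ) :
    ∃ O : Set (Fin m → ℂ), IsOpen O ∧ Bad ⊆ O ∧ ∀ᶠ n in U, fr (fun σ : ι n => y n σ ∈ O) ≤ θ := by
  classical
  choose! O hO hO2 using h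
  obtain ⟨t, htL, hcov⟩ := hL.elim_nhds_subcover O hO
  obtain ⟨V1, hV1o, hV1t, hV1f⟩ := b3_balls hG t (half_pos hθ)
  have hL2 : IsCompact (L \ V1) := hL.diff hV1o
  have h2 : ∀ z ∈ L \ V1, ∃ O' ∈ 𝓝 z, O' ∩ Bad ⊆ {z} := by
    rintro z ⟨hzL, hzV⟩
    obtain ⟨w, hw, hzw⟩ := Set.mem_iUnion₂.1 (hcov hzL)
    exact hO2 w (htL w hw) z hzw hzL fun e => hzV (e ▸ hV1t w hw)
  choose! O' hO' hO'2 using h2
  obtain ⟨t', ht'L, hcov'⟩ := hL2.elim_nhds_subcover O' hO'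
  obtain ⟨V2, hV2o, hV2t, hV2f⟩ := b3_balls hG t' (half_pos hθ)
  refine ⟨V1 ∪ V2, hV1o.union hV2o, ?_, ?_⟩
  · intro b hb
    by_cases hb1 : b ∈ V1
    · exact Or.inl hb1
    · obtain ⟨z, hz, hbz⟩ := Set.mem_iUnion₂.1 (hcov' ⟨hBL hb, hb1⟩)
      have : b = z := hO'2 z (ht'L z hz) ⟨hbz, hb⟩
      exact Or.inr (this ▸ hV2t z hz)
  · filter_upwards [hV1f, hV2f] with n h1 h2
    refine (Z5.fr_or _ _).trans ?_
    linarith

end Pool.Agent.Z7
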