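import Pool.Agent.Z7.B3
import Pool.Agent.Z6.B4

namespace Pool.Agent.Z7

open Pool.Agent.ZL2 Filter Topology
open Pool.Agent.Z5 (fr Gen ev2 Alg)
open Pool.Agent.Z6 (dt)

set_option linter.unusedSectionVars false

variable {m : ℕ} [NeZero m]

theorem b4_dtc : Continuous fun p : (Fin m → ℝ) × (Fin m → ℝ) => dt p.1 p.2 := by
  unfold Z6.dt
  fun_prop

theorem b4_dt_abs {v w : Fin m → ℝ} {A B : ℝ} (hv : ∀ i, |v i| ≤ A) (hw : ∀ i, |w i| ≤ B) (hA : 0 ≤ A) :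
    |dt v w| ≤ m * (A * B) := by
  unfold Z6.dt
  calc |∑ i, v i * w i| ≤ ∑ i, |v i * w i| := Finset.abs_sum_le_sum_abs _ _
    _ ≤ ∑ _i : Fin m, A * B := by
        refine Finset.sum_le_sum fun i _ => ?_
        rw [abs_mul]
        exact mul_le_mul (hv i) (hw i) (abs_nonneg _) hA
    _ = m * (A * B) := by simp

theorem b4_evP (Φ : MvPolynomial (Fin 2) (MvPolynomial (Fin m) ℂ)) (x : Fin 2 → ℂ) (y : Fin m → ℂ) :
    evP Φ x y = ∑ α ∈ Φ.support, MvPolynomial.eval y (Φ.coeff α) * ∏ j, x j ^ α j := by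
  unfold evP
  rw [MvPolynomial.eval_map, MvPolynomial.eval₂_eq']

theorem b4_evP_cont (Φ : MvPolynomial (Fin 2) (MvPolynomial (Fin m) ℂ)) :
    Continuous fun p : (Fin 2 → ℂ) × (Fin m → ℂ) => evP Φ p.1 p.2 := by
  simp only [b4_evP]
  refine continuous_finsetSum _ fun α _ => ?_
  refine Continuous.mul ((MvPolynomial.continuous_eval _).comp continuous_snd) ?_
  refine continuous_finsetProd _ fun j _ => ?_
  exact ((continuous_apply j).comp continuous_fst).pow _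

theorem b4_evP_tend (Φ : MvPolynomial (Fin 2) (MvPolynomial (Fin m) ℂ)) {l : Filter ℕ} [l.NeBot]
    {x : ℕ → Fin 2 → ℂ} {y : ℕ → Fin m → ℂ} {x' : Fin 2 → ℂ} {y' : Fin m → ℂ} (hx : Tendsto x l (𝓝 x'))
    (hy : Tendsto y l (𝓝 y')) (h : ∀ n, evP Φ (x n) (y n) = 0) : evP Φ x' y' = 0 := by
  have h1 := ((b4_evP_cont Φ).tendsto (x', y')).comp (hx.prodMk_nhds hy)
  have h2 : (fun p : (Fin 2 → ℂ) × (Fin m → ℂ) => evP Φ p.1 p.2) ∘ (fun n => (x n, y n)) = fun _ => 0 := funext h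
  rw [h2] at h1
  exact tendsto_nhds_unique h1 tendsto_const_nhds

theorem b4_fib {C F : Set (Fin m → ℂ)} (hF : F.Finite) {z : Fin m → ℂ} {O1 : Set (Fin m → ℂ)} (hO1 : O1 ∈ 𝓝 z)
    (h : ∀ y ∈ O1, y ∈ C → y ∈ F) : ∃ O ∈ 𝓝 z, ∀ y ∈ O, y ∈ C → y = z := by
  have h1 : (F \ {z}).Finite := hF.subset Set.sdiff_subset
  have h2 : (F \ {z})ᶜ ∈ 𝓝 z := h1.isClosed.isOpen_compl.mem_nhds (by simp)
  refine ⟨O1 ∩ (F \ {z})ᶜ, inter_mem hO1 h2, fun y hy hyC => ?_⟩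
  by_contra hne
  exact hy.2 ⟨h y hy.1 hyC, hne⟩

theorem b4_lgc (S : Sf m) : ∀ y ∈ S.C, ContinuousAt (fun y : Fin m → ℂ => lg y) y := by
  intro y hy
  rw [continuousAt_pi]
  exact fun i => continuousAt_lg (S.ne y hy i)

theorem b4_ev {S : Sf m} {U : Ultrafilter ℕ} (Z : Sq S U) {A1 : ℝ} (hA : Z.Bdd A1) {A2 : ℝ}
    (hKA : IsCompact (S.toCv.KA A2)) {u' : Fin m → ℝ} {M' : Fin 2 → Fin m → ℝ}
    (hu' : Tendsto Z.u (U : Filter ℕ) (𝓝 u')) (hM' : Tendsto Z.M (U : Filter ℕ) (𝓝 M'))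
    {W : Set ((Fin 2 → ℂ) × (Fin m → ℂ))} (hWo : IsOpen W)
    (hWK : ∀ (x : Fin 2 → ℂ) (y : Fin m → ℂ), y ∈ S.toCv.KA A2 → dt u' (lg y) = 0 → (∀ j, x j ≠ 0) →
      (∀ j, lg x j = dt (M' j) (lg y)) → evP S.Φ x y = 0 → (x, y) ∈ W) :
    ∀ᶠ n in (U : Filter ℕ), ∀ σ, Z.y n σ ∈ S.toCv.KA A2 → (Z.x n σ, Z.y n σ) ∈ W := by
  classical
  have hlgc := b4_lgc S
  by_contra hcon
  rw [Ultrafilter.eventually_not.symm] at hcon
  have hch : ∀ n, ∃ σ : Z.ι n, (¬ ∀ σ, Z.y n σ ∈ S.toCv.KA A2 → (Z.x n σ, Z.y n σ) ∈ W) →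
      Z.y n σ ∈ S.toCv.KA A2 ∧ (Z.x n σ, Z.y n σ) ∉ W := by
    intro n
    by_cases h : ∀ σ, Z.y n σ ∈ S.toCv.KA A2 → (Z.x n σ, Z.y n σ) ∈ W
    · exact ⟨Classical.arbitrary _, fun h' => absurd h h'⟩
    · push Not at h
      obtain ⟨σ, h1⟩ := h
      exact ⟨σ, fun _ => h1⟩
  choose σ hσ using hch
  have hg : ∀ᶠ n in (U : Filter ℕ), Z.y n (σ n) ∈ S.toCv.KA A2 ∧ (Z.x n (σ n), Z.y n (σ n)) ∉ W := by
    filter_upwards [hcon] with n hn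
    exact hσ n hn
  obtain ⟨y', hy'm, hy'⟩ := Z5.b4_lim U (fun n => Z.y n (σ n)) (S.toCv.KA A2) hKA (hg.mono fun n hn => hn.1)
  set R : ℝ := m * (|A1| * A2) with hR
  have hcpt : IsCompact {x : Fin 2 → ℂ | ∀ i, Real.exp (-R) ≤ ‖x i‖ ∧ ‖x i‖ ≤ Real.exp R} := by
    have h1 : {x : Fin 2 → ℂ | ∀ i, Real.exp (-R) ≤ ‖x i‖ ∧ ‖x i‖ ≤ Real.exp R} =
        Set.pi Set.univ (fun _ => {z : ℂ | Real.exp (-R) ≤ ‖z‖ ∧ ‖z‖ ≤ Real.exp R}) := by
      ext x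
      simp [Set.mem_pi]
    rw [h1]
    refine isCompact_univ_pi fun _ => ?_
    refine (isCompact_closedBall (0 : ℂ) (Real.exp R)).of_isClosed_subset ?_ ?_
    · exact (isClosed_le continuous_const continuous_norm).inter (isClosed_le continuous_norm continuous_const)
    · intro z hz
      rw [mem_closedBall_zero_iff]
      exact hz.2
  obtain ⟨x', hx'm, hx'⟩ := Z5.b4_lim U (fun n => Z.x n (σ n)) _ hcpt (by
    filter_upwards [hg, hA] with n hn hAn i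
    have hxp : 0 < ‖Z.x n (σ n) i‖ := norm_pos_iff.2 (Z.hx n (σ n) i)
    have h1 : |lg (Z.x n (σ n)) i| ≤ R := by
      rw [Z.r1 n (σ n) i]
      exact b4_dt_abs (fun k => (hAn i k).trans (le_abs_self _)) (fun k => hn.1.2 k) (abs_nonneg _)
    obtain ⟨h2, h3⟩ := abs_le.1 h1
    have h4 : Real.exp (lg (Z.x n (σ n)) i) = ‖Z.x n (σ n) i‖ := Real.exp_log hxp
    rw [← h4]
    exact ⟨Real.exp_le_exp.2 h2, Real.exp_le_exp.2 h3⟩)
  have hx'0 : ∀ i, x' i ≠ 0 := by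
    intro i h
    have := (hx'm i).1
    rw [h, norm_zero] at this
    exact absurd (Real.exp_pos (-R)) (not_lt.2 this)
  have hLy : Tendsto (fun n => lg (Z.y n (σ n))) (U : Filter ℕ) (𝓝 (lg y')) :=
    (hlgc y' hy'm.1).tendsto.comp hy'
  have hLx : ∀ i, Tendsto (fun n => lg (Z.x n (σ n)) i) (U : Filter ℕ) (𝓝 (lg x' i)) := fun i =>
    (continuousAt_lg (hx'0 i)).tendsto.comp hx'
  have hd : ∀ {v : ℕ → Fin m → ℝ} {v' : Fin m → ℝ}, Tendsto v (U : Filter ℕ) (𝓝 v') →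
      Tendsto (fun n => dt (v n) (lg (Z.y n (σ n)))) (U : Filter ℕ) (𝓝 (dt v' (lg y'))) := by
    intro v v' hv
    exact (b4_dtc.tendsto (v', lg y')).comp (hv.prodMk_nhds hLy)
  have q1 : dt u' (lg y') = 0 := by
    refine tendsto_nhds_unique (hd hu') ?_
    refine Tendsto.congr (fun n => (Z.r0 n (σ n)).symm) tendsto_const_nhds
  have q2 : ∀ i, lg x' i = dt (M' i) (lg y') := by
    intro i
    refine tendsto_nhds_unique (hLx i) ?_
    exact Tendsto.congr (fun n => (Z.r1 n (σ n) i).symm) (hd ((tendsto_pi_nhds.1 hM') i))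
  have q3 : evP S.Φ x' y' = 0 := b4_evP_tend S.Φ hx' hy' fun n => Z.hΦ n (σ n)
  have hin := hWK x' y' hy'm q1 hx'0 q2 q3
  have h3 : ∀ᶠ n in (U : Filter ℕ), (Z.x n (σ n), Z.y n (σ n)) ∈ W :=
    (hx'.prodMk_nhds hy').eventually (hWo.mem_nhds hin)
  obtain ⟨n, h4, h5⟩ := (hg.and h3).exists
  exact h4.2 h5

/-- Row Z7-B4. Generic points of the surface cannot have bounded `M` (compare `Z6.core1`). `u', M'` = limits along `U`. `A` with `fr (y ∉ KA A) ≤ 1/8` (`KA_tail`); balls around the points of `E` with total `fr ≤ 1/8` (`noatom`): `O_E` open. `L = {y ∈ KA A | dt u' (lg y) = 0} \ O_E` is compact and disjoint from `E`. `Bad = {y ∈ L | ¬ Good S u' M' j y}`. The hypothesis of `cover`: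
let `y0 ∈ L`. If no points of `C` with other `y_0` accumulate at `y0`: near `y0` all points of `C` have the same `y_0`, so they are finitely many (`S.fib`), `O` can be chosen with `O ∩ L ⊆ {y0}`. Otherwise `lev1`: for `z ∈ O ∩ L`, `z ≠ y0`: `z` has a noncritical chart; if points of `C` with `dt u' (lg ·) = 0` and other `y_0` accumulate at `z`: `local_small` gives `O'` with
`O' ∩ L \ {z}` good; otherwise `O' ∩ L ⊆ {z}` for a small `O'` (again `fib`). `cover` with `θ = 1/8`: open `O ⊇ Bad`. `L' = L \ O` is compact, all its points are `Good`: finitely many of the neighbourhoods `O_i` (interior) cover `L'`, `N` of them; `C0` with `N κ' / C0 ≤ 1/8`; `f_i` for `C0`.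
The set `W = {(x,y) | y ∈ O_E ∪ O} ∪ ⋃_i {(x,y) | y ∈ interior O_i, ‖ev f_i ![x j, y 0]‖ < exp (-(C0 L_i))}` is open and contains the compact set `K = {(x,y) | y ∈ KA A, dt u' (lg y) = 0, x_j ≠ 0, lg x_j = dt (M' j) (lg y), Φ(x,y) = 0}`; as `Z.u n → u'`, `Z.M n → M'` (bounded: `hA`), for eventually all `n` all `(x n σ, y n σ)` with `y n σ ∈ KA A` are in `W`
(compactness argument as in `Z6.core1`). So `1 ≤ 1/8 + 1/8 + 1/8 + N κ'/C0 < 1`. -/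
theorem core1 {S : Sf m} {U : Ultrafilter ℕ} (Z : Sq S U) {A1 : ℝ} (hA : Z.Bdd A1) (j : Fin 2) {κ' : ℝ}
    (hG : Gen (k := 2) (U : Filter ℕ) κ' (fun n σ => ![Z.x n σ j, Z.y n σ 0])) : False := by
  classical
  -- the limits
  obtain ⟨u', hu'm, hu'⟩ := Z5.b4_lim U Z.u (Metric.closedBall 0 1) (isCompact_closedBall _ _) (by
    refine Eventually.of_forall fun n => ?_
    rw [mem_closedBall_zero_iff, pi_norm_le_iff_of_nonneg zero_le_one]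
    intro i
    have h := Z.hu n
    unfold Z6.dt at h
    have h1 : Z.u n i * Z.u n i ≤ ∑ j, Z.u n j * Z.u n j :=
      Finset.single_le_sum (f := fun j => Z.u n j * Z.u n j) (fun j _ => mul_self_nonneg _) (Finset.mem_univ i)
    rw [h] at h1
    rw [Real.norm_eq_abs]
    exact abs_le_one_iff_mul_self_le_one.2 h1)
  have hdu : dt u' u' = 1 := by
    have h1 : Tendsto (fun n => dt (Z.u n) (Z.u n)) (U : Filter ℕ) (𝓝 (dt u' u')) :=
      (b4_dtc.tendsto (u', u')).comp (hu'.prodMk_nhds hu')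
    have h2 : Tendsto (fun n => dt (Z.u n) (Z.u n)) (U : Filter ℕ) (𝓝 1) := by
      simp only [Z.hu]
      exact tendsto_const_nhds
    exact tendsto_nhds_unique h1 h2
  have hu'0 : u' ≠ 0 := by
    rintro rfl
    simp [Z6.dt] at hdu
  obtain ⟨M', hM'm, hM'⟩ := Z5.b4_lim U Z.M (Metric.closedBall 0 |A1|) (isCompact_closedBall _ _) (by
    filter_upwards [hA] with n hn
    rw [mem_closedBall_zero_iff, pi_norm_le_iff_of_nonneg (abs_nonneg _)]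
    intro j
    rw [pi_norm_le_iff_of_nonneg (abs_nonneg _)]
    intro i
    rw [Real.norm_eq_abs]
    exact (hn j i).trans (le_abs_self _))
  -- the compact set
  have hm : 0 < m := Nat.pos_of_ne_zero (NeZero.ne m)
  have hm0 : (0 : ℝ) < m := by exact_mod_cast hm
  obtain ⟨A2, hA2, hA2B⟩ : ∃ A2 : ℝ, 0 < A2 ∧ m * (Z.B / A2) ≤ 1 / 8 := by
    refine ⟨8 * m * (|Z.B| + 1), by positivity, ?_⟩
    have h1 : (0 : ℝ) < 8 * m * (|Z.B| + 1) := by positivity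
    rw [← mul_div_assoc, div_le_iff₀ h1]
    have h2 := le_abs_self Z.B
    have h3 := abs_nonneg Z.B
    nlinarith [mul_le_mul_of_nonneg_left h2 hm0.le]
  have hKA : IsCompact (S.toCv.KA A2) := S.cpt A2
  have hlgc := b4_lgc S
  have hdtc : ∀ (v : Fin m → ℝ), ∀ y ∈ S.C, ContinuousAt (fun y : Fin m → ℂ => dt v (lg y)) y := by
    intro v y hy
    exact ContinuousAt.comp (g := fun p : (Fin m → ℝ) × (Fin m → ℝ) => dt p.1 p.2)
      (f := fun y => (v, lg y)) b4_dtc.continuousAt (continuousAt_const.prodMk (hlgc y hy))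
  have hKc : IsCompact {y | y ∈ S.toCv.KA A2 ∧ dt u' (lg y) = 0} := by
    have h1 : IsClosed {y | y ∈ S.toCv.KA A2 ∧ dt u' (lg y) = 0} := by
      have h2 : ContinuousOn (fun y => dt u' (lg y)) (S.toCv.KA A2) := by
        intro y hy
        exact (hdtc u' y hy.1).continuousWithinAt
      exact h2.preimage_isClosed_of_isClosed hKA.isClosed isClosed_singleton
    exact hKA.of_isClosed_subset h1 fun t ht => ht.1
  -- the balls around `E`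
  set EF : Finset (Fin m → ℂ) := S.hE.toFinset with hEF
  have hEm : ∀ y, y ∈ EF ↔ y ∈ S.E := fun y => by rw [hEF, Set.Finite.mem_toFinset]
  have hθ : (0 : ℝ) < 1 / (8 * (EF.card + 1)) := by positivity
  have hcb := fun w : Fin m → ℂ => noatom Z.gen w hθ
  choose δ hδ hδ2 using hcb
  let OE : Set (Fin m → ℂ) := ⋃ w ∈ EF, {y | ‖y - w‖ < δ w}
  have hOEo : IsOpen OE := by
    refine isOpen_biUnion fun w _ => ?_
    exact isOpen_lt (continuous_id.sub continuous_const).norm continuous_const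
  have hOEm : ∀ y, y ∈ OE ↔ ∃ w ∈ EF, ‖y - w‖ < δ w := by
    intro y
    show y ∈ ⋃ w ∈ EF, {y | ‖y - w‖ < δ w} ↔ _
    simp only [Set.mem_iUnion, exists_prop]
    rfl
  have hEOE : ∀ y ∈ S.E, y ∈ OE := by
    intro y hy
    rw [hOEm]
    refine ⟨y, (hEm y).2 hy, ?_⟩
    rw [sub_self, norm_zero]
    exact hδ y
  -- `L` and `Bad`
  set L : Set (Fin m → ℂ) := {y | y ∈ S.toCv.KA A2 ∧ dt u' (lg y) = 0} \ OE with hL
  have hLc : IsCompact L := hKc.diff hOEo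
  have hLE : ∀ y ∈ L, y ∉ S.E := fun y hy h => hy.2 (hEOE y h)
  have hLC : ∀ y ∈ L, y ∈ S.C := fun y hy => hy.1.1.1
  have hLd : ∀ y ∈ L, dt u' (lg y) = 0 := fun y hy => hy.1.2
  set Bad : Set (Fin m → ℂ) := {y | y ∈ L ∧ ¬ Good S u' M' j y} with hBad
  have hcov : ∀ y0 ∈ L, ∃ O ∈ 𝓝 y0, ∀ z ∈ O, z ∈ L → z ≠ y0 → ∃ O' ∈ 𝓝 z, O' ∩ Bad ⊆ {z} := by
    intro y0 hy0
    by_cases hacc : ∀ O ∈ 𝓝 y0, ∃ y ∈ O, y ∈ S.C ∧ y 0 ≠ y0 0
    · obtain ⟨O, hO, hOl⟩ := lev1 S.toCv (hLC y0 hy0) (hLE y0 hy0) hacc hu'0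
      refine ⟨O, hO, fun z hz hzL hzy => ?_⟩
      obtain ⟨hzE, ρ, η, ℓ, hch, hcr⟩ := hOl z hz (hLC z hzL) hzy
      by_cases hacc2 : ∀ O ∈ 𝓝 z, ∃ y ∈ O, y ∈ S.C ∧ y 0 ≠ z 0 ∧ dt u' (lg y) = 0
      · obtain ⟨O', hO', hg⟩ := local_small S (hLC z hzL) hzE (hLd z hzL) hch hcr hacc2 M' j
        refine ⟨O', hO', fun y hy => ?_⟩
        by_contra hne
        exact hy.2.2 (hg y hy.1 (hLC y hy.2.1) (hLd y hy.2.1) hne)
      · push Not at hacc2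
        obtain ⟨O1, hO1, h1⟩ := hacc2
        obtain ⟨O', hO', h2⟩ := b4_fib (C := {y | y ∈ S.C ∧ dt u' (lg y) = 0}) (S.fib (z 0)) hO1
          (fun y hy hyC => ⟨hyC.1, by
            by_contra hne
            exact h1 y hy hyC.1 hne hyC.2⟩)
        refine ⟨O', hO', fun y hy => ?_⟩
        exact h2 y hy.1 ⟨hLC y hy.2.1, hLd y hy.2.1⟩
    · push Not at hacc
      obtain ⟨O1, hO1, h1⟩ := hacc
      obtain ⟨O, hO, h2⟩ := b4_fib (C := S.C) (S.fib (y0 0)) hO1 (fun y hy hyC => ⟨hyC, h1 y hy hyC⟩)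
      exact ⟨O, hO, fun z hz hzL hzy => absurd (h2 z hz (hLC z hzL)) hzy⟩
  obtain ⟨O, hOo, hBO, hOfr⟩ := cover Z.gen hLc (fun y hy => hy.1) hcov (θ := 1 / 8) (by norm_num)
  -- the good points
  have hL'c : IsCompact (L \ O) := hLc.diff hOo
  have hgood : ∀ y ∈ L \ O, Good S u' M' j y := by
    intro y hy
    by_contra h
    exact hy.2 (hBO ⟨hy.1, h⟩)
  have hnb : ∀ y : Fin m → ℂ, ∃ V : Set (Fin m → ℂ), IsOpen V ∧ y ∈ V ∧ (y ∈ L \ O → ∀ C : ℝ,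
      ∃ (L : ℕ) (f : (Fin 2 → Fin (L + 1)) → ℤ), 1 ≤ L ∧ f ≠ 0 ∧ (∀ α, |f α| ≤ 2 ^ L) ∧
    ∀ (x : Fin 2 → ℂ) (y : Fin m → ℂ), y ∈ V → y ∈ S.C → dt u' (lg y) = 0 → (∀ j, x j ≠ 0) →
      (∀ j, lg x j = dt (M' j) (lg y)) → evP S.Φ x y = 0 → ‖ev f ![x j, y 0]‖ < Real.exp (-(C * L))) := by
    intro y
    by_cases hy : y ∈ L \ O
    · obtain ⟨O', hO', h⟩ := hgood y hy
      obtain ⟨V, hV, hVo, hyV⟩ := mem_nhds_iff.1 hO'
      refine ⟨V, hVo, hyV, fun _ C => ?_⟩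
      obtain ⟨L, f, h1, h2, h3, h4⟩ := h C
      exact ⟨L, f, h1, h2, h3, fun x y hy => h4 x y (hV hy)⟩
    · exact ⟨Set.univ, isOpen_univ, trivial, fun h => absurd h hy⟩
  choose V hVo hVm hVp using hnb
  obtain ⟨T, hTs, hTc⟩ := hL'c.elim_nhds_subcover V (fun y _ => (hVo y).mem_nhds (hVm y))
  obtain ⟨D, hD, hDκ⟩ : ∃ D : ℝ, 0 < D ∧ T.card * (κ' / D) ≤ 1 / 8 := by
    refine ⟨8 * (T.card + 1) * (|κ'| + 1), by positivity, ?_⟩
    have h1 : (0 : ℝ) < 8 * (T.card + 1) * (|κ'| + 1) := by positivity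
    rw [← mul_div_assoc, div_le_iff₀ h1]
    have h2 := le_abs_self κ'
    have h3 := abs_nonneg κ'
    have h4 : (0 : ℝ) ≤ T.card := Nat.cast_nonneg _
    nlinarith [mul_nonneg h4 h3, mul_le_mul_of_nonneg_left h2 h4]
  have hpoly : ∀ y0 : Fin m → ℂ, ∃ (L : ℕ) (f : (Fin 2 → Fin (L + 1)) → ℤ), y0 ∈ T → 1 ≤ L ∧ f ≠ 0 ∧
      (∀ α, |f α| ≤ 2 ^ L) ∧
      ∀ (x : Fin 2 → ℂ) (y : Fin m → ℂ), y ∈ V y0 → y ∈ S.C → dt u' (lg y) = 0 → (∀ j, x j ≠ 0) →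
      (∀ j, lg x j = dt (M' j) (lg y)) → evP S.Φ x y = 0 → ‖ev f ![x j, y 0]‖ < Real.exp (-(D * L)) := by
    intro y0
    by_cases h : y0 ∈ T
    · obtain ⟨L, f, h1⟩ := hVp y0 (hTs y0 h) D
      exact ⟨L, f, fun _ => h1⟩
    · exact ⟨0, 0, fun h1 => absurd h1 h⟩
  choose Lf f hf using hpoly
  -- the open set
  have hevc : ∀ y0, Continuous fun p : (Fin 2 → ℂ) × (Fin m → ℂ) => ev (f y0) ![p.1 j, p.2 0] := by
    intro y0
    unfold ev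
    refine continuous_finsetSum _ fun α _ => ?_
    refine continuous_const.mul ?_
    refine continuous_finsetProd _ fun i _ => ?_
    refine Continuous.pow ?_ _
    fin_cases i
    · exact (continuous_apply j).comp continuous_fst
    · exact (continuous_apply 0).comp continuous_snd
  obtain ⟨W, hW⟩ : ∃ W : Set ((Fin 2 → ℂ) × (Fin m → ℂ)), W = {p | (p.2 ∈ OE ∨ p.2 ∈ O) ∨
      ∃ y0 ∈ T, p.2 ∈ V y0 ∧ ‖ev (f y0) ![p.1 j, p.2 0]‖ < Real.exp (-(D * Lf y0))} := ⟨_, rfl⟩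
  have hWo : IsOpen W := by
    have e : W = ((Prod.snd ⁻¹' OE) ∪ (Prod.snd ⁻¹' O)) ∪
        ⋃ y0 ∈ T, ((Prod.snd ⁻¹' (V y0)) ∩
          {p : (Fin 2 → ℂ) × (Fin m → ℂ) | ‖ev (f y0) ![p.1 j, p.2 0]‖ < Real.exp (-(D * Lf y0))}) := by
      rw [hW]
      ext p
      simp only [Set.mem_ofPred_eq, Set.mem_union, Set.mem_iUnion, exists_prop, Set.mem_preimage, Set.mem_inter_iff]
    rw [e]
    refine IsOpen.union ((hOEo.preimage continuous_snd).union (hOo.preimage continuous_snd)) ?_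
    refine isOpen_biUnion fun y0 _ => ?_
    exact ((hVo y0).preimage continuous_snd).inter (isOpen_lt (hevc y0).norm continuous_const)
  have hWK : ∀ (x : Fin 2 → ℂ) (y : Fin m → ℂ), y ∈ S.toCv.KA A2 → dt u' (lg y) = 0 → (∀ j, x j ≠ 0) →
      (∀ j, lg x j = dt (M' j) (lg y)) → evP S.Φ x y = 0 → (x, y) ∈ W := by
    intro x y hy hdy hx hxM hΦ
    rw [hW]
    by_cases h1 : y ∈ OE
    · exact Or.inl (Or.inl h1)
    by_cases h2 : y ∈ O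
    · exact Or.inl (Or.inr h2)
    have h3 := hTc (show y ∈ L \ O from ⟨⟨⟨hy, hdy⟩, h1⟩, h2⟩)
    rw [Set.mem_iUnion₂] at h3
    obtain ⟨y0, hy0, h4⟩ := h3
    exact Or.inr ⟨y0, hy0, h4, (hf y0 hy0).2.2.2 x y h4 hy.1 hdy hx hxM hΦ⟩
  -- eventually everything is in `W`
  have hev : ∀ᶠ n in (U : Filter ℕ), ∀ σ, Z.y n σ ∈ S.toCv.KA A2 → (Z.x n σ, Z.y n σ) ∈ W := by
    exact b4_ev Z hA hKA hu' hM' hWo hWK
  -- the generic bounds
  have hb1 : ∀ᶠ n in (U : Filter ℕ), ∀ w ∈ EF, fr (fun σ : Z.ι n => ‖Z.y n σ - w‖ < δ w) ≤ 1 / (8 * (EF.card + 1)) := by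
    rw [Filter.eventually_all_finset]
    intro w _
    exact hδ2 w
  have hb2 : ∀ᶠ n in (U : Filter ℕ), ∀ y0 ∈ T,
      D * fr (fun σ : Z.ι n => ‖ev (f y0) ![Z.x n σ j, Z.y n σ 0]‖ ≤ Real.exp (-(D * Lf y0))) ≤ κ' := by
    rw [Filter.eventually_all_finset]
    intro y0 hy0
    obtain ⟨h1, h2, h3, -⟩ := hf y0 hy0
    exact hG (Lf y0) (f y0) h1 h2 h3 D hD
  obtain ⟨n, h1, h2, h3, h0⟩ := (hev.and (hb1.and (hb2.and hOfr))).exists
  have key : (1 : ℝ) ≤ fr (fun σ : Z.ι n => Z.y n σ ∉ S.toCv.KA A2) +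
      (fr (fun σ : Z.ι n => Z.y n σ ∈ O) + (fr (fun σ : Z.ι n => ∃ w ∈ EF, ‖Z.y n σ - w‖ < δ w) +
        fr (fun σ : Z.ι n => ∃ y0 ∈ T, ‖ev (f y0) ![Z.x n σ j, Z.y n σ 0]‖ ≤ Real.exp (-(D * Lf y0))))) := by
    rw [← Z5.fr_true (ι := Z.ι n)]
    refine (Z5.fr_mono (Q := fun σ => Z.y n σ ∉ S.toCv.KA A2 ∨ (Z.y n σ ∈ O ∨ ((∃ w ∈ EF, ‖Z.y n σ - w‖ < δ w) ∨
      (∃ y0 ∈ T, ‖ev (f y0) ![Z.x n σ j, Z.y n σ 0]‖ ≤ Real.exp (-(D * Lf y0)))))) ?_).trans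
      ((Z5.fr_or _ _).trans (add_le_add le_rfl ((Z5.fr_or _ _).trans (add_le_add le_rfl (Z5.fr_or _ _)))))
    intro σ _
    by_cases ht : Z.y n σ ∈ S.toCv.KA A2
    · right
      have h4 := h1 σ ht
      rw [hW] at h4
      rcases h4 with (e1 | e1) | ⟨y0, e1, e2, e3⟩
      · exact Or.inr (Or.inl ((hOEm _).1 e1))
      · exact Or.inl e1
      · exact Or.inr (Or.inr ⟨y0, e1, le_of_lt e3⟩)
    · exact Or.inl ht
  have k1 := KA_tail S.toCv (Z.y n) (Z.hy n) Z.B (Z.hB n) hA2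
  have k2 : fr (fun σ : Z.ι n => ∃ w ∈ EF, ‖Z.y n σ - w‖ < δ w) ≤ 1 / 8 := by
    refine (Z5.fr_exists _ _).trans ?_
    calc ∑ w ∈ EF, fr (fun σ : Z.ι n => ‖Z.y n σ - w‖ < δ w)
        ≤ ∑ _w ∈ EF, (1 : ℝ) / (8 * (EF.card + 1)) := Finset.sum_le_sum fun w h => h2 w h
      _ = EF.card * (1 / (8 * ((EF.card : ℝ) + 1))) := by rw [Finset.sum_const, nsmul_eq_mul]
      _ ≤ 1 / 8 := by
          rw [mul_one_div, div_le_div_iff₀ (by positivity) (by norm_num)]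
          linarith
  have k3 : fr (fun σ : Z.ι n => ∃ y0 ∈ T, ‖ev (f y0) ![Z.x n σ j, Z.y n σ 0]‖ ≤ Real.exp (-(D * Lf y0))) ≤ 1 / 8 := by
    refine (Z5.fr_exists _ _).trans ?_
    calc ∑ y0 ∈ T, fr (fun σ : Z.ι n => ‖ev (f y0) ![Z.x n σ j, Z.y n σ 0]‖ ≤ Real.exp (-(D * Lf y0)))
        ≤ ∑ _y0 ∈ T, κ' / D := by
          refine Finset.sum_le_sum fun y0 h => ?_
          rw [le_div_iff₀ hD, mul_comm]
          exact h3 y0 h
      _ = T.card * (κ' / D) := by rw [Finset.sum_const, nsmul_eq_mul]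
      _ ≤ 1 / 8 := hDκ
  linarith

end Pool.Agent.Z7
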