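import Pool.Agent.Z7.A2
import Pool.Agent.Z6.C1
import Pool.Agent.Z6.C3

namespace Pool.Agent.Z7

open Pool.Agent.ZL2 Filter Topology
open Pool.Agent.Z5 (fr Gen ev2)
open Pool.Agent.Z6 (dt)

variable {m : ℕ} [NeZero m]

/-- The limit principle at a point of `Sup`. -/
theorem c1_key {S : Sf m} {U : Ultrafilter ℕ} (Z : Sq S U) {q : (Fin 2 → ℂ) × (Fin m → ℂ)} (hq : q ∈ Z.Sup)
    {Φ : ℕ × ((Fin 2 → ℂ) × (Fin m → ℂ)) → ℝ} {l : ℝ} (hΦ : Tendsto Φ ((U : Filter ℕ) ×ˢ 𝓝 q) (𝓝 l))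
    {O : Set ((Fin 2 → ℂ) × (Fin m → ℂ))} (hO : O ∈ 𝓝 q)
    (h0 : ∀ᶠ n in (U : Filter ℕ), ∀ σ, (Z.x n σ, Z.y n σ) ∈ O → Φ (n, (Z.x n σ, Z.y n σ)) ≤ 0) : l ≤ 0 := by
  by_contra hl
  have h1 := hΦ.eventually (lt_mem_nhds (not_le.1 hl))
  rw [Filter.eventually_prod_iff] at h1
  obtain ⟨pa, hpa, pb, hpb, hab⟩ := h1
  obtain ⟨n, ⟨q1, q2⟩, ⟨σ, q3⟩⟩ := ((hpa.and h0).and (hq (O ∩ {x | pb x}) (Filter.inter_mem hO hpb))).exists
  exact absurd (hab q1 q3.2) (not_lt.2 (q2 σ q3.1))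

omit [NeZero m] in
theorem c1_lg {U : Ultrafilter ℕ} {q : (Fin 2 → ℂ) × (Fin m → ℂ)} (hq2 : ∀ i, q.2 i ≠ 0) :
    Tendsto (fun p : ℕ × ((Fin 2 → ℂ) × (Fin m → ℂ)) => lg p.2.2) ((U : Filter ℕ) ×ˢ 𝓝 q) (𝓝 (lg q.2)) := by
  have h1 : Tendsto (fun z : Fin m → ℂ => lg z) (𝓝 q.2) (𝓝 (lg q.2)) :=
    tendsto_pi_nhds.2 fun i => continuousAt_lg (hq2 i)
  exact h1.comp ((continuous_snd.tendsto q).comp tendsto_snd)

omit [NeZero m] in
theorem c1_lgx {U : Ultrafilter ℕ} {q : (Fin 2 → ℂ) × (Fin m → ℂ)} {j : Fin 2} (hq1 : q.1 j ≠ 0) :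
    Tendsto (fun p : ℕ × ((Fin 2 → ℂ) × (Fin m → ℂ)) => lg p.2.1 j) ((U : Filter ℕ) ×ˢ 𝓝 q) (𝓝 (lg q.1 j)) := by
  have h1 : Tendsto (fun z : Fin 2 → ℂ => lg z j) (𝓝 q.1) (𝓝 (lg q.1 j)) := continuousAt_lg hq1
  exact h1.comp ((continuous_fst.tendsto q).comp tendsto_snd)

theorem c1_u {S : Sf m} {U : Ultrafilter ℕ} (Z : Sq S U) {u' : Fin m → ℝ}
    (hu' : Tendsto Z.u (U : Filter ℕ) (𝓝 u')) {q : (Fin 2 → ℂ) × (Fin m → ℂ)} (hq : q ∈ Z.Sup)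
    (hq2 : ∀ i, q.2 i ≠ 0) : dt u' (lg q.2) = 0 := by
  have h1 : Tendsto (fun p : ℕ × ((Fin 2 → ℂ) × (Fin m → ℂ)) => |Z6.dt (Z.u p.1) (lg p.2.2)|)
      ((U : Filter ℕ) ×ˢ 𝓝 q) (𝓝 |Z6.dt u' (lg q.2)|) :=
    (Z6.c3_dt (hu'.comp tendsto_fst) (c1_lg hq2)).abs
  have h2 := c1_key Z hq h1 Filter.univ_mem (Filter.Eventually.of_forall fun n σ _ => by
    show |Z6.dt (Z.u n) (lg (Z.y n σ))| ≤ 0
    rw [Z.r0 n σ, abs_zero])
  exact abs_nonpos_iff.1 h2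

omit [NeZero m] in
theorem c1_evP_cont (Φ : MvPolynomial (Fin 2) (MvPolynomial (Fin m) ℂ)) :
    Continuous fun p : (Fin 2 → ℂ) × (Fin m → ℂ) => evP Φ p.1 p.2 := by
  have e : (fun p : (Fin 2 → ℂ) × (Fin m → ℂ) => evP Φ p.1 p.2) = fun p =>
      ∑ α ∈ Φ.support, MvPolynomial.eval p.2 (Φ.coeff α) * ∏ j, p.1 j ^ α j := by
    funext p
    unfold evP
    rw [MvPolynomial.eval_map, MvPolynomial.eval₂_eq']
  rw [e]
  refine continuous_finsetSum _ fun α _ => Continuous.mul ?_ ?_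
  · exact (MvPolynomial.continuous_eval _).comp continuous_snd
  · exact continuous_finsetProd _ fun j _ => ((continuous_apply j).comp continuous_fst).pow _

theorem c1_cpt {S : Sf m} {U : Ultrafilter ℕ} (Z : Sq S U) {q : (Fin 2 → ℂ) × (Fin m → ℂ)} (hq : q ∈ Z.Sup)
    (hq2 : ∀ i, q.2 i ≠ 0) : q.2 ∈ S.C := by
  obtain ⟨A, hA⟩ : ∃ A : ℝ, ∀ i, |lg q.2 i| < A := by
    refine ⟨(∑ i, |lg q.2 i|) + 1, fun i => ?_⟩
    have := Finset.single_le_sum (f := fun i => |lg q.2 i|) (fun i _ => abs_nonneg _) (Finset.mem_univ i)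
    linarith
  have hcl : IsClosed {y | y ∈ S.C ∧ ∀ i, |lg y i| ≤ A} := (S.cpt A).isClosed
  have hmem : q.2 ∈ closure {y | y ∈ S.C ∧ ∀ i, |lg y i| ≤ A} := by
    rw [mem_closure_iff_nhds]
    intro V hV
    have h1 : ∀ᶠ y in 𝓝 q.2, y ∈ V ∧ ∀ i, |lg y i| < A := by
      refine Filter.Eventually.and hV (eventually_all.2 fun i => ?_)
      exact ((continuousAt_lg (hq2 i)).abs).eventually (gt_mem_nhds (hA i))
    have h2 := (continuous_snd.tendsto q).eventually h1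
    obtain ⟨n, σ, h3⟩ := (hq _ h2).exists
    exact ⟨Z.y n σ, h3.1, Z.hy n σ, fun i => (h3.2 i).le⟩
  exact (hcl.closure_eq ▸ hmem).1

/-- Row Z7-C1a. Limit points with nonzero coordinates are on the surface and satisfy the limit relations. (`C` is closed there: `S.cpt`; `Φ` is continuous; compare `Z6.sup_rel`.) -/
theorem sup_rel {S : Sf m} {U : Ultrafilter ℕ} (Z : Sq S U) {u' : Fin m → ℝ} {M' : Fin 2 → Fin m → ℝ}
    (hu' : Tendsto Z.u (U : Filter ℕ) (𝓝 u')) (hM' : Tendsto Z.M (U : Filter ℕ) (𝓝 M'))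
    {q : (Fin 2 → ℂ) × (Fin m → ℂ)} (hq : q ∈ Z.Sup) (hq1 : ∀ j, q.1 j ≠ 0) (hq2 : ∀ i, q.2 i ≠ 0) :
    q.2 ∈ S.C ∧ evP S.Φ q.1 q.2 = 0 ∧ dt u' (lg q.2) = 0 ∧ ∀ j, lg q.1 j = dt (M' j) (lg q.2) := by
  refine ⟨c1_cpt Z hq hq2, ?_, c1_u Z hu' hq hq2, fun j => ?_⟩
  · by_contra hne
    have h1 : ∀ᶠ p in 𝓝 q, evP S.Φ p.1 p.2 ≠ 0 := (c1_evP_cont S.Φ).continuousAt.eventually_ne hne
    obtain ⟨n, σ, h3⟩ := (hq _ h1).exists
    exact h3 (Z.hΦ n σ)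
  · have hM0 : Tendsto (fun n => Z.M n j) (U : Filter ℕ) (𝓝 (M' j)) := tendsto_pi_nhds.1 hM' j
    have h1 := ((c1_lgx (U := U) (hq1 j)).sub (Z6.c3_dt (hM0.comp tendsto_fst) (c1_lg hq2))).abs
    have h2 := c1_key Z hq h1 Filter.univ_mem (Filter.Eventually.of_forall fun n σ _ => by
      simp only [Function.comp_apply]
      rw [← Z.r1 n σ j, sub_self, abs_zero])
    have h3 := abs_nonpos_iff.1 h2
    linarith

theorem c1_closed {S : Sf m} {U : Ultrafilter ℕ} (Z : Sq S U) : IsClosed Z.Sup := by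
  rw [← isOpen_compl_iff, isOpen_iff_mem_nhds]
  intro p hp
  have hp' : ¬ ∀ O ∈ 𝓝 p, ∀ᶠ n in (U : Filter ℕ), ∃ σ, (Z.x n σ, Z.y n σ) ∈ O := hp
  push Not at hp'
  obtain ⟨O, hO, h⟩ := hp'
  obtain ⟨O', hO', ho, hpO⟩ := mem_nhds_iff.1 hO
  refine mem_nhds_iff.2 ⟨O', ?_, ho, hpO⟩
  intro q hq hqS
  obtain ⟨n, hn, σ, hσ⟩ := (h.and (hqS O' (ho.mem_nhds hq))).exists
  exact hn σ (hO' hσ)

theorem c1_cover {S : Sf m} {U : Ultrafilter ℕ} (Z : Sq S U) {K : Set ((Fin 2 → ℂ) × (Fin m → ℂ))}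
    (hK : IsCompact K) (hS : ∀ p ∈ K, p ∉ Z.Sup) :
    ∀ᶠ n in (U : Filter ℕ), ∀ σ, (Z.x n σ, Z.y n σ) ∉ K := by
  refine hK.induction_on (p := fun s => ∀ᶠ n in (U : Filter ℕ), ∀ σ, (Z.x n σ, Z.y n σ) ∉ s) ?_ ?_ ?_ ?_
  · exact Eventually.of_forall fun n σ h => h
  · intro s t hst h
    exact h.mono fun n hn σ hσ => hn σ (hst hσ)
  · intro s t h1 h2
    filter_upwards [h1, h2] with n h1 h2 σ hσ
    rcases hσ with h | h
    · exact h1 σ h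
    · exact h2 σ h
  · intro x hx
    have hp' : ¬ ∀ O ∈ 𝓝 x, ∀ᶠ n in (U : Filter ℕ), ∃ σ, (Z.x n σ, Z.y n σ) ∈ O := hS x hx
    push Not at hp'
    obtain ⟨O, hO, h⟩ := hp'
    refine ⟨O, mem_nhdsWithin_of_mem_nhds hO, ?_⟩
    exact h

theorem c1_open {S : Sf m} {U : Ultrafilter ℕ} (Z : Sq S U) {F : Set (Fin m → ℂ)} (hF : F.Finite) {θ : ℝ}
    (hθ : 0 < θ) : ∃ W : Set (Fin m → ℂ), IsOpen W ∧ F ⊆ W ∧
      ∀ᶠ n in (U : Filter ℕ), fr (fun σ => Z.y n σ ∈ W) ≤ θ := by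
  have hθ' : 0 < θ / (hF.toFinset.card + 1) := by positivity
  choose δ hδ0 hδ using fun w : Fin m → ℂ => noatom Z.gen w hθ'
  refine ⟨⋃ w ∈ hF.toFinset, Metric.ball w (δ w), isOpen_biUnion fun w _ => Metric.isOpen_ball,
    fun w hw => Set.mem_biUnion (Finset.mem_coe.2 (hF.mem_toFinset.2 hw)) (Metric.mem_ball_self (hδ0 w)), ?_⟩
  have hall : ∀ᶠ n in (U : Filter ℕ), ∀ w ∈ hF.toFinset,
      fr (fun σ : Z.ι n => ‖Z.y n σ - w‖ < δ w) ≤ θ / (hF.toFinset.card + 1) :=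
    (Filter.eventually_all_finset _).2 fun w _ => hδ w
  filter_upwards [hall] with n hn
  refine (Z5.fr_mono (Q := fun σ => ∃ w ∈ hF.toFinset, ‖Z.y n σ - w‖ < δ w) ?_).trans
    ((Z5.fr_exists hF.toFinset _).trans ?_)
  · intro σ hσ
    obtain ⟨w, hw, h⟩ := Set.mem_iUnion₂.1 hσ
    exact ⟨w, hw, by rwa [Metric.mem_ball, dist_eq_norm] at h⟩
  · refine (Finset.sum_le_sum hn).trans ?_
    rw [Finset.sum_const, nsmul_eq_mul]
    rw [mul_div_assoc', div_le_iff₀ (by positivity)]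
    have : (0 : ℝ) ≤ (hF.toFinset.card : ℝ) := by positivity
    nlinarith

/-- The compact sets of points `(x, y)` used below. -/
def c1K (L : Set (Fin m → ℂ)) (A2 : ℝ) : Set ((Fin 2 → ℂ) × (Fin m → ℂ)) :=
  {p | p.2 ∈ L ∧ ∀ j, Real.exp (-A2) ≤ ‖p.1 j‖ ∧ ‖p.1 j‖ ≤ Real.exp A2}

omit [NeZero m] in
theorem c1K_compact {L : Set (Fin m → ℂ)} (hL : IsCompact L) (A2 : ℝ) : IsCompact (c1K L A2) := by
  have h1 : IsCompact ((Set.pi Set.univ fun _ : Fin 2 => Metric.closedBall (0 : ℂ) (Real.exp A2)) ×ˢ L) :=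
    (isCompact_univ_pi fun _ => isCompact_closedBall _ _).prod hL
  have h2 : IsClosed {p : (Fin 2 → ℂ) × (Fin m → ℂ) | ∀ j, Real.exp (-A2) ≤ ‖p.1 j‖} := by
    rw [Set.ofPred_forall]
    exact isClosed_iInter fun j =>
      isClosed_le continuous_const (((continuous_apply j).comp continuous_fst).norm)
  have h3 : c1K L A2 = ((Set.pi Set.univ fun _ : Fin 2 => Metric.closedBall (0 : ℂ) (Real.exp A2)) ×ˢ L) ∩
      {p : (Fin 2 → ℂ) × (Fin m → ℂ) | ∀ j, Real.exp (-A2) ≤ ‖p.1 j‖} := by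
    ext p
    constructor
    · rintro ⟨h1, h2⟩
      exact ⟨⟨fun j _ => mem_closedBall_zero_iff.2 (h2 j).2, h1⟩, fun j => (h2 j).1⟩
    · rintro ⟨⟨h0, h1⟩, h2⟩
      exact ⟨h1, fun j => ⟨h2 j, mem_closedBall_zero_iff.1 (h0 j (Set.mem_univ j))⟩⟩
  rw [h3]
  exact h1.inter_right h2

theorem c1_mem {S : Sf m} {U : Ultrafilter ℕ} (Z : Sq S U) {A A1 : ℝ} {n : ℕ}
    (hA : ∀ j i, |Z.M n j i| ≤ A) {L : Set (Fin m → ℂ)} (σ : Z.ι n) (hy : Z.y n σ ∈ L)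
    (hK : Z.y n σ ∈ S.KA A1) : (Z.x n σ, Z.y n σ) ∈ c1K L (m * (A * A1)) := by
  refine ⟨hy, fun j => ?_⟩
  refine Z6.c1_exp (Z.hx n σ j) ?_
  have h := Z.r1 n σ j
  have h' : Real.log ‖Z.x n σ j‖ = Z6.dt (Z.M n j) (lg (Z.y n σ)) := h
  rw [h']
  exact Z6.c1_dt (hA j) hK.2

theorem c1_acc {S K : Set ((Fin 2 → ℂ) × (Fin m → ℂ))} (hK : IsCompact K)
    (hinf : ((fun p : (Fin 2 → ℂ) × (Fin m → ℂ) => p.2 0) '' (S ∩ K)).Infinite) (hS : IsClosed S) :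
    ∃ p ∈ S, p ∈ K ∧ ∀ O ∈ 𝓝 p, ∃ q ∈ S, q ∈ O ∧ q.2 0 ≠ p.2 0 := by
  by_contra hcon
  push Not at hcon
  apply hinf
  have hcomp : IsCompact (S ∩ K) := hK.inter_left hS
  have h := hcomp.induction_on
    (p := fun s => ((fun p : (Fin 2 → ℂ) × (Fin m → ℂ) => p.2 0) '' (S ∩ s)).Finite) ?_ ?_ ?_ ?_
  · rwa [← Set.inter_assoc, Set.inter_self] at h
  · simp
  · intro s t hst h
    exact h.subset (Set.image_mono (Set.inter_subset_inter_right _ hst))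
  · intro s t h1 h2
    rw [Set.inter_union_distrib_left, Set.image_union]
    exact h1.union h2
  · intro x hx
    obtain ⟨O, hO, h⟩ := hcon x hx.1 hx.2
    refine ⟨O, mem_nhdsWithin_of_mem_nhds hO, (Set.finite_singleton (x.2 0)).subset ?_⟩
    rintro y ⟨q, ⟨hq, hqO⟩, rfl⟩
    exact h q hq hqO

/-- Row Z7-C1b. Compare `Z6.exists_sup`. `A` with `fr (y ∉ KA A) ≤ 1/8` (`KA_tail`), open balls `O_E` around the finitely many points of `E'` with total `fr ≤ 1/8` (`noatom`), `L = KA A \ O_E` (compact, `S.cpt`). On `KA A` the `|lg x_j|` are bounded by a constant `A2` (`hA`). Given `F`: open balls `O_F` around the points of `F` with total `fr ≤ 1/8`. The compact set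
`T = {(x,y) | y ∈ L \ O_F, |lg x_j| ≤ A2}` contains at least half of each orbit (eventually). Points of `T` outside `Sup` have neighbourhoods avoided by the orbits for eventually all `n` (ultrafilter). If `{p.2 | p ∈ Sup ∩ T}` were finite, balls around these points (`noatom`) and compactness give a contradiction; so it is infinite, the values `p.2 0` are infinitely many (`S.fib`),
and `Sup ∩ T` is compact (`Sup` is closed): there is an accumulation point. -/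
theorem exists_sup {S : Sf m} {U : Ultrafilter ℕ} (Z : Sq S U) {A1 : ℝ} (hA : Z.Bdd A1) {E' : Set (Fin m → ℂ)}
    (hE : E'.Finite) :
    ∃ L : Set (Fin m → ℂ), IsCompact L ∧ L ⊆ S.C ∧ Disjoint L E' ∧ ∀ F : Set (Fin m → ℂ), F.Finite →
      ∃ p ∈ Z.Sup, p.2 ∈ L ∧ p.2 ∉ F ∧ (∀ j, p.1 j ≠ 0) ∧ ∀ O ∈ 𝓝 p, ∃ q ∈ Z.Sup, q ∈ O ∧ q.2 0 ≠ p.2 0 := by
  obtain ⟨W, hWo, hEW, hW⟩ := c1_open Z hE (θ := 1 / 8) (by norm_num)
  have hm : 0 < m := Nat.pos_of_ne_zero (NeZero.ne m)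
  have hm' : (0 : ℝ) < m := by exact_mod_cast hm
  have hA2 : 0 < 4 * m * (|Z.B| + 1) := by positivity
  have hLc : IsCompact (S.KA (4 * m * (|Z.B| + 1)) \ W) := IsCompact.diff (S.cpt _) hWo
  refine ⟨S.KA (4 * m * (|Z.B| + 1)) \ W, hLc, fun y hy => hy.1.1, ?_, ?_⟩
  · rw [Set.disjoint_left]
    exact fun y hy hyE => hy.2 (hEW hyE)
  intro F hF
  obtain ⟨W1, hW1o, hFW1, hW1⟩ := c1_open Z hF (θ := 1 / 8) (by norm_num)
  have hL1 : IsCompact ((S.KA (4 * m * (|Z.B| + 1)) \ W) \ W1) := hLc.diff hW1o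
  have hinf2 : (Prod.snd '' (Z.Sup ∩ c1K ((S.KA (4 * m * (|Z.B| + 1)) \ W) \ W1)
      (m * (A1 * (4 * m * (|Z.B| + 1)))))).Infinite := by
    intro hfin
    obtain ⟨W2, hW2o, hFW2, hW2⟩ := c1_open Z hfin (θ := 1 / 8) (by norm_num)
    have hcomp : IsCompact (c1K ((S.KA (4 * m * (|Z.B| + 1)) \ W) \ W1) (m * (A1 * (4 * m * (|Z.B| + 1))))
        ∩ {p : (Fin 2 → ℂ) × (Fin m → ℂ) | p.2 ∉ W2}) :=
      (c1K_compact hL1 _).inter_right (hW2o.preimage continuous_snd).isClosed_compl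
    have hev := c1_cover Z hcomp (fun p hp hpS => hp.2 (hFW2 ⟨p, ⟨hpS, hp.1⟩, rfl⟩))
    have hfalse : ∀ᶠ n in (U : Filter ℕ), False := by
      filter_upwards [hev, hW, hW1, hW2, hA] with n h1 h2 h3 h4 h5
      have h6 := KA_tail S.toCv (Z.y n) (Z.hy n) Z.B (Z.hB n) hA2
      have h7 : m * (Z.B / (4 * m * (|Z.B| + 1))) ≤ 1 / 4 := by
        rw [← mul_div_assoc, div_le_iff₀ hA2]
        have := le_abs_self Z.B
        nlinarith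
      have h8 : fr (fun _ : Z.ι n => True) ≤ fr (fun σ : Z.ι n => Z.y n σ ∉ S.KA (4 * m * (|Z.B| + 1)) ∨
          (Z.y n σ ∈ W ∨ (Z.y n σ ∈ W1 ∨ Z.y n σ ∈ W2))) := by
        refine Pool.Agent.Z5.fr_mono ?_
        intro σ _
        by_contra hcon
        push Not at hcon
        obtain ⟨ha, hb, hc, hd⟩ := hcon
        exact h1 σ ⟨c1_mem Z h5 σ ⟨⟨ha, hb⟩, hc⟩ ha, hd⟩
      rw [Pool.Agent.Z5.fr_true] at h8
      have h9 := Pool.Agent.Z5.fr_or (fun σ : Z.ι n => Z.y n σ ∉ S.KA (4 * m * (|Z.B| + 1)))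
        (fun σ => Z.y n σ ∈ W ∨ (Z.y n σ ∈ W1 ∨ Z.y n σ ∈ W2))
      have h10 := Pool.Agent.Z5.fr_or (fun σ : Z.ι n => Z.y n σ ∈ W) (fun σ => Z.y n σ ∈ W1 ∨ Z.y n σ ∈ W2)
      have h11 := Pool.Agent.Z5.fr_or (fun σ : Z.ι n => Z.y n σ ∈ W1) (fun σ => Z.y n σ ∈ W2)
      linarith
    exact hfalse.exists.elim fun _ h => h
  have hinf : ((fun p : (Fin 2 → ℂ) × (Fin m → ℂ) => p.2 0) '' (Z.Sup ∩
      c1K ((S.KA (4 * m * (|Z.B| + 1)) \ W) \ W1) (m * (A1 * (4 * m * (|Z.B| + 1)))))).Infinite := by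
    intro hfin
    apply hinf2
    refine (hfin.biUnion fun t _ => S.fib t).subset ?_
    rintro y ⟨p, hp, rfl⟩
    refine Set.mem_biUnion (x := p.2 0) ⟨p, hp, rfl⟩ ?_
    exact ⟨hp.2.1.1.1.1, rfl⟩
  obtain ⟨p, hpS, hpK, hp⟩ := c1_acc (c1K_compact hL1 _) hinf (c1_closed Z)
  refine ⟨p, hpS, hpK.1.1, fun h => hpK.1.2 (hFW1 h), fun j h => ?_, hp⟩
  have h3 := (hpK.2 j).1
  rw [h, norm_zero] at h3
  exact absurd (Real.exp_pos _) (not_lt.2 h3)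

/-- Row Z7-C1c. As `Z6.star`. -/
theorem star {S : Sf m} {U : Ultrafilter ℕ} (Z : Sq S U)
    {u' : Fin m → ℝ} {M' : Fin 2 → Fin m → ℝ} {ε : ℕ → ℝ} (hε0 : ∀ᶠ n in (U : Filter ℕ), 0 < ε n)
    (hε : Tendsto ε (U : Filter ℕ) (𝓝 0)) {u1 : Fin m → ℝ} {M1 : Fin 2 → Fin m → ℝ}
    (h1 : Tendsto (fun n => (ε n)⁻¹ • (Z.u n - u')) (U : Filter ℕ) (𝓝 u1))
    (h2 : Tendsto (fun n => (ε n)⁻¹ • (Z.M n - M')) (U : Filter ℕ) (𝓝 M1))
    {q : (Fin 2 → ℂ) × (Fin m → ℂ)} (hq : q ∈ Z.Sup) (hq2 : ∀ i, q.2 i ≠ 0) {f g : ℂ → ℂ} {f' g' : ℂ}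
    (hf : HasStrictDerivAt f f' (q.2 0)) (hg : HasStrictDerivAt g g' (q.2 0)) (hf' : f' ≠ 0)
    (hf0 : (f (q.2 0)).re = 0) (j : Fin 2) {O : Set ((Fin 2 → ℂ) × (Fin m → ℂ))} (hO : O ∈ 𝓝 q)
    (hfr : ∀ᶠ n in (U : Filter ℕ), ∀ σ, (Z.x n σ, Z.y n σ) ∈ O → (f (Z.y n σ 0)).re = dt u' (lg (Z.y n σ)))
    (hgr : ∀ᶠ n in (U : Filter ℕ), ∀ σ, (Z.x n σ, Z.y n σ) ∈ O →
      (g (Z.y n σ 0)).re = dt (Z.M n j) (lg (Z.y n σ)) - dt (M' j) (lg (Z.y n σ)))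
    (hz : ∀ᶠ t in 𝓝 (q.2 0), (f t).re = 0 → (g t).re = 0) :
    dt (M1 j) (lg q.2) = - (g' / f').re * dt u1 (lg q.2) := by
  have hMj : Tendsto (fun n => ((ε n)⁻¹ • (Z.M n - M')) j) (U : Filter ℕ) (𝓝 (M1 j)) :=
    tendsto_pi_nhds.1 h2 j
  have key : ∀ δ : ℝ, 0 < δ → |Z6.dt (M1 j) (lg q.2) + (g' / f').re * Z6.dt u1 (lg q.2)| ≤
      δ * |Z6.dt u1 (lg q.2)| := by
    intro δ hδ
    have hL := c1_lg (U := U) hq2
    have hD1 := Z6.c3_dt (hMj.comp tendsto_fst) hL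
    have hD2 := Z6.c3_dt (h1.comp tendsto_fst) hL
    have hD := ((hD1.add (hD2.const_mul ((g' / f').re))).abs).sub ((hD2.abs).const_mul δ)
    have hra := Pool.Agent.Z5.ratio hf hg hf' hf0 hz hδ
    have hO2 : {p : (Fin 2 → ℂ) × (Fin m → ℂ) | |(g (p.2 0)).re - (g' / f').re * (f (p.2 0)).re| ≤
        δ * |(f (p.2 0)).re|} ∈ 𝓝 q :=
      (((continuous_apply (0 : Fin m)).comp continuous_snd).tendsto q).eventually hra
    have hkey := c1_key Z hq hD (Filter.inter_mem hO hO2) (by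
      filter_upwards [hε0, hgr, hfr] with n hn hg1 hf1
      rintro σ ⟨q1, q2⟩
      have q4 := hg1 σ q1
      have q3 := hf1 σ q1
      have q5 := Z.r0 n σ
      simp only [Function.comp_apply]
      have q2' : |(g (Z.y n σ 0)).re - (g' / f').re * (f (Z.y n σ 0)).re| ≤ δ * |(f (Z.y n σ 0)).re| := q2
      set y := lg (Z.y n σ) with hy
      have q6 : Z6.dt ((ε n)⁻¹ • (Z.u n - u')) y = - ((ε n)⁻¹ * (f (Z.y n σ 0)).re) := by
        rw [q3]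
        have : Z6.dt ((ε n)⁻¹ • (Z.u n - u')) y = (ε n)⁻¹ * (Z6.dt (Z.u n) y - Z6.dt u' y) := by
          simp only [Z6.dt, Pi.smul_apply, Pi.sub_apply, smul_eq_mul, Finset.mul_sum, ← Finset.sum_sub_distrib]
          exact Finset.sum_congr rfl fun i _ => by ring
        rw [this, q5]; ring
      have q7 : Z6.dt (((ε n)⁻¹ • (Z.M n - M')) j) y = (ε n)⁻¹ * (g (Z.y n σ 0)).re := by
        rw [q4]
        simp only [Z6.dt, Pi.smul_apply, Pi.sub_apply, smul_eq_mul, Finset.mul_sum, ← Finset.sum_sub_distrib]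
        exact Finset.sum_congr rfl fun i _ => by ring
      rw [q6, q7]
      have hi : 0 < (ε n)⁻¹ := inv_pos.2 hn
      have q8 : (ε n)⁻¹ * (g (Z.y n σ 0)).re + (g' / f').re * -((ε n)⁻¹ * (f (Z.y n σ 0)).re) =
          (ε n)⁻¹ * ((g (Z.y n σ 0)).re - (g' / f').re * (f (Z.y n σ 0)).re) := by ring
      rw [q8, abs_neg, abs_mul, abs_mul, abs_of_pos hi]
      have q9 := mul_le_mul_of_nonneg_left q2' hi.le
      linarith)
    linarith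
  have hlim : |Z6.dt (M1 j) (lg q.2) + (g' / f').re * Z6.dt u1 (lg q.2)| ≤ 0 := by
    by_contra hcon
    have hcon := not_le.1 hcon
    have h3 := key (|Z6.dt (M1 j) (lg q.2) + (g' / f').re * Z6.dt u1 (lg q.2)| /
      (2 * (|Z6.dt u1 (lg q.2)| + 1))) (by positivity)
    rw [div_mul_eq_mul_div, le_div_iff₀ (by positivity)] at h3
    nlinarith [abs_nonneg (Z6.dt u1 (lg q.2))]
  have h4 := abs_nonpos_iff.1 hlim
  linarith

end Pool.Agent.Z7
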