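import Pool.Agent.Z6.Defs
import Pool.Agent.Z5.A2

namespace Pool.Agent.Z7

open Pool.Agent.ZL2 Filter Topology
open Pool.Agent.Z5 (fr Gen ev2)
open Pool.Agent.Z6 (dt)

/-- `lg y i = log |y_i|`. -/
noncomputable def lg {ι : Type} (y : ι → ℂ) (i : ι) : ℝ := Real.log ‖y i‖

/-- The value at `(x, y)` of a polynomial in `x` with coefficients in `ℂ[y]`. -/
noncomputable def evP {m : ℕ} (Φ : MvPolynomial (Fin 2) (MvPolynomial (Fin m) ℂ)) (x : Fin 2 → ℂ) (y : Fin m → ℂ) : ℂ :=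
  MvPolynomial.eval x (MvPolynomial.map (MvPolynomial.eval y) Φ)

/-- The data of a curve `C` in the complex torus of dimension `m`, with the coordinate `t = y_0`; `q i` is an equation
between `t` and `y_i`, separable outside the finite set `E`. -/
structure Cv (m : ℕ) [NeZero m] where
  C : Set (Fin m → ℂ)
  E : Set (Fin m → ℂ)
  hE : E.Finite
  q : Fin m → Polynomial (Polynomial ℂ)
  hq0 : ∀ i, q i ≠ 0
  ne : ∀ y ∈ C, ∀ i, y i ≠ 0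
  hq : ∀ y ∈ C, ∀ i, ev2 (q i) (y 0) (y i) = 0
  sep : ∀ y ∈ C, y ∉ E → ∀ i, ev2 (Polynomial.derivative (q i)) (y 0) (y i) ≠ 0
  cpt : ∀ A : ℝ, IsCompact {y | y ∈ C ∧ ∀ i, |lg y i| ≤ A}
  irr : ∀ P : MvPolynomial (Fin m) ℂ, {y | y ∈ C ∧ MvPolynomial.eval y P = 0}.Infinite →
    ∀ y ∈ C, MvPolynomial.eval y P = 0
  fib : ∀ t : ℂ, {y | y ∈ C ∧ y 0 = t}.Finite
  mon : ∀ v : Fin m → ℤ, v ≠ 0 → ∀ z : ℂ, {y | y ∈ C ∧ ∏ i, y i ^ v i = z}.Finite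

/-- Condition (H): the points with two independent real relations do not accumulate at a point of `C` outside `E`. -/
def HHp {m : ℕ} [NeZero m] (D : Cv m) : Prop :=
  ∀ u v : Fin m → ℝ, LinearIndependent ℝ ![u, v] → ∀ y0 ∈ D.C, y0 ∉ D.E →
    ∃ O ∈ 𝓝 y0, ∀ y ∈ O, y ∈ D.C → dt u (lg y) = 0 → dt v (lg y) = 0 → y = y0

/-- The data of a surface `Φ(x, y) = 0`, `y ∈ C`. -/
structure Sf (m : ℕ) [NeZero m] extends Cv m where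
  Φ : MvPolynomial (Fin 2) (MvPolynomial (Fin m) ℂ)
  nd : ∀ j : Fin 2, ∃ α ∈ Φ.support, α j = 0
  coef : ∀ y ∈ C, y ∉ E → ∀ α ∈ Φ.support, MvPolynomial.eval y (Φ.coeff α) ≠ 0
  nrec : ∀ y ∈ C, y ∉ E → ∀ r : Fin 2 → ℝ, (∀ j, 0 < r j) →
    {x : Fin 2 → ℂ | (∀ j, x j ≠ 0) ∧ evP Φ x y = 0 ∧
      evP Φ (fun j => (r j : ℂ) / (starRingEnd ℂ) (x j)) y = 0}.Finite

variable {m : ℕ} [NeZero m]

/-- The compact sets `|log |y_i|| ≤ A` of the curve. -/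
def Cv.KA (D : Cv m) (A : ℝ) : Set (Fin m → ℂ) := {y | y ∈ D.C ∧ ∀ i, |lg y i| ≤ A}

/-- A sequence of Galois orbits of points `(x, y)` of the surface with the relations `u · log |y| = 0`,
`log |x_j| = M_j · log |y|`. -/
structure Sq (S : Sf m) (U : Ultrafilter ℕ) where
  ι : ℕ → Type
  fin : ∀ n, Fintype (ι n)
  ne : ∀ n, Nonempty (ι n)
  x : ∀ n, ι n → Fin 2 → ℂ
  y : ∀ n, ι n → Fin m → ℂ
  u : ℕ → Fin m → ℝ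
  M : ℕ → Fin 2 → Fin m → ℝ
  B : ℝ
  κ : ℝ
  hx : ∀ n σ j, x n σ j ≠ 0
  hy : ∀ n σ, y n σ ∈ S.C
  hyE : ∀ n σ, y n σ ∉ S.E
  hΦ : ∀ n σ, evP S.Φ (x n σ) (y n σ) = 0
  hu : ∀ n, dt (u n) (u n) = 1
  hM : ∀ n j, dt (M n j) (u n) = 0
  r0 : ∀ n σ, dt (u n) (lg (y n σ)) = 0
  r1 : ∀ n σ j, lg (x n σ) j = dt (M n j) (lg (y n σ))
  hB : ∀ n i, ∑ σ, |lg (y n σ) i| ≤ B * Fintype.card (ι n)
  hφ : ∀ n, ∀ α ∈ S.Φ.support, ∑ σ, |Real.log ‖MvPolynomial.eval (y n σ) (S.Φ.coeff α)‖| ≤ B * Fintype.card (ι n)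
  gen : Gen (k := 1) (U : Filter ℕ) κ (fun n σ _ => y n σ 0)

attribute [instance] Sq.fin Sq.ne

/-- `|M| ≤ A` eventually. -/
def Sq.Bdd {S : Sf m} {U : Ultrafilter ℕ} (Z : Sq S U) (A : ℝ) : Prop :=
  ∀ᶠ n in (U : Filter ℕ), ∀ j i, |Z.M n j i| ≤ A

/-- The limit points of the orbits. -/
def Sq.Sup {S : Sf m} {U : Ultrafilter ℕ} (Z : Sq S U) : Set ((Fin 2 → ℂ) × (Fin m → ℂ)) :=
  {p | ∀ O ∈ 𝓝 p, ∀ᶠ n in (U : Filter ℕ), ∃ σ, (Z.x n σ, Z.y n σ) ∈ O}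

/-- The row of the direction `α - β`. -/
def rwd (M : Fin 2 → Fin m → ℝ) (α β : Fin 2 →₀ ℕ) : Fin m → ℝ :=
  fun i => ∑ j, ((α j : ℝ) - (β j : ℝ)) * M j i

/-- A local parametrisation of the curve near the point `y0`, by `t = y_0` in the ball of radius `ρ`. -/
structure Chart (D : Cv m) (y0 : Fin m → ℂ) (ρ : ℝ) (η ℓ : Fin m → ℂ → ℂ) : Prop where
  pos : 0 < ρ
  base : ∀ i, η i (y0 0) = y0 i
  id0 : ∀ t ∈ Metric.ball (y0 0) ρ, η 0 t = t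
  diff : ∀ i, DifferentiableOn ℂ (η i) (Metric.ball (y0 0) ρ)
  ne : ∀ i, ∀ t ∈ Metric.ball (y0 0) ρ, η i t ≠ 0
  eq : ∀ i, ∀ t ∈ Metric.ball (y0 0) ρ, ev2 (D.q i) t (η i t) = 0
  der : ∀ i, ∀ t ∈ Metric.ball (y0 0) ρ, HasDerivAt (ℓ i) (deriv (η i) t / η i t) t
  exp : ∀ i, ∀ t ∈ Metric.ball (y0 0) ρ, Complex.exp (ℓ i t) = η i t
  uniq : ∀ᶠ y in 𝓝 y0, y ∈ D.C → y 0 ∈ Metric.ball (y0 0) ρ ∧ ∀ i, y i = η i (y 0)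

theorem Chart.re_eq {D : Cv m} {y0 : Fin m → ℂ} {ρ : ℝ} {η ℓ : Fin m → ℂ → ℂ} (h : Chart D y0 ρ η ℓ) (i : Fin m)
    {t : ℂ} (ht : t ∈ Metric.ball (y0 0) ρ) : (ℓ i t).re = lg (fun i => η i t) i := by
  show (ℓ i t).re = Real.log ‖η i t‖
  rw [← h.exp i t ht, Complex.norm_exp, Real.log_exp]

end Pool.Agent.Z7
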