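import Pool.Agent.Z7.K0
import Pool.Agent.Z7.A4
import Pool.Agent.Z7.B4
import Pool.Agent.Z6.E2

namespace Pool.Agent.Z7

open Pool.Agent.ZL2 Filter Topology
open Pool.Agent.Z5 (fr Gen ev2 sum_le_hh bp_ineq)
open Pool.Agent.Z6 (dt)

variable {F : Type} [Field F] [NumberField F] [Algebra F ℂ] {m : ℕ} [NeZero m] {S : Sf m}

theorem e2_laurent {ι : Type} (s : Finset ι) (c : ι → ℂ) (k : ι → ℤ)
    (h : {q : ℂ | q ≠ 0 ∧ ∑ a ∈ s, c a * q ^ k a = 0}.Infinite) (q : ℂ) (hq : q ≠ 0) :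
    ∑ a ∈ s, c a * q ^ k a = 0 := by
  obtain ⟨N, hN⟩ : ∃ N : ℕ, ∀ a ∈ s, 0 ≤ k a + N := by
    refine ⟨∑ a ∈ s, (k a).natAbs, fun a ha => ?_⟩
    have := Finset.single_le_sum (f := fun a => (k a).natAbs) (fun _ _ => Nat.zero_le _) ha
    omega
  set P : Polynomial ℂ := ∑ a ∈ s, Polynomial.C (c a) * Polynomial.X ^ (k a + N).toNat with hPdef
  have hP : ∀ q : ℂ, q ≠ 0 → P.eval q = q ^ N * ∑ a ∈ s, c a * q ^ k a := by
    intro q hq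
    rw [hPdef, Polynomial.eval_finsetSum, Finset.mul_sum]
    refine Finset.sum_congr rfl fun a ha => ?_
    rw [Polynomial.eval_mul, Polynomial.eval_C, Polynomial.eval_pow, Polynomial.eval_X]
    have : q ^ (k a + N).toNat = q ^ N * q ^ k a := by
      rw [← zpow_natCast, Int.toNat_of_nonneg (hN a ha), zpow_add₀ hq, zpow_natCast, mul_comm]
    rw [this]; ring
  have hP0 : P = 0 := Polynomial.eq_zero_of_infinite_isRoot P (h.mono fun q hq => by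
    show P.eval q = 0
    rw [hP q hq.1, hq.2, mul_zero])
  have h1 := hP q hq
  rw [hP0, Polynomial.eval_zero] at h1
  exact (mul_eq_zero.1 h1.symm).resolve_left (pow_ne_zero _ hq)

omit [NeZero m] in
theorem e2_evP (Φ : MvPolynomial (Fin 2) (MvPolynomial (Fin m) ℂ)) (x : Fin 2 → ℂ) (y : Fin m → ℂ) :
    evP Φ x y = ∑ α ∈ Φ.support, MvPolynomial.eval y (Φ.coeff α) * ∏ i, x i ^ α i := by
  unfold evP
  rw [MvPolynomial.eval_map, MvPolynomial.eval₂_eq']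

/-- The point with the parameter `q` on the coset. -/
noncomputable def e2_pt (a1 b1 a2 b2 : ℤ) (p q : ℂ) : Fin 2 → ℂ :=
  ![p ^ b2 * q ^ (-b1), p ^ (-a2) * q ^ a1]

theorem e2_pt_ne {a1 b1 a2 b2 : ℤ} {p q : ℂ} (hp : p ≠ 0) (hq : q ≠ 0) (i : Fin 2) : e2_pt a1 b1 a2 b2 p q i ≠ 0 := by
  fin_cases i
  · exact mul_ne_zero (zpow_ne_zero _ hp) (zpow_ne_zero _ hq)
  · exact mul_ne_zero (zpow_ne_zero _ hp) (zpow_ne_zero _ hq)

theorem e2_pt_pow {a1 b1 a2 b2 : ℤ} {p q : ℂ} (hp : p ≠ 0) (hq : q ≠ 0) (α : Fin 2 →₀ ℕ) :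
    ∏ i, e2_pt a1 b1 a2 b2 p q i ^ α i =
      p ^ (b2 * (α 0 : ℤ) - a2 * (α 1 : ℤ)) * q ^ (- b1 * (α 0 : ℤ) + a1 * (α 1 : ℤ)) := by
  rw [Fin.prod_univ_two]
  show (p ^ b2 * q ^ (-b1)) ^ α 0 * (p ^ (-a2) * q ^ a1) ^ α 1 = _
  rw [mul_pow, mul_pow, sub_eq_add_neg, zpow_add₀ hp, zpow_add₀ hq, ← zpow_natCast, ← zpow_natCast,
    ← zpow_natCast, ← zpow_natCast, ← zpow_mul, ← zpow_mul, ← zpow_mul, ← zpow_mul]
  have h1 : -(a2 * (α 1 : ℤ)) = -a2 * (α 1 : ℤ) := by ring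
  rw [h1]
  ring

theorem e2_pt_eq {a1 b1 a2 b2 : ℤ} (hab : a1 * b2 - a2 * b1 = 1) {x : Fin 2 → ℂ} (hx : ∀ i, x i ≠ 0) :
    e2_pt a1 b1 a2 b2 (x 0 ^ a1 * x 1 ^ b1) (x 0 ^ a2 * x 1 ^ b2) = x := by
  funext i
  fin_cases i
  · show (x 0 ^ a1 * x 1 ^ b1) ^ b2 * (x 0 ^ a2 * x 1 ^ b2) ^ (-b1) = x 0
    rw [mul_zpow, mul_zpow, ← zpow_mul, ← zpow_mul, ← zpow_mul, ← zpow_mul]
    have h : x 0 ^ (a1 * b2) * x 1 ^ (b1 * b2) * (x 0 ^ (a2 * -b1) * x 1 ^ (b2 * -b1)) =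
        (x 0 ^ (a1 * b2) * x 0 ^ (a2 * -b1)) * (x 1 ^ (b1 * b2) * x 1 ^ (b2 * -b1)) := by ring
    rw [h, ← zpow_add₀ (hx 0), ← zpow_add₀ (hx 1)]
    have h1 : a1 * b2 + a2 * -b1 = 1 := by linarith
    have h2 : b1 * b2 + b2 * -b1 = 0 := by ring
    rw [h1, h2, zpow_one, zpow_zero, mul_one]
  · show (x 0 ^ a1 * x 1 ^ b1) ^ (-a2) * (x 0 ^ a2 * x 1 ^ b2) ^ a1 = x 1
    rw [mul_zpow, mul_zpow, ← zpow_mul, ← zpow_mul, ← zpow_mul, ← zpow_mul]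
    have h : x 0 ^ (a1 * -a2) * x 1 ^ (b1 * -a2) * (x 0 ^ (a2 * a1) * x 1 ^ (b2 * a1)) =
        (x 0 ^ (a1 * -a2) * x 0 ^ (a2 * a1)) * (x 1 ^ (b1 * -a2) * x 1 ^ (b2 * a1)) := by ring
    rw [h, ← zpow_add₀ (hx 0), ← zpow_add₀ (hx 1)]
    have h1 : a1 * -a2 + a2 * a1 = 0 := by ring
    have h2 : b1 * -a2 + b2 * a1 = 1 := by linarith
    rw [h1, h2, zpow_one, zpow_zero, one_mul]

theorem e2_conj {w v : ℂ} (hw : w ≠ 0) :
    (((‖w‖ ^ 2 : ℝ)) : ℂ) / (starRingEnd ℂ) (w * v) = w * ((starRingEnd ℂ) v)⁻¹ := by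
  have h1 : (((‖w‖ ^ 2 : ℝ)) : ℂ) = w * (starRingEnd ℂ) w := by
    rw [Complex.mul_conj']
    push_cast
    rfl
  have h2 : (starRingEnd ℂ) w ≠ 0 := (map_ne_zero _).2 hw
  rw [h1, map_mul, div_eq_mul_inv, mul_inv]
  field_simp

theorem e2_inv {a1 b1 a2 b2 : ℤ} {p q : ℂ} (hp : p ≠ 0) (j : Fin 2) :
    (((‖e2_pt a1 b1 a2 b2 p 1 j‖ ^ 2 : ℝ)) : ℂ) / (starRingEnd ℂ) (e2_pt a1 b1 a2 b2 p q j) =
      e2_pt a1 b1 a2 b2 p ((starRingEnd ℂ) q)⁻¹ j := by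
  fin_cases j
  · show (((‖p ^ b2 * (1 : ℂ) ^ (-b1)‖ ^ 2 : ℝ)) : ℂ) / (starRingEnd ℂ) (p ^ b2 * q ^ (-b1)) =
      p ^ b2 * ((starRingEnd ℂ) q)⁻¹ ^ (-b1)
    rw [one_zpow, mul_one, e2_conj (zpow_ne_zero _ hp), map_zpow₀, inv_zpow]
  · show (((‖p ^ (-a2) * (1 : ℂ) ^ a1‖ ^ 2 : ℝ)) : ℂ) / (starRingEnd ℂ) (p ^ (-a2) * q ^ a1) =
      p ^ (-a2) * ((starRingEnd ℂ) q)⁻¹ ^ a1
    rw [one_zpow, mul_one, e2_conj (zpow_ne_zero _ hp), map_zpow₀, inv_zpow]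

theorem e2_prim (S : Sf m) {y : Fin m → ℂ} (hy : y ∈ S.C) (hyE : y ∉ S.E) {a1 b1 a2 b2 : ℤ}
    (hab : a1 * b2 - a2 * b1 = 1) (p : ℂ) :
    {x : Fin 2 → ℂ | (∀ i, x i ≠ 0) ∧ x 0 ^ a1 * x 1 ^ b1 = p ∧ evP S.Φ x y = 0}.Finite := by
  by_contra hinf
  have hinf' : {x : Fin 2 → ℂ | (∀ i, x i ≠ 0) ∧ x 0 ^ a1 * x 1 ^ b1 = p ∧ evP S.Φ x y = 0}.Infinite := hinf
  have hp : p ≠ 0 := by
    obtain ⟨x, hx, hxp, -⟩ := hinf'.nonempty
    rw [← hxp]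
    exact mul_ne_zero (zpow_ne_zero _ (hx 0)) (zpow_ne_zero _ (hx 1))
  set g : (Fin 2 → ℂ) → ℂ := fun x => x 0 ^ a2 * x 1 ^ b2 with hg
  have hpt : ∀ x ∈ {x : Fin 2 → ℂ | (∀ i, x i ≠ 0) ∧ x 0 ^ a1 * x 1 ^ b1 = p ∧ evP S.Φ x y = 0},
      e2_pt a1 b1 a2 b2 p (g x) = x := by
    rintro x ⟨hx, hxp, -⟩
    rw [← hxp]
    exact e2_pt_eq hab hx
  have hg0 : ∀ x : Fin 2 → ℂ, (∀ i, x i ≠ 0) → g x ≠ 0 := fun x hx =>
    mul_ne_zero (zpow_ne_zero _ (hx 0)) (zpow_ne_zero _ (hx 1))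
  have hinj : Set.InjOn g {x : Fin 2 → ℂ | (∀ i, x i ≠ 0) ∧ x 0 ^ a1 * x 1 ^ b1 = p ∧ evP S.Φ x y = 0} := by
    intro x hx x' hx' h
    rw [← hpt x hx, ← hpt x' hx', h]
  have hev : ∀ q : ℂ, q ≠ 0 → evP S.Φ (e2_pt a1 b1 a2 b2 p q) y =
      ∑ α ∈ S.Φ.support, (MvPolynomial.eval y (S.Φ.coeff α) * p ^ (b2 * (α 0 : ℤ) - a2 * (α 1 : ℤ))) *
        q ^ (- b1 * (α 0 : ℤ) + a1 * (α 1 : ℤ)) := by
    intro q hq
    rw [e2_evP]
    refine Finset.sum_congr rfl fun α _ => ?_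
    rw [e2_pt_pow hp hq]
    ring
  have hall : ∀ q : ℂ, q ≠ 0 → evP S.Φ (e2_pt a1 b1 a2 b2 p q) y = 0 := by
    intro q hq
    rw [hev q hq]
    refine e2_laurent _ _ _ ?_ q hq
    refine (hinf'.image hinj).mono ?_
    rintro _ ⟨x, hx, rfl⟩
    refine ⟨hg0 x hx.1, ?_⟩
    rw [← hev _ (hg0 x hx.1), hpt x hx]
    exact hx.2.2
  refine hinf' ((S.nrec y hy hyE (fun j => ‖e2_pt a1 b1 a2 b2 p 1 j‖ ^ 2) fun j =>
    pow_pos (norm_pos_iff.2 (e2_pt_ne hp one_ne_zero j)) 2).subset ?_)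
  rintro x hx
  refine ⟨hx.1, hx.2.2, ?_⟩
  have h1 : (fun j => ((((fun j => ‖e2_pt a1 b1 a2 b2 p 1 j‖ ^ 2) j : ℝ)) : ℂ) / (starRingEnd ℂ) (x j)) =
      e2_pt a1 b1 a2 b2 p ((starRingEnd ℂ) (g x))⁻¹ := by
    funext j
    have h2 := e2_inv (a1 := a1) (b1 := b1) (a2 := a2) (b2 := b2) (q := g x) hp j
    rw [hpt x hx] at h2
    exact h2
  rw [h1]
  exact hall _ (inv_ne_zero ((map_ne_zero _).2 (hg0 x hx.1)))

/-- Row Z7-E2a. A monomial `x^e`, `e ≠ 0`, takes every value finitely often on a fibre. PROOF. `z ≠ 0` (otherwise empty). `{x^e = z}` is a finite union of cosets `{x^e1 = p}`, `e = d e1`, `e1` primitive, `p^d = z`; on such a coset, parametrised by `q ∈ ℂ^×` (`x_0 = p^b2 q^(-b1)`, `x_1 = p^(-a2) q^a1`), `Φ(x, y)` times a power of `q` is a polynomial in `q`;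
if it has infinitely many zeros then the whole coset is contained in `Φ = 0`. Take a point `x*` of the coset and `r j = ‖x* j‖^2`: for `x` in the coset `r / conj x` is in the coset (`r^e1 = |p|^2`), so `nrec` fails. -/
theorem coset_fin (S : Sf m) {y : Fin m → ℂ} (hy : y ∈ S.C) (hyE : y ∉ S.E) {e : Fin 2 → ℤ} (he : e ≠ 0) (z : ℂ) :
    {x : Fin 2 → ℂ | (∀ i, x i ≠ 0) ∧ ∏ i, x i ^ e i = z ∧ evP S.Φ x y = 0}.Finite := by
  have hgcd : 0 < Int.gcd (e 0) (e 1) := by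
    rw [Int.gcd_pos_iff]
    by_contra h
    push Not at h
    apply he
    funext i
    fin_cases i
    · exact h.1
    · exact h.2
  obtain ⟨a1, b1, hco, h0, h1⟩ := Int.exists_gcd_one hgcd
  obtain ⟨u, v, huv⟩ := Int.isCoprime_iff_gcd_eq_one.2 hco
  set d := Int.gcd (e 0) (e 1) with hd
  have hab : a1 * u - (-v) * b1 = 1 := by linarith
  have hroots : {p : ℂ | p ^ d = z}.Finite := by
    refine (Finset.finite_toSet (Polynomial.nthRoots d z).toFinset).subset ?_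
    intro p hp
    rw [Finset.mem_coe, Multiset.mem_toFinset, Polynomial.mem_nthRoots hgcd]
    exact hp
  refine (hroots.biUnion fun p _ => e2_prim S hy hyE hab p).subset ?_
  rintro x ⟨hx, hxz, hx0⟩
  rw [Set.mem_iUnion₂]
  refine ⟨x 0 ^ a1 * x 1 ^ b1, ?_, hx, rfl, hx0⟩
  show (x 0 ^ a1 * x 1 ^ b1) ^ d = z
  rw [← hxz, Fin.prod_univ_two, mul_pow, ← zpow_natCast, ← zpow_natCast, ← zpow_mul, ← zpow_mul, ← h0, ← h1]

/-- Row Z7-E2b. `x_bound` (row R0) with `s = S.Φ.support`, `e = α - β`, `φ = A.co n`, `hfin` from `coset_fin` (`evP S.Φ x y = ∑_{α ∈ support} eval y (coeff α) * ∏ x^α`, `map_co`); `lv p (x^(α - β)) = ∑_i rwd (M n) α β i * lv p (y n i)`, so its height is at most `A0 * m * B0 * finrank` (`Z6.n2_row`-like). -/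
theorem ArM.hh_x (A : ArM F S) {α β : Fin 2 →₀ ℕ} (hα : α ∈ S.Φ.support) (hβ : β ∈ S.Φ.support) (hne : α ≠ β) (A0 : ℝ) :
    ∃ C0 : ℝ, 0 ≤ C0 ∧ ∀ n, ∑ i, |rwd (A.M n) α β i| ≤ A0 →
      ∀ j, hh (A.x n j) ≤ C0 * Module.finrank ℚ (A.K n) := by
  classical
  set e : Fin 2 → ℤ := fun i => (α i : ℤ) - (β i : ℤ) with he
  have he0 : e ≠ 0 := by
    intro h
    apply hne
    ext i
    have h1 : (α i : ℤ) - (β i : ℤ) = 0 := congrFun h i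
    omega
  obtain ⟨C, hC, h⟩ := x_bound S.Φ.support e he0
  have hB0 := A.hB0.1
  refine ⟨C * (S.Φ.support.card * A.B0 + (m * |A0| * |A.B0| + 0) + 1), by positivity, fun n hn j => ?_⟩
  have hD : (0 : ℝ) ≤ (Module.finrank ℚ (A.K n) : ℝ) := Nat.cast_nonneg _
  obtain ⟨hb1, hb2⟩ := A.hB0.2 n (A.u n) (A.hu n) (A.r0 n)
  have hsum : ∑ a ∈ S.Φ.support, A.co n a * ∏ i, A.x n i ^ a i = 0 := by
    apply (A.j n : A.K n →+* ℂ).injective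
    rw [map_zero]
    have h1 := A.hP n (A.j n)
    rw [e2_evP] at h1
    rw [← h1, map_sum]
    refine Finset.sum_congr rfl fun a _ => ?_
    rw [map_mul, map_prod, ← A.map_co n (A.j n) a]
    simp only [map_pow]
    rfl
  have hfin : ∀ z : ℂ, {x : Fin 2 → ℂ | (∀ i, x i ≠ 0) ∧ ∏ i, x i ^ e i = z ∧
      ∑ a ∈ S.Φ.support, (A.j n : A.K n →+* ℂ) (A.co n a) * ∏ i, x i ^ a i = 0}.Finite := by
    intro z
    refine (coset_fin S (A.hy n (A.j n)) (A.hyE n (A.j n)) he0 z).subset ?_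
    rintro x ⟨h1, h2, h3⟩
    refine ⟨h1, h2, ?_⟩
    rw [e2_evP, ← h3]
    refine Finset.sum_congr rfl fun a _ => ?_
    rw [← A.map_co n (A.j n) a]
    rfl
  have h2 := h (A.K n) (A.j n : A.K n →+* ℂ) (A.co n) (A.x n) (A.hx n) hsum hfin j
  have h3 : ∑ a ∈ S.Φ.support, hh (A.co n a) ≤ S.Φ.support.card * A.B0 * Module.finrank ℚ (A.K n) := by
    refine (Finset.sum_le_sum fun a ha => hb2 a ha).trans (le_of_eq ?_)
    rw [Finset.sum_const, nsmul_eq_mul, mul_assoc]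
  have h4 : hh (∏ i, A.x n i ^ e i) ≤ (m * |A0| * |A.B0| + 0) * Module.finrank ℚ (A.K n) := by
    refine Z6.n2_row (e := 1) (r := rwd (A.M n) α β) (Finset.prod_ne_zero_iff.2 fun i _ => zpow_ne_zero _ (A.hx n i)) one_ne_zero
      (A.y_ne n) hn hb1 (by rw [Z5.n2_hh_one, zero_mul]) ?_
    intro p
    rw [Fin.prod_univ_two, lv_mul p (zpow_ne_zero _ (A.hx n 0)) (zpow_ne_zero _ (A.hx n 1)), lv_zpow, lv_zpow,
      A.r1 n p 0, A.r1 n p 1, lv_one, add_zero, Finset.mul_sum, Finset.mul_sum, ← Finset.sum_add_distrib]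
    refine Finset.sum_congr rfl fun i _ => ?_
    unfold rwd
    rw [Fin.sum_univ_two]
    simp only [he]
    push_cast
    ring
  refine h2.trans ?_
  rw [mul_assoc]
  refine mul_le_mul_of_nonneg_left ?_ hC
  rw [add_mul, add_mul, one_mul]
  linarith

/-- Row Z7-E2c. `bddM` with `hh_x` and `sum_le_hh` as in `Z6.ArM.bdd`. -/
theorem ArM.bdd (A : ArM F S) (U : Ultrafilter ℕ) (hU : (U : Filter ℕ) ≤ cofinite) : ∃ A0, (A.sq U hU).Bdd A0 := by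
  refine bddM A.hm A.hH (A.sq U hU) ?_
  intro α hα β hβ hne A0
  obtain ⟨C0, hC, h⟩ := A.hh_x hα hβ hne A0
  refine ⟨2 * C0 * (Module.finrank ℚ F : ℝ), fun n hn j => ?_⟩
  exact sum_le_hh (F := F) (A.hx n j) (h n hn j)

/-- Row Z7-E2d. As `Z6.ArM.exists_eq`, for each of the coordinates `x_j` (`hh (x n j) ≤ m A0 B0 finrank` directly from `r1` and the bounded `M`; `core1` of row B4). -/
theorem ArM.exists_eq (A : ArM F S) (U : Ultrafilter ℕ) (hU : (U : Filter ℕ) ≤ cofinite) (j : Fin 2) :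
    ∃ (L : ℕ) (f : (Fin 2 → Fin (L + 1)) → ℤ), f ≠ 0 ∧
      ∀ᶠ n in (U : Filter ℕ), ev f ![A.x n j, A.y n 0] = 0 := by
  by_contra hcon
  obtain ⟨A0, hA0⟩ := A.bdd U hU
  have hX : ∀ᶠ n in (U : Filter ℕ), hh (A.x n j) ≤ (m * |m * A0| * |A.B0| + 0) * Module.finrank ℚ (A.K n) := by
    filter_upwards [hA0] with n hn
    refine Z6.n2_row (e := 1) (r := A.M n j) (A.hx n j) one_ne_zero (A.y_ne n) ?_
      (A.hB0.2 n (A.u n) (A.hu n) (A.r0 n)).1 (by rw [Z5.n2_hh_one, zero_mul]) ?_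
    · calc ∑ i, |A.M n j i| ≤ ∑ _i : Fin m, A0 := Finset.sum_le_sum fun i _ => hn j i
        _ = m * A0 := by simp
    · intro p
      rw [A.r1 n p j, lv_one, add_zero]
  obtain ⟨B0, hB⟩ : ∃ B0 : ℝ, B0 = max (m * |m * A0| * |A.B0| + 0) A.B0 := ⟨_, rfl⟩
  have hG : Gen (k := 2) (U : Filter ℕ)
      ((Module.finrank ℚ F : ℝ) * (((2 : ℕ) : ℝ) * B0 + (((2 : ℕ) : ℝ) + 1) * Real.log 2))
      (fun n (σ : A.K n →ₐ[F] ℂ) => ![σ (A.x n j), σ (A.y n 0)]) := by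
    intro L f hL hf hfB C' hC'
    have hev : ∀ᶠ n in (U : Filter ℕ), ev f ![A.x n j, A.y n 0] ≠ 0 := by
      have h : ∀ᶠ n in (U : Filter ℕ), ¬ (ev f ![A.x n j, A.y n 0] = 0) :=
        Ultrafilter.eventually_not.2 fun h => hcon ⟨L, f, hf, h⟩
      exact h
    filter_upwards [hX, hev] with n h1 h3
    have hDn : (0 : ℝ) ≤ (Module.finrank ℚ (A.K n) : ℝ) := Nat.cast_nonneg _
    have key := bp_ineq (F := F) (K := A.K n) hL f hfB ![A.x n j, A.y n 0] (by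
      intro l
      fin_cases l
      · exact A.hx n j
      · exact A.y_ne n 0) (B := B0) (by
      intro l
      fin_cases l
      · refine h1.trans (mul_le_mul_of_nonneg_right ?_ hDn)
        rw [hB]
        exact le_max_left _ _
      · refine ((A.hB0.2 n (A.u n) (A.hu n) (A.r0 n)).1 0).trans (mul_le_mul_of_nonneg_right ?_ hDn)
        rw [hB]
        exact le_max_right _ _) h3 hC'
    have e : ∀ σ : A.K n →ₐ[F] ℂ, (![σ (A.x n j), σ (A.y n 0)] : Fin 2 → ℂ) =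
        fun l => σ ((![A.x n j, A.y n 0] : Fin 2 → A.K n) l) := by
      intro σ
      funext l
      fin_cases l <;> rfl
    simp only [e]
    exact key
  exact core1 (A.sq U hU) hA0 j hG

end Pool.Agent.Z7
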