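import Pool.Agent.Z7.K0
import Pool.Agent.Z6.E4

namespace Pool.Agent.Z7

open Pool.Agent.ZL2 Filter Topology Polynomial
open Pool.Agent.Z5 (fr Gen ev2 e4_pol e4_pol_ne e4_phi e4_phi_pol e4_bezout e4_psi e4_psi_inj e4_ev2 e4_ev2_eq e4_ev2_map)

variable {F : Type} [Field F] [NumberField F] [Algebra F ℂ] {m : ℕ} [NeZero m] {S : Sf m}

theorem e4_finite (A : Ar F S) {r : F[X]} (hr : r ≠ 0) : {n | aeval (A.y n 0) r = 0}.Finite := by
  have h1 : ((r.map (algebraMap F ℂ)).roots.toFinset : Set ℂ).Finite := Finset.finite_toSet _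
  have h2 : (⋃ t ∈ ((r.map (algebraMap F ℂ)).roots.toFinset : Set ℂ), {y | y ∈ S.C ∧ y 0 = t}).Finite :=
    h1.biUnion fun t _ => S.fib t
  refine (h2.preimage (f := fun n i => A.j n (A.y n i)) A.inj.injOn).subset ?_
  intro n hn
  have hn' : aeval (A.y n 0) r = 0 := hn
  show (fun i => A.j n (A.y n i)) ∈ (⋃ t ∈ ((r.map (algebraMap F ℂ)).roots.toFinset : Set ℂ), {y | y ∈ S.C ∧ y 0 = t})
  rw [Set.mem_iUnion₂]
  refine ⟨A.j n (A.y n 0), ?_, A.hy n (A.j n), rfl⟩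
  rw [Finset.mem_coe, Multiset.mem_toFinset, mem_roots ((Polynomial.map_ne_zero_iff (algebraMap F ℂ).injective).2 hr),
    IsRoot.def, eval_map_algebraMap, aeval_algHom_apply, hn', map_zero]

/-- Row Z7-E4. As `Z6.Ar.exists_G` for the pair `(x n j, y n 0)` (`n ↦ j n (y n 0)` takes every value finitely often: `S.fib`, `inj`). -/
theorem Ar.exists_G (A : Ar F S) (U : Ultrafilter ℕ) (hU : (U : Filter ℕ) ≤ cofinite) (j : Fin 2) {L : ℕ}
    (f : (Fin 2 → Fin (L + 1)) → ℤ) (hf : f ≠ 0)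
    (h : ∀ᶠ n in (U : Filter ℕ), ev f ![A.x n j, A.y n 0] = 0) :
    ∃ (G : Polynomial (Polynomial ℂ)) (E : Set ℂ), G ≠ 0 ∧ E.Finite ∧
      (∀ t, t ∉ E → ∀ x, ev2 G t x = 0 → ev2 (derivative G) t x ≠ 0) ∧
      ∀ᶠ n in (U : Filter ℕ), ∀ σ : A.K n →ₐ[F] ℂ, ev2 G (σ (A.y n 0)) (σ (A.x n j)) = 0 := by
  classical
  have hne : e4_pol F f ≠ 0 := e4_pol_ne hf
  obtain ⟨fs, hS, u, hu⟩ := UniqueFactorizationMonoid.exists_prime_factors (e4_pol F f) hne
  have h1 : ∀ᶠ n in (U : Filter ℕ), ∃ g ∈ {g | g ∈ fs}, e4_phi (F := F) (A.x n j) (A.y n 0) g = 0 := by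
    filter_upwards [h] with n hn
    rw [← e4_phi_pol (F := F), ← hu, map_mul] at hn
    have hun : e4_phi (F := F) (A.x n j) (A.y n 0) (u : F[X][X]) ≠ 0 := (u.isUnit.map (e4_phi (F := F) (A.x n j) (A.y n 0))).ne_zero
    have h2 := (mul_eq_zero.1 hn).resolve_right hun
    rw [map_multiset_prod, Multiset.prod_eq_zero_iff, Multiset.mem_map] at h2
    obtain ⟨g, hg, hg0⟩ := h2
    exact ⟨g, hg, hg0⟩
  have hfin : {g | g ∈ fs}.Finite := fs.finite_toSet
  obtain ⟨g, hgS, hg⟩ := (Ultrafilter.eventually_exists_mem_iff hfin).1 h1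
  have hirr : Irreducible g := (hS g hgS).irreducible
  have hdeg : g.natDegree ≠ 0 := by
    intro h0
    obtain ⟨g0, hg0⟩ : ∃ g0, g = Polynomial.C g0 := ⟨_, eq_C_of_natDegree_eq_zero h0⟩
    have hg0ne : g0 ≠ 0 := by
      intro h3
      rw [hg0, h3, C_0] at hirr
      exact hirr.ne_zero rfl
    have h4 : ∀ᶠ n in (U : Filter ℕ), n ∈ {n | aeval (A.y n 0) g0 = 0} := by
      filter_upwards [hg] with n hn
      rw [hg0] at hn
      have : e4_phi (F := F) (A.x n j) (A.y n 0) (Polynomial.C g0) = aeval (A.y n 0) g0 := eval₂_C _ _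
      rw [this] at hn
      exact hn
    have h5 : ∀ᶠ n in (U : Filter ℕ), n ∉ {n | aeval (A.y n 0) g0 = 0} :=
      hU (e4_finite A hg0ne).compl_mem_cofinite
    obtain ⟨n, hn1, hn2⟩ := (h4.and h5).exists
    exact hn2 hn1
  obtain ⟨P, Q, r, hr, hPQ⟩ := e4_bezout hirr hdeg
  refine ⟨g.map (e4_psi F), {t | (r.map (algebraMap F ℂ)).eval t = 0}, ?_, ?_, ?_, ?_⟩
  · exact (Polynomial.map_ne_zero_iff e4_psi_inj).2 hirr.ne_zero
  · have hr' : r.map (algebraMap F ℂ) ≠ 0 := (Polynomial.map_ne_zero_iff (algebraMap F ℂ).injective).2 hr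
    refine (Finset.finite_toSet (r.map (algebraMap F ℂ)).roots.toFinset).subset ?_
    intro t ht
    rw [Finset.mem_coe, Multiset.mem_toFinset, mem_roots hr']
    exact ht
  · intro t ht x hx hx'
    apply ht
    show (r.map (algebraMap F ℂ)).eval t = 0
    have h6 := congrArg (fun p => e4_ev2 t x (p.map (e4_psi F))) hPQ
    have h7 : e4_ev2 t x ((Polynomial.C r).map (e4_psi F)) = (r.map (algebraMap F ℂ)).eval t := by
      rw [Polynomial.map_C]
      show eval x ((Polynomial.C (e4_psi F r)).map (evalRingHom t)) = _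
      rw [Polynomial.map_C, eval_C]
      rfl
    rw [← h7, ← h6]
    show e4_ev2 t x ((P * g + Q * derivative g).map (e4_psi F)) = 0
    rw [Polynomial.map_add, Polynomial.map_mul, Polynomial.map_mul, map_add, map_mul, map_mul, ← derivative_map,
      ← e4_ev2_eq (g.map (e4_psi F)), ← e4_ev2_eq (derivative (g.map (e4_psi F))), hx, hx', mul_zero, mul_zero, add_zero]
  · filter_upwards [hg] with n hn
    intro σ
    rw [e4_ev2_map, hn, map_zero]

end Pool.Agent.Z7
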