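import Pool.Agent.Z7.K0
import Pool.Agent.Z7.S3
import Pool.Agent.Z6.E5

namespace Pool.Agent.Z7

open Pool.Agent.ZL2 Filter Topology
open Pool.Agent.Z5 (fr Gen ev2 Alg)
open Pool.Agent.Z6 (dt)

variable {F : Type} [Field F] [NumberField F] [Algebra F ℂ] {m : ℕ} [NeZero m] {S : Sf m}

/-- Row Z7-E5a. Compare `Z6.ArM.const_torsion`. Here the constant `g ∈ ℂ` is a conjugate of the `γ n ∈ K n`; it is algebraic over `ℚ`. Let `F0 = ℚ(g) ⊂ ℂ`, a number field, `g0 ∈ F0` the generator. Suppose `g` is not a root of unity: `Z5.hh_lower` for `g0` gives `c > 0`. For the `n` in question there is a ring homomorphism `F0 → K n` with `g0 ↦ γ n` (same minimal polynomial over `ℚ`,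
because of `σ`), so `c * finrank ≤ hh (γ n)`, while `hh (γ n) ≤ 2 B0 (∑ |w n i|) * finrank` as in `const_torsion`: contradiction for suitable `n`. -/
theorem ArM.torsion (A : ArM F S) {U : Filter ℕ} [U.NeBot] {g : ℂ} (γ : ∀ n, A.K n) {w : ℕ → Fin m → ℝ}
    (hw : Tendsto w U (𝓝 0))
    (h : ∀ᶠ n in U, γ n ≠ 0 ∧ (∃ σ : A.K n →ₐ[F] ℂ, σ (γ n) = g) ∧
      ∀ p : Pl (A.K n), lv p (γ n) = ∑ i, w n i * lv p (A.y n i)) :
    ∃ k : ℕ, 0 < k ∧ g ^ k = 1 := by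
  by_contra hcon
  push Not at hcon
  obtain ⟨n0, hne0, ⟨σ0, hσ0⟩, -⟩ := h.exists
  have hint : ∀ n, IsIntegral ℚ (γ n) := fun n => Algebra.IsIntegral.isIntegral _
  have hmin : ∀ n, (∃ σ : A.K n →ₐ[F] ℂ, σ (γ n) = g) → minpoly ℚ (γ n) = minpoly ℚ g := by
    rintro n ⟨σ, hσ⟩
    have h1 := minpoly.algHom_eq ((σ : A.K n →+* ℂ).toRatAlgHom) (σ : A.K n →+* ℂ).injective (γ n)
    rw [← h1]
    congr 1
  have hirr : Irreducible (minpoly ℚ g) := by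
    rw [← hmin n0 ⟨σ0, hσ0⟩]
    exact minpoly.irreducible (hint n0)
  have : Fact (Irreducible (minpoly ℚ g)) := ⟨hirr⟩
  have hgr : Polynomial.eval₂ (algebraMap ℚ ℂ) g (minpoly ℚ g) = 0 := by
    rw [← Polynomial.aeval_def, minpoly.aeval]
  have hroot : ∀ k : ℕ, 0 < k → (AdjoinRoot.root (minpoly ℚ g)) ^ k ≠ 1 := by
    intro k hk h1
    apply hcon k hk
    have h2 := congrArg (AdjoinRoot.lift (algebraMap ℚ ℂ) g hgr) h1
    rwa [map_pow, AdjoinRoot.lift_root, map_one] at h2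
  have hroot0 : AdjoinRoot.root (minpoly ℚ g) ≠ 0 := by
    intro h1
    have h2 := congrArg (AdjoinRoot.lift (algebraMap ℚ ℂ) g hgr) h1
    rw [AdjoinRoot.lift_root, map_zero] at h2
    apply hne0
    apply (σ0 : A.K n0 →+* ℂ).injective
    show σ0 _ = σ0 0
    rw [hσ0, h2, map_zero]
  obtain ⟨C0, hC, hl⟩ := Z5.hh_lower _ hroot0 hroot
  have hsum : Tendsto (fun n => 2 * A.B0 * ∑ i, |w n i|) U (𝓝 0) := by
    have h1 : Tendsto (fun n => ∑ i, |w n i|) U (𝓝 (∑ i : Fin m, |(0 : Fin m → ℝ) i|)) :=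
      tendsto_finsetSum _ fun i _ => (tendsto_pi_nhds.1 hw i).abs
    have h2 := h1.const_mul (2 * A.B0)
    simpa using h2
  obtain ⟨n, ⟨hgK, hσn, h1⟩, h2⟩ := (h.and (hsum.eventually (gt_mem_nhds hC))).exists
  have hy := (A.hB0.2 n (A.u n) (A.hu n) (A.r0 n)).1
  have hD : (0 : ℝ) < Module.finrank ℚ (A.K n) := by exact_mod_cast Module.finrank_pos
  have h3 : C0 * Module.finrank ℚ (A.K n) ≤ hh (γ n) := by
    have e1 : Polynomial.eval₂ (algebraMap ℚ (A.K n)) (γ n) (minpoly ℚ g) = 0 := by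
      rw [← hmin n hσn, ← Polynomial.aeval_def, minpoly.aeval]
    let _ : Algebra (AdjoinRoot (minpoly ℚ g)) (A.K n) :=
      (AdjoinRoot.lift (algebraMap ℚ (A.K n)) (γ n) e1).toAlgebra
    have e2 := hl (A.K n)
    have e3 : algebraMap (AdjoinRoot (minpoly ℚ g)) (A.K n) (AdjoinRoot.root (minpoly ℚ g)) = γ n :=
      AdjoinRoot.lift_root e1
    rwa [e3] at e2
  have hFS : ∀ i ∈ (Finset.univ : Finset (Fin m)), FS (fun p : Pl (A.K n) => |w n i| * |lv p (A.y n i)|) :=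
    fun i _ => ((FS_lv (A.y_ne n i)).abs).smul _
  have h4 : hh (γ n) ≤ ∑ i, |w n i| * (2 * (A.B0 * Module.finrank ℚ (A.K n))) := by
    unfold hh
    refine (Sm_mono (FS_max0 hgK) (FS.sum Finset.univ hFS) (fun p => ?_)).trans ?_
    · refine max_le (Finset.sum_nonneg fun i _ => by positivity) ?_
      rw [h1 p]
      refine Finset.sum_le_sum fun i _ => ?_
      rw [← abs_mul]
      exact le_abs_self _
    · rw [Sm_sum Finset.univ hFS]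
      refine Finset.sum_le_sum fun i _ => ?_
      rw [Sm_smul, Sm_abs (A.y_ne n i)]
      exact mul_le_mul_of_nonneg_left (by linarith [hy i]) (abs_nonneg _)
  rw [← Finset.sum_mul] at h4
  have h5 : C0 * Module.finrank ℚ (A.K n) ≤ (2 * A.B0 * ∑ i, |w n i|) * Module.finrank ℚ (A.K n) := by
    refine h3.trans (h4.trans (le_of_eq ?_))
    ring
  have h6 := le_of_mul_le_mul_right h5 hD
  linarith

/-- No monomial in the coordinates is constant on the chart. -/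
theorem e5_ind {D : Cv m} {y0 : Fin m → ℂ} {ρ : ℝ} {η ℓ : Fin m → ℂ → ℂ}
    (hch : Chart D y0 ρ η ℓ) (hacc : ∀ O ∈ 𝓝 y0, ∃ y ∈ O, y ∈ D.C ∧ y 0 ≠ y0 0) (w : Fin m → ℤ) (hw : w ≠ 0) :
    ¬ ∃ z : ℂ, ∀ t ∈ Metric.ball (y0 0) ρ, ∏ i, η i t ^ w i = z := by
  rintro ⟨z, hz⟩
  have h1 := D.mon w hw z
  have h2 : {y | (y ∈ D.C ∧ ∏ i, y i ^ w i = z) ∧ y 0 ≠ y0 0}.Finite := h1.subset fun y hy => hy.1
  have h3 : {y | (y ∈ D.C ∧ ∏ i, y i ^ w i = z) ∧ y 0 ≠ y0 0}ᶜ ∈ 𝓝 y0 :=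
    h2.isClosed.isOpen_compl.mem_nhds fun h => h.2 rfl
  obtain ⟨y, hy, hyC, hy0⟩ := hacc _ (Filter.inter_mem hch.uniq h3)
  obtain ⟨h4, h5⟩ := hy.1 hyC
  refine hy.2 ⟨⟨hyC, ?_⟩, hy0⟩
  rw [← hz _ h4]
  exact Finset.prod_congr rfl fun i _ => by rw [← h5 i]

/-- The statement for one of the two coordinates. -/
theorem e5_one (A : ArM F S) {U : Ultrafilter ℕ}
    {u' : Fin m → ℝ} {M' : Fin 2 → Fin m → ℝ} (hu' : Tendsto A.u (U : Filter ℕ) (𝓝 u'))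
    (hM' : Tendsto A.M (U : Filter ℕ) (𝓝 M')) {G : Fin 2 → Polynomial (Polynomial ℂ)} (hG0 : ∀ j, G j ≠ 0)
    {κ : Fin 2 → ℝ} {y0 : Fin m → ℂ} {ρ : ℝ} {η ℓ : Fin m → ℂ → ℂ} {ξ : Fin 2 → ℂ → ℂ}
    (hch : Chart S.toCv y0 ρ η ℓ) (hacc : ∀ O ∈ 𝓝 y0, ∃ y ∈ O, y ∈ S.C ∧ y 0 ≠ y0 0)
    (hξ : ∀ j, DifferentiableOn ℂ (ξ j) (Metric.ball (y0 0) ρ))
    (hode : ∀ j, ∀ t ∈ Metric.ball (y0 0) ρ, ξ j t ≠ 0 ∧ ev2 (G j) t (ξ j t) = 0 ∧
      deriv (ξ j) t / ξ j t = ∑ i, ((M' j i + κ j * u' i : ℝ) : ℂ) * (deriv (η i) t / η i t))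
    (hs : ∀ᶠ n in (U : Filter ℕ), ∃ σ : A.K n →ₐ[F] ℂ, σ (A.y n 0) ∈ Metric.ball (y0 0) ρ ∧
      (∀ i, σ (A.y n i) = η i (σ (A.y n 0))) ∧ ∀ j, σ (A.x n j) = ξ j (σ (A.y n 0))) (j : Fin 2) :
    ∃ (k : Fin m → ℤ) (N e : ℕ), 0 < N ∧ 0 < e ∧ ∀ᶠ n in (U : Filter ℕ),
      (A.x n j ^ N * ∏ i, A.y n i ^ (- k i)) ^ e = 1 := by
  obtain ⟨N, k, g, hN, hg, hk, hX⟩ := log_rat hch.pos η
    (fun i => ⟨hch.diff i, S.q i, S.hq0 i, hch.eq i⟩) hch.ne (e5_ind hch hacc)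
    (X := ξ j) ⟨hξ j, G j, hG0 j, fun t ht => (hode j t ht).2.1⟩ (fun t ht => (hode j t ht).1)
    (fun i => M' j i + κ j * u' i) (fun t ht => (hode j t ht).2.2)
  have hne : ∀ n, A.x n j ^ N * ∏ i, A.y n i ^ (- k i) ≠ 0 := fun n =>
    mul_ne_zero (pow_ne_zero _ (A.hx n j)) (Finset.prod_ne_zero_iff.2 fun i _ => zpow_ne_zero _ (A.y_ne n i))
  have hσ : ∀ᶠ n in (U : Filter ℕ), ∃ σ : A.K n →ₐ[F] ℂ, σ (A.x n j ^ N * ∏ i, A.y n i ^ (- k i)) = g := by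
    filter_upwards [hs] with n hn
    obtain ⟨σ, h1, h2, h3⟩ := hn
    refine ⟨σ, ?_⟩
    have e1 : ∏ i, η i (σ (A.y n 0)) ^ k i ≠ 0 :=
      Finset.prod_ne_zero_iff.2 fun i _ => zpow_ne_zero _ (hch.ne i _ h1)
    have e2 : σ (∏ i, A.y n i ^ (- k i)) = (∏ i, η i (σ (A.y n 0)) ^ k i)⁻¹ := by
      rw [map_prod, ← Finset.prod_inv_distrib]
      refine Finset.prod_congr rfl fun i _ => ?_
      rw [map_zpow₀, zpow_neg, h2 i]
    rw [map_mul, map_pow, h3 j, hX _ h1, e2, mul_assoc, mul_inv_cancel₀ e1, mul_one]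
  have hl : ∀ n (p : Pl (A.K n)), lv p (A.x n j ^ N * ∏ i, A.y n i ^ (- k i)) =
      ∑ i, ((N : ℝ) * (A.M n j i - M' j i + κ j * (A.u n i - u' i))) * lv p (A.y n i) := by
    intro n p
    rw [lv_mul p (pow_ne_zero _ (A.hx n j))
      (Finset.prod_ne_zero_iff.2 fun i _ => zpow_ne_zero _ (A.y_ne n i)), lv_pow,
      Z6.e5_lv_prod p _ _ (fun i => zpow_ne_zero _ (A.y_ne n i)), A.r1 n p j]
    have r := A.r0 n p
    have r2 : ∑ i, lv p (A.y n i ^ (- k i)) = ∑ i, (-((N : ℝ) * (M' j i + κ j * u' i))) * lv p (A.y n i) := by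
      refine Finset.sum_congr rfl fun i _ => ?_
      rw [lv_zpow, hk i]
      push_cast
      ring
    rw [r2]
    have r3 : ∑ i, ((N : ℝ) * (A.M n j i - M' j i + κ j * (A.u n i - u' i))) * lv p (A.y n i) =
        (N : ℝ) * ∑ i, A.M n j i * lv p (A.y n i) +
          ∑ i, (-((N : ℝ) * (M' j i + κ j * u' i))) * lv p (A.y n i) +
          (N : ℝ) * κ j * ∑ i, A.u n i * lv p (A.y n i) := by
      rw [Finset.mul_sum, Finset.mul_sum, ← Finset.sum_add_distrib, ← Finset.sum_add_distrib]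
      refine Finset.sum_congr rfl fun i _ => ?_
      ring
    rw [r3, r]
    ring
  have hw : Tendsto (fun n i => (N : ℝ) * (A.M n j i - M' j i + κ j * (A.u n i - u' i))) (U : Filter ℕ) (𝓝 0) := by
    rw [tendsto_pi_nhds]
    intro i
    have q1 : Tendsto (fun n => A.M n j i) (U : Filter ℕ) (𝓝 (M' j i)) :=
      tendsto_pi_nhds.1 (tendsto_pi_nhds.1 hM' j) i
    have q2 : Tendsto (fun n => A.u n i) (U : Filter ℕ) (𝓝 (u' i)) := tendsto_pi_nhds.1 hu' i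
    have q3 := ((q1.sub_const (M' j i)).add ((q2.sub_const (u' i)).const_mul (κ j))).const_mul (N : ℝ)
    simpa using q3
  obtain ⟨e, he, h4⟩ := A.torsion (U := (U : Filter ℕ)) (g := g) _ hw
    (hσ.mono fun n hn => ⟨hne n, hn, hl n⟩)
  refine ⟨k, N, e, hN, he, ?_⟩
  filter_upwards [hσ] with n hn
  obtain ⟨σ, h5⟩ := hn
  apply (σ : A.K n →+* ℂ).injective
  show σ _ = σ 1
  rw [map_pow, h5, h4, map_one]

/-- Row Z7-E5b. The end. For each `j`: `log_rat` (row S3) with `R = η`, `X = ξ j`, `μ i = M' j i + κ j * u' i`; `Alg`: from `Chart.eq` (`S.hq0`) and `hG0`; `hind`: a relation `∏ η_i^w_i = z` on the ball contradicts `S.mon` by `hacc` and `uniq` (infinitely many `y ∈ C` near `y0` with different `y 0`). So `ξ_j^N = g ∏ η_i^(k_i)`, `N μ_i = k_i`.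
`γ n = x_j^N ∏ y_i^(-k_i)`; `σ (γ n) = g` for the `σ` of `hs`; `lv p (γ n) = ∑ (N M n j i - k_i) lv p (y i) = ∑ (N (M n j i - M' j i) + N κ_j (u n i - u' i)) lv p (y i)` (use `r0`), coefficients `→ 0`. `torsion`: `g^e = 1`, so `γ n ^ e = 1` (`σ` is injective). Common `N` and `e` for both `j`: products. -/
theorem ArM.ending (A : ArM F S) {U : Ultrafilter ℕ} (hU : (U : Filter ℕ) ≤ cofinite)
    {u' : Fin m → ℝ} {M' : Fin 2 → Fin m → ℝ} (hu' : Tendsto A.u (U : Filter ℕ) (𝓝 u'))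
    (hM' : Tendsto A.M (U : Filter ℕ) (𝓝 M')) {G : Fin 2 → Polynomial (Polynomial ℂ)} (hG0 : ∀ j, G j ≠ 0)
    {κ : Fin 2 → ℝ} {y0 : Fin m → ℂ} {ρ : ℝ} {η ℓ : Fin m → ℂ → ℂ} {ξ : Fin 2 → ℂ → ℂ}
    (hch : Chart S.toCv y0 ρ η ℓ) (hacc : ∀ O ∈ 𝓝 y0, ∃ y ∈ O, y ∈ S.C ∧ y 0 ≠ y0 0)
    (hξ : ∀ j, DifferentiableOn ℂ (ξ j) (Metric.ball (y0 0) ρ))
    (hode : ∀ j, ∀ t ∈ Metric.ball (y0 0) ρ, ξ j t ≠ 0 ∧ ev2 (G j) t (ξ j t) = 0 ∧
      deriv (ξ j) t / ξ j t = ∑ i, ((M' j i + κ j * u' i : ℝ) : ℂ) * (deriv (η i) t / η i t))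
    (hs : ∀ᶠ n in (U : Filter ℕ), ∃ σ : A.K n →ₐ[F] ℂ, σ (A.y n 0) ∈ Metric.ball (y0 0) ρ ∧
      (∀ i, σ (A.y n i) = η i (σ (A.y n 0))) ∧ ∀ j, σ (A.x n j) = ξ j (σ (A.y n 0))) :
    ∃ (k : Fin 2 → Fin m → ℤ) (N e : ℕ), 0 < N ∧ 0 < e ∧ ∀ᶠ n in (U : Filter ℕ),
      ∀ j, (A.x n j ^ N * ∏ i, A.y n i ^ (- k j i)) ^ e = 1 := by
  have h := fun j => e5_one A hu' hM' hG0 hch hacc hξ hode hs j
  choose k N e hN he hE using h
  obtain ⟨c, hc⟩ : ∃ c : Fin 2 → ℕ, ∀ j, N j * c j = N 0 * N 1 := by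
    refine ⟨![N 1, N 0], fun j => ?_⟩
    match j with
    | 0 => rfl
    | 1 => exact mul_comm _ _
  obtain ⟨f, hf⟩ : ∃ f : Fin 2 → ℕ, ∀ j, e j * f j = e 0 * e 1 := by
    refine ⟨![e 1, e 0], fun j => ?_⟩
    match j with
    | 0 => rfl
    | 1 => exact mul_comm _ _
  refine ⟨fun j i => (c j : ℤ) * k j i, N 0 * N 1, e 0 * e 1, Nat.mul_pos (hN 0) (hN 1),
    Nat.mul_pos (he 0) (he 1), ?_⟩
  filter_upwards [hE 0, hE 1] with n q0 q1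
  intro j
  have q : (A.x n j ^ N j * ∏ i, A.y n i ^ (- k j i)) ^ e j = 1 := by
    match j with
    | 0 => exact q0
    | 1 => exact q1
  have e1 : A.x n j ^ (N 0 * N 1) * ∏ i, A.y n i ^ (-((c j : ℤ) * k j i)) =
      (A.x n j ^ N j * ∏ i, A.y n i ^ (- k j i)) ^ c j := by
    rw [mul_pow, ← pow_mul, hc j, ← Finset.prod_pow]
    congr 1
    refine Finset.prod_congr rfl fun i _ => ?_
    rw [← zpow_natCast, ← zpow_mul]
    congr 1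
    ring
  rw [e1, ← pow_mul, mul_comm (c j), ← hf j]
  rw [show e j * f j * c j = e j * (f j * c j) by ring, pow_mul, q, one_pow]

end Pool.Agent.Z7
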