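import Pool.Agent.Z7.B3
import Pool.Agent.Z7.C1
import Pool.Agent.Z6.W1

namespace Pool.Agent.Z7

open Pool.Agent.ZL2 Filter Topology Polynomial
open Pool.Agent.Z5 (fr Gen ev2 Alg Dep)
open Pool.Agent.Z6 (dt)

variable {m : ℕ} [NeZero m]

open Pool.Agent.Z5 (w1_an w1_pre w1_ident w1_ident2 w1_mul w1_deriv w1_congr w1_cmul w1_sub w1_inv w1_dep
  w1_zero_deriv w1_log w1_kconj w1_ev2_cont w1_ev2_conj schwarz reflect hasDerivAt_conj_conj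
  d1_H d1_mk d1_c d1_alg d1_ev d1_ev_mk d1_ev_alg d1_ev2 d1_ext d1_alg_of d1_of_alg)
open Pool.Agent.Z6 (w6_sum w6_dt_comm w6_dt_smul w6_dt_smul_r w6_dt_sub w6_dt_sub_r w6_dt_zero w6_dt_zero_r
  w6_indep w6_indep2 w6_L w6_blow w6_dtl log_alg)

section trans

attribute [local instance] d1_alg

/-- Transitivity: algebraic over an algebraic nonconstant function. -/
theorem w7_trans {t0 : ℂ} {ρ : ℝ} (hρ : 0 < ρ) {χ ψ : ℂ → ℂ} (hχ : Alg t0 ρ χ)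
    (hψ : DifferentiableOn ℂ ψ (Metric.ball t0 ρ)) (hdep : Dep t0 ρ χ ψ)
    (hnc : ¬ ∀ t ∈ Metric.ball t0 ρ, χ t = χ t0) : Alg t0 ρ ψ := by
  obtain ⟨P, hP, hPd⟩ := hdep
  refine d1_of_alg hψ ?_
  set S := Subalgebra.algebraicClosure ℂ[X] (d1_H t0 ρ) with hS
  let κ : S := ⟨d1_mk χ hχ.1, d1_alg_of hχ⟩
  let θ : ℂ[X] →+* S := Polynomial.eval₂RingHom ((algebraMap ℂ[X] S).comp C) κ
  have hθ : ∀ x : Metric.ball t0 ρ, ((d1_ev x).comp (algebraMap S (d1_H t0 ρ))).comp θ =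
      Polynomial.evalRingHom (χ x) := by
    intro x
    refine Polynomial.ringHom_ext (fun a => ?_) ?_
    · rw [RingHom.comp_apply]
      change (d1_ev x).comp (algebraMap S (d1_H t0 ρ)) (Polynomial.eval₂ _ _ (C a)) = Polynomial.eval _ (C a)
      rw [Polynomial.eval₂_C, Polynomial.eval_C, RingHom.comp_apply, RingHom.comp_apply,
        ← IsScalarTower.algebraMap_apply]
      have := congrArg (fun φ : ℂ[X] →+* ℂ => φ (C a)) (d1_ev_alg x)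
      simpa using this
    · rw [RingHom.comp_apply]
      change (d1_ev x).comp (algebraMap S (d1_H t0 ρ)) (Polynomial.eval₂ _ _ X) = Polynomial.eval _ X
      rw [Polynomial.eval₂_X, Polynomial.eval_X]
      rfl
  have hinj : Function.Injective θ := by
    rw [injective_iff_map_eq_zero]
    intro p hp
    by_contra hp0
    apply hnc
    intro t ht
    have hroot : ∀ z ∈ Metric.ball t0 ρ, p.eval (χ z) = 0 := by
      intro z hz
      have h1 := congrArg (fun φ : ℂ[X] →+* ℂ => φ p) (hθ ⟨z, hz⟩)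
      simp only [RingHom.comp_apply, hp, map_zero, Polynomial.coe_evalRingHom] at h1
      exact h1.symm
    have hfin : {z : ℂ | p.IsRoot z}.Finite := Polynomial.finite_setOfPred_isRoot hp0
    haveI : Finite {z : ℂ | p.IsRoot z} := hfin
    exact IsPreconnected.constant_of_mapsTo (convex_ball t0 ρ).isPreconnected
      (T := {z : ℂ | p.IsRoot z}) (isDiscrete_iff_discreteTopology.2 inferInstance) hχ.1.continuousOn
      (fun z hz => hroot z hz) ht (Metric.mem_ball_self hρ)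
  have halg : IsAlgebraic S (d1_mk ψ hψ) := by
    refine ⟨P.map θ, ?_, d1_ext fun x => ?_⟩
    · rw [Polynomial.map_ne_zero_iff hinj]
      exact hP
    · rw [Polynomial.aeval_def, Polynomial.hom_eval₂, Polynomial.eval₂_map, hθ, d1_ev_mk, map_zero,
        ← d1_ev2]
      exact hPd x x.2
  exact halg.restrictScalars ℂ[X]

end trans

theorem w7_dep {t0 : ℂ} {ρ ρ0 : ℝ} {k χ : ℂ → ℂ} (hk : Alg t0 ρ0 k)
    (hτ : ∀ t ∈ Metric.ball t0 ρ, (starRingEnd ℂ) (χ t) ∈ Metric.ball t0 ρ0) :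
    Dep t0 ρ χ (fun t => (starRingEnd ℂ) (k ((starRingEnd ℂ) (χ t)))) := by
  obtain ⟨-, P, hP, h⟩ := hk
  refine ⟨P.map (Polynomial.mapRingHom (starRingEnd ℂ)), ?_, fun t ht => ?_⟩
  · rw [Ne, Polynomial.map_eq_zero_iff]
    · exact hP
    · exact Polynomial.map_injective _ (starRingEnd ℂ).injective
  · have h1 := h _ (hτ t ht)
    rw [w1_ev2_conj, Complex.conj_conj, h1, map_zero]

/-- The reflected function. -/
noncomputable def w7_S (η : Fin m → ℂ → ℂ) (χ : ℂ → ℂ) (i : Fin m) (t : ℂ) : ℂ :=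
  (starRingEnd ℂ) (η i ((starRingEnd ℂ) (χ t)))

theorem w7_S_deriv {t0 : ℂ} {ρ ρ0 : ℝ} {η : Fin m → ℂ → ℂ}
    (hη : ∀ i, DifferentiableOn ℂ (η i) (Metric.ball t0 ρ0)) {χ : ℂ → ℂ}
    (hχ : DifferentiableOn ℂ χ (Metric.ball t0 ρ))
    (hτ : ∀ t ∈ Metric.ball t0 ρ, (starRingEnd ℂ) (χ t) ∈ Metric.ball t0 ρ0) (i : Fin m) (t : ℂ)
    (ht : t ∈ Metric.ball t0 ρ) :
    HasDerivAt (w7_S η χ i) ((starRingEnd ℂ) (deriv (η i) ((starRingEnd ℂ) (χ t))) * deriv χ t) t := by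
  have h1 : HasDerivAt (η i) (deriv (η i) ((starRingEnd ℂ) (χ t))) ((starRingEnd ℂ) (χ t)) :=
    ((hη i).differentiableAt (Metric.isOpen_ball.mem_nhds (hτ t ht))).hasDerivAt
  have h2 : HasDerivAt χ (deriv χ t) t := (hχ.differentiableAt (Metric.isOpen_ball.mem_nhds ht)).hasDerivAt
  exact (hasDerivAt_conj_conj h1).comp t h2

/-- The derivative of the continuation of the real part of the logarithm. -/
theorem w7_L_deriv {t0 : ℂ} {ρ ρ0 : ℝ} (hρ0 : ρ ≤ ρ0) {η ℓ : Fin m → ℂ → ℂ}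
    (hη : ∀ i, DifferentiableOn ℂ (η i) (Metric.ball t0 ρ0)) (hη0 : ∀ i, ∀ t ∈ Metric.ball t0 ρ0, η i t ≠ 0)
    (hℓ : ∀ i, ∀ t ∈ Metric.ball t0 ρ0, HasDerivAt (ℓ i) (deriv (η i) t / η i t) t) {χ : ℂ → ℂ}
    (hχ : DifferentiableOn ℂ χ (Metric.ball t0 ρ))
    (hτ : ∀ t ∈ Metric.ball t0 ρ, (starRingEnd ℂ) (χ t) ∈ Metric.ball t0 ρ0) (i : Fin m) (t : ℂ)
    (ht : t ∈ Metric.ball t0 ρ) :
    HasDerivAt (w6_L ℓ χ i) (deriv (fun t => η i t * w7_S η χ i t) t / (η i t * w7_S η χ i t) / 2) t := by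
  have htρ := Metric.ball_subset_ball hρ0 ht
  have h1 := hℓ i t htρ
  have h2 : HasDerivAt χ (deriv χ t) t := (hχ.differentiableAt (Metric.isOpen_ball.mem_nhds ht)).hasDerivAt
  have h3 := hasDerivAt_conj_conj (hℓ i _ (hτ t ht))
  have h4 := h3.comp t h2
  rw [map_div₀] at h4
  have h5 : HasDerivAt (η i) (deriv (η i) t) t := ((hη i).differentiableAt (Metric.isOpen_ball.mem_nhds htρ)).hasDerivAt
  have h6 := (h5.mul (w7_S_deriv hη hχ hτ i t ht)).deriv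
  have h6' : deriv (fun t => η i t * w7_S η χ i t) t = deriv (η i) t * w7_S η χ i t +
      η i t * ((starRingEnd ℂ) (deriv (η i) ((starRingEnd ℂ) (χ t))) * deriv χ t) := h6
  have n1 := hη0 i t htρ
  have n2 : w7_S η χ i t ≠ 0 := (_root_.map_ne_zero _).2 (hη0 i _ (hτ t ht))
  have h7 := (h1.add h4).div_const 2
  refine h7.congr_deriv ?_
  rw [h6']
  have n3 : (starRingEnd ℂ) (η i ((starRingEnd ℂ) (χ t))) = w7_S η χ i t := rfl
  rw [n3]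
  field_simp

theorem w7_const {t0 : ℂ} {ρ ρ0 : ℝ} (hρ : 0 < ρ) (hρ0 : ρ ≤ ρ0) {η ℓ : Fin m → ℂ → ℂ}
    (hη : ∀ i, Alg t0 ρ0 (η i)) (hη0 : ∀ i, ∀ t ∈ Metric.ball t0 ρ0, η i t ≠ 0)
    (hℓ : ∀ i, ∀ t ∈ Metric.ball t0 ρ0, HasDerivAt (ℓ i) (deriv (η i) t / η i t) t)
    {χ k : ℂ → ℂ} (hχ : DifferentiableOn ℂ χ (Metric.ball t0 ρ))
    (hτ : ∀ t ∈ Metric.ball t0 ρ, (starRingEnd ℂ) (χ t) ∈ Metric.ball t0 ρ0) (hk : Alg t0 ρ0 k)
    (hkc : ∀ t ∈ Metric.ball t0 ρ, k t = (starRingEnd ℂ) (k ((starRingEnd ℂ) (χ t)))) {w μ : Fin m → ℝ}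
    (h2 : ∀ t ∈ Metric.ball t0 ρ, ∑ i, (μ i : ℂ) * w6_L ℓ χ i t + k t * ∑ i, (w i : ℂ) * w6_L ℓ χ i t = 0)
    (hv : ¬ ∀ t ∈ Metric.ball t0 ρ, ∑ i, (w i : ℂ) * w6_L ℓ χ i t = 0) :
    ∀ t ∈ Metric.ball t0 ρ, k t = k t0 := by
  by_contra hnc
  have hLd := w7_L_deriv hρ0 (fun i => (hη i).1) hη0 hℓ hχ hτ
  have hLD : ∀ i, DifferentiableOn ℂ (w6_L ℓ χ i) (Metric.ball t0 ρ) := fun i t ht =>
    (hLd i t ht).differentiableAt.differentiableWithinAt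
  have hkρ : Alg t0 ρ k := hk.mono (Metric.ball_subset_ball hρ0)
  have hχA : Alg t0 ρ χ := Alg.exchange hρ hkρ hχ (w1_dep hk hτ hkc) hnc
  have hχnc : ¬ ∀ t ∈ Metric.ball t0 ρ, χ t = χ t0 := by
    intro h
    apply hnc
    intro t ht
    rw [hkc t ht, h t ht, ← hkc t0 (Metric.mem_ball_self hρ)]
  have hSA : ∀ i, Alg t0 ρ (w7_S η χ i) := fun i =>
    w7_trans hρ hχA (fun t ht => (w7_S_deriv (fun i => (hη i).1) hχ hτ i t ht).differentiableAt.differentiableWithinAt)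
      (w7_dep (hη i) hτ) hχnc
  obtain ⟨t1, r, hr, hsub, hk'⟩ := w1_deriv hρ hkρ.1 hnc
  have kA : Alg t1 r k := hkρ.mono hsub
  have k'A : Alg t1 r (fun t => deriv k t) := Alg.deriv hr kA
  -- the functions R
  have hRA : ∀ i, Alg t1 r (fun t => η i t * w7_S η χ i t) := fun i =>
    Alg.mul hr ((hη i).mono (hsub.trans (Metric.ball_subset_ball hρ0))) ((hSA i).mono hsub)
  have hR0 : ∀ i, ∀ t ∈ Metric.ball t1 r, η i t * w7_S η χ i t ≠ 0 := fun i t ht =>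
    mul_ne_zero (hη0 i t (Metric.ball_subset_ball hρ0 (hsub ht)))
      ((_root_.map_ne_zero _).2 (hη0 i _ (hτ t (hsub ht))))
  have L'A : ∀ i, Alg t1 r (fun t => deriv (fun t => η i t * w7_S η χ i t) t / (η i t * w7_S η χ i t) / 2) := by
    intro i
    refine w1_congr (w1_cmul hr (Alg.mul hr (Alg.deriv hr (hRA i)) (Alg.inv hr (hRA i) (hR0 i))) (1 / 2)) fun t _ => ?_
    rw [div_eq_mul_inv, div_eq_mul_inv]
    ring
  -- the derivative of a real combination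
  have hD : ∀ v : Fin m → ℝ, ∀ t ∈ Metric.ball t0 ρ, HasDerivAt (fun t => ∑ i, (v i : ℂ) * w6_L ℓ χ i t)
      (∑ i, (v i : ℂ) * (deriv (fun t => η i t * w7_S η χ i t) t / (η i t * w7_S η χ i t) / 2)) t := fun v t ht =>
    HasDerivAt.fun_sum fun i _ => (hLd i t ht).const_mul _
  have DA : ∀ v : Fin m → ℝ, Alg t1 r (fun t => ∑ i, (v i : ℂ) *
      (deriv (fun t => η i t * w7_S η χ i t) t / (η i t * w7_S η χ i t) / 2)) := fun v =>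
    w6_sum hr (v := fun i => (v i : ℂ)) L'A
  -- `h` is algebraic
  have hHA : Alg t1 r (fun t => ∑ i, (w i : ℂ) * w6_L ℓ χ i t) := by
    refine w1_congr (Alg.mul hr (w1_cmul hr (Alg.add hr (DA μ) (Alg.mul hr kA (DA w))) (-1)) (Alg.inv hr k'A hk'))
      fun t ht => ?_
    have htρ := hsub ht
    have hkd : HasDerivAt k (deriv k t) t := (hkρ.1.differentiableAt (Metric.isOpen_ball.mem_nhds htρ)).hasDerivAt
    have e1 := w1_zero_deriv (Metric.isOpen_ball.mem_nhds htρ) h2 ((hD μ t htρ).add (hkd.mul (hD w t htρ)))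
    rw [← div_eq_mul_inv, eq_div_iff (hk' t ht)]
    linear_combination e1
  have hkHA : Alg t1 r (fun t => ∑ i, (μ i : ℂ) * w6_L ℓ χ i t) :=
    w1_congr (w1_cmul hr (Alg.mul hr kA hHA) (-1)) fun t ht => by
      have e1 := h2 t (hsub ht)
      linear_combination e1
  have hcon : ∀ v : Fin m → ℝ, Alg t1 r (fun t => ∑ i, (v i : ℂ) * w6_L ℓ χ i t) → ∀ t ∈ Metric.ball t1 r,
      ∑ i, (v i : ℂ) * w6_L ℓ χ i t = ∑ i, (v i : ℂ) * w6_L ℓ χ i t1 := by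
    intro v hvA
    refine log_alg hr (fun i t => η i t * w7_S η χ i t) hRA hR0 (fun i => (v i : ℂ) / 2) hvA
      fun t ht => ?_
    rw [(hD v t (hsub ht)).deriv]
    exact Finset.sum_congr rfl fun i _ => by ring
  have c1 := hcon w hHA
  have c2 := hcon μ hkHA
  apply hv
  have hz1 : ∑ i, (w i : ℂ) * w6_L ℓ χ i t1 = 0 := by
    by_contra hne0
    have hkc1 : ∀ t ∈ Metric.ball t1 r, k t - k t1 = 0 := by
      intro t ht
      have e1 := h2 t (hsub ht)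
      have e2 := h2 t1 (hsub (Metric.mem_ball_self hr))
      rw [c1 t ht, c2 t ht] at e1
      have e3 : (k t - k t1) * ∑ i, (w i : ℂ) * w6_L ℓ χ i t1 = 0 := by linear_combination e1 - e2
      exact (mul_eq_zero.1 e3).resolve_right hne0
    have hkd : HasDerivAt (fun t => k t - k t1) (deriv k t1) t1 :=
      ((hkρ.1.differentiableAt (Metric.isOpen_ball.mem_nhds (hsub (Metric.mem_ball_self hr)))).hasDerivAt).sub_const _
    exact hk' t1 (Metric.mem_ball_self hr) (w1_zero_deriv (Metric.ball_mem_nhds t1 hr) hkc1 hkd)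
  refine w1_ident2 (DifferentiableOn.fun_sum fun i _ => (hLD i).const_mul _) hr (hsub (Metric.mem_ball_self hr))
    fun t ht => ?_
  rw [c1 t ht, hz1]

/-- The limit principle at a point of `Sup`. -/
theorem w7_key {S : Sf m} {U : Ultrafilter ℕ} (Z : Sq S U) {q : (Fin 2 → ℂ) × (Fin m → ℂ)} (hq : q ∈ Z.Sup)
    {Φ : ℕ × ((Fin 2 → ℂ) × (Fin m → ℂ)) → ℝ} {l : ℝ} (hΦ : Tendsto Φ ((U : Filter ℕ) ×ˢ 𝓝 q) (𝓝 l))
    (h0 : ∀ᶠ n in (U : Filter ℕ), ∀ σ, Φ (n, (Z.x n σ, Z.y n σ)) ≤ 0) : l ≤ 0 := by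
  by_contra hl
  have h1 := hΦ.eventually (lt_mem_nhds (not_le.1 hl))
  rw [Filter.eventually_prod_iff] at h1
  obtain ⟨pa, hpa, pb, hpb, hab⟩ := h1
  obtain ⟨n, ⟨q1, q2⟩, ⟨σ, q3⟩⟩ := ((hpa.and h0).and (hq {x | pb x} hpb)).exists
  exact absurd (hab q1 q3) (not_lt.2 (q2 σ))

theorem w7_supG {S : Sf m} {U : Ultrafilter ℕ} (Z : Sq S U) {G : Polynomial (Polynomial ℂ)} {j : Fin 2}
    (hG : ∀ᶠ n in (U : Filter ℕ), ∀ σ, ev2 G (Z.y n σ 0) (Z.x n σ j) = 0) {q : (Fin 2 → ℂ) × (Fin m → ℂ)}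
    (hq : q ∈ Z.Sup) : ev2 G (q.2 0) (q.1 j) = 0 := by
  have h0 : Continuous fun q : (Fin 2 → ℂ) × (Fin m → ℂ) => ‖ev2 G (q.2 0) (q.1 j)‖ := by
    have h1 : Continuous fun q : (Fin 2 → ℂ) × (Fin m → ℂ) => ((q.1 j, q.2 0) : ℂ × ℂ) := by fun_prop
    exact ((w1_ev2_cont G).comp h1).norm
  have h1 : Tendsto (fun p : ℕ × ((Fin 2 → ℂ) × (Fin m → ℂ)) => ‖ev2 G (p.2.2 0) (p.2.1 j)‖) ((U : Filter ℕ) ×ˢ 𝓝 q)
      (𝓝 ‖ev2 G (q.2 0) (q.1 j)‖) := (h0.tendsto q).comp tendsto_snd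
  have h2 := w7_key Z hq h1 (hG.mono fun n hGn σ => by
    simp only [hGn σ, norm_zero, le_refl])
  exact norm_le_zero_iff.1 h2

theorem w7_limits {S : Sf m} {U : Ultrafilter ℕ} (Z : Sq S U) {u' : Fin m → ℝ}
    {M' : Fin 2 → Fin m → ℝ} (hu' : Tendsto Z.u (U : Filter ℕ) (𝓝 u')) (hM' : Tendsto Z.M (U : Filter ℕ) (𝓝 M'))
    {ε : ℕ → ℝ} (hε0 : ∀ᶠ n in (U : Filter ℕ), 0 < ε n) (hε : Tendsto ε (U : Filter ℕ) (𝓝 0)) {u1 : Fin m → ℝ}
    {M1 : Fin 2 → Fin m → ℝ} (h1 : Tendsto (fun n => (ε n)⁻¹ • (Z.u n - u')) (U : Filter ℕ) (𝓝 u1))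
    (h2 : Tendsto (fun n => (ε n)⁻¹ • (Z.M n - M')) (U : Filter ℕ) (𝓝 M1)) :
    dt u' u' = 1 ∧ dt u1 u' = 0 ∧ ∀ j, dt (M1 j) u' + dt (M' j) u1 = 0 := by
  have hc : Tendsto (fun _ : ℕ => u') (U : Filter ℕ) (𝓝 u') := tendsto_const_nhds
  have q1 : dt u' u' = 1 := by
    have h := w6_dtl hu' hu'
    simp only [Z.hu] at h
    exact tendsto_nhds_unique h tendsto_const_nhds
  have q2 : ∀ j, dt (M' j) u' = 0 := by
    intro j
    have h := w6_dtl (tendsto_pi_nhds.1 hM' j) hu'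
    simp only [Z.hM] at h
    exact tendsto_nhds_unique h tendsto_const_nhds
  refine ⟨q1, ?_, fun j => ?_⟩
  · have h := ((w6_dtl h1 hc).const_mul 2).add (hε.mul (w6_dtl h1 h1))
    have h3 : Tendsto (fun n => 2 * dt ((ε n)⁻¹ • (Z.u n - u')) u' +
        ε n * dt ((ε n)⁻¹ • (Z.u n - u')) ((ε n)⁻¹ • (Z.u n - u'))) (U : Filter ℕ) (𝓝 0) := by
      refine tendsto_const_nhds.congr' ?_
      filter_upwards [hε0] with n hn
      have e1 := Z.hu n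
      simp only [w6_dt_smul, w6_dt_smul_r, w6_dt_sub, w6_dt_sub_r, w6_dt_comm u' (Z.u n)]
      field_simp
      linear_combination q1 - e1
    have h4 := tendsto_nhds_unique h h3
    linarith
  · have hMj : Tendsto (fun n => (ε n)⁻¹ • (Z.M n j - M' j)) (U : Filter ℕ) (𝓝 (M1 j)) := tendsto_pi_nhds.1 h2 j
    have hcj : Tendsto (fun _ : ℕ => M' j) (U : Filter ℕ) (𝓝 (M' j)) := tendsto_const_nhds
    have h := ((w6_dtl hMj hc).add (w6_dtl hcj h1)).add (hε.mul (w6_dtl hMj h1))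
    have h3 : Tendsto (fun n => dt ((ε n)⁻¹ • (Z.M n j - M' j)) u' + dt (M' j) ((ε n)⁻¹ • (Z.u n - u')) +
        ε n * dt ((ε n)⁻¹ • (Z.M n j - M' j)) ((ε n)⁻¹ • (Z.u n - u'))) (U : Filter ℕ) (𝓝 0) := by
      refine tendsto_const_nhds.congr' ?_
      filter_upwards [hε0] with n hn
      have e1 := Z.hM n j
      have e2 := q2 j
      simp only [w6_dt_smul, w6_dt_smul_r, w6_dt_sub, w6_dt_sub_r]
      field_simp
      linear_combination e2 - e1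
    have h4 := tendsto_nhds_unique h h3
    linarith

/-- Row Z7-W1a. A noncritical accumulation point. `exists_sup` with `E' = E ∪ {y ∈ C | y 0 ∈ E1}` (finite by `fib`) gives the compact `L`. Every `y0 ∈ L` has an open neighbourhood `O` such that all `y1 ∈ O ∩ C`, `y1 ≠ y0`, have a chart which is not critical for `u'`: `lev1` if points of `C` with other `y_0` accumulate at `y0`; otherwise `O ∩ C ⊆ {y0}` for a small `O` (`fib`).
Finitely many of these neighbourhoods cover `L`; `F` = the set of their centres. -/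
theorem exists_sup_noncrit {S : Sf m} {U : Ultrafilter ℕ} (Z : Sq S U) {A1 : ℝ} (hA : Z.Bdd A1) {u' : Fin m → ℝ}
    (hu : u' ≠ 0) {E1 : Set ℂ} (hE1 : E1.Finite) :
    ∃ p ∈ Z.Sup, p.2 ∈ S.C ∧ p.2 ∉ S.E ∧ p.2 0 ∉ E1 ∧ (∀ j, p.1 j ≠ 0) ∧
      (∀ O ∈ 𝓝 p, ∃ q ∈ Z.Sup, q ∈ O ∧ q.2 0 ≠ p.2 0) ∧
      ∃ (ρ : ℝ) (η ℓ : Fin m → ℂ → ℂ), Chart S.toCv p.2 ρ η ℓ ∧
        ∑ i, (u' i : ℂ) * (deriv (η i) (p.2 0) / η i (p.2 0)) ≠ 0 := by
  classical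
  have hE' : (S.E ∪ ⋃ t ∈ E1, {y | y ∈ S.C ∧ y 0 = t}).Finite :=
    S.hE.union (hE1.biUnion fun t _ => S.fib t)
  obtain ⟨L, hL, hLC, hLE, hF⟩ := exists_sup Z hA hE'
  have hloc : ∀ y0 ∈ L, ∃ O ∈ 𝓝 y0, ∀ y1 ∈ O, y1 ∈ S.C → y1 ≠ y0 → ∃ (ρ : ℝ) (η ℓ : Fin m → ℂ → ℂ),
      Chart S.toCv y1 ρ η ℓ ∧ ∑ i, (u' i : ℂ) * (deriv (η i) (y1 0) / η i (y1 0)) ≠ 0 := by
    intro y0 hy0
    have hy0E : y0 ∉ S.E := fun h => Set.disjoint_left.1 hLE hy0 (Or.inl h)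
    by_cases hacc : ∀ O ∈ 𝓝 y0, ∃ y ∈ O, y ∈ S.C ∧ y 0 ≠ y0 0
    · obtain ⟨O, hO, h⟩ := lev1 S.toCv (hLC hy0) hy0E hacc hu
      exact ⟨O, hO, fun y1 h1 h2 h3 => (h y1 h1 h2 h3).2⟩
    · push Not at hacc
      obtain ⟨O, hO, h⟩ := hacc
      have hfin : ({y | y ∈ S.C ∧ y 0 = y0 0} \ {y0}).Finite := (S.fib (y0 0)).sdiff
      refine ⟨O ∩ ({y | y ∈ S.C ∧ y 0 = y0 0} \ {y0})ᶜ,
        Filter.inter_mem hO (hfin.isClosed.isOpen_compl.mem_nhds (by simp)), ?_⟩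
      rintro y1 ⟨h1, h2⟩ h3 h4
      exact absurd ⟨⟨h3, h y1 h1 h3⟩, h4⟩ h2
  choose! O hO hOy using hloc
  obtain ⟨T, hT, hTc⟩ := hL.elim_nhds_subcover O hO
  obtain ⟨p, hp, hpL, hpF, hp0, hacc⟩ := hF (T : Set (Fin m → ℂ)) T.finite_toSet
  obtain ⟨y0, hy0T, hpO⟩ := Set.mem_iUnion₂.1 (hTc hpL)
  have hne : p.2 ≠ y0 := by
    rintro h
    apply hpF
    rw [h]
    exact hy0T
  refine ⟨p, hp, hLC hpL, fun h => Set.disjoint_left.1 hLE hpL (Or.inl h), fun h => ?_, hp0, hacc,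
    hOy y0 (hT y0 hy0T) p.2 hpO (hLC hpL) hne⟩
  exact Set.disjoint_left.1 hLE hpL (Or.inr (Set.mem_iUnion₂.2 ⟨p.2 0, h, hLC hpL, rfl⟩))

/-- Row Z7-W1. As `Z6.W1`, with a chart of the curve in place of `y_i = c_i (t - d_i)` (and no `log ‖rf‖` terms). Changes: (2) the centre `p` is the point of `exists_sup_noncrit`, `t0 = p.2 0`, `f_0 = ∑ u'_i ℓ_i` (`Chart.re_eq`), `f_0' = ∑ u'_i η_i'/η_i`. `Z5.chart` for `G j` at `(t0, p.1 j)` gives `ξ j` (`hsep`, and `ev2 (G j) (q.2 0) (q.1 j) = 0` for `q ∈ Sup`);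
`λ_j` = a logarithm of `ξ j`; `g_j = λ_j - ∑_i M'_ji ℓ_i`. All orbit points and all limit points `q` near `p` have `q.2 ∈ C` (`hy`, `sup_rel`), `q.2 i = η_i (q.2 0)` (`uniq`; so `lg q.2 i = Re ℓ_i (q.2 0)`) and `q.1 j = ξ_j (q.2 0)`; limit points satisfy the limit relations (`sup_rel`).
(4)-(5): `(**)` `∑_i M1_ji Λ_i + k_j ∑_i u1_i Λ_i = 0`, `∑_i u'_i Λ_i = 0` on the ball, `Λ_i t = (ℓ_i t + ℓ_i^*(χ t))/2` (`h^* s = conj (h (conj s))`), `Λ_i' = R_i'/(2 R_i)` with `R_i = η_i · (η_i^* ∘ χ)`, `Alg` without zeros on a small ball (`η_i` is `Alg` by `eq`; `η_i^* ∘ χ` satisfies the equation with the conjugate coefficients of `q i` over `χ`, and `χ` is `Alg`; algebraic over algebraic).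
`ξ_j`, `k_j = g_j'/f_0'`, `χ` are `Alg` as before. CLAIM (`k_j` is constant) by `log_alg` as in `Z6.W1`; `S.HH` replaces `HH c d` (applied to infinitely many different `q.2 ∈ C`). The returned chart: `Chart.mono` (row B2b). -/
theorem W1 {S : Sf m} (hH : HHp S.toCv) {U : Ultrafilter ℕ} (Z : Sq S U) {A1 : ℝ} (hA : Z.Bdd A1)
    {u' : Fin m → ℝ} {M' : Fin 2 → Fin m → ℝ} (hu' : Tendsto Z.u (U : Filter ℕ) (𝓝 u'))
    (hM' : Tendsto Z.M (U : Filter ℕ) (𝓝 M')) (G : Fin 2 → Polynomial (Polynomial ℂ)) (hG0 : ∀ j, G j ≠ 0)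
    (hG : ∀ᶠ n in (U : Filter ℕ), ∀ σ j, ev2 (G j) (Z.y n σ 0) (Z.x n σ j) = 0) {E1 : Set ℂ} (hE1 : E1.Finite)
    (hsep : ∀ j, ∀ t, t ∉ E1 → ∀ X, ev2 (G j) t X = 0 → ev2 (derivative (G j)) t X ≠ 0)
    (hnc : ∀ᶠ n in (U : Filter ℕ), ¬ (Z.u n = u' ∧ Z.M n = M')) :
    ∃ (κ : Fin 2 → ℝ) (y0 : Fin m → ℂ) (ρ : ℝ) (η ℓ : Fin m → ℂ → ℂ) (ξ : Fin 2 → ℂ → ℂ),
      Chart S.toCv y0 ρ η ℓ ∧ (∀ O ∈ 𝓝 y0, ∃ y ∈ O, y ∈ S.C ∧ y 0 ≠ y0 0) ∧
      (∀ j, DifferentiableOn ℂ (ξ j) (Metric.ball (y0 0) ρ)) ∧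
      (∀ j, ∀ t ∈ Metric.ball (y0 0) ρ, ξ j t ≠ 0 ∧ ev2 (G j) t (ξ j t) = 0 ∧
        deriv (ξ j) t / ξ j t = ∑ i, ((M' j i + κ j * u' i : ℝ) : ℂ) * (deriv (η i) t / η i t)) ∧
      ∀ᶠ n in (U : Filter ℕ), ∃ σ, Z.y n σ 0 ∈ Metric.ball (y0 0) ρ ∧ (∀ i, Z.y n σ i = η i (Z.y n σ 0)) ∧
        ∀ j, Z.x n σ j = ξ j (Z.y n σ 0) := by
  classical
  obtain ⟨ε, u1, M1, hε0, hε, hb1, hb2, hne⟩ := w6_blow hu' hM' hnc
  obtain ⟨hu1, L1, L2⟩ := w7_limits Z hu' hM' hε0 hε hb1 hb2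
  have hu0 : u' ≠ 0 := by
    rintro rfl
    rw [w6_dt_zero] at hu1
    exact zero_ne_one hu1
  obtain ⟨p, hp, hpC, hpE, hpE1, hp0, hpacc, ρc, η, ℓ, hch, hcr⟩ := exists_sup_noncrit Z hA hu0 hE1
  have hsG : ∀ j, ∀ q ∈ Z.Sup, ev2 (G j) (q.2 0) (q.1 j) = 0 := fun j q hq =>
    w7_supG Z (hG.mono fun n h σ => h σ j) hq
  have hcht : ∀ j, ∃ (ρ δ : ℝ) (ξ : ℂ → ℂ), 0 < ρ ∧ 0 < δ ∧ DifferentiableOn ℂ ξ (Metric.ball (p.2 0) ρ) ∧
      ξ (p.2 0) = p.1 j ∧ (∀ t ∈ Metric.ball (p.2 0) ρ, ev2 (G j) t (ξ t) = 0) ∧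
      ∀ t ∈ Metric.ball (p.2 0) ρ, ∀ x, ‖x - p.1 j‖ < δ → ev2 (G j) t x = 0 → x = ξ t := fun j =>
    Z5.chart (G j) (hsG j p hp) (hsep j (p.2 0) hpE1 (p.1 j) (hsG j p hp))
  choose ρ1 δ ξ hρ1 hδ hξd hξ0 hξG hξu using hcht
  obtain ⟨t0, ht0⟩ : ∃ t0 : ℂ, t0 = p.2 0 := ⟨_, rfl⟩
  rw [← ht0] at hcr hξd hξ0 hξG hξu hpE1
  have hcp := hch.pos
  have hcd := hch.diff
  have hcn := hch.ne
  have hce := hch.eq
  have hcdr := hch.der
  have hcexp := hch.exp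
  rw [← ht0] at hcd hcn hce hcdr hcexp
  -- logarithms of ξ
  have hlog : ∀ j, ∃ r, 0 < r ∧ ∃ lm : ℂ → ℂ, ∀ t ∈ Metric.ball t0 r, ξ j t ≠ 0 ∧
      HasDerivAt lm (deriv (ξ j) t / ξ j t) t ∧ (lm t).re = Real.log ‖ξ j t‖ := fun j =>
    w1_log (hρ1 j) (fun t ht => ((hξd j).differentiableAt (Metric.isOpen_ball.mem_nhds ht)).hasDerivAt)
      (by rw [hξ0 j]; exact hp0 j)
  choose r1 hr1 lm hlm using hlog
  -- noncritical
  obtain ⟨f', hf'd⟩ : ∃ f' : ℂ → ℂ, f' = fun t => ∑ i, (u' i : ℂ) * (deriv (η i) t / η i t) := ⟨_, rfl⟩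
  have hf'c : ContinuousAt f' t0 := by
    rw [hf'd]
    refine tendsto_finsetSum _ fun i _ => ?_
    have h1 : ContinuousAt (deriv (η i)) t0 :=
      ((w1_an (hcd i)).deriv t0 (Metric.mem_ball_self hcp)).continuousAt
    have h2 : ContinuousAt (η i) t0 :=
      ((hcd i).differentiableAt (Metric.ball_mem_nhds t0 hcp)).continuousAt
    exact continuousAt_const.mul (h1.div h2 (hcn i t0 (Metric.mem_ball_self hcp)))
  obtain ⟨r4, hr4, hb4⟩ := Metric.mem_nhds_iff.1 (hf'c.eventually_ne (by rw [hf'd]; exact hcr))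
  -- the ball of radius ρ2
  obtain ⟨ρ2, hρ2, hρ2c, hρ2a, hρ2b, hρ2d⟩ : ∃ ρ2, 0 < ρ2 ∧ ρ2 ≤ ρc ∧ (∀ j, ρ2 ≤ ρ1 j) ∧ (∀ j, ρ2 ≤ r1 j) ∧
      ρ2 ≤ r4 := by
    refine ⟨min (min ρc r4) (min (min (ρ1 0) (ρ1 1)) (min (r1 0) (r1 1))),
      lt_min (lt_min hcp hr4) (lt_min (lt_min (hρ1 0) (hρ1 1)) (lt_min (hr1 0) (hr1 1))),
      (min_le_left _ _).trans (min_le_left _ _), fun j => ?_, fun j => ?_,
      (min_le_left _ _).trans (min_le_right _ _)⟩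
    · match j with
      | 0 => exact (min_le_right _ _).trans ((min_le_left _ _).trans (min_le_left _ _))
      | 1 => exact (min_le_right _ _).trans ((min_le_left _ _).trans (min_le_right _ _))
    · match j with
      | 0 => exact (min_le_right _ _).trans ((min_le_right _ _).trans (min_le_left _ _))
      | 1 => exact (min_le_right _ _).trans ((min_le_right _ _).trans (min_le_right _ _))
  have s2c := Metric.ball_subset_ball (x := t0) hρ2c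
  have s2a := fun j => Metric.ball_subset_ball (x := t0) (hρ2a j)
  have s2b := fun j => Metric.ball_subset_ball (x := t0) (hρ2b j)
  have s2d := Metric.ball_subset_ball (x := t0) hρ2d
  have hf'ne : ∀ t ∈ Metric.ball t0 ρ2, f' t ≠ 0 := fun t ht => hb4 (s2d ht)
  -- the functions f0, g
  obtain ⟨Y, hYd⟩ : ∃ Y : ℂ → Fin m → ℝ, Y = fun t => lg (fun i => η i t) := ⟨_, rfl⟩
  obtain ⟨f0, hf0⟩ : ∃ f0 : ℂ → ℂ, f0 = fun t => ∑ i, (u' i : ℂ) * ℓ i t := ⟨_, rfl⟩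
  obtain ⟨g, hgd⟩ : ∃ g : Fin 2 → ℂ → ℂ, g = fun j t => lm j t - ∑ i, (M' j i : ℂ) * ℓ i t := ⟨_, rfl⟩
  obtain ⟨g', hg'd⟩ : ∃ g' : Fin 2 → ℂ → ℂ, g' = fun j t => deriv (ξ j) t / ξ j t -
    ∑ i, (M' j i : ℂ) * (deriv (η i) t / η i t) := ⟨_, rfl⟩
  have hf : ∀ t ∈ Metric.ball t0 ρ2, HasDerivAt f0 (f' t) t := by
    intro t ht
    rw [hf0, hf'd]
    exact HasDerivAt.fun_sum fun i _ => (hcdr i t (s2c ht)).const_mul _
  have hg : ∀ j, ∀ t ∈ Metric.ball t0 ρ2, HasDerivAt (g j) (g' j t) t := by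
    intro j t ht
    rw [hgd, hg'd]
    have h1 : HasDerivAt (fun t => ∑ i, (M' j i : ℂ) * ℓ i t) (∑ i, (M' j i : ℂ) * (deriv (η i) t / η i t)) t :=
      HasDerivAt.fun_sum fun i _ => (hcdr i t (s2c ht)).const_mul _
    exact ((hlm j t (s2b j ht)).2.1).sub h1
  have hℓre : ∀ i, ∀ t ∈ Metric.ball t0 ρ2, (ℓ i t).re = Y t i := by
    intro i t ht
    rw [hYd]
    show (ℓ i t).re = Real.log ‖η i t‖
    rw [← hcexp i t (s2c ht), Complex.norm_exp, Real.log_exp]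
  have hfre : ∀ t ∈ Metric.ball t0 ρ2, (f0 t).re = dt u' (Y t) := by
    intro t ht
    rw [hf0]
    simp only [Complex.re_sum, Pool.Agent.Z6.dt, Complex.re_ofReal_mul]
    exact Finset.sum_congr rfl fun i _ => by rw [hℓre i t ht]
  have hgre : ∀ j, ∀ t ∈ Metric.ball t0 ρ2, (g j t).re = Real.log ‖ξ j t‖ - dt (M' j) (Y t) := by
    intro j t ht
    rw [hgd]
    simp only [Complex.sub_re, Complex.re_sum, Pool.Agent.Z6.dt, Complex.re_ofReal_mul]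
    rw [(hlm j t (s2b j ht)).2.2]
    congr 1
    exact Finset.sum_congr rfl fun i _ => by rw [hℓre i t ht]
  -- the neighbourhood N of p
  obtain ⟨N, hNo, hpN, hN⟩ : ∃ N : Set ((Fin 2 → ℂ) × (Fin m → ℂ)), IsOpen N ∧ p ∈ N ∧ ∀ x ∈ N,
      (∀ j, ‖x.1 j - p.1 j‖ < δ j) ∧ (∀ j, x.1 j ≠ 0) ∧ (∀ i, x.2 i ≠ 0) ∧ x.2 0 ∈ Metric.ball t0 ρ2 ∧
      (x.2 ∈ S.C → ∀ i, x.2 i = η i (x.2 0)) := by
    have e1 : ∀ᶠ x in 𝓝 p, ∀ j, ‖x.1 j - p.1 j‖ < δ j := by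
      rw [Filter.eventually_all]
      intro j
      have h : Continuous fun x : (Fin 2 → ℂ) × (Fin m → ℂ) => ‖x.1 j - p.1 j‖ := by fun_prop
      exact (h.tendsto p).eventually (gt_mem_nhds (by simpa using hδ j))
    have e2 : ∀ᶠ x in 𝓝 p, ∀ j, x.1 j ≠ 0 := by
      rw [Filter.eventually_all]
      intro j
      have h : Continuous fun x : (Fin 2 → ℂ) × (Fin m → ℂ) => x.1 j := by fun_prop
      exact (h.continuousAt).eventually_ne (hp0 j)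
    have e3 : ∀ᶠ x in 𝓝 p, ∀ i, x.2 i ≠ 0 := by
      rw [Filter.eventually_all]
      intro i
      have h : Continuous fun x : (Fin 2 → ℂ) × (Fin m → ℂ) => x.2 i := by fun_prop
      exact (h.continuousAt).eventually_ne (S.ne p.2 hpC i)
    have e4 : ∀ᶠ x in 𝓝 p, x.2 0 ∈ Metric.ball t0 ρ2 := by
      have h : Continuous fun x : (Fin 2 → ℂ) × (Fin m → ℂ) => x.2 0 := by fun_prop
      exact (h.tendsto p) (by rw [← ht0]; exact Metric.ball_mem_nhds t0 hρ2)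
    have e5 : ∀ᶠ x in 𝓝 p, x.2 ∈ S.C → ∀ i, x.2 i = η i (x.2 0) := by
      have h := (continuous_snd.tendsto p).eventually hch.uniq
      exact h.mono fun x hx hxC => (hx hxC).2
    obtain ⟨N, hN, hNo, hpN⟩ := eventually_nhds_iff.1 (e1.and (e2.and (e3.and (e4.and e5))))
    exact ⟨N, hNo, hpN, fun x hx => ⟨(hN x hx).1, (hN x hx).2.1, (hN x hx).2.2.1, (hN x hx).2.2.2.1,
      (hN x hx).2.2.2.2⟩⟩
  -- relations at the points of Sup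
  have hpt : ∀ q ∈ Z.Sup, q ∈ N → q.2 ∈ S.C ∧ (∀ i, q.2 i = η i (q.2 0)) ∧ lg q.2 = Y (q.2 0) ∧
      (∀ j, q.1 j = ξ j (q.2 0)) ∧ (f0 (q.2 0)).re = 0 ∧ ∀ j, (g j (q.2 0)).re = 0 := by
    intro q hq hqN
    obtain ⟨n1, n2, n3, n4, n5⟩ := hN q hqN
    obtain ⟨s0, -, s1, s2⟩ := sup_rel Z hu' hM' hq n2 n3
    have e1 := n5 s0
    have e2 : lg q.2 = Y (q.2 0) := by
      rw [hYd]
      funext i
      show Real.log ‖q.2 i‖ = Real.log ‖η i (q.2 0)‖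
      rw [← e1 i]
    have e3 : ∀ j, q.1 j = ξ j (q.2 0) := fun j => hξu j (q.2 0) (s2a j n4) (q.1 j) (n1 j) (hsG j q hq)
    refine ⟨s0, e1, e2, e3, by rw [hfre _ n4, ← e2]; exact s1, fun j => ?_⟩
    rw [hgre j _ n4, ← e3 j, ← e2]
    have h := s2 j
    have h' : Real.log ‖q.1 j‖ = dt (M' j) (lg q.2) := h
    rw [h', sub_self]
  -- the points of the orbits
  have horb : ∀ n σ, (∀ j, ev2 (G j) (Z.y n σ 0) (Z.x n σ j) = 0) → (Z.x n σ, Z.y n σ) ∈ N →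
      (∀ i, Z.y n σ i = η i (Z.y n σ 0)) ∧ lg (Z.y n σ) = Y (Z.y n σ 0) ∧ ∀ j, Z.x n σ j = ξ j (Z.y n σ 0) := by
    intro n σ hGn hx
    obtain ⟨n1, n2, n3, n4, n5⟩ := hN _ hx
    have e1 := n5 (Z.hy n σ)
    refine ⟨e1, ?_, fun j => hξu j _ (s2a j n4) _ (n1 j) (hGn j)⟩
    rw [hYd]
    funext i
    show Real.log ‖Z.y n σ i‖ = Real.log ‖η i (Z.y n σ 0)‖
    have e2 : Z.y n σ i = η i (Z.y n σ 0) := e1 i
    rw [e2]
  have hp2 : p.2 0 = t0 := ht0.symm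
  have hf00 : (f0 t0).re = 0 := by
    have h := (hpt p hp hpN).2.2.2.2.1
    rwa [hp2] at h
  have hacc : ∀ O ∈ 𝓝 t0, ∃ q ∈ Z.Sup, q.2 0 ∈ O ∧ q.2 0 ≠ t0 ∧ q ∈ N := by
    intro O hO
    have h1 : {q : (Fin 2 → ℂ) × (Fin m → ℂ) | q.2 0 ∈ O ∧ q ∈ N} ∈ 𝓝 p := by
      refine Filter.inter_mem ?_ (hNo.mem_nhds hpN)
      have h : Continuous fun x : (Fin 2 → ℂ) × (Fin m → ℂ) => x.2 0 := by fun_prop
      exact (h.tendsto p) (by rw [hp2]; exact hO)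
    obtain ⟨q, q1, q2, q3⟩ := hpacc _ h1
    exact ⟨q, q1, q2.1, by rwa [hp2] at q3, q2.2⟩
  -- the Schwarz function
  have hf't0 : deriv f0 t0 ≠ 0 := by
    rw [(hf t0 (Metric.mem_ball_self hρ2)).deriv]
    exact hf'ne t0 (Metric.mem_ball_self hρ2)
  obtain ⟨ρ3, hρ3, χ, hχd, hχc⟩ := schwarz (f := f0) (t0 := t0) (Filter.eventually_of_mem
    (Metric.ball_mem_nhds t0 hρ2) fun t ht => (hf t ht).differentiableAt) hf't0 hf00
  obtain ⟨ρ4, hρ4, hρ42, hρ43⟩ : ∃ ρ4, 0 < ρ4 ∧ ρ4 ≤ ρ2 ∧ ρ4 ≤ ρ3 :=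
    ⟨min ρ2 ρ3, lt_min hρ2 hρ3, min_le_left _ _, min_le_right _ _⟩
  have s42 := Metric.ball_subset_ball (x := t0) hρ42
  have s43 := Metric.ball_subset_ball (x := t0) hρ43
  have hacc2 : ∀ O ∈ 𝓝 t0, ∃ t ∈ O, t ≠ t0 ∧ (f0 t).re = 0 ∧ ∀ j, (g j t).re = 0 := by
    intro O hO
    obtain ⟨q, q1, q2, q3, q4⟩ := hacc O hO
    obtain ⟨-, -, -, -, e1, e2⟩ := hpt q q1 q4
    exact ⟨q.2 0, q2, q3, e1, e2⟩
  have hRg : ∀ j, ∃ r, 0 < r ∧ r ≤ ρ4 ∧ ∀ t ∈ Metric.ball t0 r, (starRingEnd ℂ) (χ t) ∈ Metric.ball t0 ρ4 ∧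
      g j t + (starRingEnd ℂ) (g j ((starRingEnd ℂ) (χ t))) = 0 := fun j =>
    reflect (f := f0) (g := g j) hρ4 (fun t ht => (hg j t (s42 ht)).differentiableAt.differentiableWithinAt)
      (hχd.mono s43) (fun t ht => hχc t (s43 ht)) hf00 (fun O hO => by
        obtain ⟨t, q1, q2, q3, q4⟩ := hacc2 O hO
        exact ⟨t, q1, q2, q3, q4 j⟩)
  obtain ⟨r5, hr5, hr54, hR0⟩ := hRg 0
  obtain ⟨r6, hr6, hr64, hR1⟩ := hRg 1
  obtain ⟨r7, hr7, hr74, hR2⟩ := reflect (f := f0) (g := f0) hρ4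
    (fun t ht => (hf t (s42 ht)).differentiableAt.differentiableWithinAt)
    (hχd.mono s43) (fun t ht => hχc t (s43 ht)) hf00 (fun O hO => by
        obtain ⟨t, q1, q2, q3, q4⟩ := hacc2 O hO
        exact ⟨t, q1, q2, q3, q3⟩)
  obtain ⟨ρ, hρ, hρ0, hρr1, hρr2⟩ : ∃ ρ, 0 < ρ ∧ ρ ≤ r5 ∧ ρ ≤ r6 ∧ ρ ≤ r7 :=
    ⟨min r5 (min r6 r7), lt_min hr5 (lt_min hr6 hr7), min_le_left _ _,
      (min_le_right _ _).trans (min_le_left _ _), (min_le_right _ _).trans (min_le_right _ _)⟩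
  have b0 := Metric.ball_subset_ball (x := t0) hρ0
  have b1 := Metric.ball_subset_ball (x := t0) hρr1
  have b2 := Metric.ball_subset_ball (x := t0) hρr2
  have hρρ4 : ρ ≤ ρ4 := hρ0.trans hr54
  have s4 := Metric.ball_subset_ball (x := t0) hρρ4
  have hτ : ∀ t ∈ Metric.ball t0 ρ, (starRingEnd ℂ) (χ t) ∈ Metric.ball t0 ρ4 := fun t ht => (hR0 t (b0 ht)).1
  have hRf : ∀ t ∈ Metric.ball t0 ρ, f0 t + (starRingEnd ℂ) (f0 ((starRingEnd ℂ) (χ t))) = 0 :=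
    fun t ht => (hR2 t (b2 ht)).2
  have hRgj : ∀ j, ∀ t ∈ Metric.ball t0 ρ, g j t + (starRingEnd ℂ) (g j ((starRingEnd ℂ) (χ t))) = 0 := by
    intro j t ht
    match j with
    | 0 => exact (hR0 t (b0 ht)).2
    | 1 => exact (hR1 t (b1 ht)).2
  -- k
  obtain ⟨k, hkd⟩ : ∃ k : Fin 2 → ℂ → ℂ, k = fun j t => g' j t / f' t := ⟨_, rfl⟩
  have hkc : ∀ j, ∀ t ∈ Metric.ball t0 ρ, k j t = (starRingEnd ℂ) (k j ((starRingEnd ℂ) (χ t))) := by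
    intro j t ht
    rw [hkd]
    exact w1_kconj (fun t ht => hf t (s42 ht)) (fun t ht => hg j t (s42 ht)) (fun t ht => hf'ne t (s42 ht)) hρρ4
      (hχd.mono s43) hτ hRf (hRgj j) t ht
  have hfix : ∀ t ∈ Metric.ball t0 ρ, (f0 t).re = 0 → (starRingEnd ℂ) (χ t) = t := by
    intro t ht h
    rw [hχc t (s43 (s4 ht)) h, Complex.conj_conj]
  have hz : ∀ j, ∀ t ∈ Metric.ball t0 ρ, (f0 t).re = 0 → (g j t).re = 0 := by
    intro j t ht h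
    have e1 := hRgj j t ht
    rw [hfix t ht h] at e1
    have e2 := congrArg Complex.re e1
    simp only [Complex.add_re, Complex.conj_re, Complex.zero_re] at e2
    linarith
  have hkre : ∀ j, ∀ t ∈ Metric.ball t0 ρ, (f0 t).re = 0 → ((k j t).re : ℂ) = k j t := by
    intro j t ht h
    have e1 := hkc j t ht
    rw [hfix t ht h] at e1
    exact (Complex.conj_eq_iff_re.1 e1.symm)
  have hΛ : ∀ i, ∀ t ∈ Metric.ball t0 ρ, (f0 t).re = 0 → w6_L ℓ χ i t = (Y t i : ℂ) := by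
    intro i t ht h
    unfold w6_L
    rw [hfix t ht h, ← hℓre i t (s42 (s4 ht)), Complex.add_conj]
    push_cast
    ring
  -- star
  have hstar : ∀ q ∈ Z.Sup, q.2 0 ∈ Metric.ball t0 ρ → q ∈ N → ∀ j,
      dt (M1 j) (Y (q.2 0)) = - (k j (q.2 0)).re * dt u1 (Y (q.2 0)) := by
    intro q hq h2 h1 j
    have h22 := s42 (s4 h2)
    have hfa : HasStrictDerivAt f0 (f' (q.2 0)) (q.2 0) := by
      have e1 : DifferentiableOn ℂ f0 (Metric.ball t0 ρ2) := fun t ht =>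
        (hf t ht).differentiableAt.differentiableWithinAt
      have e2 := (w1_an e1 (q.2 0) h22).hasStrictDerivAt
      rwa [(hf (q.2 0) h22).deriv] at e2
    have hga : HasStrictDerivAt (g j) (g' j (q.2 0)) (q.2 0) := by
      have e1 : DifferentiableOn ℂ (g j) (Metric.ball t0 ρ2) := fun t ht =>
        (hg j t ht).differentiableAt.differentiableWithinAt
      have e2 := (w1_an e1 (q.2 0) h22).hasStrictDerivAt
      rwa [(hg j (q.2 0) h22).deriv] at e2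
    obtain ⟨e0, e1, e2, e3, e4, e5⟩ := hpt q hq h1
    have h4 := star Z hε0 hε hb1 hb2 hq (hN q h1).2.2.1 hfa hga (hf'ne (q.2 0) h22) e4 j (hNo.mem_nhds h1)
      (hG.mono fun n hGn σ hσ => by
        obtain ⟨o1, o2, o3⟩ := horb n σ (hGn σ) hσ
        rw [hfre _ (hN _ hσ).2.2.2.1, o2])
      (hG.mono fun n hGn σ hσ => by
        obtain ⟨o1, o2, o3⟩ := horb n σ (hGn σ) hσ
        have o4 : Real.log ‖Z.x n σ j‖ = dt (Z.M n j) (lg (Z.y n σ)) := Z.r1 n σ j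
        rw [hgre j _ (hN _ hσ).2.2.2.1, ← o3 j, ← o2, o4])
      (Filter.eventually_of_mem (Metric.isOpen_ball.mem_nhds h2) (hz j))
    rw [← e2, hkd]
    exact h4
  -- k is algebraic
  have hηA : ∀ i, Alg t0 ρ4 (η i) := fun i => ⟨(hcd i).mono (s42.trans s2c), S.q i, S.hq0 i,
    fun t ht => hce i t (s2c (s42 ht))⟩
  have hη0 : ∀ i, ∀ t ∈ Metric.ball t0 ρ4, η i t ≠ 0 := fun i t ht => hcn i t (s2c (s42 ht))
  have hℓ : ∀ i, ∀ t ∈ Metric.ball t0 ρ4, HasDerivAt (ℓ i) (deriv (η i) t / η i t) t := fun i t ht =>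
    hcdr i t (s2c (s42 ht))
  have hldA : ∀ i, Alg t0 ρ4 (fun t => deriv (η i) t / η i t) := fun i =>
    w1_congr (Alg.mul hρ4 (Alg.deriv hρ4 (hηA i)) (Alg.inv hρ4 (hηA i) (hη0 i))) fun t _ => div_eq_mul_inv _ _
  have hξA : ∀ j, Alg t0 ρ4 (ξ j) := fun j => ⟨(hξd j).mono (s42.trans (s2a j)), G j, hG0 j,
    fun t ht => hξG j t (s2a j (s42 ht))⟩
  have hξn : ∀ j, ∀ t ∈ Metric.ball t0 ρ4, ξ j t ≠ 0 := fun j t ht => (hlm j t (s2b j (s42 ht))).1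
  have hdlA : ∀ j, Alg t0 ρ4 (fun t => deriv (ξ j) t / ξ j t) := fun j =>
    w1_congr (Alg.mul hρ4 (Alg.deriv hρ4 (hξA j)) (Alg.inv hρ4 (hξA j) (hξn j))) fun t _ => div_eq_mul_inv _ _
  have hsumA : ∀ v : Fin m → ℝ, Alg t0 ρ4 (fun t => ∑ i, (v i : ℂ) * (deriv (η i) t / η i t)) := fun v =>
    w6_sum hρ4 (v := fun i => (v i : ℂ)) hldA
  have hkA : ∀ j, Alg t0 ρ4 (k j) := by
    intro j
    refine w1_congr (Alg.mul hρ4 (w1_sub hρ4 (hdlA j) (hsumA (M' j)))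
      (Alg.inv hρ4 (hsumA u') fun t ht => by
        have h := hf'ne t (s42 ht)
        rw [hf'd] at h
        exact h)) fun t _ => ?_
    rw [hkd, hg'd, hf'd]
    exact div_eq_mul_inv _ _
  -- relations between the continuations
  have hLd := w7_L_deriv hρρ4 (fun i => (hηA i).1) hη0 hℓ (hχd.mono (s4.trans s43)) hτ
  have hLD : ∀ i, DifferentiableOn ℂ (w6_L ℓ χ i) (Metric.ball t0 ρ) := fun i t ht =>
    (hLd i t ht).differentiableAt.differentiableWithinAt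
  have hΛdt : ∀ v : Fin m → ℝ, ∀ t ∈ Metric.ball t0 ρ, (f0 t).re = 0 →
      ∑ i, (v i : ℂ) * w6_L ℓ χ i t = (dt v (Y t) : ℂ) := by
    intro v t ht h
    unfold Pool.Agent.Z6.dt
    push_cast
    exact Finset.sum_congr rfl fun i _ => by rw [hΛ i t ht h]
  have hpts : ∀ O ∈ 𝓝 t0, ∃ q ∈ Z.Sup, q.2 0 ∈ O ∧ q.2 0 ≠ t0 ∧ q ∈ N ∧ q.2 0 ∈ Metric.ball t0 ρ ∧
      (f0 (q.2 0)).re = 0 := by
    intro O hO
    obtain ⟨q, q1, q2, q3, q4⟩ := hacc (O ∩ Metric.ball t0 ρ) (Filter.inter_mem hO (Metric.ball_mem_nhds t0 hρ))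
    exact ⟨q, q1, q2.1, q3, q4, q2.2, (hpt q q1 q4).2.2.2.2.1⟩
  have hrel1 : ∀ t ∈ Metric.ball t0 ρ, ∑ i, (u' i : ℂ) * w6_L ℓ χ i t = 0 := by
    refine w1_ident hρ (DifferentiableOn.fun_sum fun i _ => (hLD i).const_mul _) fun O hO => ?_
    obtain ⟨q, q1, q2, q3, q4, q5, q6⟩ := hpts O hO
    refine ⟨q.2 0, q2, q3, ?_⟩
    rw [hΛdt u' (q.2 0) q5 q6, ← hfre (q.2 0) (s42 (s4 q5)), q6, Complex.ofReal_zero]
  have hrel2 : ∀ j, ∀ t ∈ Metric.ball t0 ρ, ∑ i, (M1 j i : ℂ) * w6_L ℓ χ i t +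
      k j t * ∑ i, (u1 i : ℂ) * w6_L ℓ χ i t = 0 := by
    intro j
    refine w1_ident hρ ((DifferentiableOn.fun_sum fun i _ => (hLD i).const_mul _).fun_add
      ((((hkA j).mono s4).1).fun_mul (DifferentiableOn.fun_sum fun i _ => (hLD i).const_mul _))) fun O hO => ?_
    obtain ⟨q, q1, q2, q3, q4, q5, q6⟩ := hpts O hO
    refine ⟨q.2 0, q2, q3, ?_⟩
    rw [hΛdt (M1 j) (q.2 0) q5 q6, hΛdt u1 (q.2 0) q5 q6, hstar q q1 q5 q4 j, ← hkre j (q.2 0) q5 q6]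
    push_cast
    rw [Complex.ofReal_re]
    ring
  have hv : ∀ v : Fin m → ℝ, LinearIndependent ℝ ![u', v] →
      ¬ ∀ t ∈ Metric.ball t0 ρ, ∑ i, (v i : ℂ) * w6_L ℓ χ i t = 0 := by
    intro v hi h
    obtain ⟨OH, hOH, hOHy⟩ := hH u' v hi p.2 hpC hpE
    have hcont : ContinuousAt (fun (t : ℂ) (i : Fin m) => η i t) t0 := by
      refine continuousAt_pi.2 fun i => ?_
      have e1 := (hch.diff i).differentiableAt (Metric.ball_mem_nhds (p.2 0) hch.pos)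
      rw [hp2] at e1
      exact e1.continuousAt
    have hbase : (fun i => η i t0) = p.2 := by
      funext i
      rw [← hp2]
      exact hch.base i
    obtain ⟨q, q1, q2, q3, q4, q5, q6⟩ := hpts {t | (fun i => η i t) ∈ OH} (hcont (by show OH ∈ 𝓝 (fun i => η i t0); rw [hbase]; exact hOH))
    obtain ⟨e0, e1, e2, -⟩ := hpt q q1 q4
    have e4 : (fun i => η i (q.2 0)) = q.2 := funext fun i => (e1 i).symm
    have e5 : q.2 ∈ OH := by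
      rw [← e4]
      exact q2
    have e6 : q.2 = p.2 := by
      refine hOHy q.2 e5 e0 ?_ ?_
      · rw [e2, ← hfre (q.2 0) (s42 (s4 q5))]; exact q6
      · have e3 := h (q.2 0) q5
        rw [hΛdt v (q.2 0) q5 q6] at e3
        rw [e2]
        exact_mod_cast e3
    exact q3 (by rw [e6, hp2])
  have hu10 : u1 ≠ 0 := by
    intro h
    apply hne
    refine ⟨h, ?_⟩
    funext j
    have e1 : ¬ LinearIndependent ℝ ![u', M1 j] := by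
      intro hi
      refine hv (M1 j) hi fun t ht => ?_
      have e2 := hrel2 j t ht
      rw [h] at e2
      simpa using e2
    obtain ⟨s, hs⟩ := w6_indep hu0 e1
    have e3 := L2 j
    rw [h, hs, w6_dt_smul, w6_dt_zero_r, hu1, mul_one, add_zero] at e3
    rw [hs, e3, zero_smul]
    rfl
  have hind : LinearIndependent ℝ ![u', u1] := w6_indep2 hu1 hu10 L1
  have hconst : ∀ j, ∀ t ∈ Metric.ball t0 ρ, k j t = k j t0 := fun j =>
    w7_const hρ hρρ4 hηA hη0 hℓ (hχd.mono (s4.trans s43)) hτ (hkA j) (hkc j) (hrel2 j) (hv u1 hind)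
  have hsc : ρ ≤ ρc := hρρ4.trans (hρ42.trans hρ2c)
  have hchm := hch.mono hρ hsc
  refine ⟨fun j => (k j t0).re, p.2, ρ, η, ℓ, ξ, hchm, ?_, ?_, ?_, ?_⟩
  · intro O hO
    have h1 : {q : (Fin 2 → ℂ) × (Fin m → ℂ) | q.2 ∈ O ∧ q ∈ N} ∈ 𝓝 p :=
      Filter.inter_mem ((continuous_snd.tendsto p) hO) (hNo.mem_nhds hpN)
    obtain ⟨q, q1, q2, q3⟩ := hpacc _ h1
    exact ⟨q.2, q2.1, (hpt q q1 q2.2).1, q3⟩
  · intro j
    rw [hp2]
    exact (hξd j).mono ((s4.trans s42).trans (s2a j))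
  · intro j t ht
    rw [hp2] at ht
    have ht2 := s42 (s4 ht)
    refine ⟨hξn j t (s4 ht), hξG j t (s2a j ht2), ?_⟩
    have e1 := hconst j t ht
    rw [← hkre j t0 (Metric.mem_ball_self hρ) hf00, hkd] at e1
    simp only at e1
    rw [div_eq_iff (hf'ne t ht2), hg'd, hf'd] at e1
    simp only at e1
    have e2 : ∑ i, ((M' j i + (k j t0).re * u' i : ℝ) : ℂ) * (deriv (η i) t / η i t) =
        ∑ i, (M' j i : ℂ) * (deriv (η i) t / η i t) +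
          ((k j t0).re : ℂ) * ∑ i, (u' i : ℂ) * (deriv (η i) t / η i t) := by
      rw [Finset.mul_sum, ← Finset.sum_add_distrib]
      exact Finset.sum_congr rfl fun i _ => by push_cast; ring
    rw [e2, hkd, hg'd, hf'd]
    linear_combination e1
  · have h1 : {q : (Fin 2 → ℂ) × (Fin m → ℂ) | q.2 0 ∈ Metric.ball t0 ρ ∧ q ∈ N} ∈ 𝓝 p := by
      refine Filter.inter_mem ?_ (hNo.mem_nhds hpN)
      have h : Continuous fun x : (Fin 2 → ℂ) × (Fin m → ℂ) => x.2 0 := by fun_prop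
      exact (h.tendsto p) (by rw [hp2]; exact Metric.ball_mem_nhds t0 hρ)
    filter_upwards [hp _ h1, hG] with n hn hGn
    obtain ⟨σ, q1, q2⟩ := hn
    obtain ⟨o1, o2, o3⟩ := horb n σ (hGn σ) q2
    exact ⟨σ, by rw [hp2]; exact q1, o1, o3⟩

end Pool.Agent.Z7
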