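import Pool.Agent.Z7.E2
import Pool.Agent.Z7.E4
import Pool.Agent.Z7.E5
import Pool.Agent.Z7.W1
import Pool.Agent.Z6.N3
import Pool.Agent.Z6.K3

namespace Pool.Agent.Z7

open Pool.Agent.ZL2 Filter Topology
open Pool.Agent.Z5 (fr Gen ev2)
open Pool.Agent.Z6 (dt inY inX)

variable {F : Type} [Field F] [NumberField F] [Algebra F ℂ] {m : ℕ} [NeZero m] {S : Sf m}

/-- Row Z7-E6a. As `Z6.ArM.main`: limits `u', M'` of `u, M` along `U` (bounded, `bdd`), `exists_eq` and `exists_G` for both `j`, `W1`, `ending`. -/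
theorem ArM.main (A : ArM F S) (U : Ultrafilter ℕ) (hU : (U : Filter ℕ) ≤ cofinite) :
    (∃ (u' : Fin m → ℝ) (M' : Fin 2 → Fin m → ℝ), ∀ᶠ n in (U : Filter ℕ), A.u n = u' ∧ A.M n = M') ∨
    ∃ (k : Fin 2 → Fin m → ℤ) (N e : ℕ), 0 < N ∧ 0 < e ∧ ∀ᶠ n in (U : Filter ℕ),
      ∀ j, (A.x n j ^ N * ∏ i, A.y n i ^ (- k j i)) ^ e = 1 := by
  obtain ⟨A0, hA⟩ := A.bdd U hU
  obtain ⟨u', hu'⟩ := Pool.Agent.Z5.e6_lim U A.u (R := 1)
    (Eventually.of_forall fun n => Pool.Agent.Z6.e6_norm (A.hu n))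
  obtain ⟨M', hM'⟩ := Pool.Agent.Z5.e6_lim U A.M (R := |A0|) (by
    have hA2 : ∀ᶠ n in (U : Filter ℕ), ∀ j i, |A.M n j i| ≤ A0 := hA
    refine hA2.mono fun n hn => ?_
    rw [pi_norm_le_iff_of_nonneg (abs_nonneg _)]
    intro j
    rw [pi_norm_le_iff_of_nonneg (abs_nonneg _)]
    intro i
    exact (hn j i).trans (le_abs_self _))
  by_cases h : ∀ᶠ n in (U : Filter ℕ), A.u n = u' ∧ A.M n = M'
  · exact Or.inl ⟨u', M', h⟩
  right
  have hnc : ∀ᶠ n in (U : Filter ℕ), ¬ (A.u n = u' ∧ A.M n = M') := Ultrafilter.eventually_not.2 h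
  choose L f hf hev using fun j => A.exists_eq U hU j
  choose G E hG0 hE hsep hG using fun j => A.toAr.exists_G U hU j (f j) (hf j) (hev j)
  have hG' : ∀ᶠ n in (U : Filter ℕ), ∀ (σ : A.K n →ₐ[F] ℂ) (j : Fin 2),
      ev2 (G j) (σ (A.y n 0)) (σ (A.x n j)) = 0 := by
    filter_upwards [hG 0, hG 1] with n h0 h1 σ j
    fin_cases j
    · exact h0 σ
    · exact h1 σ
  have hsep' : ∀ j, ∀ t, t ∉ E 0 ∪ E 1 → ∀ X, ev2 (G j) t X = 0 →
      ev2 (Polynomial.derivative (G j)) t X ≠ 0 := by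
    intro j t ht
    rw [Set.mem_union, not_or] at ht
    fin_cases j
    · exact hsep 0 t ht.1
    · exact hsep 1 t ht.2
  obtain ⟨κ, y0, ρ, η, ℓ, ξ, hch, hacc, hξ, hode, hs⟩ :=
    W1 A.hH (A.sq U hU) hA hu' hM' G hG0 hG' ((hE 0).union (hE 1)) hsep' hnc
  exact A.ending hU hu' hM' hG0 hch hacc hξ hode hs

/-- The points of `G_m^(2+m)`. -/
def Ar.pt (A : Ar F S) (n : ℕ) : Fin 2 ⊕ Fin m → A.K n := Sum.elim (A.x n) (A.y n)

/-- The real relations. -/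
def Ar.N (A : Ar F S) (n : ℕ) : Submodule ℝ (Fin 2 ⊕ Fin m → ℝ) where
  carrier := {w | ∀ p : Pl (A.K n), ∑ k, w k * lv p (A.pt n k) = 0}
  add_mem' {v w} hv hw p := by
    have h : ∑ k, (v + w) k * lv p (A.pt n k) =
        ∑ k, v k * lv p (A.pt n k) + ∑ k, w k * lv p (A.pt n k) := by
      rw [← Finset.sum_add_distrib]
      exact Finset.sum_congr rfl fun k _ => by rw [Pi.add_apply, add_mul]
    rw [h, hv p, hw p, add_zero]
  zero_mem' p := by simp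
  smul_mem' r w hw p := by
    have h : ∑ k, (r • w) k * lv p (A.pt n k) = r * ∑ k, w k * lv p (A.pt n k) := by
      rw [Finset.mul_sum]
      exact Finset.sum_congr rfl fun k _ => by rw [Pi.smul_apply, smul_eq_mul, mul_assoc]
    rw [h, hw p, mul_zero]

/-- A subsequence. -/
def Ar.comp (A : Ar F S) (φ : ℕ → ℕ) (hφ : Function.Injective φ) : Ar F S where
  hm := A.hm
  rat := A.rat
  hH := A.hH
  Φ := A.Φ
  hΦ := A.hΦ
  K n := A.K (φ n)
  j n := A.j (φ n)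
  x n := A.x (φ n)
  y n := A.y (φ n)
  hx n := A.hx (φ n)
  hy n := A.hy (φ n)
  hyE n := A.hyE (φ n)
  hP n := A.hP (φ n)
  inj := A.inj.comp hφ

/-- Row Z7-E6b. As `Z6.Ar.finite_two`. -/
theorem Ar.finite_two (A : Ar F S) : {n : ℕ | ∃ u v : Fin m → ℝ, dt u u = 1 ∧ dt v v = 1 ∧ dt u v = 0 ∧
    (∀ p : Pl (A.K n), ∑ i, u i * lv p (A.y n i) = 0) ∧ (∀ p : Pl (A.K n), ∑ i, v i * lv p (A.y n i) = 0)}.Finite := by
  classical
  by_contra hcon
  obtain ⟨φ, hφ, hm⟩ := Pool.Agent.Z5.k3_sub hcon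
  choose u v a1 a2 a3 a4 a5 using hm
  exact (A.comp _ hφ).no_two u v a1 a2 a3 (fun n p => a4 n p) (fun n p => a5 n p)

/-- Row Z7-E6c. As `Z6.Ar.main` (`Z6.dichotomy`). -/
theorem Ar.main (A : Ar F S) (hN : ∀ n, 3 ≤ Module.finrank ℝ (A.N n)) :
    ∃ 𝒩 : Set ℕ, 𝒩.Infinite ∧ ((∃ N' : Submodule ℝ (Fin 2 ⊕ Fin m → ℝ), ∀ n ∈ 𝒩, A.N n = N') ∨
    ∃ (k : Fin 2 → Fin m → ℤ) (N e : ℕ), 0 < N ∧ 0 < e ∧ ∀ n ∈ 𝒩,
      ∀ j, (A.pt n (Sum.inl j) ^ N * ∏ i, A.pt n (Sum.inr i) ^ (- k j i)) ^ e = 1) := by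
  classical
  have hdich := fun n => Pool.Agent.Z6.dichotomy (A.N n) (hN n)
  have hY : ∀ n (u : Fin m → ℝ), inY u ∈ A.N n → ∀ p : Pl (A.K n), ∑ i, u i * lv p (A.y n i) = 0 := by
    intro n u h p
    have h1 : ∑ k, inY u k * lv p (A.pt n k) = 0 := h p
    rw [Fintype.sum_sum_type] at h1
    have h2 : ∑ x : Fin 2, inY u (Sum.inl x) * lv p (A.pt n (Sum.inl x)) = 0 :=
      Finset.sum_eq_zero fun x _ => by
        show (0 : ℝ) * _ = 0
        rw [zero_mul]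
    rw [h2, zero_add] at h1
    exact h1
  have hXr : ∀ n (j : Fin 2) (w : Fin m → ℝ), inX j w ∈ A.N n → ∀ p : Pl (A.K n),
      lv p (A.x n j) = ∑ i, w i * lv p (A.y n i) := by
    intro n j w h p
    have h1 : ∑ k, inX j w k * lv p (A.pt n k) = 0 := h p
    rw [Fintype.sum_sum_type] at h1
    have h2 : ∑ x : Fin 2, inX j w (Sum.inl x) * lv p (A.pt n (Sum.inl x)) = lv p (A.x n j) := by
      rw [Finset.sum_eq_single j]
      · show (Pi.single j 1 : Fin 2 → ℝ) j * lv p (A.x n j) = _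
        rw [Pi.single_eq_same, one_mul]
      · intro x _ hx
        show (Pi.single j 1 : Fin 2 → ℝ) x * _ = 0
        rw [Pi.single_eq_of_ne hx, zero_mul]
      · intro h'; exact absurd (Finset.mem_univ _) h'
    have h3 : ∑ x : Fin m, inX j w (Sum.inr x) * lv p (A.pt n (Sum.inr x)) = - ∑ i, w i * lv p (A.y n i) := by
      rw [← Finset.sum_neg_distrib]
      refine Finset.sum_congr rfl fun x _ => ?_
      show (- w x) * lv p (A.y n x) = _
      ring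
    rw [h2, h3] at h1
    linarith
  have h1 : {n | ∃ u v : Fin m → ℝ, dt u u = 1 ∧ dt v v = 1 ∧ dt u v = 0 ∧ inY u ∈ A.N n ∧ inY v ∈ A.N n}.Finite := by
    refine A.finite_two.subset ?_
    rintro n ⟨u, v, a1, a2, a3, a4, a5⟩
    exact ⟨u, v, a1, a2, a3, hY _ _ a4, hY _ _ a5⟩
  have h2 : {n | ∃ (u : Fin m → ℝ) (M : Fin 2 → Fin m → ℝ), dt u u = 1 ∧ (∀ j, dt (M j) u = 0) ∧ inY u ∈ A.N n ∧
    (∀ j, inX j (M j) ∈ A.N n) ∧
    ∀ w ∈ A.N n, ∃ (s : ℝ) (r : Fin 2 → ℝ), w = s • inY u + ∑ j, r j • inX j (M j)}.Infinite := by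
    refine h1.infinite_compl.mono fun n hn => ?_
    exact (hdich n).resolve_left hn
  obtain ⟨φ, hφ, hm⟩ := Pool.Agent.Z5.k3_sub h2
  choose u M b1 b2 b3 b4 b5 using hm
  let T : ArM F S :=
    { toAr := A.comp φ hφ
      u := u
      M := M
      hu := b1
      hM := b2
      r0 := fun n p => hY _ _ (b3 n) p
      r1 := fun n p j => hXr _ j _ (b4 n j) p }
  have hinf : ∀ s : Set ℕ, (∀ᶠ n in ((hyperfilter ℕ : Ultrafilter ℕ) : Filter ℕ), n ∈ s) → s.Infinite := by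
    intro s hs hfin
    exact notMem_hyperfilter_of_finite hfin hs
  rcases T.main (hyperfilter ℕ) hyperfilter_le_cofinite with ⟨u', M', h3⟩ | ⟨k, N, e, hN0, he, h3⟩
  · refine ⟨φ '' {n | u n = u' ∧ M n = M'}, (hinf _ h3).image hφ.injOn, Or.inl
      ⟨Submodule.span ℝ {inY u', inX 0 (M' 0), inX 1 (M' 1)}, ?_⟩⟩
    rintro _ ⟨n, ⟨e1, e2⟩, rfl⟩
    apply le_antisymm
    · intro w hw
      obtain ⟨s, r, hw'⟩ := b5 n w hw
      rw [hw', Fin.sum_univ_two, e1, e2]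
      refine Submodule.add_mem _ (Submodule.smul_mem _ _ (Submodule.subset_span (by simp)))
        (Submodule.add_mem _ (Submodule.smul_mem _ _ (Submodule.subset_span (by simp)))
          (Submodule.smul_mem _ _ (Submodule.subset_span (by simp))))
    · rw [Submodule.span_le]
      rintro w hw
      simp only [Set.mem_insert_iff, Set.mem_singleton_iff] at hw
      rcases hw with rfl | rfl | rfl
      · rw [← e1]; exact b3 n
      · rw [← e2]; exact b4 n 0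
      · rw [← e2]; exact b4 n 1
  · refine ⟨φ '' {n | ∀ j, (T.x n j ^ N * ∏ i, T.y n i ^ (- k j i)) ^ e = 1},
      (hinf _ h3).image hφ.injOn, Or.inr ⟨k, N, e, hN0, he, ?_⟩⟩
    rintro _ ⟨n, hn, rfl⟩ j
    exact hn j

end Pool.Agent.Z7
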