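import Pool.Agent.Z7.Defs
import Pool.Agent.Z7.S3
import Pool.Agent.Z6.W1

namespace Pool.Agent.Z7

open Pool.Agent.ZL2 Filter Topology Polynomial
open Pool.Agent.Z5 (Alg ev2 Dep)
open Pool.Agent.Z6 (dt)
open Pool.Agent.Z5 (w1_an w1_ident2 w1_congr w1_cmul w1_sub w1_dep w1_zero_deriv w1_kconj w1_ev2_conj
  schwarz reflect hasDerivAt_conj_conj d1_H d1_mk d1_alg d1_ev d1_ev_mk d1_ev_alg d1_ev2 d1_ext d1_alg_of d1_of_alg)
open Pool.Agent.Z6 (w6_sum w6_L)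

variable {m : ℕ}

section trans

attribute [local instance] d1_alg

/-- Transitivity: algebraic over an algebraic nonconstant function. -/
theorem h1_trans {t0 : ℂ} {ρ : ℝ} (hρ : 0 < ρ) {χ ψ : ℂ → ℂ} (hχ : Alg t0 ρ χ)
    (hψ : DifferentiableOn ℂ ψ (Metric.ball t0 ρ)) (hdep : Dep t0 ρ χ ψ)
    (hnc : ¬ ∀ t ∈ Metric.ball t0 ρ, χ t = χ t0) : Alg t0 ρ ψ := by
  obtain ⟨P, hP, hPd⟩ := hdep
  refine d1_of_alg hψ ?_
  set S := Subalgebra.algebraicClosure ℂ[X] (d1_H t0 ρ) with hS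
  let κ : S := ⟨d1_mk χ hχ.1, d1_alg_of hχ⟩
  let θ : ℂ[X] →+* S := Polynomial.eval₂RingHom ((algebraMap ℂ[X] S).comp C) κ
  have hθ : ∀ x : Metric.ball t0 ρ, ((d1_ev x).comp (algebraMap S (d1_H t0 ρ))).comp θ =
      Polynomial.evalRingHom (χ x) := by
    intro x
    refine Polynomial.ringHom_ext (fun a => ?_) ?_
    · rw [RingHom.comp_apply]
      change (d1_ev x).comp (algebraMap S (d1_H t0 ρ)) (Polynomial.eval₂ _ _ (C a)) = Polynomial.eval _ (C a)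
      rw [Polynomial.eval₂_C, Polynomial.eval_C, RingHom.comp_apply, RingHom.comp_apply,
        ← IsScalarTower.algebraMap_apply]
      have := congrArg (fun φ : ℂ[X] →+* ℂ => φ (C a)) (d1_ev_alg x)
      simpa using this
    · rw [RingHom.comp_apply]
      change (d1_ev x).comp (algebraMap S (d1_H t0 ρ)) (Polynomial.eval₂ _ _ X) = Polynomial.eval _ X
      rw [Polynomial.eval₂_X, Polynomial.eval_X]
      rfl
  have hinj : Function.Injective θ := by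
    rw [injective_iff_map_eq_zero]
    intro p hp
    by_contra hp0
    apply hnc
    intro t ht
    have hroot : ∀ z ∈ Metric.ball t0 ρ, p.eval (χ z) = 0 := by
      intro z hz
      have h1 := congrArg (fun φ : ℂ[X] →+* ℂ => φ p) (hθ ⟨z, hz⟩)
      simp only [RingHom.comp_apply, hp, map_zero, Polynomial.coe_evalRingHom] at h1
      exact h1.symm
    have hfin : {z : ℂ | p.IsRoot z}.Finite := Polynomial.finite_setOfPred_isRoot hp0
    haveI : Finite {z : ℂ | p.IsRoot z} := hfin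
    exact IsPreconnected.constant_of_mapsTo (convex_ball t0 ρ).isPreconnected
      (T := {z : ℂ | p.IsRoot z}) (isDiscrete_iff_discreteTopology.2 inferInstance) hχ.1.continuousOn
      (fun z hz => hroot z hz) ht (Metric.mem_ball_self hρ)
  have halg : IsAlgebraic S (d1_mk ψ hψ) := by
    refine ⟨P.map θ, ?_, d1_ext fun x => ?_⟩
    · rw [Polynomial.map_ne_zero_iff hinj]
      exact hP
    · rw [Polynomial.aeval_def, Polynomial.hom_eval₂, Polynomial.eval₂_map, hθ, d1_ev_mk, map_zero,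
        ← d1_ev2]
      exact hPd x x.2
  exact halg.restrictScalars ℂ[X]

end trans

theorem h1_dep {t0 : ℂ} {ρ ρ0 : ℝ} {k χ : ℂ → ℂ} (hk : Alg t0 ρ0 k)
    (hτ : ∀ t ∈ Metric.ball t0 ρ, (starRingEnd ℂ) (χ t) ∈ Metric.ball t0 ρ0) :
    Dep t0 ρ χ (fun t => (starRingEnd ℂ) (k ((starRingEnd ℂ) (χ t)))) := by
  obtain ⟨-, P, hP, h⟩ := hk
  refine ⟨P.map (Polynomial.mapRingHom (starRingEnd ℂ)), ?_, fun t ht => ?_⟩
  · rw [Ne, Polynomial.map_eq_zero_iff]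
    · exact hP
    · exact Polynomial.map_injective _ (starRingEnd ℂ).injective
  · have h1 := h _ (hτ t ht)
    rw [w1_ev2_conj, Complex.conj_conj, h1, map_zero]

/-- The reflected function. -/
noncomputable def h1_S (η : Fin m → ℂ → ℂ) (χ : ℂ → ℂ) (i : Fin m) (t : ℂ) : ℂ :=
  (starRingEnd ℂ) (η i ((starRingEnd ℂ) (χ t)))

theorem h1_S_deriv {t0 : ℂ} {ρ ρ0 : ℝ} {η : Fin m → ℂ → ℂ}
    (hη : ∀ i, DifferentiableOn ℂ (η i) (Metric.ball t0 ρ0)) {χ : ℂ → ℂ}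
    (hχ : DifferentiableOn ℂ χ (Metric.ball t0 ρ))
    (hτ : ∀ t ∈ Metric.ball t0 ρ, (starRingEnd ℂ) (χ t) ∈ Metric.ball t0 ρ0) (i : Fin m) (t : ℂ)
    (ht : t ∈ Metric.ball t0 ρ) :
    HasDerivAt (h1_S η χ i) ((starRingEnd ℂ) (deriv (η i) ((starRingEnd ℂ) (χ t))) * deriv χ t) t := by
  have h1 : HasDerivAt (η i) (deriv (η i) ((starRingEnd ℂ) (χ t))) ((starRingEnd ℂ) (χ t)) :=
    ((hη i).differentiableAt (Metric.isOpen_ball.mem_nhds (hτ t ht))).hasDerivAt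
  have h2 : HasDerivAt χ (deriv χ t) t := (hχ.differentiableAt (Metric.isOpen_ball.mem_nhds ht)).hasDerivAt
  exact (hasDerivAt_conj_conj h1).comp t h2

/-- The derivative of the continuation of the real part of the logarithm. -/
theorem h1_L_deriv {t0 : ℂ} {ρ ρ0 : ℝ} (hρ0 : ρ ≤ ρ0) {η ℓ : Fin m → ℂ → ℂ}
    (hη : ∀ i, DifferentiableOn ℂ (η i) (Metric.ball t0 ρ0)) (hη0 : ∀ i, ∀ t ∈ Metric.ball t0 ρ0, η i t ≠ 0)
    (hℓ : ∀ i, ∀ t ∈ Metric.ball t0 ρ0, HasDerivAt (ℓ i) (deriv (η i) t / η i t) t) {χ : ℂ → ℂ}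
    (hχ : DifferentiableOn ℂ χ (Metric.ball t0 ρ))
    (hτ : ∀ t ∈ Metric.ball t0 ρ, (starRingEnd ℂ) (χ t) ∈ Metric.ball t0 ρ0) (i : Fin m) (t : ℂ)
    (ht : t ∈ Metric.ball t0 ρ) :
    HasDerivAt (w6_L ℓ χ i) (deriv (fun t => η i t * h1_S η χ i t) t / (η i t * h1_S η χ i t) / 2) t := by
  have htρ := Metric.ball_subset_ball hρ0 ht
  have h1 := hℓ i t htρ
  have h2 : HasDerivAt χ (deriv χ t) t := (hχ.differentiableAt (Metric.isOpen_ball.mem_nhds ht)).hasDerivAt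
  have h3 := hasDerivAt_conj_conj (hℓ i _ (hτ t ht))
  have h4 := h3.comp t h2
  rw [map_div₀] at h4
  have h5 : HasDerivAt (η i) (deriv (η i) t) t := ((hη i).differentiableAt (Metric.isOpen_ball.mem_nhds htρ)).hasDerivAt
  have h6 := (h5.mul (h1_S_deriv hη hχ hτ i t ht)).deriv
  have h6' : deriv (fun t => η i t * h1_S η χ i t) t = deriv (η i) t * h1_S η χ i t +
      η i t * ((starRingEnd ℂ) (deriv (η i) ((starRingEnd ℂ) (χ t))) * deriv χ t) := h6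
  have n1 := hη0 i t htρ
  have n2 : h1_S η χ i t ≠ 0 := (_root_.map_ne_zero _).2 (hη0 i _ (hτ t ht))
  have h7 := (h1.add h4).div_const 2
  refine h7.congr_deriv ?_
  rw [h6']
  have n3 : (starRingEnd ℂ) (η i ((starRingEnd ℂ) (χ t))) = h1_S η χ i t := rfl
  rw [n3]
  field_simp

/-- Row Z7-H1L (local part, no structure `Cv` involved). -/
theorem h1_local {t0 : ℂ} {ρ0 : ℝ} (hρ0 : 0 < ρ0) {η ℓ : Fin m → ℂ → ℂ}
    (hη : ∀ i, Alg t0 ρ0 (η i)) (hη0 : ∀ i, ∀ t ∈ Metric.ball t0 ρ0, η i t ≠ 0)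
    (hℓ : ∀ i, ∀ t ∈ Metric.ball t0 ρ0, HasDerivAt (ℓ i) (deriv (η i) t / η i t) t)
    (hexp : ∀ i, ∀ t ∈ Metric.ball t0 ρ0, Complex.exp (ℓ i t) = η i t) {u v : Fin m → ℝ}
    (hcr : ∑ i, (u i : ℂ) * (deriv (η i) t0 / η i t0) ≠ 0)
    (hnp : ∀ κ : ℝ, ¬ ∀ t ∈ Metric.ball t0 ρ0, ∑ i, ((v i - κ * u i : ℝ) : ℂ) * (deriv (η i) t / η i t) = 0)
    (hacc : ∀ O ∈ 𝓝 t0, ∃ t ∈ O, t ≠ t0 ∧ dt u (lg fun i => η i t) = 0 ∧ dt v (lg fun i => η i t) = 0) :
    ∃ (J : Type) (_ : Fintype J) (N : J → Fin m → ℤ) (s : J → ℝ),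
      (∃ a : J → ℝ, ∀ i, u i = ∑ j, a j * (N j i : ℝ)) ∧ (∃ b : J → ℝ, ∀ i, v i = ∑ j, b j * (N j i : ℝ)) ∧
      ∀ᶠ t in 𝓝 t0, dt u (lg fun i => η i t) = 0 → ∀ j, ∑ i, (N j i : ℝ) * lg (fun i => η i t) i = s j := by
  classical
  have ht0 : t0 ∈ Metric.ball t0 ρ0 := Metric.mem_ball_self hρ0
  -- the functions
  obtain ⟨F, hF⟩ : ∃ F : (Fin m → ℝ) → ℂ → ℂ, F = fun w t => ∑ i, (w i : ℂ) * ℓ i t := ⟨_, rfl⟩
  obtain ⟨F', hF'⟩ : ∃ F' : (Fin m → ℝ) → ℂ → ℂ, F' = fun w t => ∑ i, (w i : ℂ) * (deriv (η i) t / η i t) :=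
    ⟨_, rfl⟩
  have hFd : ∀ w, ∀ t ∈ Metric.ball t0 ρ0, HasDerivAt (F w) (F' w t) t := by
    intro w t ht
    rw [hF, hF']
    exact HasDerivAt.fun_sum fun i _ => (hℓ i t ht).const_mul _
  have hℓre : ∀ i, ∀ t ∈ Metric.ball t0 ρ0, (ℓ i t).re = Real.log ‖η i t‖ := by
    intro i t ht
    rw [← hexp i t ht, Complex.norm_exp, Real.log_exp]
  have hFre : ∀ w, ∀ t ∈ Metric.ball t0 ρ0, (F w t).re = dt w (lg fun i => η i t) := by
    intro w t ht
    rw [hF]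
    simp only [Complex.re_sum, Pool.Agent.Z6.dt, Complex.re_ofReal_mul]
    exact Finset.sum_congr rfl fun i _ => by rw [hℓre i t ht]; rfl
  -- Re (F u t0) = 0
  have hf00 : (F u t0).re = 0 := by
    by_contra hne
    have hc : ContinuousAt (fun t => (F u t).re) t0 :=
      Complex.continuous_re.continuousAt.comp (hFd u t0 ht0).continuousAt
    obtain ⟨t, ⟨h1, h2⟩, -, h3, -⟩ := hacc _ (Filter.inter_mem (hc.eventually_ne hne) (Metric.ball_mem_nhds t0 hρ0))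
    exact h1 (by rw [hFre u t h2, h3])
  -- noncritical
  have hf'c : ContinuousAt (F' u) t0 := by
    rw [hF']
    refine tendsto_finsetSum _ fun i _ => ?_
    have h1 : ContinuousAt (deriv (η i)) t0 := ((w1_an (hη i).1).deriv t0 ht0).continuousAt
    have h2 : ContinuousAt (η i) t0 :=
      ((hη i).1.differentiableAt (Metric.ball_mem_nhds t0 hρ0)).continuousAt
    exact continuousAt_const.mul (h1.div h2 (hη0 i t0 ht0))
  obtain ⟨r1, hr1, hb1⟩ := Metric.mem_nhds_iff.1 (hf'c.eventually_ne (by rw [hF']; exact hcr))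
  -- the Schwarz function
  obtain ⟨ρ3, hρ3, χ, hχd, hχc⟩ := schwarz (f := F u) (t0 := t0) (Filter.eventually_of_mem
    (Metric.ball_mem_nhds t0 hρ0) fun t ht => (hFd u t ht).differentiableAt)
    (by rw [(hFd u t0 ht0).deriv, hF']; exact hcr) hf00
  obtain ⟨ρ4, hρ4, hρ40, hρ41, hρ43⟩ : ∃ ρ4, 0 < ρ4 ∧ ρ4 ≤ ρ0 ∧ ρ4 ≤ r1 ∧ ρ4 ≤ ρ3 :=
    ⟨min ρ0 (min r1 ρ3), lt_min hρ0 (lt_min hr1 hρ3), min_le_left _ _,
      (min_le_right _ _).trans (min_le_left _ _), (min_le_right _ _).trans (min_le_right _ _)⟩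
  have s40 := Metric.ball_subset_ball (x := t0) hρ40
  have s41 := Metric.ball_subset_ball (x := t0) hρ41
  have s43 := Metric.ball_subset_ball (x := t0) hρ43
  have hf'ne : ∀ t ∈ Metric.ball t0 ρ4, F' u t ≠ 0 := fun t ht => hb1 (s41 ht)
  have hacc2 : ∀ w, (w = u ∨ w = v) → ∀ O ∈ 𝓝 t0, ∃ t ∈ O, t ≠ t0 ∧ (F u t).re = 0 ∧ (F w t).re = 0 := by
    intro w hw O hO
    obtain ⟨t, ⟨h1, h2⟩, h3, h4, h5⟩ := hacc _ (Filter.inter_mem hO (Metric.ball_mem_nhds t0 hρ0))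
    refine ⟨t, h1, h3, by rw [hFre u t h2, h4], ?_⟩
    rcases hw with rfl | rfl
    · rw [hFre _ t h2, h4]
    · rw [hFre _ t h2, h5]
  have hRfl : ∀ w, (w = u ∨ w = v) → ∃ r, 0 < r ∧ r ≤ ρ4 ∧ ∀ t ∈ Metric.ball t0 r,
      (starRingEnd ℂ) (χ t) ∈ Metric.ball t0 ρ4 ∧ F w t + (starRingEnd ℂ) (F w ((starRingEnd ℂ) (χ t))) = 0 :=
    fun w hw => reflect (f := F u) (g := F w) hρ4
      (fun t ht => (hFd w t (s40 ht)).differentiableAt.differentiableWithinAt)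
      (hχd.mono s43) (fun t ht => hχc t (s43 ht)) hf00 (hacc2 w hw)
  obtain ⟨r5, hr5, hr54, hR5⟩ := hRfl u (Or.inl rfl)
  obtain ⟨r6, hr6, hr64, hR6⟩ := hRfl v (Or.inr rfl)
  obtain ⟨ρ, hρ, hρr5, hρr6⟩ : ∃ ρ, 0 < ρ ∧ ρ ≤ r5 ∧ ρ ≤ r6 := ⟨min r5 r6, lt_min hr5 hr6, min_le_left _ _, min_le_right _ _⟩
  have b5 := Metric.ball_subset_ball (x := t0) hρr5
  have b6 := Metric.ball_subset_ball (x := t0) hρr6
  have hρρ4 : ρ ≤ ρ4 := hρr5.trans hr54
  have s4 := Metric.ball_subset_ball (x := t0) hρρ4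
  have hτ : ∀ t ∈ Metric.ball t0 ρ, (starRingEnd ℂ) (χ t) ∈ Metric.ball t0 ρ4 := fun t ht => (hR5 t (b5 ht)).1
  have hRf : ∀ t ∈ Metric.ball t0 ρ, F u t + (starRingEnd ℂ) (F u ((starRingEnd ℂ) (χ t))) = 0 :=
    fun t ht => (hR5 t (b5 ht)).2
  have hRg : ∀ t ∈ Metric.ball t0 ρ, F v t + (starRingEnd ℂ) (F v ((starRingEnd ℂ) (χ t))) = 0 :=
    fun t ht => (hR6 t (b6 ht)).2
  have hχd4 := hχd.mono s43
  have hχρ := hχd4.mono s4
  have hfix : ∀ t ∈ Metric.ball t0 ρ, (F u t).re = 0 → (starRingEnd ℂ) (χ t) = t := by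
    intro t ht h
    rw [hχc t (s43 (s4 ht)) h, Complex.conj_conj]
  have ht0ρ : t0 ∈ Metric.ball t0 ρ := Metric.mem_ball_self hρ
  -- k
  obtain ⟨k, hkd⟩ : ∃ k : ℂ → ℂ, k = fun t => F' v t / F' u t := ⟨_, rfl⟩
  have hkc : ∀ t ∈ Metric.ball t0 ρ, k t = (starRingEnd ℂ) (k ((starRingEnd ℂ) (χ t))) := by
    intro t ht
    rw [hkd]
    exact w1_kconj (fun t ht => hFd u t (s40 ht)) (fun t ht => hFd v t (s40 ht)) hf'ne hρρ4
      hχd4 hτ hRf hRg t ht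
  -- algebraicity
  have hηA : ∀ i, Alg t0 ρ4 (η i) := fun i => (hη i).mono s40
  have hη04 : ∀ i, ∀ t ∈ Metric.ball t0 ρ4, η i t ≠ 0 := fun i t ht => hη0 i t (s40 ht)
  have hℓ4 : ∀ i, ∀ t ∈ Metric.ball t0 ρ4, HasDerivAt (ℓ i) (deriv (η i) t / η i t) t := fun i t ht =>
    hℓ i t (s40 ht)
  have hldA : ∀ i, Alg t0 ρ4 (fun t => deriv (η i) t / η i t) := fun i =>
    w1_congr (Alg.mul hρ4 (Alg.deriv hρ4 (hηA i)) (Alg.inv hρ4 (hηA i) (hη04 i))) fun t _ => div_eq_mul_inv _ _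
  have hsumA : ∀ w : Fin m → ℝ, Alg t0 ρ4 (fun t => ∑ i, (w i : ℂ) * (deriv (η i) t / η i t)) := fun w =>
    w6_sum hρ4 (v := fun i => (w i : ℂ)) hldA
  have hkA : Alg t0 ρ4 k := by
    refine w1_congr (Alg.mul hρ4 (hsumA v) (Alg.inv hρ4 (hsumA u) fun t ht => by
        have h := hf'ne t ht
        rw [hF'] at h
        exact h)) fun t _ => ?_
    rw [hkd, hF']
    exact div_eq_mul_inv _ _
  have hkρ : Alg t0 ρ k := hkA.mono s4
  -- k is not constant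
  have hnc : ¬ ∀ t ∈ Metric.ball t0 ρ, k t = k t0 := by
    intro hc
    have h1 := hkc t0 ht0ρ
    rw [hfix t0 ht0ρ hf00] at h1
    obtain ⟨κ, hκ⟩ := Complex.conj_eq_iff_real.1 h1.symm
    refine hnp κ ?_
    have hD : DifferentiableOn ℂ (fun t => ∑ i, ((v i - κ * u i : ℝ) : ℂ) * (deriv (η i) t / η i t))
        (Metric.ball t0 ρ0) := DifferentiableOn.fun_sum fun i _ =>
      (((w1_an (hη i).1).deriv.differentiableOn).div (hη i).1 (hη0 i)).const_mul _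
    refine w1_ident2 hD hρ ht0 fun t ht => ?_
    have h2 := hc t ht
    rw [hκ, hkd] at h2
    have h3 : F' v t = (κ : ℂ) * F' u t := (div_eq_iff (hf'ne t (s4 ht))).1 h2
    rw [hF'] at h3
    simp only at h3
    push_cast
    simp only [sub_mul, Finset.sum_sub_distrib, h3, Finset.mul_sum, mul_assoc, sub_self]
  have hχA : Alg t0 ρ χ := Alg.exchange hρ hkρ hχρ (w1_dep hkA hτ hkc) hnc
  have hχnc : ¬ ∀ t ∈ Metric.ball t0 ρ, χ t = χ t0 := by
    intro h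
    apply hnc
    intro t ht
    rw [hkc t ht, h t ht, ← hkc t0 ht0ρ]
  have hSA : ∀ i, Alg t0 ρ (h1_S η χ i) := fun i =>
    h1_trans hρ hχA (fun t ht => (h1_S_deriv (fun i => (hηA i).1) hχρ hτ i t ht).differentiableAt.differentiableWithinAt)
      (h1_dep (hηA i) hτ) hχnc
  have hRA : ∀ i, Alg t0 ρ (fun t => η i t * h1_S η χ i t) := fun i => Alg.mul hρ ((hηA i).mono s4) (hSA i)
  have hR0 : ∀ i, ∀ t ∈ Metric.ball t0 ρ, η i t * h1_S η χ i t ≠ 0 := fun i t ht =>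
    mul_ne_zero (hη04 i t (s4 ht)) ((_root_.map_ne_zero _).2 (hη04 i _ (hτ t ht)))
  have hLd := h1_L_deriv hρρ4 (fun i => (hηA i).1) hη04 hℓ4 hχρ hτ
  have hrel : ∀ w : Fin m → ℝ, (∀ t ∈ Metric.ball t0 ρ, F w t + (starRingEnd ℂ) (F w ((starRingEnd ℂ) (χ t))) = 0) →
      ∀ t ∈ Metric.ball t0 ρ, ∑ i, (w i : ℂ) * (deriv (fun t => η i t * h1_S η χ i t) t / (η i t * h1_S η χ i t)) = 0 := by
    intro w hw t ht
    have h1 : ∀ t ∈ Metric.ball t0 ρ, ∑ i, (w i : ℂ) * w6_L ℓ χ i t = 0 := by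
      intro t ht
      have h2 := hw t ht
      rw [hF] at h2
      simp only [map_sum, map_mul, Complex.conj_ofReal] at h2
      have h3 : ∑ i, (w i : ℂ) * w6_L ℓ χ i t = (∑ i, (w i : ℂ) * ℓ i t +
          ∑ i, (w i : ℂ) * (starRingEnd ℂ) (ℓ i ((starRingEnd ℂ) (χ t)))) / 2 := by
        rw [← Finset.sum_add_distrib, Finset.sum_div]
        refine Finset.sum_congr rfl fun i _ => ?_
        unfold w6_L
        ring
      rw [h3, h2, zero_div]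
    have h4 := w1_zero_deriv (Metric.isOpen_ball.mem_nhds ht) h1
      (HasDerivAt.fun_sum (u := Finset.univ) fun i _ => (hLd i t ht).const_mul (w i : ℂ))
    have h5 : ∑ i, (w i : ℂ) * (deriv (fun t => η i t * h1_S η χ i t) t / (η i t * h1_S η χ i t)) =
        2 * ∑ i, (w i : ℂ) * (deriv (fun t => η i t * h1_S η χ i t) t / (η i t * h1_S η χ i t) / 2) := by
      rw [Finset.mul_sum]
      exact Finset.sum_congr rfl fun i _ => by ring
    rw [h5, h4, mul_zero]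
  obtain ⟨q, b, n, -, hb, hz⟩ := s3_holo hρ (fun i t => η i t * h1_S η χ i t) hRA hR0 (fun i => (u i : ℂ)) (hrel u hRf)
  obtain ⟨q', b', n', -, hb', hz'⟩ := s3_holo hρ (fun i t => η i t * h1_S η χ i t) hRA hR0 (fun i => (v i : ℂ)) (hrel v hRg)
  choose z hz using hz
  choose z' hz' using hz'
  have hre : ∀ {q : ℕ} (b : Fin q → ℂ) (n : Fin m → Fin q → ℤ) (w : Fin m → ℝ), (∀ i, (w i : ℂ) = ∑ k, (n i k : ℂ) * b k) →
      ∀ i, w i = ∑ k, (b k).re * (n i k : ℝ) := by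
    intro q b n w hw i
    have h := congrArg Complex.re (hw i)
    rw [Complex.ofReal_re, Complex.re_sum] at h
    rw [h]
    refine Finset.sum_congr rfl fun k _ => ?_
    have e : ((n i k : ℤ) : ℂ) = (((n i k : ℤ) : ℝ) : ℂ) := by push_cast; rfl
    rw [e, Complex.re_ofReal_mul, mul_comm]
  have hval : ∀ (N : Fin m → ℤ) (z : ℂ), (∀ t ∈ Metric.ball t0 ρ, ∏ i, (η i t * h1_S η χ i t) ^ N i = z) →
      ∀ t ∈ Metric.ball t0 ρ, dt u (lg fun i => η i t) = 0 → ∑ i, (N i : ℝ) * lg (fun i => η i t) i = Real.log ‖z‖ / 2 := by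
    intro N z hN t ht hd
    have h1 : (F u t).re = 0 := by rw [hFre u t (s40 (s4 ht)), hd]
    have h2 : ∀ i, ‖η i t * h1_S η χ i t‖ = ‖η i t‖ ^ 2 := by
      intro i
      unfold h1_S
      rw [hfix t ht h1, norm_mul, RCLike.norm_conj, sq]
    have h3 := congrArg (fun w : ℂ => Real.log ‖w‖) (hN t ht)
    simp only [norm_prod, norm_zpow, h2] at h3
    rw [Real.log_prod] at h3
    · rw [← h3, Finset.sum_div]
      refine Finset.sum_congr rfl fun i _ => ?_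
      rw [Real.log_zpow, Real.log_pow]
      show (N i : ℝ) * Real.log ‖η i t‖ = _
      push_cast
      ring
    · intro i _
      exact zpow_ne_zero _ (pow_ne_zero _ (norm_ne_zero_iff.2 (hη04 i t (s4 ht))))
  refine ⟨Fin q ⊕ Fin q', inferInstance, Sum.elim (fun k i => n i k) (fun k i => n' i k),
    Sum.elim (fun k => Real.log ‖z k‖ / 2) (fun k => Real.log ‖z' k‖ / 2),
    ⟨Sum.elim (fun k => (b k).re) 0, fun i => ?_⟩, ⟨Sum.elim 0 (fun k => (b' k).re), fun i => ?_⟩, ?_⟩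
  · rw [Fintype.sum_sum_type]
    simp only [Sum.elim_inl, Sum.elim_inr, Pi.zero_apply, zero_mul, Finset.sum_const_zero, add_zero]
    exact hre b n u hb i
  · rw [Fintype.sum_sum_type]
    simp only [Sum.elim_inl, Sum.elim_inr, Pi.zero_apply, zero_mul, Finset.sum_const_zero, zero_add]
    exact hre b' n' v hb' i
  · refine Filter.eventually_of_mem (Metric.ball_mem_nhds t0 hρ) fun t ht hd j => ?_
    match j with
    | Sum.inl k => exact hval (fun i => n i k) (z k) (hz k) t ht hd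
    | Sum.inr k => exact hval (fun i => n' i k) (z' k) (hz' k) t ht hd

end Pool.Agent.Z7
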