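import Pool.Agent.Z7.H1
import Pool.Agent.Z7.H1L

namespace Pool.Agent.Z7

open Pool.Agent.ZL2 Filter Topology
open Pool.Agent.Z5 (fr Gen ev2 Alg)
open Pool.Agent.Z6 (dt)

section lattice

variable {m : ℕ}

theorem h1_int {κ : Type} [Fintype κ] {n : κ → Fin m → ℤ} (h : LinearIndependent ℝ (fun k i => (n k i : ℝ))) :
    LinearIndependent ℤ n := by
  rw [Fintype.linearIndependent_iff] at h ⊢
  intro g hg k
  have h1 := h (fun k => (g k : ℝ)) (by
    funext i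
    have h2 := congrFun hg i
    simp only [Finset.sum_apply, Pi.smul_apply, smul_eq_mul, Pi.zero_apply] at h2 ⊢
    exact_mod_cast h2) k
  exact_mod_cast h1

/-- Integral relations from the span of the rows. -/
theorem h1_lattice {J : Type} [Fintype J] (N : J → Fin m → ℤ) (s : J → ℝ) {u v : Fin m → ℝ}
    (huv : LinearIndependent ℝ ![u, v]) (hu : ∃ a : J → ℝ, ∀ i, u i = ∑ j, a j * (N j i : ℝ))
    (hv : ∃ b : J → ℝ, ∀ i, v i = ∑ j, b j * (N j i : ℝ)) :
    (∃ n n' : Fin m → ℤ, LinearIndependent ℤ ![n, n'] ∧ ∀ w : Fin m → ℝ, dt u w = 0 → dt v w = 0 →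
      ∑ i, (n i : ℝ) * w i = 0 ∧ ∑ i, (n' i : ℝ) * w i = 0) ∨
    ∃ (n : Fin 3 → Fin m → ℤ) (r : Fin 3 → ℝ), LinearIndependent ℤ n ∧ ∀ w : Fin m → ℝ,
      (∀ j, ∑ i, (N j i : ℝ) * w i = s j) → ∀ k, ∑ i, (n k i : ℝ) * w i = r k := by
  classical
  obtain ⟨κ, a, ha, hspan, hli⟩ := exists_linearIndependent' ℝ (fun j i => (N j i : ℝ))
  have hfκ : Finite κ := Finite.of_injective a ha
  have : Fintype κ := Fintype.ofFinite κ
  have hmem : ∀ w : Fin m → ℝ, (∃ b : J → ℝ, ∀ i, w i = ∑ j, b j * (N j i : ℝ)) →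
      w ∈ Submodule.span ℝ (Set.range ((fun j i => (N j i : ℝ)) ∘ a)) := by
    rintro w ⟨b, hb⟩
    rw [hspan]
    have h1 : w = ∑ j, b j • (fun i => (N j i : ℝ)) := by
      funext i
      rw [hb i, Finset.sum_apply]
      rfl
    rw [h1]
    exact Submodule.sum_mem _ fun j _ => Submodule.smul_mem _ _ (Submodule.subset_span ⟨j, rfl⟩)
  have hle : Submodule.span ℝ (Set.range ![u, v]) ≤ Submodule.span ℝ (Set.range ((fun j i => (N j i : ℝ)) ∘ a)) := by
    rw [Submodule.span_le]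
    rintro _ ⟨k, rfl⟩
    match k with
    | 0 => exact hmem u hu
    | 1 => exact hmem v hv
  have hf2 : Module.finrank ℝ (Submodule.span ℝ (Set.range ![u, v])) = 2 := by
    rw [finrank_span_eq_card huv, Fintype.card_fin]
  have hfκ : Module.finrank ℝ (Submodule.span ℝ (Set.range ((fun j i => (N j i : ℝ)) ∘ a))) = Fintype.card κ :=
    finrank_span_eq_card hli
  have hge : 2 ≤ Fintype.card κ := by
    rw [← hf2, ← hfκ]
    exact Submodule.finrank_mono hle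
  rcases Nat.eq_or_lt_of_le hge with h2 | h3
  · left
    have heq := Submodule.eq_of_le_of_finrank_eq hle (by rw [hf2, hfκ, h2])
    obtain ⟨e⟩ : Nonempty (Fin 2 ≃ κ) := ⟨(Fintype.equivFinOfCardEq h2.symm).symm⟩
    have hk : ∀ k : κ, ∃ c d : ℝ, ∀ i, (N (a k) i : ℝ) = c * u i + d * v i := by
      intro k
      have h4 : (fun i => (N (a k) i : ℝ)) ∈ Submodule.span ℝ (Set.range ![u, v]) := by
        rw [heq]
        exact Submodule.subset_span ⟨k, rfl⟩
      rw [Matrix.range_cons, Matrix.range_cons, Matrix.range_empty, Set.union_empty, Set.singleton_union,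
        Submodule.mem_span_pair] at h4
      obtain ⟨c, d, h5⟩ := h4
      exact ⟨c, d, fun i => (congrFun h5 i).symm⟩
    have hz : ∀ (k : κ) (w : Fin m → ℝ), dt u w = 0 → dt v w = 0 → ∑ i, (N (a k) i : ℝ) * w i = 0 := by
      intro k w h5 h6
      obtain ⟨c, d, h7⟩ := hk k
      have h8 : ∑ i, (N (a k) i : ℝ) * w i = c * dt u w + d * dt v w := by
        unfold Pool.Agent.Z6.dt
        rw [Finset.mul_sum, Finset.mul_sum, ← Finset.sum_add_distrib]
        refine Finset.sum_congr rfl fun i _ => ?_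
        rw [h7 i]
        ring
      rw [h8, h5, h6]
      ring
    refine ⟨N (a (e 0)), N (a (e 1)), ?_, fun w h5 h6 => ⟨hz _ w h5 h6, hz _ w h5 h6⟩⟩
    have h9 : (![N (a (e 0)), N (a (e 1))] : Fin 2 → Fin m → ℤ) = fun k => N (a (e k)) := by
      funext k
      match k with
      | 0 => rfl
      | 1 => rfl
    rw [h9]
    exact h1_int (n := fun k => N (a (e k))) (hli.comp e e.injective)
  · right
    obtain ⟨e⟩ : Nonempty (Fin 3 ↪ κ) := Function.Embedding.nonempty_of_card_le (by rw [Fintype.card_fin]; omega)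
    exact ⟨fun k => N (a (e k)), fun k => s (a (e k)), h1_int (n := fun k => N (a (e k))) (hli.comp e e.injective),
      fun w hw k => hw (a (e k))⟩

end lattice

variable {m : ℕ} [NeZero m]

/-- Row Z7-H2. Two independent real relations do not accumulate at a point of `C \ E` if (I2) no two independent
characters have modulus one at infinitely many points, (I3) no three independent characters have constant moduli at
infinitely many points. The ray argument of `hh_of_int`; `h1_local` gives integral vectors `N_j`, with `u`, `v` in their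
real span, which are constant on the ray; `h1_lattice`. -/
theorem hh_of_int2 (D : Cv m) (hI2 : ∀ n n' : Fin m → ℤ, LinearIndependent ℤ ![n, n'] →
    {y | y ∈ D.C ∧ ‖∏ i, y i ^ n i‖ = 1 ∧ ‖∏ i, y i ^ n' i‖ = 1}.Finite)
    (hI3 : ∀ n : Fin 3 → Fin m → ℤ, LinearIndependent ℤ n → ∀ r : Fin 3 → ℝ,
      {y | y ∈ D.C ∧ ∀ k, ‖∏ i, y i ^ n k i‖ = r k}.Finite) : HHp D := by
  intro u v huv y0 hy0 hy0E
  by_contra hcon
  push Not at hcon
  have hpair := LinearIndependent.pair_iff.1 huv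
  have hu0 : u ≠ 0 := by
    rintro rfl
    exact one_ne_zero (hpair 1 0 (by simp)).1
  -- the points have another first coordinate
  have hacc : ∀ O ∈ 𝓝 y0, ∃ y ∈ O, y ∈ D.C ∧ y 0 ≠ y0 0 ∧ dt u (lg y) = 0 ∧ dt v (lg y) = 0 := by
    intro O hO
    have hfin : ({y | y ∈ D.C ∧ y 0 = y0 0} \ {y0}).Finite := (D.fib (y0 0)).sdiff
    obtain ⟨y, h1, h2, h3, h4, h5⟩ := hcon (O ∩ ({y | y ∈ D.C ∧ y 0 = y0 0} \ {y0})ᶜ)
      (Filter.inter_mem hO (hfin.isClosed.isOpen_compl.mem_nhds (by simp)))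
    exact ⟨y, h1.1, h2, fun e => h1.2 ⟨⟨h2, e⟩, h5⟩, h3, h4⟩
  have hacc0 : ∀ O ∈ 𝓝 y0, ∃ y ∈ O, y ∈ D.C ∧ y 0 ≠ y0 0 := by
    intro O hO
    obtain ⟨y, h1, h2, h3, -⟩ := hacc O hO
    exact ⟨y, h1, h2, h3⟩
  obtain ⟨ρ, η, ℓ, -, hch⟩ := exists_chart D hy0 hy0E hacc0 (ρ0 := 1) one_pos
  have hρ := hch.pos
  obtain ⟨t0, ht0⟩ : ∃ t0, t0 = y0 0 := ⟨_, rfl⟩
  obtain ⟨f, hfd⟩ : ∃ f : ℂ → ℂ, f = fun t => ∑ i, (u i : ℂ) * ℓ i t := ⟨_, rfl⟩
  have hsumre : ∀ (w : Fin m → ℝ) (t : ℂ), (∑ i, (w i : ℂ) * ℓ i t).re = ∑ i, w i * (ℓ i t).re := by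
    intro w t
    simp only [Complex.re_sum, Complex.re_ofReal_mul]
  have hdt : ∀ (w : Fin m → ℝ), ∀ t ∈ Metric.ball (y0 0) ρ, (∑ i, (w i : ℂ) * ℓ i t).re = dt w (lg fun i => η i t) := by
    intro w t ht
    rw [hsumre]
    unfold Pool.Agent.Z6.dt
    exact Finset.sum_congr rfl fun i _ => by rw [hch.re_eq i ht]
  have hwd : ∀ (w : Fin m → ℂ), ∀ t ∈ Metric.ball (y0 0) ρ, HasDerivAt (fun t => ∑ i, w i * ℓ i t)
      (∑ i, w i * (deriv (η i) t / η i t)) t := fun w t ht =>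
    HasDerivAt.fun_sum fun i _ => (hch.der i t ht).const_mul _
  -- the points in the coordinate `t`
  obtain ⟨T, hT⟩ : ∃ T : Set ℂ, T = {t | t ∈ Metric.ball (y0 0) ρ ∧ t ≠ y0 0 ∧ (fun i => η i t) ∈ D.C ∧
      (∑ i, (u i : ℂ) * ℓ i t).re = 0 ∧ (∑ i, (v i : ℂ) * ℓ i t).re = 0} := ⟨_, rfl⟩
  have hTacc : ∀ O ∈ 𝓝 (y0 0), ∃ t ∈ O, t ∈ T := by
    intro O hO
    have hc : ContinuousAt (fun y : Fin m → ℂ => y 0) y0 := (continuous_apply 0).continuousAt
    obtain ⟨y, h1, h2, h3, h4, h5⟩ := hacc _ ((hc.eventually_mem hO).and hch.uniq)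
    obtain ⟨h6, h7⟩ := h1.2 h2
    have h8 : (fun i => η i (y 0)) = y := funext fun i => (h7 i).symm
    refine ⟨y 0, h1.1, ?_⟩
    rw [hT]
    refine ⟨h6, h3, ?_, ?_, ?_⟩
    · rw [h8]; exact h2
    · rw [hdt u _ h6, h8]; exact h4
    · rw [hdt v _ h6, h8]; exact h5
  have hfa : AnalyticAt ℂ f (y0 0) := by
    have h1 : DifferentiableOn ℂ f (Metric.ball (y0 0) ρ) := by
      intro t ht
      rw [hfd]
      exact (hwd (fun i => (u i : ℂ)) t ht).differentiableAt.differentiableWithinAt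
    exact h1.analyticAt (Metric.ball_mem_nhds _ hρ)
  have hf0 : (f (y0 0)).re = 0 := by
    by_contra h
    have h1 : ContinuousAt (fun t => (f t).re) (y0 0) := Complex.continuous_re.continuousAt.comp hfa.continuousAt
    obtain ⟨t, h2, h3⟩ := hTacc _ (h1.eventually_ne h)
    rw [hT] at h3
    apply h2
    rw [hfd]
    exact h3.2.2.2.1
  have hfnc : ¬ ∀ᶠ t in 𝓝 (y0 0), f t = f (y0 0) := by
    intro h
    obtain ⟨r, hr, hb⟩ := Metric.eventually_nhds_iff_ball.1 h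
    obtain ⟨r', hr', h1, h2⟩ : ∃ r', 0 < r' ∧ r' ≤ r ∧ r' ≤ ρ := ⟨min r ρ, lt_min hr hρ, min_le_left _ _, min_le_right _ _⟩
    refine hch.not_const hacc0 hu0 ?_
    refine Z5.w1_ident2 (b3_der_diff hch u) hr' (Metric.mem_ball_self hρ) fun t ht => ?_
    have h3 := hwd (fun i => (u i : ℂ)) t (Metric.ball_subset_ball h2 ht)
    have h4 : HasDerivAt f 0 t := (hasDerivAt_const t (f (y0 0))).congr_of_eventuallyEq
      (Filter.eventually_of_mem (Metric.isOpen_ball.mem_nhds ht) fun x hx => hb x (Metric.ball_subset_ball h1 hx))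
    rw [hfd] at h4
    exact h3.unique h4
  obtain ⟨k, ε0, τ, hk, hε0, hτ0, hτd, hτ', hτi, hτf, hτs⟩ := root_form hfa hfnc
  -- a smaller ball which is mapped into the chart
  have hτc : ContinuousAt τ 0 := (hτd.differentiableAt (Metric.ball_mem_nhds 0 hε0)).continuousAt
  obtain ⟨ε1, hε1, hb1⟩ := Metric.mem_nhds_iff.1 (hτc.preimage_mem_nhds (by rw [hτ0]; exact Metric.ball_mem_nhds _ hρ))
  obtain ⟨ε, hε, hεε0, hεε1⟩ : ∃ ε, 0 < ε ∧ ε ≤ ε0 ∧ ε ≤ ε1 := ⟨min ε0 ε1, lt_min hε0 hε1, min_le_left _ _, min_le_right _ _⟩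
  have se0 := Metric.ball_subset_ball (x := (0 : ℂ)) hεε0
  have hin : ∀ w ∈ Metric.ball (0 : ℂ) ε, τ w ∈ Metric.ball (y0 0) ρ := fun w hw => hb1 (Metric.ball_subset_ball hεε1 hw)
  -- the rays
  have hΩ : {ω : ℂ | ω ^ (2 * k) = -1}.Finite := by
    have h1 : (Polynomial.X ^ (2 * k) - Polynomial.C (-1 : ℂ)) ≠ 0 := Polynomial.X_pow_sub_C_ne_zero (by omega) _
    refine (Polynomial.finite_setOfPred_isRoot h1).subset fun ω hω => ?_
    have h2 : ω ^ (2 * k) = -1 := hω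
    show Polynomial.IsRoot _ ω
    rw [Polynomial.IsRoot.def, Polynomial.eval_sub, Polynomial.eval_pow, Polynomial.eval_X, Polynomial.eval_C, h2, sub_self]
  obtain ⟨ω, hω, hfr⟩ : ∃ ω : ℂ, ω ^ (2 * k) = -1 ∧ ∃ᶠ s : ℝ in 𝓝[>] 0, τ (ω * s) ∈ T := by
    by_contra H
    push Not at H
    have h1 : ∀ᶠ s : ℝ in 𝓝[>] 0, ∀ ω ∈ {ω : ℂ | ω ^ (2 * k) = -1}, τ (ω * s) ∉ T :=
      (Filter.eventually_all_finite hΩ).2 fun ω hω => H ω hω
    obtain ⟨δ, hδ, h2⟩ := mem_nhdsGT_iff_exists_Ioo_subset.1 h1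
    have hδ' : (0 : ℝ) < δ := hδ
    obtain ⟨t, ⟨w, hw, hwt⟩, htT⟩ := hTacc _ (hτs δ hδ')
    have htT' := htT
    rw [hT] at htT'
    obtain ⟨q1, q2, q3, q4, q5⟩ := htT'
    have hw0 : w ≠ 0 := by
      rintro rfl
      rw [hτ0] at hwt
      exact q2 hwt.symm
    have hwn : 0 < ‖w‖ := norm_pos_iff.2 hw0
    have hwb := mem_ball_zero_iff.1 hw
    have hwk : (w ^ k).re = 0 := by
      have e1 := hτf w (mem_ball_zero_iff.2 (lt_of_lt_of_le hwb (min_le_right _ _)))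
      rw [hwt] at e1
      have e2 := congrArg Complex.re e1
      rw [Complex.add_re, hf0, zero_add] at e2
      rw [← e2, hfd]
      exact q4
    have hns : ((‖w‖ : ℝ) : ℂ) ≠ 0 := Complex.ofReal_ne_zero.2 hwn.ne'
    refine h2 (⟨hwn, lt_of_lt_of_le hwb (min_le_left _ _)⟩ : ‖w‖ ∈ Set.Ioo 0 δ) (w / (‖w‖ : ℝ)) ?_ ?_
    · show (w / ((‖w‖ : ℝ) : ℂ)) ^ (2 * k) = -1
      have e1 : w ^ k = ((w ^ k).im : ℂ) * Complex.I := by
        apply Complex.ext <;> simp [hwk]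
      have e2 : ((w ^ k).im) ^ 2 = ‖w‖ ^ (2 * k) := by
        have e3 : ‖w ^ k‖ = |(w ^ k).im| := by rw [e1]; simp
        rw [norm_pow] at e3
        rw [← sq_abs, ← e3, ← pow_mul, mul_comm]
      have e4 : w ^ (2 * k) = -((‖w‖ : ℝ) : ℂ) ^ (2 * k) := by
        rw [mul_comm, pow_mul, e1, mul_pow, Complex.I_sq]
        have e5 : (((w ^ k).im : ℝ) : ℂ) ^ 2 = ((‖w‖ : ℝ) : ℂ) ^ (k * 2) := by
          rw [mul_comm k 2]
          exact_mod_cast e2
        rw [e5]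
        ring
      rw [div_pow, e4, neg_div, div_self (pow_ne_zero _ hns)]
    · rw [div_mul_cancel₀ _ hns, hwt]
      exact htT
  have hωn : ‖ω‖ = 1 := by
    have h1 := congrArg norm hω
    rw [norm_pow, norm_neg, norm_one] at h1
    exact (pow_eq_one_iff_of_nonneg (norm_nonneg _) (by omega)).1 h1
  have hω0 : ω ≠ 0 := by
    intro h
    rw [h, norm_zero] at hωn
    exact zero_ne_one hωn
  have hωk : (ω ^ k).re = 0 := by
    have h1 : (ω ^ k) ^ 2 = -1 := by rw [← pow_mul, mul_comm, hω]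
    have h2 := congrArg Complex.im h1
    have h3 := congrArg Complex.re h1
    rw [sq, Complex.mul_im, Complex.neg_im, Complex.one_im] at h2
    rw [sq, Complex.mul_re, Complex.neg_re, Complex.one_re] at h3
    nlinarith [sq_nonneg (ω ^ k).re, sq_nonneg (ω ^ k).im]
  have hray : ∀ z ∈ Metric.ball (0 : ℂ) ε, ω * z ∈ Metric.ball (0 : ℂ) ε := by
    intro z hz
    rw [mem_ball_zero_iff, norm_mul, hωn, one_mul]
    exact mem_ball_zero_iff.1 hz
  have hreal : ∀ s : ℝ, |s| < ε → (s : ℂ) ∈ Metric.ball (0 : ℂ) ε := by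
    intro s hs
    rw [mem_ball_zero_iff, Complex.norm_real]
    exact hs
  have hFd : ∀ w : Fin m → ℂ, DifferentiableOn ℂ (fun z => ∑ i, w i * ℓ i (τ (ω * z))) (Metric.ball 0 ε) := by
    intro w z hz
    have h1 : DifferentiableAt ℂ (fun z => τ (ω * z)) z :=
      (hτd.differentiableAt (Metric.isOpen_ball.mem_nhds (se0 (hray z hz)))).comp z (differentiableAt_id.const_mul ω)
    have h2 : DifferentiableAt ℂ (fun t => ∑ i, w i * ℓ i t) (τ (ω * z)) :=
      (hwd w _ (hin _ (hray z hz))).differentiableAt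
    exact (h2.comp z h1).differentiableWithinAt
  -- both relations on the ray
  have hru : ∀ s : ℝ, |s| < ε → (∑ i, (u i : ℂ) * ℓ i (τ (ω * s))).re = 0 := by
    intro s hs
    have e1 := hτf (ω * s) (se0 (hray _ (hreal s hs)))
    have e2 : (∑ i, (u i : ℂ) * ℓ i (τ (ω * s))) = f (y0 0) + (ω * s) ^ k := by
      rw [← e1, hfd]
    rw [e2, Complex.add_re, hf0, zero_add, mul_pow, ← Complex.ofReal_pow, Complex.re_mul_ofReal, hωk, zero_mul]
  have hrv : ∀ s : ℝ, |s| < ε → (∑ i, (v i : ℂ) * ℓ i (τ (ω * s))).re = 0 := by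
    refine h1_real (hFd fun i => (v i : ℂ)) (s1 := 0) (by rw [abs_zero]; exact hε) ?_
    have h1 : (𝓝[>] (0 : ℝ)) ≤ 𝓝[≠] 0 := nhdsWithin_mono _ fun s hs => (ne_of_gt hs : s ≠ 0)
    refine (hfr.filter_mono h1).mono fun s hs => ?_
    rw [hT] at hs
    exact hs.2.2.2.2
  -- a regular point of the ray
  obtain ⟨s1, hs1, hs1ε⟩ : ∃ s1 : ℝ, 0 < s1 ∧ s1 < ε := ⟨ε / 2, by linarith, by linarith⟩
  have hs1a : |s1| < ε := by rw [abs_of_pos hs1]; exact hs1ε
  have hw1 := hray _ (hreal s1 hs1a)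
  have hw10 : ω * s1 ≠ 0 := mul_ne_zero hω0 (Complex.ofReal_ne_zero.2 hs1.ne')
  have ht1 := hin _ hw1
  have hcr : ∑ i, (u i : ℂ) * (deriv (η i) (τ (ω * s1)) / η i (τ (ω * s1))) ≠ 0 := by
    intro h
    have h1 := (hwd (fun i => (u i : ℂ)) _ ht1)
    rw [h] at h1
    have h2 : HasDerivAt τ (deriv τ (ω * s1)) (ω * s1) :=
      (hτd.differentiableAt (Metric.isOpen_ball.mem_nhds (se0 hw1))).hasDerivAt
    have h3 := h1.comp (ω * s1 : ℂ) h2
    rw [zero_mul] at h3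
    have h4 : HasDerivAt (fun w : ℂ => f (y0 0) + w ^ k) 0 (ω * s1) := by
      refine h3.congr_of_eventuallyEq (Filter.eventually_of_mem (Metric.isOpen_ball.mem_nhds (se0 hw1)) fun x hx => ?_)
      have h5 := hτf x hx
      rw [hfd] at h5
      rw [hfd]
      exact h5.symm
    have h5 := h4.unique ((hasDerivAt_pow k (ω * s1 : ℂ)).const_add (f (y0 0)))
    exact mul_ne_zero (Nat.cast_ne_zero.2 hk.ne') (pow_ne_zero _ hw10) h5.symm
  have hτs1 : ContinuousAt (fun s : ℝ => τ (ω * s)) s1 := by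
    have h1 : ContinuousAt τ (ω * s1) := (hτd.differentiableAt (Metric.isOpen_ball.mem_nhds (se0 hw1))).continuousAt
    exact h1.comp_of_eq (by fun_prop) rfl
  have hεs : ∀ᶠ s : ℝ in 𝓝 s1, |s| < ε := (continuous_abs.tendsto s1).eventually (gt_mem_nhds hs1a)
  obtain ⟨ρ1, hρ1, hsub1⟩ := Metric.isOpen_iff.1 Metric.isOpen_ball _ ht1
  obtain ⟨J, hJ, N, sv, hua, hvb, hev⟩ := h1_local (t0 := τ (ω * s1)) hρ1 (η := η) (ℓ := ℓ)
    (fun i => ⟨(hch.diff i).mono hsub1, D.q i, D.hq0 i, fun t ht => hch.eq i t (hsub1 ht)⟩)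
    (fun i t ht => hch.ne i t (hsub1 ht)) (fun i t ht => hch.der i t (hsub1 ht)) (fun i t ht => hch.exp i t (hsub1 ht))
    (u := u) (v := v) hcr
    (fun κ h => hch.not_const hacc0 (u := fun i => v i - κ * u i) (by
      intro h0
      refine one_ne_zero (hpair (-κ) 1 ?_).2
      funext i
      have h2 := congrFun h0 i
      simp only [Pi.zero_apply] at h2
      simp only [Pi.add_apply, Pi.smul_apply, smul_eq_mul, Pi.zero_apply]
      linear_combination h2)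
      (Z5.w1_ident2 (b3_der_diff hch fun i => v i - κ * u i) hρ1 ht1 h))
    (fun O hO => by
      have h1 : ∀ᶠ s : ℝ in 𝓝[≠] s1, τ (ω * s) ∈ O ∧ |s| < ε :=
        ((hτs1.eventually_mem hO).and hεs).filter_mono nhdsWithin_le_nhds
      obtain ⟨s, ⟨h2, h3⟩, h4⟩ := (h1.and self_mem_nhdsWithin).exists
      refine ⟨_, h2, fun e => h4 ?_, ?_, ?_⟩
      · have h5 := hτi (se0 (hray _ (hreal s h3))) (se0 hw1) e
        exact Complex.ofReal_injective (mul_left_cancel₀ hω0 h5)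
      · rw [← hdt u _ (hin _ (hray _ (hreal s h3)))]
        exact hru s h3
      · rw [← hdt v _ (hin _ (hray _ (hreal s h3)))]
        exact hrv s h3)
  -- the integral relations on the whole ray
  have hall : ∀ j, ∀ s : ℝ, |s| < ε → ∑ i, (N j i : ℝ) * (ℓ i (τ (ω * s))).re = sv j := by
    intro j s hs
    have h1 : ∀ᶠ s : ℝ in 𝓝[≠] s1, (dt u (lg fun i => η i (τ (ω * s))) = 0 →
        ∀ j, ∑ i, (N j i : ℝ) * lg (fun i => η i (τ (ω * s))) i = sv j) ∧ |s| < ε :=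
      ((hτs1.eventually hev).and hεs).filter_mono nhdsWithin_le_nhds
    have h3 := h1_real (hFd fun i => ((N j i : ℝ) : ℂ)) hs1a (c := sv j) ((h1.mono fun s hs => by
      have h4 := hin _ (hray _ (hreal s hs.2))
      rw [hdt (fun i => (N j i : ℝ)) _ h4]
      exact hs.1 (by rw [← hdt u _ h4]; exact hru s hs.2) j).frequently) s hs
    rwa [hsumre (fun i => (N j i : ℝ))] at h3
  have hnorm : ∀ (a : Fin m → ℤ) (t : ℂ), t ∈ Metric.ball (y0 0) ρ →
      ‖∏ i, η i t ^ a i‖ = Real.exp (∑ i, (a i : ℝ) * (ℓ i t).re) := by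
    intro a t ht
    rw [norm_prod, Real.exp_sum]
    refine Finset.prod_congr rfl fun i _ => ?_
    have e1 : Real.exp (ℓ i t).re = ‖η i t‖ := by rw [← hch.exp i t ht, Complex.norm_exp]
    rw [norm_zpow, ← e1, mul_comm, Real.exp_mul, Real.rpow_intCast]
  -- a finite set of `C` cannot contain all the points of the ray near its origin
  have hfinal : ∀ F : Set (Fin m → ℂ), F.Finite → (∀ s : ℝ, |s| < ε → τ (ω * s) ∈ T →
      (fun i => η i (τ (ω * s))) ∈ F) → False := by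
    intro F hF hFm
    have hF0 : (((fun y : Fin m → ℂ => y 0) '' F) \ {y0 0}).Finite := (hF.image _).sdiff
    have hτt : Tendsto (fun s : ℝ => τ (ω * s)) (𝓝[>] 0) (𝓝 (y0 0)) := by
      have h1 : ContinuousAt (fun s : ℝ => τ (ω * s)) 0 := by
        have h2 : ContinuousAt τ (ω * ((0 : ℝ) : ℂ)) := by rw [Complex.ofReal_zero, mul_zero]; exact hτc
        exact h2.comp_of_eq (by fun_prop) rfl
      have h3 := h1.tendsto.mono_left (nhdsWithin_le_nhds (s := Set.Ioi 0))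
      rwa [Complex.ofReal_zero, mul_zero, hτ0] at h3
    have hmem := hτt.eventually (hF0.isClosed.isOpen_compl.mem_nhds (by simp))
    have hεs0 : ∀ᶠ s : ℝ in 𝓝[>] 0, |s| < ε :=
      ((continuous_abs.tendsto (0 : ℝ)).eventually (gt_mem_nhds (by rw [abs_zero]; exact hε))).filter_mono nhdsWithin_le_nhds
    obtain ⟨s, hsT, hsF, hsε⟩ := (hfr.and_eventually (hmem.and hεs0)).exists
    have hsT' := hsT
    rw [hT] at hsT'
    obtain ⟨q1, q2, q3, -⟩ := hsT'
    exact hsF ⟨⟨_, hFm s hsε hsT, hch.id0 _ q1⟩, q2⟩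
  have hre0 : ∀ (w : Fin m → ℝ) (t : ℂ), (∑ i, (w i : ℂ) * ℓ i t).re = dt w fun i => (ℓ i t).re := fun w t => hsumre w t
  rcases h1_lattice N sv huv hua hvb with ⟨n, n', hli, h⟩ | ⟨n, r, hli, h⟩
  · refine hfinal _ (hI2 n n' hli) fun s hs hsT => ?_
    rw [hT] at hsT
    obtain ⟨q1, -, q3, -⟩ := hsT
    obtain ⟨h4, h5⟩ := h (fun i => (ℓ i (τ (ω * s))).re) (by rw [← hre0]; exact hru s hs) (by rw [← hre0]; exact hrv s hs)
    exact ⟨q3, by rw [hnorm n _ q1, h4, Real.exp_zero], by rw [hnorm n' _ q1, h5, Real.exp_zero]⟩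
  · refine hfinal _ (hI3 n hli fun k => Real.exp (r k)) fun s hs hsT => ?_
    rw [hT] at hsT
    obtain ⟨q1, -, q3, -⟩ := hsT
    exact ⟨q3, fun k => by rw [hnorm (n k) _ q1, h (fun i => (ℓ i (τ (ω * s))).re) (fun j => hall j s hs) k]⟩

end Pool.Agent.Z7
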