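import Pool.Agent.Z7.R0
import Pool.Agent.Z7.H2
import Pool.Agent.Z6.G5

open MvPolynomial Pool.Agent.MP_dd1803_nt Pool.Agent.ZPA Pool.Agent.ZL2

namespace Pool.Agent.Z7

variable {m : ℕ}

/-- The curves: irreducible closed of dimension one, defined over the algebraic numbers, not contained in a translate of a
proper subtorus; no two independent characters have absolute value one at infinitely many points, and no three independent
characters have constant absolute values at infinitely many points. -/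
structure HC (C : Set (Fin m → ℂˣ)) : Prop where
  irr : Irr C
  dim : td ℂ C = 1
  alg : cl (acl (∅ : Set ℂ)) C = C
  nc : ∀ v : Fin m → ℤ, v ≠ 0 → ∀ z : ℂˣ, ¬ ∀ y ∈ C, ch v y = z
  hh2 : ∀ n n' : Fin m → ℤ, LinearIndependent ℤ ![n, n'] →
    {y : Fin m → ℂˣ | y ∈ C ∧ ‖((ch n y : ℂˣ) : ℂ)‖ = 1 ∧ ‖((ch n' y : ℂˣ) : ℂ)‖ = 1}.Finite
  hh3 : ∀ n : Fin 3 → Fin m → ℤ, LinearIndependent ℤ n → ∀ r : Fin 3 → ℝ,
    {y : Fin m → ℂˣ | y ∈ C ∧ ∀ k, ‖((ch (n k) y : ℂˣ) : ℂ)‖ = r k}.Finite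

/-- The fibres over all but finitely many points of `C` are not reciprocal. -/
def NR (C : Set (Fin m → ℂˣ)) (Φ : MvPolynomial (Fin 2) (MvPolynomial (Fin m) ℂ)) : Prop :=
  ∃ E : Set (Fin m → ℂˣ), E.Finite ∧ ∀ y ∈ C, y ∉ E → ∀ r : Fin 2 → ℝ, (∀ j, 0 < r j) →
    {x : Fin 2 → ℂ | (∀ j, x j ≠ 0) ∧ evP Φ x (co y) = 0 ∧
      evP Φ (fun j => (r j : ℂ) / (starRingEnd ℂ) (x j)) (co y) = 0}.Finite

/-- The surface. -/
def VS (C : Set (Fin m → ℂˣ)) (Φ : MvPolynomial (Fin 2) (MvPolynomial (Fin m) ℂ)) : Set (Fin 2 ⊕ Fin m → ℂˣ) :=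
  {x | (fun i => x (Sum.inr i)) ∈ C ∧
    evP Φ (fun j => (x (Sum.inl j) : ℂ)) (fun i => (x (Sum.inr i) : ℂ)) = 0}

/-- Coefficients which are algebraic numbers. -/
def AlgC (Φ : MvPolynomial (Fin 2) (MvPolynomial (Fin m) ℂ)) : Prop :=
  ∀ α β, IsAlgebraic ℚ (MvPolynomial.coeff β (MvPolynomial.coeff α Φ))

/-- A nonzero polynomial in two variables as a polynomial in `x` with coefficients in the polynomials in `a`. -/
theorem g0_conv {k : Type} [Field k] [Algebra k ℂ] {p : MvPolynomial (Fin 2) k} (hp : p ≠ 0) :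
    ∃ Q : Polynomial (Polynomial k), Q ≠ 0 ∧ ∀ a x : ℂ,
      Polynomial.eval₂ ((Polynomial.aeval a : Polynomial k →ₐ[k] ℂ) : Polynomial k →+* ℂ) x Q = aeval ![x, a] p := by
  have he : Function.Injective ((uniqueAlgEquiv k (Fin 1) : MvPolynomial (Fin 1) k →+* Polynomial k)) :=
    (uniqueAlgEquiv k (Fin 1)).injective
  refine ⟨(finSuccEquiv k 1 p).map (uniqueAlgEquiv k (Fin 1) : MvPolynomial (Fin 1) k →+* Polynomial k), ?_, ?_⟩
  · rw [Polynomial.map_ne_zero_iff he]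
    exact (map_ne_zero_iff _ (finSuccEquiv k 1).injective).2 hp
  · intro a x
    rw [Polynomial.eval₂_map]
    have key : ((Polynomial.eval₂RingHom (((Polynomial.aeval a : Polynomial k →ₐ[k] ℂ) : Polynomial k →+* ℂ).comp
        (uniqueAlgEquiv k (Fin 1) : MvPolynomial (Fin 1) k →+* Polynomial k)) x).comp
        (finSuccEquiv k 1 : MvPolynomial (Fin 2) k →+* Polynomial (MvPolynomial (Fin 1) k))) =
        ((aeval ![x, a] : MvPolynomial (Fin 2) k →ₐ[k] ℂ) : MvPolynomial (Fin 2) k →+* ℂ) := by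
      refine MvPolynomial.ringHom_ext (fun r => ?_) (fun i => ?_)
      · simp [finSuccEquiv_apply, uniqueAlgEquiv]
      · match i with
        | 0 => simp [finSuccEquiv_apply]
        | 1 =>
          have h1 : (finSuccEquiv k 1) (X 1) = Polynomial.C (X 0) := by
            have := finSuccEquiv_X_succ (R := k) (n := 1) (j := 0)
            exact this
          simp [h1, uniqueAlgEquiv]
    exact congrArg (fun f => f p) key

/-- The polynomial in two of the variables. -/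
theorem g0_ev2 (Q : Polynomial (Polynomial ℂ)) (a b : Fin m) : ∃ P : MvPolynomial (Fin m) ℂ,
    ∀ y : Fin m → ℂ, MvPolynomial.eval y P = Pool.Agent.Z5.ev2 Q (y a) (y b) := by
  refine ⟨Polynomial.eval₂ ((Polynomial.aeval (X a : MvPolynomial (Fin m) ℂ) : Polynomial ℂ →ₐ[ℂ] _) :
    Polynomial ℂ →+* MvPolynomial (Fin m) ℂ) (X b) Q, fun y => ?_⟩
  rw [Polynomial.hom_eval₂]
  unfold Pool.Agent.Z5.ev2
  rw [Polynomial.eval_map, eval_X]
  congr 1
  refine Polynomial.ringHom_ext (fun r => ?_) ?_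
  · simp
  · simp

theorem g0_img {C : Set (Fin m → ℂˣ)} {R : (Fin m → ℂ) → Prop} (h : {y : Fin m → ℂˣ | y ∈ C ∧ R (co y)}.Finite) :
    {y : Fin m → ℂ | y ∈ co '' C ∧ R y}.Finite :=
  (h.image co).subset (by rintro _ ⟨⟨y, hy, rfl⟩, hR⟩; exact ⟨y, ⟨hy, hR⟩, rfl⟩)

/-- Row Z7-G0a. A set of `td` one is infinite (a finite irreducible closed set is a point). -/
theorem HC.infinite {C : Set (Fin m → ℂˣ)} (h : HC C) : C.Infinite := by
  classical
  intro hfin
  obtain ⟨Z, hZ, hCZ⟩ := h.irr.subset_of_finset (hfin.toFinset.image fun y => ({y} : Set (Fin m → ℂˣ)))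
    (by
      intro Z hZ
      obtain ⟨y, -, rfl⟩ := Finset.mem_image.1 hZ
      exact zclosed_singleton y)
    (by
      intro y hy
      simp only [Set.mem_iUnion]
      exact ⟨{y}, Finset.mem_image.2 ⟨y, hfin.mem_toFinset.2 hy, rfl⟩, rfl⟩)
  obtain ⟨y, -, rfl⟩ := Finset.mem_image.1 hZ
  have h1 : td ℂ C ≤ td ℂ ({y} : Set (Fin m → ℂˣ)) := td_mono h.irr.pirr (pirr_singleton y) hCZ
  rw [h.dim, td_singleton'] at h1
  omega

/-- Row Z7-G0b. `{y ∈ C | P = 0}` is closed, not `C`; its irreducible components have smaller `td` (`td_lt`), so they are points (`Z5.eq_of_td_le`-like, see `Z6.zp_alg`), and they are finitely many (`finite_comp`). -/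
theorem HC.fin_poly {C : Set (Fin m → ℂˣ)} (h : HC C) {P : MvPolynomial (Fin m) ℂ}
    (hP : ∃ y ∈ C, MvPolynomial.eval (co y) P ≠ 0) :
    {y : Fin m → ℂˣ | y ∈ C ∧ MvPolynomial.eval (co y) P = 0}.Finite := by
  classical
  have hV : ZClosed (C ∩ zp P) := h.irr.closed.inter (zclosed_zp P)
  have h1 : {y : Fin m → ℂˣ | y ∈ C ∧ MvPolynomial.eval (co y) P = 0} = C ∩ zp P := by
    ext y
    rw [Set.mem_inter_iff, mem_zp, MvPolynomial.aeval_eq_eval]
    rfl
  rw [h1]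
  refine ((finite_comp hV).sUnion (fun Y hY => ?_)).subset (fun y hy => ?_)
  · have hYi := Comp.irr hY
    have hYV := Comp.subset hY
    obtain ⟨w, hw⟩ := hYi.nonempty
    have h2 : Y ⊂ C := by
      refine ⟨fun z hz => (hYV hz).1, fun hCY => ?_⟩
      obtain ⟨y, hy, hy0⟩ := hP
      have h3 := (hYV (hCY hy)).2
      rw [mem_zp, MvPolynomial.aeval_eq_eval] at h3
      exact hy0 h3
    have h3 := td_lt hYi h.irr h2
    rw [h.dim] at h3
    have h4 : ({w} : Set (Fin m → ℂˣ)) = Y := eq_of_td_le (irr_singleton w) hYi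
      (Set.singleton_subset_iff.2 hw) (by omega)
    rw [← h4]
    exact Set.finite_singleton w
  · obtain ⟨Y, hY, hyY⟩ := exists_comp_mem hV hy
    exact ⟨Y, hY, hyY⟩

/-- Row Z7-G0c. From `nc` and `fin_poly` for the polynomial `∏_{v_i > 0} y_i^(v_i) - z ∏_{v_i < 0} y_i^(-v_i)`. -/
theorem HC.fin_ch {C : Set (Fin m → ℂˣ)} (h : HC C) {v : Fin m → ℤ} (hv : v ≠ 0) (z : ℂˣ) :
    {y : Fin m → ℂˣ | y ∈ C ∧ ch v y = z}.Finite := by
  have key : ∀ y : Fin m → ℂˣ, MvPolynomial.eval (co y)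
      (∏ i, (X i : MvPolynomial (Fin m) ℂ) ^ (v i).toNat -
        MvPolynomial.C (z : ℂ) * ∏ i, (X i : MvPolynomial (Fin m) ℂ) ^ (-(v i)).toNat) = 0 ↔ ch v y = z := by
    intro y
    rw [map_sub, map_mul, map_prod, map_prod, eval_C, sub_eq_zero]
    simp only [map_pow, eval_X]
    have h0 : ∏ i, co y i ^ (-(v i)).toNat ≠ 0 := Finset.prod_ne_zero_iff.2 fun i _ => pow_ne_zero _ (co_ne_zero y i)
    have h1 : ((ch v y : ℂˣ) : ℂ) * ∏ i, co y i ^ (-(v i)).toNat = ∏ i, co y i ^ (v i).toNat := by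
      unfold ch
      rw [Units.coe_prod, ← Finset.prod_mul_distrib]
      refine Finset.prod_congr rfl fun i _ => ?_
      rw [Units.val_zpow_eq_zpow_val, co_apply, ← zpow_natCast, ← zpow_natCast, ← zpow_add₀ (y i).ne_zero]
      congr 1
      omega
    rw [← h1]
    constructor
    · intro h2
      exact Units.ext (mul_right_cancel₀ h0 h2)
    · intro h2
      rw [h2]
  have h2 := h.nc v hv z
  push Not at h2
  obtain ⟨y, hy, hy0⟩ := h2
  refine (h.fin_poly ⟨y, hy, fun h3 => hy0 ((key y).1 h3)⟩).subset ?_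
  rintro y ⟨hy, hyz⟩
  exact ⟨hy, (key y).2 hyz⟩

/-- A relation of minimal degree between `y_0` and `y_i`. -/
theorem HC.g0_min [NeZero m] {C : Set (Fin m → ℂˣ)} (h : HC C) (i : Fin m) : ∃ q : Polynomial (Polynomial ℂ), q ≠ 0 ∧
    (∀ y ∈ C, Pool.Agent.Z5.ev2 q (co y 0) (co y i) = 0) ∧
    {y : Fin m → ℂˣ | y ∈ C ∧ Pool.Agent.Z5.ev2 (Polynomial.derivative q) (co y 0) (co y i) = 0}.Finite := by
  classical
  have h1 : ¬ IndF ℂ C ![i, 0] := by
    intro h1
    have h2 := h1.card_le h.irr.pirr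
    rw [h.dim] at h2
    simp at h2
  unfold IndF at h1
  push Not at h1
  obtain ⟨p, hp, hp0⟩ := h1
  obtain ⟨q0, hq0, hq⟩ := g0_conv hp0
  have hV0 : ∀ y ∈ C, Pool.Agent.Z5.ev2 q0 (co y 0) (co y i) = 0 := by
    intro y hy
    have h3 := hp y hy
    have h4 := hq (co y 0) (co y i)
    unfold Pool.Agent.Z5.ev2
    rw [Polynomial.eval_map]
    have h5 : (fun l : Fin 2 => co y (![i, 0] l)) = ![co y i, co y 0] := by
      funext l
      match l with
      | 0 => rfl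
      | 1 => rfl
    rw [h5, ← h4] at h3
    exact h3
  have hex : ∃ n : ℕ, ∃ q : Polynomial (Polynomial ℂ), q ≠ 0 ∧
      (∀ y ∈ C, Pool.Agent.Z5.ev2 q (co y 0) (co y i) = 0) ∧ q.natDegree = n := ⟨_, q0, hq0, hV0, rfl⟩
  obtain ⟨q, hqne, hqV, hqn⟩ := Nat.find_spec hex
  have hmin : ∀ q' : Polynomial (Polynomial ℂ), q' ≠ 0 →
      (∀ y ∈ C, Pool.Agent.Z5.ev2 q' (co y 0) (co y i) = 0) → q.natDegree ≤ q'.natDegree := by
    intro q' h1 h2
    rw [hqn]
    exact Nat.find_min' hex ⟨q', h1, h2, rfl⟩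
  refine ⟨q, hqne, hqV, ?_⟩
  have hdeg : q.natDegree ≠ 0 := by
    intro h0
    rw [Polynomial.eq_C_of_natDegree_eq_zero h0] at hqV hqne
    have hc : q.coeff 0 ≠ 0 := fun h3 => hqne (by rw [h3, Polynomial.C_0])
    apply h.infinite
    have h3 : ∀ t : ℂ, {y : Fin m → ℂˣ | y ∈ C ∧ co y 0 = t}.Finite := by
      intro t
      by_cases ht : t = 0
      · refine Set.Finite.subset Set.finite_empty ?_
        rintro y ⟨-, hy⟩
        exact absurd (hy.trans ht) (co_ne_zero y 0)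
      · refine (h.fin_ch (v := Pi.single 0 1) (by
          intro h0
          have := congrFun h0 0
          rw [Pi.single_eq_same, Pi.zero_apply] at this
          exact one_ne_zero this) (Units.mk0 t ht)).subset ?_
        rintro y ⟨hy, hyt⟩
        refine ⟨hy, ?_⟩
        rw [ch_single, zpow_one]
        exact Units.ext hyt
    refine ((q.coeff 0).roots.toFinset.finite_toSet.biUnion fun t _ => h3 t).subset fun y hy => ?_
    rw [Set.mem_iUnion₂]
    refine ⟨co y 0, ?_, hy, rfl⟩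
    have h4 := hqV y hy
    unfold Pool.Agent.Z5.ev2 at h4
    rw [Polynomial.map_C, Polynomial.eval_C] at h4
    rw [Finset.mem_coe, Multiset.mem_toFinset, Polynomial.mem_roots hc]
    exact h4
  have hd0 : Polynomial.derivative q ≠ 0 := fun h0 => hdeg (Polynomial.derivative_eq_zero.1 h0)
  have hlt := Polynomial.natDegree_derivative_lt hdeg
  have h2 : ¬ ∀ y ∈ C, Pool.Agent.Z5.ev2 (Polynomial.derivative q) (co y 0) (co y i) = 0 := by
    intro h0
    have := hmin _ hd0 h0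
    omega
  push Not at h2
  obtain ⟨P, hP⟩ := g0_ev2 (Polynomial.derivative q) (0 : Fin m) i
  obtain ⟨y, hy, hy0⟩ := h2
  have h3 := h.fin_poly ⟨y, hy, by rw [hP]; exact hy0⟩
  simpa only [hP] using h3

/-- A monomial takes every value finitely often. -/
theorem HC.g0_mon {C : Set (Fin m → ℂˣ)} (h : HC C) (v : Fin m → ℤ) (hv : v ≠ 0) (z : ℂ) :
    {y : Fin m → ℂ | y ∈ co '' C ∧ ∏ i, y i ^ v i = z}.Finite := by
  apply g0_img
  by_cases hz : z = 0
  · refine Set.Finite.subset Set.finite_empty ?_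
    rintro y ⟨-, hy⟩
    rw [hz] at hy
    exact absurd hy (Finset.prod_ne_zero_iff.2 fun i _ => zpow_ne_zero _ (co_ne_zero y i))
  · refine (h.fin_ch hv (Units.mk0 z hz)).subset ?_
    rintro y ⟨hy, hyz⟩
    refine ⟨hy, Units.ext ?_⟩
    unfold ch
    rw [Units.coe_prod, Units.val_mk0, ← hyz]
    refine Finset.prod_congr rfl fun i _ => ?_
    rw [Units.val_zpow_eq_zpow_val]
    rfl

/-- The compact pieces. -/
theorem HC.g0_cpt {C : Set (Fin m → ℂˣ)} (h : HC C) (A : ℝ) :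
    IsCompact {y : Fin m → ℂ | y ∈ co '' C ∧ ∀ i, |lg y i| ≤ A} := by
  have hmem : ∀ y : Fin m → ℂˣ, (∀ p ∈ vI ℂ C, MvPolynomial.eval (co y) p = 0) → y ∈ C := by
    intro y hy
    have h1 := zclosed_iff.1 h.irr.closed
    rw [← h1, mem_zl]
    intro p hp
    rw [MvPolynomial.aeval_eq_eval]
    exact hy p hp
  have key : {y : Fin m → ℂ | y ∈ co '' C ∧ ∀ i, |lg y i| ≤ A} =
      (⋂ i, {y : Fin m → ℂ | Real.exp (-A) ≤ ‖y i‖}) ∩ (⋂ i, {y : Fin m → ℂ | ‖y i‖ ≤ Real.exp A}) ∩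
        ⋂ p : vI ℂ C, {y : Fin m → ℂ | MvPolynomial.eval y p.1 = 0} := by
    ext y
    simp only [Set.mem_inter_iff, Set.mem_iInter, Set.mem_ofPred_eq]
    constructor
    · rintro ⟨⟨y, hy, rfl⟩, hA⟩
      refine ⟨⟨fun i => ?_, fun i => ?_⟩, fun p => ?_⟩
      · have h1 := (abs_le.1 (hA i)).1
        have h2 : 0 < ‖co y i‖ := norm_pos_iff.2 (co_ne_zero y i)
        exact (Real.le_log_iff_exp_le h2).1 h1
      · have h1 := (abs_le.1 (hA i)).2
        have h2 : 0 < ‖co y i‖ := norm_pos_iff.2 (co_ne_zero y i)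
        exact (Real.log_le_iff_le_exp h2).1 h1
      · have h1 := mem_vI.1 p.2 y hy
        rwa [MvPolynomial.aeval_eq_eval] at h1
    · rintro ⟨⟨h1, h2⟩, h3⟩
      have h0 : ∀ i, y i ≠ 0 := fun i h4 => by
        have := h1 i
        rw [h4, norm_zero] at this
        exact absurd this (not_le.2 (Real.exp_pos _))
      have hy : co (fun i => Units.mk0 (y i) (h0 i)) = y := by
        funext i
        rfl
      refine ⟨⟨fun i => Units.mk0 (y i) (h0 i), hmem _ (fun p hp => ?_), hy⟩, fun i => ?_⟩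
      · rw [hy]
        exact h3 ⟨p, hp⟩
      · have h5 : 0 < ‖y i‖ := norm_pos_iff.2 (h0 i)
        exact abs_le.2 ⟨(Real.le_log_iff_exp_le h5).2 (h1 i), (Real.log_le_iff_le_exp h5).2 (h2 i)⟩
  rw [key]
  apply Metric.isCompact_of_isClosed_isBounded
  · refine ((isClosed_iInter fun i => ?_).inter (isClosed_iInter fun i => ?_)).inter (isClosed_iInter fun p => ?_)
    · exact isClosed_le continuous_const (continuous_apply i).norm
    · exact isClosed_le (continuous_apply i).norm continuous_const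
    · exact isClosed_eq (MvPolynomial.continuous_eval _) continuous_const
  · refine (Metric.isBounded_closedBall (x := (0 : Fin m → ℂ)) (r := Real.exp A)).subset ?_
    rintro y ⟨⟨-, h2⟩, -⟩
    rw [mem_closedBall_zero_iff, pi_norm_le_iff_of_nonneg (Real.exp_pos A).le]
    intro i
    exact Set.mem_iInter.1 h2 i

/-- The transcendence degree over the rational numbers. -/
theorem HC.g0_td {C : Set (Fin m → ℂˣ)} (h : HC C) : td ℚ C = 1 := by
  have hac : IsAlgClosed (acl (∅ : Set ℂ)) := isAlgClosed_acl _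
  have h1 := td_cl_eq (F := ℂ) (k := acl (∅ : Set ℂ)) h.irr.pirr
  rw [h.alg, h.dim] at h1
  have : Algebra.IsAlgebraic ℚ (acl (∅ : Set ℂ)) := by
    constructor
    intro x
    have h2 := mem_acl_empty.1 x.2
    exact (isAlgebraic_algebraMap_iff (algebraMap (acl (∅ : Set ℂ)) ℂ).injective).1 h2
  rw [td_tower_eq (k := ℚ) (k' := acl (∅ : Set ℂ)) h.irr.pirr, ← h1]

theorem HC.g0_rat {C : Set (Fin m → ℂˣ)} (h : HC C) (v w : Fin m → ℤ) :
    ∃ Q : Polynomial (Polynomial ℚ), Q ≠ 0 ∧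
      ∀ y ∈ C, evQ Q (∏ i, co y i ^ v i) (∏ i, co y i ^ w i) = 0 := by
  classical
  have hpi : PIrr (gr (mono ![w, v] (1 : Fin 2 → ℂˣ)) '' C) := h.irr.pirr.image (RatMap.gr (ratMap_mono _ _ _))
  have hlam : ∀ j : Fin 2, (Sum.elim (![w, v] j) (Pi.single j (-1)) : Fin m ⊕ Fin 2 → ℤ) ∈
      Lam (gr (mono ![w, v] (1 : Fin 2 → ℂˣ)) '' C) := by
    intro j
    refine mem_Lam_of_subset (c := 1) ⟨1, one_pos, one_pow 1⟩ ?_
    rintro _ ⟨y, hy, rfl⟩
    rw [ch_sum]
    have e1 : (Sum.elim (![w, v] j) (Pi.single j (-1)) : Fin m ⊕ Fin 2 → ℤ) ∘ Sum.inl = ![w, v] j := rfl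
    have e2 : (Sum.elim (![w, v] j) (Pi.single j (-1)) : Fin m ⊕ Fin 2 → ℤ) ∘ Sum.inr = Pi.single j (-1) := rfl
    have e3 : (gr (mono ![w, v] (1 : Fin 2 → ℂˣ)) y) ∘ Sum.inl = y := rfl
    have e4 : (gr (mono ![w, v] (1 : Fin 2 → ℂˣ)) y) ∘ Sum.inr = mono ![w, v] (1 : Fin 2 → ℂˣ) y := rfl
    rw [e1, e2, e3, e4, ch_single]
    show ch (![w, v] j) y * ((1 : Fin 2 → ℂˣ) j * ch (![w, v] j) y) ^ (-1 : ℤ) = 1
    rw [Pi.one_apply, one_mul, zpow_neg_one, mul_inv_cancel]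
  have halg : ∀ i, IsAlgebraic (Algebra.adjoin ℚ
      (gen ℚ (gr (mono ![w, v] (1 : Fin 2 → ℂˣ)) '' C) '' (Set.range Sum.inl)))
      (gen ℚ (gr (mono ![w, v] (1 : Fin 2 → ℂˣ)) '' C) i) := by
    have hP := vI_isPrime (k := ℚ) hpi
    have hne : Nontrivial (MvPolynomial (Fin m ⊕ Fin 2) ℚ ⧸ vI ℚ (gr (mono ![w, v] (1 : Fin 2 → ℂˣ)) '' C)) :=
      inferInstance
    rintro (i | j)
    · exact isAlgebraic_algebraMap (⟨gen ℚ _ (Sum.inl i), Algebra.subset_adjoin ⟨Sum.inl i, ⟨i, rfl⟩, rfl⟩⟩ :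
        Algebra.adjoin ℚ (gen ℚ (gr (mono ![w, v] (1 : Fin 2 → ℂˣ)) '' C) '' (Set.range Sum.inl)))
    · refine gen_alg_of_torsion hpi (hlam j) (i0 := Sum.inr j) ?_ _ ?_
      · rw [Sum.elim_inr, Pi.single_eq_same]
        norm_num
      · rintro (l | l) h1 h2
        · exact ⟨l, rfl⟩
        · exfalso
          apply h2
          rw [Sum.elim_inr, Pi.single_eq_of_ne]
          rintro rfl
          exact h1 rfl
  have htd := td_le_pull (k := ℚ) hpi (e := (Sum.inl : Fin m → Fin m ⊕ Fin 2)) Sum.inl_injective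
    (Set.range Sum.inl) halg
  rw [pull_inl_gr, h.g0_td, Set.sdiff_self, Set.ncard_empty] at htd
  have h1 : ¬ IndF ℚ (gr (mono ![w, v] (1 : Fin 2 → ℂˣ)) '' C) (Sum.inr : Fin 2 → Fin m ⊕ Fin 2) := by
    intro h1
    have h2 := h1.card_le hpi
    rw [Nat.card_eq_fintype_card, Fintype.card_fin] at h2
    omega
  unfold IndF at h1
  push Not at h1
  obtain ⟨p, hp, hp0⟩ := h1
  obtain ⟨Q, hQ0, hQ⟩ := g0_conv hp0
  refine ⟨Q, hQ0, fun y hy => ?_⟩
  have h3 := hp _ ⟨y, hy, rfl⟩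
  have h4 := hQ (∏ i, co y i ^ v i) (∏ i, co y i ^ w i)
  have h6 : ∀ u : Fin m → ℤ, ((ch u y : ℂˣ) : ℂ) = ∏ i, co y i ^ u i := by
    intro u
    unfold ch
    rw [Units.coe_prod]
    refine Finset.prod_congr rfl fun i _ => ?_
    rw [Units.val_zpow_eq_zpow_val]
    rfl
  have h5 : (fun l : Fin 2 => co (gr (mono ![w, v] (1 : Fin 2 → ℂˣ)) y) (Sum.inr l)) =
      ![∏ i, co y i ^ w i, ∏ i, co y i ^ v i] := by
    funext l
    match l with
    | 0 =>
      show (((1 : Fin 2 → ℂˣ) 0 * ch w y : ℂˣ) : ℂ) = _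
      rw [Pi.one_apply, one_mul, h6]
      rfl
    | 1 =>
      show (((1 : Fin 2 → ℂˣ) 1 * ch v y : ℂˣ) : ℂ) = _
      rw [Pi.one_apply, one_mul, h6]
      rfl
  rw [h5, ← h4] at h3
  unfold evQ
  rw [Polynomial.eval₂_eq_sum, Polynomial.sum_def] at h3
  exact h3

theorem g0_ch (n : Fin m → ℤ) (y : Fin m → ℂˣ) : ∏ i, co y i ^ n i = ((ch n y : ℂˣ) : ℂ) := by
  unfold ch co
  push_cast
  rfl

/-- Row Z7-G0d. The structure `Cv` for the curve. `y_0` and `y_i` are algebraically dependent on `C` over `ℂ` (`td ℂ C = 1`): a polynomial relation `q(y_0, y_i) = 0` on `C`; choose `q i` irreducible in `ℂ[T][X]` (a factor of a relation; `C` is irreducible), of positive degree in `X` (`y_0` is not constant on `C`: `nc` for the unit vector), so it has a Bezout relation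
`U q + W q' = R(T) ≠ 0` with its `X`-derivative (compare `Z5.e4_bezout`). `E` = the points of `C` with `R_i(y_0) = 0` for some `i` (finite, `fin_poly`). `cpt`: closed and bounded in `ℂ^m`. `irr`: `fin_poly`. `fib`, `mon`: `fin_ch`. `HH`: `hh`. For `Rat`: `td ℚ C = td ℂ C = 1` (`td_cl_eq` with `k = acl ∅`, `td_tower_eq` for `ℚ ⊂ acl ∅`),
so any two elements of the fraction field of `MvPolynomial (Fin m) ℚ ⧸ vI ℚ C` are algebraically dependent over `ℚ`: take the two monomials `y^v, y^w`. -/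
theorem exists_Cv [NeZero m] {C : Set (Fin m → ℂˣ)} (h : HC C) : ∃ D : Cv m, D.C = co '' C ∧ Rat D ∧ HHp D := by
  classical
  have hq := fun i => h.g0_min i
  choose q hq0 hqV hqs using hq
  refine ⟨{
    C := co '' C
    E := ⋃ i, {y | y ∈ co '' C ∧ Pool.Agent.Z5.ev2 (Polynomial.derivative (q i)) (y 0) (y i) = 0}
    hE := Set.finite_iUnion fun i => g0_img (hqs i)
    q := q
    hq0 := hq0
    ne := ?_
    hq := ?_
    sep := ?_
    cpt := h.g0_cpt
    irr := ?_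
    fib := ?_
    mon := h.g0_mon }, rfl, ?_, hh_of_int2 _ ?_ ?_⟩
  · rintro _ ⟨y, hy, rfl⟩ i
    exact co_ne_zero y i
  · rintro _ ⟨y, hy, rfl⟩ i
    exact hqV i y hy
  · intro y hy hyE i h0
    exact hyE (Set.mem_iUnion.2 ⟨i, hy, h0⟩)
  · rintro P hinf _ ⟨y, hy, rfl⟩
    by_contra hne
    exact hinf (g0_img (h.fin_poly ⟨y, hy, hne⟩))
  · intro t
    have h1 := h.g0_mon (Pi.single 0 1) (by
      intro h0
      have := congrFun h0 0
      rw [Pi.single_eq_same, Pi.zero_apply] at this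
      exact one_ne_zero this) t
    refine h1.subset ?_
    rintro y ⟨hy, rfl⟩
    refine ⟨hy, ?_⟩
    rw [Finset.prod_eq_single 0, Pi.single_eq_same, zpow_one]
    · intro j _ hj
      rw [Pi.single_eq_of_ne hj, zpow_zero]
    · intro h0
      exact absurd (Finset.mem_univ _) h0
  · intro v w
    obtain ⟨Q, hQ, hQC⟩ := h.g0_rat v w
    refine ⟨Q, hQ, ?_⟩
    rintro _ ⟨y, hy, rfl⟩
    exact hQC y hy
  · intro n n' hn
    refine g0_img (R := fun y => ‖∏ i, y i ^ n i‖ = 1 ∧ ‖∏ i, y i ^ n' i‖ = 1) ?_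
    simp only [g0_ch]
    exact h.hh2 n n' hn
  · intro n hn r
    refine g0_img (R := fun y => ∀ k, ‖∏ i, y i ^ n k i‖ = r k) ?_
    simp only [g0_ch]
    exact h.hh3 n hn r

/-- Row Z7-G0e. The structure `Sf`. Let `Φ'` be `Φ` without the terms `α` whose coefficient vanishes on `C`, divided by the largest monomial `x^μ` dividing all its terms (`nd`). Zeros with `x_j ≠ 0`, `y ∈ C`: the same as those of `Φ`. `E` is enlarged by the finitely many points where one of the remaining coefficients vanishes (`fin_poly`) and by the set of `NR`.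
(`Φ'` is not zero: otherwise all `Φ(·, y)` are zero on `C`, contradicting `NR` as `C` is infinite.) -/
theorem exists_Sf [NeZero m] {C : Set (Fin m → ℂˣ)} (h : HC C) {Φ : MvPolynomial (Fin 2) (MvPolynomial (Fin m) ℂ)}
    (hNR : NR C Φ) : ∃ S : Sf m, S.C = co '' C ∧ (Rat S.toCv ∧ HHp S.toCv) ∧
      (∀ y ∈ C, ∀ x : Fin 2 → ℂ, (∀ j, x j ≠ 0) → (evP S.Φ x (co y) = 0 ↔ evP Φ x (co y) = 0)) ∧
      (AlgC Φ → AlgC S.Φ) := by
  classical
  obtain ⟨D, hD, hR, hHH⟩ := exists_Cv h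
  obtain ⟨E0, hE0, hN⟩ := hNR
  obtain ⟨s, hs⟩ : ∃ s : Finset (Fin 2 →₀ ℕ), ∀ α, α ∈ s ↔
      ∃ y ∈ C, MvPolynomial.eval (co y) (Φ.coeff α) ≠ 0 := by
    refine ⟨Φ.support.filter fun α => ∃ y ∈ C, MvPolynomial.eval (co y) (Φ.coeff α) ≠ 0, fun α => ?_⟩
    rw [Finset.mem_filter, MvPolynomial.mem_support_iff]
    refine ⟨fun h1 => h1.2, fun h1 => ⟨fun h2 => ?_, h1⟩⟩
    obtain ⟨y, -, hy⟩ := h1
    rw [h2, map_zero] at hy
    exact hy rfl
  have hs0 : ∀ α, α ∉ s → ∀ y ∈ C, MvPolynomial.eval (co y) (Φ.coeff α) = 0 := by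
    intro α hα y hy
    by_contra h1
    exact hα ((hs α).2 ⟨y, hy, h1⟩)
  -- the nonvanishing terms
  obtain ⟨Ψ, hΨ⟩ : ∃ Ψ : MvPolynomial (Fin 2) (MvPolynomial (Fin m) ℂ), ∀ β,
      Ψ.coeff β = if β ∈ s then Φ.coeff β else 0 := by
    refine ⟨∑ α ∈ s, monomial α (Φ.coeff α), fun β => ?_⟩
    rw [coeff_sum]
    simp only [coeff_monomial]
    rw [Finset.sum_ite_eq']
  have hΨe : ∀ y ∈ C, MvPolynomial.map (MvPolynomial.eval (co y)) Ψ = MvPolynomial.map (MvPolynomial.eval (co y)) Φ := by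
    intro y hy
    ext β
    rw [coeff_map, coeff_map, hΨ]
    split_ifs with h1
    · rfl
    · rw [map_zero, hs0 β h1 y hy]
  have hsne : s.Nonempty := by
    by_contra hne
    rw [Finset.not_nonempty_iff_eq_empty] at hne
    obtain ⟨y, hy, hyE⟩ := (h.infinite.sdiff hE0).nonempty
    have h1 := hN y hy hyE (fun _ => 1) (fun _ => one_pos)
    have h2 : MvPolynomial.map (MvPolynomial.eval (co y)) Φ = 0 := by
      rw [← hΨe y hy]
      ext β
      rw [coeff_map, hΨ, hne, if_neg (Finset.notMem_empty _), map_zero, coeff_zero]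
    have h3 : Set.range (fun n : ℕ => fun _ : Fin 2 => ((n : ℂ) + 1)) ⊆ {x : Fin 2 → ℂ | (∀ j, x j ≠ 0) ∧
        evP Φ x (co y) = 0 ∧ evP Φ (fun j => (((1 : ℝ) : ℝ) : ℂ) / (starRingEnd ℂ) (x j)) (co y) = 0} := by
      rintro _ ⟨n, rfl⟩
      refine ⟨fun j => Nat.cast_add_one_ne_zero n, ?_, ?_⟩
      · unfold evP
        rw [h2, map_zero]
      · unfold evP
        rw [h2, map_zero]
    refine (Set.infinite_range_of_injective (fun a b hab => ?_)) (h1.subset h3)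
    have h4 := congrFun hab 0
    exact Nat.cast_injective (add_right_cancel h4)
  -- the exponents of the largest monomial
  obtain ⟨μ, hμ⟩ : ∃ μ : Fin 2 →₀ ℕ, (∀ α ∈ s, μ ≤ α) ∧ ∀ j, ∃ α ∈ s, α j = μ j := by
    refine ⟨Finsupp.equivFunOnFinite.symm fun j => s.inf' hsne fun α => α j, fun α hα j => ?_, fun j => ?_⟩
    · exact Finset.inf'_le (fun α : Fin 2 →₀ ℕ => α j) hα
    · obtain ⟨α, hα, h1⟩ := Finset.exists_mem_eq_inf' hsne (fun α : Fin 2 →₀ ℕ => α j)
      exact ⟨α, hα, h1.symm⟩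
  obtain ⟨Θ, hΘ⟩ : ∃ Θ : MvPolynomial (Fin 2) (MvPolynomial (Fin m) ℂ), Θ = Ψ.divMonomial μ := ⟨_, rfl⟩
  have hΘc : ∀ β, Θ.coeff β = if μ + β ∈ s then Φ.coeff (μ + β) else 0 := by
    intro β
    rw [hΘ, coeff_divMonomial, hΨ]
  have hΘm : monomial μ 1 * Θ = Ψ := by
    ext1 β
    rw [coeff_monomial_mul', one_mul]
    split_ifs with h1
    · rw [hΘc, hΨ, add_tsub_cancel_of_le h1]
    · rw [hΨ, if_neg]
      intro h2
      exact h1 (hμ.1 β h2)
  have hev : ∀ y ∈ C, ∀ x : Fin 2 → ℂ, evP Φ x (co y) = (∏ j, x j ^ μ j) * evP Θ x (co y) := by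
    intro y hy x
    unfold evP
    rw [← hΨe y hy, ← hΘm, map_mul, map_mul, map_monomial, map_one, eval_monomial, one_mul]
    congr 1
    rw [Finsupp.prod_fintype]
    intro i
    exact pow_zero _
  have hiff : ∀ y ∈ C, ∀ x : Fin 2 → ℂ, (∀ j, x j ≠ 0) → (evP Θ x (co y) = 0 ↔ evP Φ x (co y) = 0) := by
    intro y hy x hx
    rw [hev y hy x, mul_eq_zero]
    have h1 : ∏ j, x j ^ μ j ≠ 0 := Finset.prod_ne_zero_iff.2 fun j _ => pow_ne_zero _ (hx j)
    exact ⟨fun h2 => Or.inr h2, fun h2 => h2.resolve_left h1⟩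
  have hcoef : ∀ α ∈ Θ.support, {y : Fin m → ℂ | y ∈ co '' C ∧ MvPolynomial.eval y (Θ.coeff α) = 0}.Finite := by
    intro α hα
    rw [MvPolynomial.mem_support_iff, hΘc] at hα
    have h1 : μ + α ∈ s := by
      by_contra h1
      rw [if_neg h1] at hα
      exact hα rfl
    rw [hΘc, if_pos h1]
    exact g0_img (h.fin_poly ((hs _).1 h1))
  refine ⟨{
    toCv := {
      C := D.C
      E := (D.E ∪ co '' E0) ∪ ⋃ α ∈ Θ.support, {y : Fin m → ℂ | y ∈ co '' C ∧ MvPolynomial.eval y (Θ.coeff α) = 0}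
      hE := (D.hE.union (hE0.image _)).union (Set.Finite.biUnion (Finset.finite_toSet _) hcoef)
      q := D.q
      hq0 := D.hq0
      ne := D.ne
      hq := D.hq
      sep := fun y hy hyE i => D.sep y hy (fun h1 => hyE (Or.inl (Or.inl h1))) i
      cpt := D.cpt
      irr := D.irr
      fib := D.fib
      mon := D.mon }
    Φ := Θ
    nd := ?_
    coef := ?_
    nrec := ?_ }, hD, ⟨hR, fun u v huv y0 hy0 hyE => hHH u v huv y0 hy0 (fun h1 => hyE (Or.inl (Or.inl h1)))⟩, hiff, ?_⟩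
  · intro j
    obtain ⟨α, hα, hαj⟩ := hμ.2 j
    refine ⟨α - μ, ?_, ?_⟩
    · rw [MvPolynomial.mem_support_iff, hΘc, add_tsub_cancel_of_le (hμ.1 α hα), if_pos hα]
      obtain ⟨y, -, hy⟩ := (hs α).1 hα
      intro h1
      rw [h1, map_zero] at hy
      exact hy rfl
    · rw [Finsupp.tsub_apply, hαj, Nat.sub_self]
  · intro y hy hyE α hα h1
    apply hyE
    right
    rw [Set.mem_iUnion₂]
    exact ⟨α, hα, hD ▸ hy, h1⟩
  · intro y hy hyE r hr
    have hy' : y ∈ co '' C := hD ▸ hy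
    obtain ⟨z, hz, rfl⟩ := hy'
    refine (hN z hz (fun h1 => hyE (Or.inl (Or.inr ⟨z, h1, rfl⟩))) r hr).subset ?_
    rintro x ⟨hx, h1, h2⟩
    refine ⟨hx, (hiff z hz x hx).1 h1, (hiff z hz _ (fun j => ?_)).1 h2⟩
    exact div_ne_zero (Complex.ofReal_ne_zero.2 (hr j).ne') ((map_ne_zero _).2 (hx j))
  · intro hA α β
    show IsAlgebraic ℚ (MvPolynomial.coeff β (MvPolynomial.coeff α Θ))
    rw [hΘc]
    split_ifs with h1
    · exact hA _ _
    · rw [coeff_zero]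
      exact isAlgebraic_zero

end Pool.Agent.Z7
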