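import Pool.Agent.Z7.G0
import Pool.Agent.Z7.E6
import Pool.Agent.Z6.K4

open MvPolynomial Pool.Agent.MP_dd1803_nt Pool.Agent.ZPA Pool.Agent.ZL2

namespace Pool.Agent.Z7

theorem g1_lift1 {σ : Type} (F : IntermediateField ℚ ℂ) (p : MvPolynomial σ ℂ) (h : ∀ b, p.coeff b ∈ F) :
    ∃ p' : MvPolynomial σ F, map (algebraMap F ℂ) p' = p := by
  have h1 : p ∈ Set.range (MvPolynomial.map (algebraMap F ℂ)) := by
    rw [MvPolynomial.mem_range_map_iff_coeffs_subset]
    intro z hz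
    obtain ⟨b, -, rfl⟩ := MvPolynomial.mem_coeffs_iff.1 hz
    exact ⟨⟨_, h b⟩, rfl⟩
  exact h1

theorem g1_lift2 {σ τ : Type} (F : IntermediateField ℚ ℂ) (p : MvPolynomial τ (MvPolynomial σ ℂ))
    (h : ∀ a b, (p.coeff a).coeff b ∈ F) :
    ∃ p' : MvPolynomial τ (MvPolynomial σ F), map (map (algebraMap F ℂ)) p' = p := by
  have h1 : p ∈ Set.range (MvPolynomial.map (MvPolynomial.map (σ := σ) (algebraMap F ℂ))) := by
    rw [MvPolynomial.mem_range_map_iff_coeffs_subset]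
    intro z hz
    obtain ⟨a, -, rfl⟩ := MvPolynomial.mem_coeffs_iff.1 hz
    exact g1_lift1 F _ (h a)
  exact h1

/-- The curve is defined by equations with coefficients in a number field. -/
theorem g1_gal {m : ℕ} {C : Set (Fin m → ℂˣ)} (hC : cl (acl (∅ : Set ℂ)) C = C) :
    ∃ S0 : Set ℂ, S0.Finite ∧ (∀ z ∈ S0, IsIntegral ℚ z) ∧ ∀ F : IntermediateField ℚ ℂ, (∀ z ∈ S0, z ∈ F) →
      ∀ (K : Type) [Field K] [Algebra F K] (j σ : K →ₐ[F] ℂ) (y : Fin m → K),
        (fun i => j (y i)) ∈ co '' C → (fun i => σ (y i)) ∈ co '' C := by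
  classical
  obtain ⟨G, hG⟩ : (vI (acl (∅ : Set ℂ)) C).FG := IsNoetherian.noetherian _
  refine ⟨⋃ g ∈ G, (fun z : acl (∅ : Set ℂ) => (z : ℂ)) '' (g.coeffs : Set (acl (∅ : Set ℂ))), ?_, ?_, ?_⟩
  · exact Set.Finite.biUnion G.finite_toSet fun g _ => (Finset.finite_toSet _).image _
  · intro z hz
    simp only [Set.mem_iUnion] at hz
    obtain ⟨g, -, w, -, rfl⟩ := hz
    exact (mem_acl_empty.1 w.2).isIntegral
  · intro F hF K _ _ j σ y hy
    obtain ⟨X, hX, hXy⟩ := hy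
    have hj : Function.Injective j := (j : K →+* ℂ).injective
    have hX' : ∀ i, j (y i) = (X i : ℂ) := fun i => (congrFun hXy i).symm
    have hy0 : ∀ i, y i ≠ 0 := by
      intro i h
      have h1 := hX' i
      rw [h, map_zero] at h1
      exact (X i).ne_zero h1.symm
    have hs0 : ∀ i, σ (y i) ≠ 0 := fun i => (map_ne_zero _).2 (hy0 i)
    refine ⟨fun i => Units.mk0 (σ (y i)) (hs0 i), ?_, rfl⟩
    rw [← hC]
    have key : vI (acl (∅ : Set ℂ)) C ≤
        RingHom.ker (aeval (co fun i => Units.mk0 (σ (y i)) (hs0 i)) : MvPolynomial (Fin m) (acl (∅ : Set ℂ)) →ₐ[acl (∅ : Set ℂ)] ℂ) := by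
      rw [← hG, Ideal.span_le]
      intro g hg
      have hgC : g ∈ vI (acl (∅ : Set ℂ)) C := by
        rw [← hG]
        exact Ideal.subset_span hg
      obtain ⟨g', hg'⟩ := g1_lift1 F (map (algebraMap (acl (∅ : Set ℂ)) ℂ) g) (by
        intro b
        rw [coeff_map]
        by_cases h0 : g.coeff b = 0
        · rw [h0, map_zero]
          exact zero_mem F
        · apply hF
          simp only [Set.mem_iUnion]
          exact ⟨g, hg, g.coeff b, Finset.mem_coe.2 (MvPolynomial.coeff_mem_coeffs b h0), rfl⟩)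
      have hτ : ∀ (τ : K →ₐ[F] ℂ) (x : Fin m → ℂ), (∀ i, x i = τ (y i)) → aeval x g = τ (aeval y g') := by
        intro τ x hx
        have e : x = fun i => τ (y i) := funext hx
        rw [aeval_def, eval₂_eq_eval_map, ← hg', ← eval₂_eq_eval_map, ← aeval_def, e]
        exact (MvPolynomial.comp_aeval_apply y τ g').symm
      have h1 := mem_vI.1 hgC X hX
      rw [hτ j (co X) (fun i => (hX' i).symm)] at h1
      have h2 : aeval y g' = 0 := by
        apply hj
        rw [h1, map_zero]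
      have h3 := hτ σ (co fun i => Units.mk0 (σ (y i)) (hs0 i)) (fun i => rfl)
      rw [h2, map_zero] at h3
      exact h3
    intro p hp
    exact key hp

theorem g1_ev {m : ℕ} {F : Type} [Field F] [Algebra F ℂ] {K : Type} [Field K] [Algebra F K] (τ : K →ₐ[F] ℂ)
    (Φ : MvPolynomial (Fin 2) (MvPolynomial (Fin m) F)) (x : Fin 2 → K) (y : Fin m → K) :
    evP (map (map (algebraMap F ℂ)) Φ) (fun i => τ (x i)) (fun i => τ (y i)) =
      τ (eval x (map ((aeval y : MvPolynomial (Fin m) F →ₐ[F] K) : MvPolynomial (Fin m) F →+* K) Φ)) := by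
  unfold evP
  rw [map_map]
  have h1 : ((eval fun i => τ (y i)).comp (map (algebraMap F ℂ)) : MvPolynomial (Fin m) F →+* ℂ) =
      (τ : K →+* ℂ).comp ((aeval y : MvPolynomial (Fin m) F →ₐ[F] K) : MvPolynomial (Fin m) F →+* K) := by
    apply RingHom.ext
    intro p
    show eval _ (map _ p) = τ (aeval y p)
    rw [← eval₂_eq_eval_map, ← aeval_def]
    exact (MvPolynomial.comp_aeval_apply y τ p).symm
  rw [h1, ← map_map]
  rw [MvPolynomial.eval_map]
  exact (MvPolynomial.eval₂_comp_left (τ : K →+* ℂ) (RingHom.id K) x _).symm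

variable {m : ℕ} [NeZero m]

/-- Row Z7-G1a. Compare `Z6.exists_Ar`. `F ⊂ ℂ` is generated by the coefficients of `S.Φ` and of finitely many polynomials over the algebraic numbers which define `C` (`vI (acl ∅) C` is finitely generated, `h.alg`); `K n = F(P n k)`. `hy`: the defining polynomials have coefficients in `F`. `hyE`: choose a subsequence: for `y* ∈ S.E`, `σ (y n 0) = y* 0` implies that `j n (y n 0)` is a root
of the minimal polynomial of `y* 0` over `F`, so finitely many values, and each is taken by finitely many points of `C` (`S.fib`), so finitely many `n`. -/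
theorem exists_Ar {C : Set (Fin m → ℂˣ)} (h : HC C) {S : Sf m} (hm : 2 ≤ m) (hS : S.C = co '' C)
    (hR : Rat S.toCv ∧ HHp S.toCv) (hΦa : AlgC S.Φ) (P : ℕ → Fin 2 ⊕ Fin m → ℂˣ)
    (hPC : ∀ n, (fun i => P n (Sum.inr i)) ∈ C)
    (hP0 : ∀ n, evP S.Φ (fun j => (P n (Sum.inl j) : ℂ)) (fun i => (P n (Sum.inr i) : ℂ)) = 0)
    (hPa : ∀ n i, IsAlgebraic ℚ (P n i : ℂ)) (hinj : Function.Injective (fun n i => P n (Sum.inr i))) :
    ∃ (F : Type) (_ : Field F) (_ : NumberField F) (_ : Algebra F ℂ) (A : Ar F S) (φ : ℕ → ℕ),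
      Function.Injective φ ∧ ∀ n k, A.j n (A.pt n k) = (P (φ n) k : ℂ) := by
  classical
  obtain ⟨S1, hS1, hS1a, hgal⟩ := g1_gal h.alg
  obtain ⟨S2, hS2def⟩ : ∃ S2 : Set ℂ, S2 = ⋃ a ∈ S.Φ.support, ((S.Φ.coeff a).coeffs : Set ℂ) := ⟨_, rfl⟩
  have hS2 : S2.Finite := by
    rw [hS2def]
    exact Set.Finite.biUnion S.Φ.support.finite_toSet fun a _ => Finset.finite_toSet _
  have hS2a : ∀ z ∈ S2, IsIntegral ℚ z := by
    intro z hz
    rw [hS2def] at hz
    simp only [Set.mem_iUnion] at hz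
    obtain ⟨a, -, hz⟩ := hz
    obtain ⟨b, -, rfl⟩ := MvPolynomial.mem_coeffs_iff.1 (Finset.mem_coe.1 hz)
    exact (hΦa a b).isIntegral
  have hSfin : (S1 ∪ S2).Finite := hS1.union hS2
  have hSf : Finite (S1 ∪ S2 : Set ℂ) := hSfin
  let F : IntermediateField ℚ ℂ := IntermediateField.adjoin ℚ (S1 ∪ S2)
  have hFfin : FiniteDimensional ℚ F := by
    refine IntermediateField.finiteDimensional_adjoin ?_
    rintro z (hz | hz)
    · exact hS1a z hz
    · exact hS2a z hz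
  have hFn : NumberField F := ⟨⟩
  have hmem : ∀ z ∈ S1 ∪ S2, z ∈ F := fun z hz => IntermediateField.subset_adjoin ℚ _ hz
  obtain ⟨Φ', hΦ'⟩ := g1_lift2 F S.Φ (by
    intro a b
    by_cases h0 : (S.Φ.coeff a).coeff b = 0
    · rw [h0]
      exact zero_mem F
    · apply hmem
      right
      have ha : a ∈ S.Φ.support := by
        rw [mem_support_iff]
        intro h1
        rw [h1, coeff_zero] at h0
        exact h0 rfl
      rw [hS2def]
      exact Set.mem_biUnion ha (Finset.mem_coe.2 (coeff_mem_coeffs b h0)))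
  have hgal' := hgal F (fun z hz => hmem z (Or.inl hz))
  let T : ℕ → Set ℂ := fun n => Set.range (fun k => (P n k : ℂ))
  let K : ℕ → IntermediateField F ℂ := fun n => IntermediateField.adjoin F (T n)
  have hKfin : ∀ n, FiniteDimensional F (K n) := by
    intro n
    have hT : Finite (T n) := (Set.finite_range _ : (Set.range (fun k => (P n k : ℂ))).Finite)
    refine IntermediateField.finiteDimensional_adjoin ?_
    rintro z ⟨k, rfl⟩
    exact (hPa n k).isIntegral.tower_top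
  have hKn : ∀ n, NumberField (K n) := by
    intro n
    have h1 := hKfin n
    have h2 : FiniteDimensional ℚ (K n) := FiniteDimensional.trans ℚ F (K n)
    exact ⟨⟩
  have hPm : ∀ n k, (P n k : ℂ) ∈ K n := fun n k => IntermediateField.subset_adjoin F (T n) ⟨k, rfl⟩
  let y : ∀ n, Fin m → K n := fun n i => ⟨P n (Sum.inr i), hPm n _⟩
  let x : ∀ n, Fin 2 → K n := fun n i => ⟨P n (Sum.inl i), hPm n _⟩
  have hy : ∀ n (σ : K n →ₐ[F] ℂ), (fun i => σ (y n i)) ∈ S.C := by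
    intro n σ
    rw [hS]
    exact hgal' (K n) (K n).val σ (y n) ⟨_, hPC n, rfl⟩
  have hP : ∀ n (σ : K n →ₐ[F] ℂ), evP S.Φ (fun i => σ (x n i)) (fun i => σ (y n i)) = 0 := by
    intro n σ
    have e1 := g1_ev (K n).val Φ' (x n) (y n)
    rw [hΦ'] at e1
    have e2 : (K n).val (eval (x n) (map ((aeval (y n) : MvPolynomial (Fin m) F →ₐ[F] K n) :
        MvPolynomial (Fin m) F →+* K n) Φ')) = 0 := by
      rw [← e1]
      exact hP0 n
    have e3 : eval (x n) (map ((aeval (y n) : MvPolynomial (Fin m) F →ₐ[F] K n) :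
        MvPolynomial (Fin m) F →+* K n) Φ') = 0 := by
      apply ((K n).val : K n →+* ℂ).injective
      rw [map_zero]
      exact e2
    have e4 := g1_ev σ Φ' (x n) (y n)
    rw [hΦ', e3, map_zero] at e4
    exact e4
  have hbad : {n | ∃ σ : K n →ₐ[F] ℂ, (fun i => σ (y n i)) ∈ S.E}.Finite := by
    have hfin : (⋃ e ∈ S.E, ⋃ t ∈ (minpoly F (e 0)).rootSet ℂ, {y | y ∈ S.C ∧ y 0 = t}).Finite := by
      refine S.hE.biUnion fun e _ => ?_
      exact (Polynomial.rootSet_finite _ _).biUnion fun t _ => S.fib t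
    have hinj' : Function.Injective (fun n => (fun i => (P n (Sum.inr i) : ℂ))) := by
      intro n n' hn
      apply hinj
      funext i
      apply Units.ext
      exact congrFun hn i
    refine (hfin.preimage hinj'.injOn).subset ?_
    rintro n ⟨σ, hσ⟩
    simp only [Set.mem_preimage, Set.mem_iUnion]
    refine ⟨_, hσ, (P n (Sum.inr 0) : ℂ), ?_, ?_, rfl⟩
    · rw [Polynomial.mem_rootSet]
      have hK := hKfin n
      have hint : IsIntegral F (y n 0) := IsIntegral.of_finite F _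
      have e1 : minpoly F (σ (y n 0)) = minpoly F (y n 0) :=
        minpoly.algHom_eq σ (σ : K n →+* ℂ).injective _
      have e2 : minpoly F ((K n).val (y n 0)) = minpoly F (y n 0) :=
        minpoly.algHom_eq _ ((K n).val : K n →+* ℂ).injective _
      refine ⟨?_, ?_⟩
      · show minpoly F (σ (y n 0)) ≠ 0
        rw [e1]
        exact minpoly.ne_zero hint
      · show Polynomial.aeval (P n (Sum.inr 0) : ℂ) (minpoly F (σ (y n 0))) = 0
        rw [e1, ← e2]
        exact minpoly.aeval F _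
    · exact hy n (K n).val
  have hinf := hbad.infinite_compl
  have e := hinf.natEmbedding
  obtain ⟨φ, hφe⟩ : ∃ φ : ℕ → ℕ, ∀ n, φ n = (e n : ℕ) := ⟨fun n => (e n : ℕ), fun n => rfl⟩
  have hφ : Function.Injective φ := fun n n' h => e.injective (Subtype.ext (by rw [← hφe, ← hφe, h]))
  have hφ' : ∀ n (σ : K (φ n) →ₐ[F] ℂ), (fun i => σ (y (φ n) i)) ∉ S.E := by
    intro n
    rw [hφe]
    exact fun σ hσ => (e n).2 ⟨σ, hσ⟩
  let A : Ar F S :=
    { hm := hm
      rat := hR.1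
      hH := hR.2
      Φ := Φ'
      hΦ := hΦ'
      K := fun n => K (φ n)
      fld := fun n => inferInstance
      nf := fun n => hKn (φ n)
      alg := fun n => inferInstance
      fd := fun n => hKfin (φ n)
      j := fun n => (K (φ n)).val
      x := fun n => x (φ n)
      y := fun n => y (φ n)
      hx := fun n i h => (P (φ n) (Sum.inl i)).ne_zero (congrArg Subtype.val h)
      hy := fun n => hy (φ n)
      hyE := hφ'
      hP := fun n => hP (φ n)
      inj := fun n n' h => by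
        apply hφ
        apply hinj
        funext i
        apply Units.ext
        exact congrFun h i }
  refine ⟨F, inferInstance, hFn, inferInstance, A, φ, hφ, ?_⟩
  intro n k
  rcases k with k | k
  · rfl
  · rfl

variable {F : Type} [Field F] [NumberField F] [Algebra F ℂ] {S : Sf m}

/-- Row Z7-G1b. As `Z6.Ar.mem_Lam_iff`. -/
theorem Ar.mem_Lam_iff (A : Ar F S) {n : ℕ} {P : Fin 2 ⊕ Fin m → ℂˣ}
    (hP : ∀ k, A.j n (A.pt n k) = (P k : ℂ)) (v : Fin 2 ⊕ Fin m → ℤ) :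
    v ∈ Lam ({P} : Set (Fin 2 ⊕ Fin m → ℂˣ)) ↔ (fun k => (v k : ℝ)) ∈ A.N n := by
  have hpt : ∀ k, A.pt n k ≠ 0 := by
    intro k h
    have h1 := hP k
    rw [h, map_zero] at h1
    exact (P k).ne_zero h1.symm
  obtain ⟨z, hz⟩ : ∃ z : A.K n, z = ∏ k, A.pt n k ^ v k := ⟨_, rfl⟩
  have hz0 : z ≠ 0 := by
    rw [hz]
    exact Finset.prod_ne_zero_iff.2 fun k _ => zpow_ne_zero _ (hpt k)
  have hjz : A.j n z = ((ch v P : ℂˣ) : ℂ) := by
    rw [hz, map_prod]
    unfold ch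
    rw [Units.coe_prod]
    refine Finset.prod_congr rfl fun k _ => ?_
    rw [map_zpow₀, hP k, Units.val_zpow_eq_zpow_val]
  have hlv : ∀ p : Pl (A.K n), lv p z = ∑ k, (v k : ℝ) * lv p (A.pt n k) := by
    intro p
    rw [hz, Z5.k4_lv_prod p _ _ hpt]
  have hj : Function.Injective (A.j n) := (A.j n : A.K n →+* ℂ).injective
  have hpow : ∀ N : ℕ, ch v P ^ N = 1 ↔ z ^ N = 1 := by
    intro N
    constructor
    · intro h
      apply hj
      rw [map_pow, map_one, hjz, ← Units.val_pow_eq_pow_val, h, Units.val_one]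
    · intro h
      apply Units.ext
      rw [Units.val_pow_eq_pow_val, ← hjz, ← map_pow, h, map_one]
      rfl
  constructor
  · rintro ⟨N, hN, h⟩
    have h1 := (hpow N).1 (h P rfl)
    intro p
    have h2 : lv p (z ^ N) = 0 := by rw [h1, lv_one]
    rw [lv_pow, hlv] at h2
    exact (mul_eq_zero.1 h2).resolve_left (by exact_mod_cast hN.ne')
  · intro h
    have h0 : ∀ p : Pl (A.K n), lv p z = 0 := fun p => by rw [hlv]; exact h p
    by_contra hcon
    have h1 : ∀ N : ℕ, 0 < N → z ^ N ≠ 1 := by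
      intro N hN h2
      apply hcon
      refine ⟨N, hN, ?_⟩
      intro x hx
      rw [Set.mem_singleton_iff] at hx
      subst hx
      exact (hpow N).2 h2
    obtain ⟨c0, hc0, h2⟩ := Z5.hh_lower z hz0 h1
    have h3 := h2 (A.K n)
    have h4 : Pool.Agent.ZL2.hh (algebraMap (A.K n) (A.K n) z) = 0 := by
      unfold Pool.Agent.ZL2.hh
      rw [Sm_congr (g := fun _ => 0) (fun p => ?_), Sm_zero]
      show max 0 (lv p z) = 0
      rw [h0 p, max_self]
    rw [h4] at h3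
    have h5 : (0 : ℝ) < Module.finrank ℚ (A.K n) := by exact_mod_cast Module.finrank_pos
    have := mul_pos hc0 h5
    linarith

/-- Row Z7-G1c. As `Z6.Ar.rk_le`. -/
theorem Ar.rk_le (A : Ar F S) {n : ℕ} {P : Fin 2 ⊕ Fin m → ℂˣ}
    (hP : ∀ k, A.j n (A.pt n k) = (P k : ℂ)) :
    rk ({P} : Set (Fin 2 ⊕ Fin m → ℂˣ)) ≤ Module.finrank ℝ (A.N n) := by
  classical
  unfold rk
  obtain ⟨B⟩ : Nonempty (Module.Basis (Fin (Module.finrank ℤ (Lam ({P} : Set (Fin 2 ⊕ Fin m → ℂˣ))))) ℤ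
    (Lam ({P} : Set (Fin 2 ⊕ Fin m → ℂˣ)))) := ⟨Module.finBasis ℤ _⟩
  have h1 : LinearIndependent ℤ (fun i => ((B i : Lam ({P} : Set (Fin 2 ⊕ Fin m → ℂˣ))) : Fin 2 ⊕ Fin m → ℤ)) :=
    B.linearIndependent.map' (Lam ({P} : Set (Fin 2 ⊕ Fin m → ℂˣ))).subtype (Submodule.ker_subtype _)
  have h2 : LinearIndependent ℝ (fun i => (algebraMap ℤ ℝ) ∘
      ((B i : Lam ({P} : Set (Fin 2 ⊕ Fin m → ℂˣ))) : Fin 2 ⊕ Fin m → ℤ)) := by
    rw [linearIndependent_algebraMap_comp_iff]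
    exact h1
  let w : Fin (Module.finrank ℤ (Lam ({P} : Set (Fin 2 ⊕ Fin m → ℂˣ)))) → A.N n := fun i =>
    ⟨fun k => (((B i : Lam ({P} : Set (Fin 2 ⊕ Fin m → ℂˣ))) : Fin 2 ⊕ Fin m → ℤ) k : ℝ),
      (A.mem_Lam_iff hP _).1 (B i).2⟩
  have h3 : LinearIndependent ℝ w := by
    apply LinearIndependent.of_comp (A.N n).subtype
    exact h2
  have h4 := h3.fintype_card_le_finrank
  rwa [Fintype.card_fin] at h4

/-- The vectors `N e_j - k_j`. -/
def g1_v (k : Fin 2 → Fin m → ℤ) (N : ℕ) (j : Fin 2) : Fin 2 ⊕ Fin m → ℤ :=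
  Sum.elim (Pi.single j (N : ℤ)) (fun i => - k j i)

omit [NeZero m] in
theorem g1_indep (k : Fin 2 → Fin m → ℤ) {N : ℕ} (hN : 0 < N) : LinearIndependent ℤ (g1_v k N) := by
  rw [Fintype.linearIndependent_iff]
  intro g hg i
  have h1 := congrFun hg (Sum.inl i)
  rw [Fin.sum_univ_two] at h1
  have h0 : (N : ℤ) ≠ 0 := by exact_mod_cast hN.ne'
  match i with
  | 0 => simpa [g1_v, h0, hN.ne'] using h1
  | 1 => simpa [g1_v, h0, hN.ne'] using h1

omit [NeZero m] in
theorem g1_ch (k : Fin 2 → Fin m → ℤ) (N : ℕ) (j : Fin 2) (x : Fin 2 ⊕ Fin m → ℂˣ) :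
    (ch (g1_v k N j) x : ℂ) = (x (Sum.inl j) : ℂ) ^ N * ∏ i, (x (Sum.inr i) : ℂ) ^ (- k j i) := by
  unfold ch
  rw [Fintype.prod_sum_type, Units.val_mul, Units.coe_prod, Units.coe_prod]
  congr 1
  · rw [Finset.prod_eq_single j]
    · simp [g1_v]
    · intro i _ hi
      simp [g1_v, Pi.single_eq_of_ne hi]
    · intro h
      exact absurd (Finset.mem_univ j) h
  · refine Finset.prod_congr rfl fun i _ => ?_
    simp only [g1_v, Sum.elim_inr, Units.val_zpow_eq_zpow_val]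

/-- Row Z7-G1d. Compare `Z6.core_seq` (no case distinction for `X` is needed): `exists_Ar` and `Ar.main` (row E6); in the first case `L = Lam {P n}` for one of the `n` (`mem_Lam_iff`); in the second case `L` is spanned by the two vectors `N e_j - k_j`. -/
theorem core_seq {C : Set (Fin m → ℂˣ)} (h : HC C) {S : Sf m} (hm : 2 ≤ m) (hS : S.C = co '' C)
    (hR : Rat S.toCv ∧ HHp S.toCv) (hΦa : AlgC S.Φ) (P : ℕ → Fin 2 ⊕ Fin m → ℂˣ)
    (hPC : ∀ n, (fun i => P n (Sum.inr i)) ∈ C)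
    (hP0 : ∀ n, evP S.Φ (fun j => (P n (Sum.inl j) : ℂ)) (fun i => (P n (Sum.inr i) : ℂ)) = 0)
    (hPa : ∀ n i, IsAlgebraic ℚ (P n i : ℂ)) (hinj : Function.Injective (fun n i => P n (Sum.inr i)))
    (hrk : ∀ n, 3 ≤ rk ({P n} : Set (Fin 2 ⊕ Fin m → ℂˣ))) :
    ∃ 𝒩 : Set ℕ, 𝒩.Infinite ∧
      ((∃ L : Submodule ℤ (Fin 2 ⊕ Fin m → ℤ), 3 ≤ Module.finrank ℤ L ∧
        ∀ n ∈ 𝒩, L ≤ Lam ({P n} : Set (Fin 2 ⊕ Fin m → ℂˣ))) ∨
      ∃ (L : Submodule ℤ (Fin 2 ⊕ Fin m → ℤ)) (k : ℕ), 2 ≤ Module.finrank ℤ L ∧ 0 < k ∧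
        ∀ n ∈ 𝒩, ∀ v ∈ L, ch v (P n) ^ k = 1) := by
  obtain ⟨F, _, _, _, A, φ, hφ, hpt⟩ := exists_Ar h hm hS hR hΦa P hPC hP0 hPa hinj
  have hN : ∀ n, 3 ≤ Module.finrank ℝ (A.N n) := fun n => (hrk (φ n)).trans (A.rk_le (hpt n))
  obtain ⟨𝒩, hinf, h⟩ := A.main hN
  refine ⟨φ '' 𝒩, hinf.image hφ.injOn, ?_⟩
  rcases h with ⟨N', hN'⟩ | ⟨k, N, e, hN0, he, hm'⟩
  · left
    obtain ⟨n0, hn0⟩ := hinf.nonempty
    refine ⟨Lam ({P (φ n0)} : Set (Fin 2 ⊕ Fin m → ℂˣ)), hrk (φ n0), ?_⟩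
    rintro _ ⟨n, hn, rfl⟩ v hv
    rw [A.mem_Lam_iff (hpt n), hN' n hn, ← hN' n0 hn0, ← A.mem_Lam_iff (hpt n0)]
    exact hv
  · right
    refine ⟨Submodule.span ℤ (Set.range (g1_v k N)), e, ?_, he, ?_⟩
    · rw [finrank_span_eq_card (g1_indep k hN0), Fintype.card_fin]
    · rintro _ ⟨n, hn, rfl⟩ w hw
      have hgen : ∀ j, ch (g1_v k N j) (P (φ n)) ^ e = 1 := by
        intro j
        apply Units.ext
        rw [Units.val_pow_eq_pow_val, g1_ch, Units.val_one]
        have e1 := congrArg (A.j n) (hm' n hn j)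
        rw [map_pow, map_mul, map_pow, map_prod, map_one] at e1
        simp only [map_zpow₀, hpt] at e1
        exact e1
      induction hw using Submodule.span_induction with
      | mem x hx =>
        obtain ⟨j, rfl⟩ := hx
        exact hgen j
      | zero => rw [ch_zero, one_pow]
      | add x y _ _ h1 h2 => rw [ch_add, mul_pow, h1, h2, one_mul]
      | smul r x _ h1 =>
        rw [ch_zsmul, ← zpow_natCast, ← zpow_mul, mul_comm, zpow_mul, zpow_natCast, h1, one_zpow]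

end Pool.Agent.Z7
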