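import Pool.Agent.Z7.G1
import Pool.Agent.Z6.G3

open MvPolynomial Pool.Agent.MP_dd1803_nt Pool.Agent.ZPA Pool.Agent.ZL2

namespace Pool.Agent.Z7

variable {m : ℕ} [NeZero m] {C : Set (Fin m → ℂˣ)} {Φ : MvPolynomial (Fin 2) (MvPolynomial (Fin m) ℂ)}

/-- Row Z7-G2a. As `Z6.exists_Y`: `exists_Sf`, `core_seq`, `Z5.comp_of_lat`, `Z5.comp_of_rel`. -/
theorem exists_Y (h : HC C) (hm : 2 ≤ m) (hNR : NR C Φ) (hΦa : AlgC Φ) (P : ℕ → Fin 2 ⊕ Fin m → ℂˣ)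
    (hPV : ∀ n, P n ∈ VS C Φ) (hPa : ∀ n i, IsAlgebraic ℚ (P n i : ℂ))
    (hinj : Function.Injective (fun n i => P n (Sum.inr i)))
    (hrk : ∀ n, 3 ≤ rk ({P n} : Set (Fin 2 ⊕ Fin m → ℂˣ))) {V : Set (Fin 2 ⊕ Fin m → ℂˣ)} (hV : ZClosed V)
    (hPV' : ∀ n, P n ∈ V) : ∃ Y, Irr Y ∧ Y ⊆ V ∧ 1 ≤ td ℂ Y ∧ 3 ≤ cd Y ∧ ∃ n, P n ∈ Y := by
  obtain ⟨S, hS, hR, hz, hal⟩ := exists_Sf h hNR
  obtain ⟨𝒩, hinf, h⟩ := core_seq h hm hS hR (hal hΦa) P (fun n => (hPV n).1)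
    (fun n => (hz _ (hPV n).1 _ fun j => (P n (Sum.inl j)).ne_zero).2 (hPV n).2) hPa hinj hrk
  have hPinj : Function.Injective P := by
    intro n n' hmn
    apply hinj
    simp only [hmn]
  have hPs : (P '' 𝒩).Infinite := hinf.image hPinj.injOn
  have hsub : P '' 𝒩 ⊆ V := by
    rintro _ ⟨n, -, rfl⟩
    exact hPV' n
  rcases h with ⟨L, h1, h2⟩ | ⟨L, k, h1, hk, h2⟩
  · obtain ⟨Y, y1, y2, y3, y4, Q, ⟨n, -, rfl⟩, y5⟩ := Z5.comp_of_lat hV hPs hsub L (by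
      rintro _ ⟨n, hn, rfl⟩
      exact h2 n hn)
    exact ⟨Y, y1, y2, y3, h1.trans y4, n, y5⟩
  · obtain ⟨Y, y1, y2, y3, y4, Q, ⟨n, -, rfl⟩, y5⟩ := Z5.comp_of_rel hV hPs hsub L hk (by
      rintro _ ⟨n, hn, rfl⟩
      exact h2 n hn)
    refine ⟨Y, y1, y2, y3, ?_, n, y5⟩
    unfold cd
    omega

/-- Row Z7-G2b. The points which are maximal lie over finitely many points of the curve: otherwise a sequence of such points `P n` with different `y`-parts, and `exists_Y` with `V = VS C Φ` gives a contradiction. -/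
theorem finite_y (h : HC C) (hm : 2 ≤ m) (hNR : NR C Φ) (hΦa : AlgC Φ) (hV : ZClosed (VS C Φ)) :
    {y : Fin m → ℂˣ | ∃ P ∈ VS C Φ, (∀ i, P (Sum.inr i) = y i) ∧ (∀ i, IsAlgebraic ℚ (P i : ℂ)) ∧
      3 ≤ rk ({P} : Set (Fin 2 ⊕ Fin m → ℂˣ)) ∧
      ∀ Y, Irr Y → Y ⊆ VS C Φ → 3 ≤ cd Y → P ∈ Y → td ℂ Y = 0}.Finite := by
  classical
  by_contra hinf
  obtain ⟨T, hT⟩ : ∃ T : Set (Fin m → ℂˣ), T = {y : Fin m → ℂˣ | ∃ P ∈ VS C Φ, (∀ i, P (Sum.inr i) = y i) ∧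
      (∀ i, IsAlgebraic ℚ (P i : ℂ)) ∧ 3 ≤ rk ({P} : Set (Fin 2 ⊕ Fin m → ℂˣ)) ∧
      ∀ Y, Irr Y → Y ⊆ VS C Φ → 3 ≤ cd Y → P ∈ Y → td ℂ Y = 0} := ⟨_, rfl⟩
  rw [← hT] at hinf
  have hTi : T.Infinite := hinf
  have hmem : ∀ y ∈ T, ∃ P ∈ VS C Φ, (∀ i, P (Sum.inr i) = y i) ∧
      (∀ i, IsAlgebraic ℚ (P i : ℂ)) ∧ 3 ≤ rk ({P} : Set (Fin 2 ⊕ Fin m → ℂˣ)) ∧
      ∀ Y, Irr Y → Y ⊆ VS C Φ → 3 ≤ cd Y → P ∈ Y → td ℂ Y = 0 := by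
    intro y hy
    rw [hT] at hy
    exact hy
  have hex : ∀ n : ℕ, ∃ P ∈ VS C Φ, (∀ i, P (Sum.inr i) = (hTi.natEmbedding T n : Fin m → ℂˣ) i) ∧
      (∀ i, IsAlgebraic ℚ (P i : ℂ)) ∧ 3 ≤ rk ({P} : Set (Fin 2 ⊕ Fin m → ℂˣ)) ∧
      ∀ Y, Irr Y → Y ⊆ VS C Φ → 3 ≤ cd Y → P ∈ Y → td ℂ Y = 0 := by
    intro n
    exact hmem _ (hTi.natEmbedding T n).2
  choose P hPV hPy hPa hrk hmax using hex
  have hinj : Function.Injective (fun n i => P n (Sum.inr i)) := by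
    intro k n hkn
    have h1 : ∀ i, P k (Sum.inr i) = P n (Sum.inr i) := fun i => congrFun hkn i
    apply (hTi.natEmbedding T).injective
    apply Subtype.ext
    funext i
    rw [← hPy k i, ← hPy n i, h1 i]
  obtain ⟨Y, hY, hYV, htd, hcd, n, hPY⟩ := exists_Y h hm hNR hΦa P hPV hPa hinj hrk hV hPV
  have h1 := hmax n Y hY hYV hcd hPY
  omega

end Pool.Agent.Z7
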