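import Pool.Agent.Z7.G1
import Pool.Agent.Z6.G4

open MvPolynomial Pool.Agent.MP_dd1803_nt Pool.Agent.ZPA Pool.Agent.ZL2

namespace Pool.Agent.Z7

variable {m : ℕ} [NeZero m] {C : Set (Fin m → ℂˣ)} {Φ : MvPolynomial (Fin 2) (MvPolynomial (Fin m) ℂ)}

/-- The equation `A(y) x_0 + B(y) x_1 = D(y)`. -/
noncomputable def Lin (A B D : MvPolynomial (Fin m) ℂ) : MvPolynomial (Fin 2) (MvPolynomial (Fin m) ℂ) :=
  MvPolynomial.C A * MvPolynomial.X 0 + MvPolynomial.C B * MvPolynomial.X 1 - MvPolynomial.C D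

/-- Row Z7-G3a. -/
theorem evP_Lin (A B D : MvPolynomial (Fin m) ℂ) (x : Fin 2 → ℂ) (y : Fin m → ℂ) :
    evP (Lin A B D) x y = MvPolynomial.eval y A * x 0 + MvPolynomial.eval y B * x 1 - MvPolynomial.eval y D := by
  simp only [evP, Lin, map_sub, map_add, map_mul, MvPolynomial.map_C, MvPolynomial.map_X, MvPolynomial.eval_C,
    MvPolynomial.eval_X]

/-- Row Z7-G3b. Lines are not reciprocal: with `X = a x_0 / c`, `1 - X = b x_1 / c` the conjugate of the second equation divided by `conj c` reads `p / X + q / (1 - X) = 1` (`p = |a|^2 r_0 / |c|^2`, `q = |b|^2 r_1 / |c|^2`), i.e. `X (1 - X) - p (1 - X) - q X = 0`, a polynomial equation of degree two for `X`. -/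
theorem nrec_line {a b c : ℂ} (ha : a ≠ 0) (hb : b ≠ 0) (hc : c ≠ 0) (r : Fin 2 → ℝ) :
    {x : Fin 2 → ℂ | (∀ j, x j ≠ 0) ∧ a * x 0 + b * x 1 - c = 0 ∧
      a * ((r 0 : ℂ) / (starRingEnd ℂ) (x 0)) + b * ((r 1 : ℂ) / (starRingEnd ℂ) (x 1)) - c = 0}.Finite := by
  obtain ⟨a', ha'⟩ : ∃ a', a' = (starRingEnd ℂ) a := ⟨_, rfl⟩
  obtain ⟨b', hb'⟩ : ∃ b', b' = (starRingEnd ℂ) b := ⟨_, rfl⟩
  obtain ⟨c', hc'⟩ : ∃ c', c' = (starRingEnd ℂ) c := ⟨_, rfl⟩
  have hc0 : c' ≠ 0 := by rw [hc']; exact (map_ne_zero _).2 hc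
  obtain ⟨P, hP⟩ : ∃ P : Polynomial ℂ, P = Polynomial.C (c' * a) * Polynomial.X ^ 2 +
      Polynomial.C (b' * b * r 1 - c' * c - a' * a * r 0) * Polynomial.X + Polynomial.C (a' * c * r 0) := ⟨_, rfl⟩
  have hPe : ∀ z, P.eval z = c' * a * z ^ 2 + (b' * b * r 1 - c' * c - a' * a * r 0) * z + a' * c * r 0 := by
    intro z
    rw [hP]
    simp only [Polynomial.eval_add, Polynomial.eval_mul, Polynomial.eval_C, Polynomial.eval_pow, Polynomial.eval_X]
  have hP0 : P ≠ 0 := by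
    intro h
    have h1 : P.coeff 2 = c' * a := by
      rw [hP, Polynomial.coeff_add, Polynomial.coeff_add, Polynomial.coeff_C_mul, Polynomial.coeff_C_mul,
        Polynomial.coeff_X_pow, Polynomial.coeff_X, Polynomial.coeff_C]
      simp
    rw [h, Polynomial.coeff_zero] at h1
    exact mul_ne_zero hc0 ha h1.symm
  refine Set.Finite.of_finite_image (f := fun x : Fin 2 → ℂ => x 0)
    ((Finset.finite_toSet P.roots.toFinset).subset ?_) ?_
  · rintro _ ⟨x, ⟨hx, h1, h2⟩, rfl⟩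
    rw [Finset.mem_coe, Multiset.mem_toFinset, Polynomial.mem_roots hP0, Polynomial.IsRoot.def, hPe]
    have h3 := congrArg (starRingEnd ℂ) h2
    rw [map_sub, map_add, map_mul, map_mul, map_div₀, map_div₀, Complex.conj_conj, Complex.conj_conj,
      Complex.conj_ofReal, Complex.conj_ofReal, map_zero, ← ha', ← hb', ← hc'] at h3
    have hx0 := hx 0
    have hx1 := hx 1
    have h4 : a' * r 0 * x 1 + b' * r 1 * x 0 - c' * x 0 * x 1 = 0 := by
      have h5 : a' * r 0 * x 1 + b' * r 1 * x 0 - c' * x 0 * x 1 =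
          (a' * (r 0 / x 0) + b' * (r 1 / x 1) - c') * (x 0 * x 1) := by
        field_simp
      rw [h5, h3, zero_mul]
    linear_combination b * h4 + (c' * x 0 - a' * r 0) * h1
  · intro x hx x' hx' h
    have h0 : x 0 = x' 0 := h
    funext j
    fin_cases j
    · exact h0
    · have h1 := hx.2.1
      have h2 := hx'.2.1
      rw [h0] at h1
      show x 1 = x' 1
      exact mul_left_cancel₀ hb (by linear_combination h1 - h2)

/-- Row Z7-G3c. From `nrec_line`; exceptional set: the zeros of `A`, `B`, `D` on `C` (`HC.fin_poly`). -/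
theorem nr_Lin (h : HC C) {A B D : MvPolynomial (Fin m) ℂ} (hA : ∃ y ∈ C, MvPolynomial.eval (co y) A ≠ 0)
    (hB : ∃ y ∈ C, MvPolynomial.eval (co y) B ≠ 0) (hD : ∃ y ∈ C, MvPolynomial.eval (co y) D ≠ 0) :
    NR C (Lin A B D) := by
  refine ⟨_, ((h.fin_poly hA).union (h.fin_poly hB)).union (h.fin_poly hD), fun y hy hyE r hr => ?_⟩
  have h1 : MvPolynomial.eval (co y) A ≠ 0 := fun h0 => hyE (Or.inl (Or.inl ⟨hy, h0⟩))
  have h2 : MvPolynomial.eval (co y) B ≠ 0 := fun h0 => hyE (Or.inl (Or.inr ⟨hy, h0⟩))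
  have h3 : MvPolynomial.eval (co y) D ≠ 0 := fun h0 => hyE (Or.inr ⟨hy, h0⟩)
  refine (nrec_line h1 h2 h3 r).subset ?_
  rintro x ⟨hx, e1, e2⟩
  rw [evP_Lin] at e1 e2
  exact ⟨hx, e1, e2⟩

omit [NeZero m] in
theorem g3_algC : AlgC (Lin (1 : MvPolynomial (Fin m) ℂ) 1 1) := by
  classical
  intro α β
  have h1 : ∀ (p : Prop) [Decidable p], IsAlgebraic ℚ (MvPolynomial.coeff β (if p then (1 : MvPolynomial (Fin m) ℂ) else 0)) := by
    intro p _
    split_ifs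
    · rw [MvPolynomial.coeff_one]
      split_ifs
      · exact isAlgebraic_one
      · exact isAlgebraic_zero
    · rw [MvPolynomial.coeff_zero]
      exact isAlgebraic_zero
  unfold Lin
  rw [MvPolynomial.coeff_sub, MvPolynomial.coeff_add, MvPolynomial.coeff_C_mul, MvPolynomial.coeff_C_mul, one_mul,
    one_mul, MvPolynomial.coeff_sub, MvPolynomial.coeff_add, MvPolynomial.coeff_X, MvPolynomial.coeff_X,
    MvPolynomial.coeff_C]
  exact ((h1 _).add (h1 _)).sub (h1 _)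

/-- Row Z7-G3d. Only finitely many algebraic points of the curve have two independent relations: as `Z6.finite_rk2`, with the points `P n = (2, -1, y n)` of `VS C (Lin 1 1 1)`, `exists_Sf`, `exists_Ar`, `Ar.finite_two` (row E6). -/
theorem finite_rk2 (h : HC C) (hm : 2 ≤ m) :
    {y : Fin m → ℂˣ | y ∈ C ∧ (∀ i, IsAlgebraic ℚ (y i : ℂ)) ∧ 2 ≤ rk ({y} : Set (Fin m → ℂˣ))}.Finite := by
  classical
  by_contra hinf
  obtain ⟨T, hT⟩ : ∃ T : Set (Fin m → ℂˣ), T = {y : Fin m → ℂˣ | y ∈ C ∧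
      (∀ i, IsAlgebraic ℚ (y i : ℂ)) ∧ 2 ≤ rk ({y} : Set (Fin m → ℂˣ))} := ⟨_, rfl⟩
  rw [← hT] at hinf
  have hTi : T.Infinite := hinf
  have hmem : ∀ y ∈ T, y ∈ C ∧
      (∀ i, IsAlgebraic ℚ (y i : ℂ)) ∧ 2 ≤ rk ({y} : Set (Fin m → ℂˣ)) := fun y hy => by
    rw [hT] at hy
    exact hy
  obtain ⟨y, hy⟩ : ∃ y : ℕ → Fin m → ℂˣ, y = fun n => (hTi.natEmbedding T n : Fin m → ℂˣ) := ⟨_, rfl⟩
  have hyT : ∀ n, y n ∈ T := fun n => by
    rw [hy]
    exact (hTi.natEmbedding T n).2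
  have hyi : Function.Injective y := by
    intro k n h
    rw [hy] at h
    exact (hTi.natEmbedding T).injective (Subtype.ext h)
  obtain ⟨P, hP⟩ : ∃ P : ℕ → Fin 2 ⊕ Fin m → ℂˣ,
      P = fun n => Sum.elim ![Units.mk0 (2 : ℂ) two_ne_zero, -1] (y n) := ⟨_, rfl⟩
  have hP0 : ∀ n, (P n (Sum.inl 0) : ℂ) = 2 := fun n => by
    rw [hP]
    rfl
  have hP1 : ∀ n, (P n (Sum.inl 1) : ℂ) = -1 := fun n => by
    rw [hP]
    rfl
  have hPy : ∀ n i, P n (Sum.inr i) = y n i := fun n i => by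
    rw [hP]
    rfl
  have h2a : IsAlgebraic ℚ (2 : ℂ) := by
    have := isAlgebraic_algebraMap (R := ℚ) (A := ℂ) (2 : ℚ)
    simpa using this
  have h3a : IsAlgebraic ℚ (-1 : ℂ) := by
    have := isAlgebraic_algebraMap (R := ℚ) (A := ℂ) (-1 : ℚ)
    simpa using this
  obtain ⟨y0, hy0⟩ := h.infinite.nonempty
  have h1 : ∃ y ∈ C, MvPolynomial.eval (co y) (1 : MvPolynomial (Fin m) ℂ) ≠ 0 := ⟨y0, hy0, by
    rw [map_one]
    exact one_ne_zero⟩
  obtain ⟨S, hS, hR, hz, hal⟩ := exists_Sf h (nr_Lin h h1 h1 h1)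
  have hPe : ∀ n, (fun i => P n (Sum.inr i)) = y n := fun n => funext fun i => hPy n i
  have hPa : ∀ n i, IsAlgebraic ℚ (P n i : ℂ) := by
    intro n i
    rcases i with i | i
    · fin_cases i
      · show IsAlgebraic ℚ (P n (Sum.inl 0) : ℂ)
        rw [hP0]
        exact h2a
      · show IsAlgebraic ℚ (P n (Sum.inl 1) : ℂ)
        rw [hP1]
        exact h3a
    · rw [hPy]
      exact (hmem _ (hyT n)).2.1 i
  obtain ⟨F, _, _, _, A, φ, hφ, hpt⟩ := exists_Ar h hm hS hR (hal g3_algC) P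
    (fun n => by
      rw [hPe]
      exact (hmem _ (hyT n)).1)
    (fun n => by
      have h2 := (hz (y n) (hmem _ (hyT n)).1 (fun j => (P n (Sum.inl j) : ℂ)) fun j => (P n (Sum.inl j)).ne_zero).2 (by
        rw [evP_Lin, map_one, hP0, hP1]
        norm_num)
      have e : (fun i => (P n (Sum.inr i) : ℂ)) = co (y n) := funext fun i => by
        rw [hPy]
        rfl
      rw [e]
      exact h2) hPa
    (by
      have e : (fun n i => P n (Sum.inr i)) = y := by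
        funext n i
        exact hPy n i
      rw [e]
      exact hyi)
  have hfin := A.finite_two
  refine Set.infinite_univ (α := ℕ) (hfin.subset fun n _ => ?_)
  have hrk := (hmem _ (hyT (φ n))).2.2
  unfold rk at hrk
  obtain ⟨Bs⟩ : Nonempty (Module.Basis (Fin (Module.finrank ℤ (Lam ({y (φ n)} : Set (Fin m → ℂˣ))))) ℤ
    (Lam ({y (φ n)} : Set (Fin m → ℂˣ)))) := ⟨Module.finBasis ℤ _⟩
  have h1 : LinearIndependent ℤ (fun i => ((Bs i : Lam ({y (φ n)} : Set (Fin m → ℂˣ))) : Fin m → ℤ)) :=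
    Bs.linearIndependent.map' (Lam ({y (φ n)} : Set (Fin m → ℂˣ))).subtype (Submodule.ker_subtype _)
  have h2 : LinearIndependent ℝ (fun i => (algebraMap ℤ ℝ) ∘
      ((Bs i : Lam ({y (φ n)} : Set (Fin m → ℂˣ))) : Fin m → ℤ)) := by
    rw [linearIndependent_algebraMap_comp_iff]
    exact h1
  have h3 := h2.comp (Fin.castLE hrk) (Fin.castLE_injective hrk)
  rw [linearIndependent_fin2] at h3
  have hN : ∀ i, (algebraMap ℤ ℝ) ∘ ((Bs i : Lam ({y (φ n)} : Set (Fin m → ℂˣ))) : Fin m → ℤ) ∈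
      (A.N n).comap (Z6.g4_in m) := by
    intro i
    rw [Submodule.mem_comap]
    obtain ⟨k, hk, h4⟩ := (Bs i).2
    have h5 : (Sum.elim 0 ((Bs i : Lam ({y (φ n)} : Set (Fin m → ℂˣ))) : Fin m → ℤ) : Fin 2 ⊕ Fin m → ℤ) ∈
        Lam ({P (φ n)} : Set (Fin 2 ⊕ Fin m → ℂˣ)) := by
      refine ⟨k, hk, fun x hx => ?_⟩
      rw [Set.mem_singleton_iff] at hx
      rw [hx, Z6.g4_ch, hPe]
      exact h4 (y (φ n)) rfl
    have h6 := (A.mem_Lam_iff (hpt n) _).1 h5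
    have e : Z6.g4_in m ((algebraMap ℤ ℝ) ∘ ((Bs i : Lam ({y (φ n)} : Set (Fin m → ℂˣ))) : Fin m → ℤ)) =
        fun k => (((Sum.elim 0 ((Bs i : Lam ({y (φ n)} : Set (Fin m → ℂˣ))) : Fin m → ℤ) :
          Fin 2 ⊕ Fin m → ℤ) k : ℤ) : ℝ) := by
      funext k
      rcases k with k | k
      · exact Int.cast_zero.symm
      · rfl
    rw [e]
    exact h6
  obtain ⟨u, v, hu, hv, huv, hu2, hv2⟩ := Z6.g4_gs (N := (A.N n).comap (Z6.g4_in m)) h3.1 h3.2 (hN _) (hN _)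
  have hrel : ∀ w : Fin m → ℝ, w ∈ (A.N n).comap (Z6.g4_in m) → ∀ p : Pl (A.K n), ∑ i, w i * lv p (A.y n i) = 0 := by
    intro w hw p
    have h4 : ∑ k, Z6.g4_in m w k * lv p (A.pt n k) = 0 := hw p
    rw [Fintype.sum_sum_type] at h4
    have h5 : ∑ x : Fin 2, Z6.g4_in m w (Sum.inl x) * lv p (A.pt n (Sum.inl x)) = 0 :=
      Finset.sum_eq_zero fun x _ => by
        show (0 : ℝ) * _ = 0
        rw [zero_mul]
    rw [h5, zero_add] at h4
    exact h4
  exact ⟨u, v, hu, hv, huv, hrel u hu2, hrel v hv2⟩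

end Pool.Agent.Z7
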