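import Pool.Agent.Z7.G0
import Pool.Agent.Z7.E2

open MvPolynomial Pool.Agent.MP_dd1803_nt Pool.Agent.ZPA Pool.Agent.ZL2

namespace Pool.Agent.Z7

variable {m : ℕ} [NeZero m] {C : Set (Fin m → ℂˣ)} {Φ : MvPolynomial (Fin 2) (MvPolynomial (Fin m) ℂ)}

omit [NeZero m] in
theorem g4_ch_sum (n : Fin 2 ⊕ Fin m → ℤ) (x : Fin 2 ⊕ Fin m → ℂˣ) :
    ch n x = (∏ j, x (Sum.inl j) ^ n (Sum.inl j)) * ch (fun i => n (Sum.inr i)) (fun i => x (Sum.inr i)) := by
  unfold ch
  rw [Fintype.prod_sum_type]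

omit [NeZero m] in
theorem g4_point {X : Set (Fin 2 ⊕ Fin m → ℂˣ)} (hX : Irr X) (htd : 1 ≤ td ℂ X) {y0 : Fin m → ℂˣ}
    (hy : ∀ x ∈ X, ∀ i, x (Sum.inr i) = y0 i)
    (hfin : ∀ j : Fin 2, {z : ℂ | ∃ x ∈ X, (x (Sum.inl j) : ℂ) = z}.Finite) : False := by
  obtain ⟨x0, hx0⟩ := hX.nonempty
  have hXs : X = {x0} := by
    refine Set.Subset.antisymm (fun x hx => ?_) (Set.singleton_subset_iff.2 hx0)
    rw [Set.mem_singleton_iff]
    funext k
    rcases k with j | i
    · exact ZL2.const_of_finite hX.pirr (Sum.inl j) (hfin j) x0 hx0 x hx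
    · rw [hy x hx, hy x0 hx0]
  rw [hXs, ZL2.td_singleton'] at htd
  omega

/-- Row Z7-G4a. The relations of a curve in a fibre are those of the base point, outside finitely many fibres. `exists_Sf` gives `S`, `E = {y ∈ C | co y ∈ S.E}`. Let `n ∈ Lam X` and `e = (n_0, n_1)`. The character is constant on `X` up to roots of unity of bounded order, so `x^e` takes finitely many values on `X`; if `e ≠ 0` then `coset_fin` (row E2) makes `X` finite: contradiction with `1 ≤ td X`.
So `e = 0` and the `y`-part of `n` is in `Lam {y0}` (compare `Z6.rk_Fb`). -/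
theorem rk_fibre (h : HC C) (hNR : NR C Φ) : ∃ E : Set (Fin m → ℂˣ), E.Finite ∧ ∀ y0 ∈ C, y0 ∉ E →
    ∀ X, Irr X → X ⊆ VS C Φ → 1 ≤ td ℂ X → (∀ x ∈ X, ∀ i, x (Sum.inr i) = y0 i) →
      rk X ≤ rk ({y0} : Set (Fin m → ℂˣ)) := by
  classical
  obtain ⟨S, hS, -, hz, -⟩ := exists_Sf h hNR
  have hco : Function.Injective (co : (Fin m → ℂˣ) → Fin m → ℂ) := by
    intro y y' hyy
    funext i
    exact Units.ext (congrFun hyy i)
  refine ⟨co ⁻¹' S.E, S.hE.preimage hco.injOn, fun y0 hy0 hyE X hX hXV htd hy => ?_⟩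
  have h0 : ∀ n ∈ Lam X, (∀ j, n (Sum.inl j) = 0) ∧ (fun i => n (Sum.inr i)) ∈ Lam ({y0} : Set (Fin m → ℂˣ)) := by
    rintro n ⟨N, hN, hn⟩
    have hN' : (N : ℤ) ≠ 0 := by exact_mod_cast hN.ne'
    have hye : ∀ x ∈ X, (fun i => x (Sum.inr i)) = y0 := fun x hx => funext fun i => hy x hx i
    have key : ∀ x ∈ X, (∏ j, x (Sum.inl j) ^ n (Sum.inl j)) ^ N * ch (fun i => n (Sum.inr i)) y0 ^ N = 1 := by
      intro x hx
      have h1 := hn x hx
      rw [g4_ch_sum, hye x hx, mul_pow] at h1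
      exact h1
    have hx0 : ∀ j, n (Sum.inl j) = 0 := by
      by_contra hcon
      push Not at hcon
      obtain ⟨j1, hj1⟩ := hcon
      have he : (fun j : Fin 2 => (N : ℤ) * n (Sum.inl j)) ≠ 0 := by
        intro h1
        exact mul_ne_zero hN' hj1 (congrFun h1 j1)
      have hfin := coset_fin S (y := co y0) (by rw [hS]; exact ⟨y0, hy0, rfl⟩) hyE he
        (((ch (fun i => n (Sum.inr i)) y0 ^ N)⁻¹ : ℂˣ) : ℂ)
      refine g4_point hX htd hy fun j => (hfin.image fun x => x j).subset ?_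
      rintro _ ⟨x, hx, rfl⟩
      refine ⟨fun j => (x (Sum.inl j) : ℂ), ⟨fun j => (x (Sum.inl j)).ne_zero, ?_, ?_⟩, rfl⟩
      · rw [← eq_inv_of_mul_eq_one_left (key x hx)]
        push_cast
        rw [← Finset.prod_pow]
        refine Finset.prod_congr rfl fun i _ => ?_
        rw [mul_comm, zpow_mul, zpow_natCast]
      · rw [hz y0 hy0 _ fun j => (x (Sum.inl j)).ne_zero]
        have h1 := (hXV hx).2
        have e : (fun i => (x (Sum.inr i) : ℂ)) = co y0 := funext fun i => by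
          rw [hy x hx]
          rfl
        rw [e] at h1
        exact h1
    refine ⟨hx0, N, hN, ?_⟩
    intro y hyy
    rw [Set.mem_singleton_iff] at hyy
    subst hyy
    obtain ⟨x, hx⟩ := hX.nonempty
    have h1 := key x hx
    simp only [hx0, zpow_zero, Finset.prod_const_one, one_pow, one_mul] at h1
    exact h1
  let f : Lam X →ₗ[ℤ] Lam ({y0} : Set (Fin m → ℂˣ)) :=
    ((LinearMap.funLeft ℤ ℤ (Sum.inr : Fin m → Fin 2 ⊕ Fin m)).comp (Lam X).subtype).codRestrict _
      (fun n => (h0 n.1 n.2).2)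
  have hf : Function.Injective f := by
    rw [injective_iff_map_eq_zero]
    rintro ⟨n, hn⟩ hfn
    apply Subtype.ext
    funext j
    rcases j with j | j
    · exact (h0 n hn).1 j
    · have h1 := congrArg Subtype.val hfn
      exact congrFun h1 j
  exact LinearMap.finrank_le_finrank_of_injective hf

/-- Row Z7-G4b. If the `y`-part is not constant on `X`, no nontrivial monomial in the `y_i` is constant on `X` (`HC.fin_ch`: otherwise the `y`-part takes finitely many values on the irreducible `X`, so it is constant), so the projection of `Alat X` to the first two exponents is injective. Compare `Z6.ar_le_two`. -/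
theorem ar_le_two (h : HC C) {X : Set (Fin 2 ⊕ Fin m → ℂˣ)} (hX : Irr X)
    (hXC : ∀ x ∈ X, (fun i => x (Sum.inr i)) ∈ C)
    (hy : ¬ ∃ y0 : Fin m → ℂˣ, ∀ x ∈ X, ∀ i, x (Sum.inr i) = y0 i) : ar X ≤ 2 := by
  classical
  obtain ⟨x0, hx0⟩ := hX.nonempty
  let f : Alat X →ₗ[ℤ] (Fin 2 → ℤ) :=
    (LinearMap.funLeft ℤ ℤ (Sum.inl : Fin 2 → Fin 2 ⊕ Fin m)).comp (Alat X).subtype
  have hf : Function.Injective f := by
    rw [injective_iff_map_eq_zero]
    rintro ⟨n, hn⟩ hfn
    have hl : ∀ j, n (Sum.inl j) = 0 := fun j => congrFun hfn j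
    obtain ⟨g, _, hg⟩ := hn
    by_contra hne
    have hr : (fun i => n (Sum.inr i)) ≠ 0 := by
      intro hcon
      apply hne
      apply Subtype.ext
      funext j
      rcases j with j | j
      · exact hl j
      · exact congrFun hcon j
    have hfin := h.fin_ch hr g
    apply hy
    refine ⟨fun i => x0 (Sum.inr i), fun x hx i => ?_⟩
    refine ZL2.const_of_finite hX.pirr (Sum.inr i) ((hfin.image fun y => (y i : ℂ)).subset ?_) x0 hx0 x hx
    rintro _ ⟨z, hz, rfl⟩
    refine ⟨fun i => z (Sum.inr i), ⟨hXC z hz, ?_⟩, rfl⟩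
    have h1 := hg z hz
    rw [g4_ch_sum] at h1
    simp only [hl, zpow_zero, Finset.prod_const_one, one_mul] at h1
    exact h1
  have h1 := LinearMap.finrank_le_finrank_of_injective hf
  rw [Module.finrank_fintype_fun_eq_card, Fintype.card_fin] at h1
  exact h1

end Pool.Agent.Z7
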