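import Pool.Agent.Z7.G0
import Pool.Agent.MP_dd1803_nt.Prod

open MvPolynomial Pool.Agent.MP_dd1803_nt Pool.Agent.ZPA Pool.Agent.ZL2

namespace Pool.Agent.Z7

variable {m : ℕ} [NeZero m] {C : Set (Fin m → ℂˣ)} {Φ : MvPolynomial (Fin 2) (MvPolynomial (Fin m) ℂ)}

/-- The equation of the surface over a field of coefficients. -/
theorem g5_poly {k : Type} [Field k] [Algebra k ℂ] {m : ℕ} (Ψ : MvPolynomial (Fin 2) (MvPolynomial (Fin m) k)) :
    ∃ p : MvPolynomial (Fin 2 ⊕ Fin m) k, ∀ x : Fin 2 ⊕ Fin m → ℂ, aeval x p =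
      evP (MvPolynomial.map (MvPolynomial.map (algebraMap k ℂ)) Ψ) (fun j => x (Sum.inl j)) (fun i => x (Sum.inr i)) := by
  refine ⟨(sumAlgEquiv k (Fin 2) (Fin m)).symm Ψ, fun x => ?_⟩
  have h1 : x = Sum.elim (fun j => x (Sum.inl j)) (fun i => x (Sum.inr i)) := by
    funext l
    rcases l with l | l <;> rfl
  rw [h1, aeval_sum_eq, AlgEquiv.apply_symm_apply]
  unfold evP
  have h2 : ((MvPolynomial.eval fun i => x (Sum.inr i)).comp (MvPolynomial.map (algebraMap k ℂ))) =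
      (aeval (fun i => x (Sum.inr i)) : MvPolynomial (Fin m) k →ₐ[k] ℂ).toRingHom := by
    refine MvPolynomial.ringHom_ext (fun r => ?_) (fun i => ?_)
    · simp
    · simp
  rw [MvPolynomial.map_map, MvPolynomial.aeval_eq_eval]
  show _ = MvPolynomial.eval _ (MvPolynomial.map ((MvPolynomial.eval fun i => x (Sum.inr i)).comp
    (MvPolynomial.map (algebraMap k ℂ))) Ψ)
  rw [h2]
  rfl

/-- The product of the torus of dimension two with the curve. -/
def g5_W (C : Set (Fin m → ℂˣ)) : Set (Fin 2 ⊕ Fin m → ℂˣ) := prodSet (Set.univ : Set (Fin 2 → ℂˣ)) C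

omit [NeZero m] in
theorem g5_irr (h : HC C) : Irr (g5_W C) := irr_univ.prodSet h.irr

omit [NeZero m] in
theorem g5_ge (h : HC C) : 3 ≤ td ℂ (g5_W C) := by
  have h1 := td_prod_ge (F := ℂ) (k := ℂ) (A := (Set.univ : Set (Fin 2 → ℂˣ))) (B := C) irr_univ.pirr h.irr.pirr
  rw [td_univ, h.dim, Fintype.card_fin] at h1
  exact h1

omit [NeZero m] in
theorem g5_le (h : HC C) : td ℂ (g5_W C) ≤ 3 := by
  have h1 := td_le_pull' (k := ℂ) (g5_irr h).pirr (e := (Sum.inr : Fin m → Fin 2 ⊕ Fin m)) Sum.inr_injective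
  have h2 : pull (Sum.inr : Fin m → Fin 2 ⊕ Fin m) '' (g5_W C) ⊆ C := by
    rintro _ ⟨x, hx, rfl⟩
    exact hx.2
  have h3 : td ℂ (pull (Sum.inr : Fin m → Fin 2 ⊕ Fin m) '' (g5_W C)) ≤ td ℂ C :=
    td_mono ((g5_irr h).pirr.pull _) h.irr.pirr h2
  have h4 : (Set.range (Sum.inr : Fin m → Fin 2 ⊕ Fin m))ᶜ.ncard ≤ 2 := by
    rw [Set.compl_range_inr, ← Set.image_univ]
    refine (Set.ncard_image_le Set.finite_univ).trans ?_
    rw [Set.ncard_univ, Nat.card_eq_fintype_card, Fintype.card_fin]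
  rw [h.dim] at h3
  omega

omit [NeZero m] in
theorem g5_eq : ∃ p : MvPolynomial (Fin 2 ⊕ Fin m) ℂ, VS C Φ = g5_W C ∩ zp p := by
  obtain ⟨p, hp⟩ := g5_poly Φ
  refine ⟨p, ?_⟩
  ext x
  rw [Set.mem_inter_iff, mem_zp, hp]
  have h1 : MvPolynomial.map (MvPolynomial.map (algebraMap ℂ ℂ)) Φ = Φ := by
    have h2 : (MvPolynomial.map (RingHom.id ℂ) : MvPolynomial (Fin m) ℂ →+* MvPolynomial (Fin m) ℂ) = RingHom.id _ :=
      RingHom.ext fun q => MvPolynomial.map_id q
    rw [Algebra.algebraMap_self, h2, MvPolynomial.map_id]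
  rw [h1]
  constructor
  · rintro ⟨h2, h3⟩
    exact ⟨⟨trivial, h2⟩, h3⟩
  · rintro ⟨h2, h3⟩
    exact ⟨h2.2, h3⟩

/-- Row Z7-G5a. -/
theorem zclosed_VS (hC : ZClosed C) : ZClosed (VS C Φ) := by
  obtain ⟨p, hp⟩ := g5_eq (C := C) (Φ := Φ)
  rw [hp]
  exact (zclosed_univ.prodSet hC).inter (zclosed_zp p)

/-- Row Z7-G5b. `VS C Φ` is the zero set of polynomials with algebraic coefficients (compare `Z6.cl_TP`; `h.alg`: `C` is the zero set of `vI (acl ∅) C`). -/
theorem cl_VS (h : HC C) (hΦa : AlgC Φ) : cl (acl (∅ : Set ℂ)) (VS C Φ) = VS C Φ := by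
  classical
  obtain ⟨Ψ, hΨ⟩ : ∃ Ψ : MvPolynomial (Fin 2) (MvPolynomial (Fin m) (acl (∅ : Set ℂ))),
      MvPolynomial.map (MvPolynomial.map (algebraMap (acl (∅ : Set ℂ)) ℂ)) Ψ = Φ := by
    have h1 : ∀ α, ∃ ψ : MvPolynomial (Fin m) (acl (∅ : Set ℂ)),
        MvPolynomial.map (algebraMap (acl (∅ : Set ℂ)) ℂ) ψ = Φ.coeff α := by
      intro α
      have h2 : Φ.coeff α ∈ Set.range (MvPolynomial.map (σ := Fin m) (algebraMap (acl (∅ : Set ℂ)) ℂ)) := by
        rw [MvPolynomial.mem_range_map_iff_coeffs_subset]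
        intro c hc
        obtain ⟨β, -, rfl⟩ := MvPolynomial.mem_coeffs_iff.1 hc
        exact ⟨⟨_, mem_acl_empty.2 (hΦa α β)⟩, rfl⟩
      exact h2
    choose ψ hψ using h1
    have h3 : Φ ∈ Set.range (MvPolynomial.map (σ := Fin 2)
        (MvPolynomial.map (σ := Fin m) (algebraMap (acl (∅ : Set ℂ)) ℂ))) := by
      rw [MvPolynomial.mem_range_map_iff_coeffs_subset]
      intro c hc
      obtain ⟨α, -, rfl⟩ := MvPolynomial.mem_coeffs_iff.1 hc
      exact ⟨ψ α, hψ α⟩
    exact h3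
  obtain ⟨p, hp⟩ := g5_poly Ψ
  have key : VS C Φ = zl (acl (∅ : Set ℂ)) (insert p
      ((fun q => rename (Sum.inr : Fin m → Fin 2 ⊕ Fin m) q) '' (vI (acl (∅ : Set ℂ)) C : Set (MvPolynomial _ _)))) := by
    ext x
    have h1 : (fun i => x (Sum.inr i)) ∈ C ↔ ∀ q ∈ vI (acl (∅ : Set ℂ)) C,
        aeval (co fun i => x (Sum.inr i)) q = 0 := by
      conv_lhs => rw [← h.alg]
      rfl
    have h2 : evP Φ (fun j => (x (Sum.inl j) : ℂ)) (fun i => (x (Sum.inr i) : ℂ)) = aeval (co x) p := by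
      rw [hp, hΨ]
      rfl
    rw [mem_zl]
    constructor
    · rintro ⟨h3, h4⟩ q hq
      rcases hq with rfl | ⟨q, hq, rfl⟩
      · rw [← h2]
        exact h4
      · show aeval (co x) (rename _ q) = 0
        rw [aeval_rename]
        exact h1.1 h3 q hq
    · intro h3
      refine ⟨h1.2 fun q hq => ?_, ?_⟩
      · have h4 := h3 _ (Set.mem_insert_of_mem _ ⟨q, hq, rfl⟩)
        simp only [aeval_rename] at h4
        exact h4
      · rw [h2]
        exact h3 _ (Set.mem_insert _ _)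
  rw [key, cl_zl]

/-- Row Z7-G5c. `VS C Φ` is contained in the irreducible closed set `W = {x | y-part ∈ C}` of `td` three (a product; `td W ≤ 3` because the `y`-part contributes one), and it is not equal to it (`NR`: for some `y ∈ C` the fibre is not everything), so `td X < 3` for irreducible `X ⊆ VS C Φ` (`td_lt`). (Any other proof is fine: if the `y`-part is constant on `X` then `td X ≤ 2`;
otherwise use the equation `Φ`.) -/
theorem td_le_two (h : HC C) (hNR : NR C Φ) {X : Set (Fin 2 ⊕ Fin m → ℂˣ)} (hX : Irr X) (hXV : X ⊆ VS C Φ) :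
    td ℂ X ≤ 2 := by
  have hW := g5_irr h
  obtain ⟨p, hp⟩ := g5_eq (C := C) (Φ := Φ)
  have h1 : X ⊂ g5_W C := by
    refine ⟨fun x hx => ?_, fun hWX => ?_⟩
    · have h2 := hXV hx
      rw [hp] at h2
      exact h2.1
    · obtain ⟨E, hE, hN⟩ := hNR
      obtain ⟨y, hy, hyE⟩ := (h.infinite.sdiff hE).nonempty
      have h2 : ∀ x : Fin 2 → ℂ, (∀ j, x j ≠ 0) → evP Φ x (co y) = 0 := by
        intro x hx
        have h3 : (Sum.elim (fun j => Units.mk0 (x j) (hx j)) y : Fin 2 ⊕ Fin m → ℂˣ) ∈ VS C Φ :=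
          hXV (hWX ⟨trivial, hy⟩)
        exact h3.2
      have h3 := hN y hy hyE (fun _ => 1) (fun _ => one_pos)
      have h4 : Set.range (fun n : ℕ => fun _ : Fin 2 => ((n : ℂ) + 1)) ⊆ {x : Fin 2 → ℂ | (∀ j, x j ≠ 0) ∧
          evP Φ x (co y) = 0 ∧ evP Φ (fun j => (((1 : ℝ) : ℝ) : ℂ) / (starRingEnd ℂ) (x j)) (co y) = 0} := by
        rintro _ ⟨n, rfl⟩
        have h5 : ∀ j : Fin 2, (fun _ : Fin 2 => ((n : ℂ) + 1)) j ≠ 0 := fun j => Nat.cast_add_one_ne_zero n
        refine ⟨h5, h2 _ h5, h2 _ fun j => ?_⟩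
        exact div_ne_zero (by rw [Complex.ofReal_one]; exact one_ne_zero) ((map_ne_zero _).2 (h5 j))
      refine (Set.infinite_range_of_injective (fun a b hab => ?_)) (h3.subset h4)
      exact Nat.cast_injective (add_right_cancel (congrFun hab 0))
  have h2 := td_lt hX hW h1
  have h3 := g5_le h
  omega

/-- Row Z7-G5d. The dimension: `≤ 2` from `td_le_two` (a chain of irreducible closed sets has increasing `td`; see how `Z6.dm_TP` relates `dm` and `td`). `≥ 2`: the irreducible components of `VS C Φ` are finitely many; suppose all have `td ≤ 1`. `exists_Sf` gives `S`; for `y ∈ C` outside a finite set all coefficients of `S.Φ` are nonzero at `y` (`S.coef`); if `S.Φ` had only one term it would be a constant term (`S.nd`)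
and the fibres over these `y` would be empty, contradicting `hdom`; so it has at least two terms, and the fibre over every such `y` is infinite (a polynomial in two variables with at least two terms has infinitely many zeros in the torus); one of the components contains infinitely many points over `y`, so (irreducible of `td ≤ 1`) it lies over `y`. Infinitely many `y` need infinitely many components. -/
theorem dm_VS (h : HC C) (hNR : NR C Φ)
    (hdom : {y : Fin m → ℂˣ | ∃ x ∈ VS C Φ, (fun i => x (Sum.inr i)) = y}.Infinite) :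
    dm (VS C Φ) = (2 : WithBot ℕ∞) := by
  obtain ⟨y, x, hx, -⟩ := hdom.nonempty
  obtain ⟨d, hd, -, hmax, Z, hZ, hZV, hZd⟩ := exists_dm (F := ℂ) (V := VS C Φ) ⟨x, hx⟩
  have h1 := td_le_two h hNR hZ hZV
  obtain ⟨p, hp⟩ := g5_eq (C := C) (Φ := Φ)
  have hcl : ZClosed (g5_W C ∩ zp p) := (g5_irr h).closed.inter (zclosed_zp p)
  obtain ⟨Y, hY, -⟩ := exists_comp_mem hcl (hp ▸ hx)
  have h2 := krull (g5_irr h) p hY
  have h3 := g5_ge h
  have h4 := hmax Y (Comp.irr hY) (by rw [hp]; exact Comp.subset hY)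
  have h5 : d = 2 := by omega
  rw [hd, h5]
  rfl

end Pool.Agent.Z7
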