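import Pool.Agent.Z7.G2
import Pool.Agent.Z7.G3
import Pool.Agent.Z7.G4
import Pool.Agent.Z7.G5
import Pool.Agent.Z6.G5

open MvPolynomial Pool.Agent.MP_dd1803_nt Pool.Agent.ZPA Pool.Agent.ZL2

namespace Pool.Agent.Z7

variable {m : ℕ} [NeZero m] {C : Set (Fin m → ℂˣ)} {Φ : MvPolynomial (Fin 2) (MvPolynomial (Fin m) ℂ)}

/-- Row Z7-G6. Compare `Z6.zp_alg`. `maximal_atypical_iff` with `d = 2` (`dm_VS`): `X` is maximal among the irreducible subsets of `V` with `3 ≤ cd X`; it is defined over `acl ∅` (`MaxE.closed`, `cl_VS`). `F` = the union of the finite sets of `finite_y`, `finite_rk2` and (intersected with `C`) of `rk_fibre`. Let `X` be such a set, not over a point of `F`. `td X ≤ 2` (`td_le_two`).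
`td X = 2`: `X` is an irreducible component of `V` (an irreducible `Y` with `X ⊆ Y ⊆ V` has `td Y ≤ 2`, so `X = Y`, `eq_of_td_le`): finitely many (`finite_comp`). `td X = 0`: `X = {P}`, `P` is algebraic, its `y`-part is in `finite_y`: impossible. `td X = 1` and the `y`-part constant `= y0 ∈ C`, algebraic: `3 ≤ cd X = rk X + 1`, so `2 ≤ rk X ≤ rk {y0}` (`rk_fibre`): impossible.
`td X = 1` and the `y`-part not constant: `ar X ≤ 2 ≤ rk X` (`ar_le_two`), `X` is in the finite set `MaxP` as in `Z6.zp_alg`. -/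
theorem zp_mod (h : HC C) (hm : 2 ≤ m) (hNR : NR C Φ) (hΦa : AlgC Φ)
    (hdom : {y : Fin m → ℂˣ | ∃ x ∈ VS C Φ, (fun i => x (Sum.inr i)) = y}.Infinite) :
    ∃ F : Set (Fin m → ℂˣ), F.Finite ∧ F ⊆ C ∧
      {X | Maximal (Atypical (VS C Φ)) X ∧ ¬ ∃ y0 ∈ F, ∀ x ∈ X, ∀ i, x (Sum.inr i) = y0 i}.Finite := by
  classical
  have hcard : Fintype.card (Fin 2 ⊕ Fin m) = m + 2 := by simp [add_comm]
  have hV : ZClosed (VS C Φ) := zclosed_VS h.irr.closed
  have hcl : cl (acl (∅ : Set ℂ)) (VS C Φ) = VS C Φ := cl_VS h hΦa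
  have hac : IsAlgClosed (acl (∅ : Set ℂ)) := isAlgClosed_acl _
  have hfin := maxP_all (F := ℂ) (κ := Fin 2 ⊕ Fin m) (fun Z => ar Z ≤ rk Z + 1)
    (fun V hV e => maxP_base 1 (fun s' hs' => by
      interval_cases s'
      · exact ndk_zero
      · exact Pool.Agent.ZPB.ndk_one) V hV e) hV m
  have hpts := finite_y h hm hNR hΦa hV
  have hr2 := finite_rk2 h hm
  obtain ⟨E, hE, hE2⟩ := rk_fibre h hNR
  have hcomp := finite_comp hV
  have hcdZ : ∀ Z : Set (Fin 2 ⊕ Fin m → ℂˣ), cd Z = rk Z + td ℂ Z := fun Z => rfl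
  refine ⟨_, (hpts.union hr2).union (hE.inter_of_left C), ?_, ?_⟩
  · rintro y ((⟨P, hP, hy, -⟩ | hy) | hy)
    · have h1 := hP.1
      have h2 : (fun i => P (Sum.inr i)) = y := funext hy
      rwa [h2] at h1
    · exact hy.1
    · exact hy.2
  refine (hfin.union hcomp).subset ?_
  rintro X ⟨hX, hXF⟩
  have hX' : Maximal (Atypical (VS C Φ)) X := hX
  have hdm : dm (VS C Φ) = ((2 : ℕ) : WithBot ℕ∞) := dm_VS h hNR hdom
  rw [maximal_atypical_iff hV hdm (by omega) X] at hX'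
  have hXi := MaxE.irr hX'
  have hXV := MaxE.subset hX'
  have hlt := MaxE.lt hX'
  have hcdX : 3 ≤ cd X := by omega
  have hclX : cl (acl (∅ : Set ℂ)) X = X := MaxE.closed hX' hcl
  have htd2 : td ℂ X ≤ 2 := td_le_two h hNR hXi hXV
  have hcd1 := hcdZ X
  obtain ⟨w, hwX, hwa⟩ := Pool.Agent.Z6.g5_algpt hXi hclX
  by_cases h2 : td ℂ X = 2
  · right
    obtain ⟨Y, hY, hXY⟩ := exists_comp hV hXi hXV
    have h3 := td_le_two h hNR hY.irr hY.subset
    have h4 : X = Y := eq_of_td_le hXi hY.irr hXY (by omega)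
    rw [h4]
    exact hY
  by_cases h0 : td ℂ X = 0
  · exfalso
    have h3 : ({w} : Set (Fin 2 ⊕ Fin m → ℂˣ)) = X := eq_of_td_le (irr_singleton w) hXi
      (Set.singleton_subset_iff.2 hwX) (by omega)
    refine hXF ⟨fun i => w (Sum.inr i), Or.inl (Or.inl ⟨w, hXV hwX, fun i => rfl, hwa, ?_, ?_⟩), ?_⟩
    · rw [h3]
      omega
    · intro Y hY hYV hcdY hwY
      have h4 : X = Y := MaxE.eq hX' hY hYV (by omega) (by
        rw [← h3]
        exact Set.singleton_subset_iff.2 hwY)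
      rw [← h4]
      exact h0
    · intro x hx i
      rw [← h3, Set.mem_singleton_iff] at hx
      rw [hx]
  have h1 : td ℂ X = 1 := by omega
  by_cases hy : ∃ y0 : Fin m → ℂˣ, ∀ x ∈ X, ∀ i, x (Sum.inr i) = y0 i
  · exfalso
    obtain ⟨y0, hy0⟩ := hy
    have hy0C : y0 ∈ C := by
      have h3 := (hXV hwX).1
      have h4 : (fun i => w (Sum.inr i)) = y0 := funext (hy0 w hwX)
      rwa [h4] at h3
    have hyE : y0 ∉ E := fun h3 => hXF ⟨y0, Or.inr ⟨h3, hy0C⟩, hy0⟩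
    have h5 := hE2 y0 hy0C hyE X hXi hXV (by omega) hy0
    refine hXF ⟨y0, Or.inl (Or.inr ⟨hy0C, fun i => ?_, by omega⟩), hy0⟩
    rw [← hy0 w hwX i]
    exact hwa _
  · left
    have har := ar_le_two h hXi (fun x hx => (hXV hx).1) hy
    obtain ⟨Y, hY, hXY⟩ := exists_maxP (k0 := acl (∅ : Set ℂ)) (P := fun Z => ar Z ≤ rk Z + 1) (e := m)
      hXi hXV (by omega) (by
        show ar (cl (acl (∅ : Set ℂ)) X) ≤ rk (cl (acl (∅ : Set ℂ)) X) + 1
        rw [hclX]
        omega)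
    have h3 := MaxP.lt hY
    rw [MaxE.eq hX' (MaxP.irr hY) (MaxP.subset hY) (by omega) hXY]
    exact hY

end Pool.Agent.Z7
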