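import Pool.Agent.Z7.G6

open MvPolynomial Pool.Agent.MP_dd1803_nt Pool.Agent.ZPA Pool.Agent.ZL2

namespace Pool.Agent.Z7

variable {m : ℕ} [NeZero m] {C : Set (Fin m → ℂˣ)}

/-- The constant `a`, or `X` if `a = 0`. -/
noncomputable def g7_pl (a : ℂ) : Polynomial ℂ := if a = 0 then Polynomial.X else Polynomial.C a

theorem g7_pl_ne (a : ℂ) : g7_pl a ≠ 0 := by
  unfold g7_pl
  split_ifs with h
  · exact Polynomial.X_ne_zero
  · exact Polynomial.C_ne_zero.2 h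

theorem g7_pl_zero (a : ℂ) : (g7_pl a).eval 0 = a := by
  unfold g7_pl
  split_ifs with h
  · rw [Polynomial.eval_X, h]
  · rw [Polynomial.eval_C]

theorem g7_pl_eval {a : ℂ} (ha : a ≠ 0) (t : ℂ) : (g7_pl a).eval t ≠ 0 := by
  unfold g7_pl
  rw [if_neg ha, Polynomial.eval_C]
  exact ha

theorem g7_cop {a b c : ℂ} (habc : ¬ (a = 0 ∧ b = 0 ∧ c = 0)) (t : ℂ) :
    ¬ ((g7_pl a).eval t = 0 ∧ (g7_pl b).eval t = 0 ∧ (g7_pl c).eval t = 0) := by
  rintro ⟨h1, h2, h3⟩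
  apply habc
  refine ⟨?_, ?_, ?_⟩
  · by_contra h
    exact g7_pl_eval h t h1
  · by_contra h
    exact g7_pl_eval h t h2
  · by_contra h
    exact g7_pl_eval h t h3

omit [NeZero m] in
theorem g7_mem {a b c : ℂ} {y0 : Fin m → ℂˣ} {P : Fin 2 ⊕ Fin m → ℂˣ}
    (hl : a * (P (Sum.inl 0) : ℂ) + b * (P (Sum.inl 1) : ℂ) = c) (hy : ∀ i, P (Sum.inr i) = y0 i) :
    P ∈ Z6.TP (g7_pl a) (g7_pl b) (g7_pl c) (fun _ : Fin m => (1 : ℂ)) (fun i => - (y0 i : ℂ)) := by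
  refine ⟨0, fun i => ?_, ?_⟩
  · rw [hy i]
    ring
  · rw [g7_pl_zero, g7_pl_zero, g7_pl_zero]
    exact hl

/-- Row Z7-G7a. `Z6.exists_Y_fibre` with `c i = 1`, `d i = - y0 i`, the parameter `t0 = 0` and the polynomials `A` = the constant `a` if `a ≠ 0`, `A = X` if `a = 0`; `B`, `C` similarly (nonzero polynomials without common zero because one of `a, b, c` is not zero). -/
theorem fibre_Y {a b c : ℂ} (habc : ¬ (a = 0 ∧ b = 0 ∧ c = 0)) {V : Set (Fin 2 ⊕ Fin m → ℂˣ)} (hV : ZClosed V)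
    {y0 : Fin m → ℂˣ} {Ps : Set (Fin 2 ⊕ Fin m → ℂˣ)}
    (hl : ∀ P ∈ Ps, a * (P (Sum.inl 0) : ℂ) + b * (P (Sum.inl 1) : ℂ) = c) (hPV : Ps ⊆ V)
    (hPa : ∀ P ∈ Ps, ∀ i, IsAlgebraic ℚ (P i : ℂ)) (hy : ∀ P ∈ Ps, ∀ i, P (Sum.inr i) = y0 i)
    (hrk : ∀ P ∈ Ps, 3 ≤ rk ({P} : Set (Fin 2 ⊕ Fin m → ℂˣ))) (hinf : Ps.Infinite) :
    ∃ Y, Irr Y ∧ Y ⊆ V ∧ 1 ≤ td ℂ Y ∧ 3 ≤ cd Y ∧ ∃ P ∈ Ps, P ∈ Y :=
  Z6.exists_Y_fibre (Nat.pos_of_ne_zero (NeZero.ne m)) (g7_pl_ne a) (g7_pl_ne b) (g7_pl_ne c)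
    (d := fun i => - (y0 i : ℂ)) (c := fun _ => (1 : ℂ)) (fun t _ => g7_cop habc t) (fun _ => one_ne_zero) hV
    (fun P hP => g7_mem (hl P hP) (hy P hP)) hPV hPa hy hrk hinf

/-- Row Z7-G7b. Two irreducible closed sets of `td ≥ 1` in the fibre are equal (both are the fibre): `Z6.eq_Fb` with the same polynomials. -/
theorem fibre_unique {a b c : ℂ} (habc : ¬ (a = 0 ∧ b = 0 ∧ c = 0)) {y0 : Fin m → ℂˣ}
    {X X' : Set (Fin 2 ⊕ Fin m → ℂˣ)} (hX : Irr X) (hX' : Irr X') (htd : 1 ≤ td ℂ X) (htd' : 1 ≤ td ℂ X')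
    (hl : ∀ P ∈ X, a * (P (Sum.inl 0) : ℂ) + b * (P (Sum.inl 1) : ℂ) = c) (hy : ∀ P ∈ X, ∀ i, P (Sum.inr i) = y0 i)
    (hl' : ∀ P ∈ X', a * (P (Sum.inl 0) : ℂ) + b * (P (Sum.inl 1) : ℂ) = c)
    (hy' : ∀ P ∈ X', ∀ i, P (Sum.inr i) = y0 i) : X = X' := by
  have hm0 : 0 < m := Nat.pos_of_ne_zero (NeZero.ne m)
  have h1 := Z6.eq_Fb (A := g7_pl a) (B := g7_pl b) (C := g7_pl c) (d := fun i => - (y0 i : ℂ))
    (c := fun _ => (1 : ℂ)) hm0 (fun t _ => g7_cop habc t) (fun _ => one_ne_zero) hX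
    (fun P hP => g7_mem (hl P hP) (hy P hP)) htd hy
  have h2 := Z6.eq_Fb (A := g7_pl a) (B := g7_pl b) (C := g7_pl c) (d := fun i => - (y0 i : ℂ))
    (c := fun _ => (1 : ℂ)) hm0 (fun t _ => g7_cop habc t) (fun _ => one_ne_zero) hX'
    (fun P hP => g7_mem (hl' P hP) (hy' P hP)) htd' hy'
  rw [h1, h2]

omit [NeZero m] in
theorem g7_coeff (A B D : MvPolynomial (Fin m) ℂ) (α : Fin 2 →₀ ℕ) :
    MvPolynomial.coeff α (Lin A B D) = (if Finsupp.single 0 1 = α then A else 0) +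
      (if Finsupp.single 1 1 = α then B else 0) - (if 0 = α then D else 0) := by
  unfold Lin
  rw [MvPolynomial.coeff_sub, MvPolynomial.coeff_add, MvPolynomial.coeff_C_mul, MvPolynomial.coeff_C_mul,
    MvPolynomial.coeff_X, MvPolynomial.coeff_X, MvPolynomial.coeff_C, mul_ite, mul_one, mul_zero, mul_ite, mul_one,
    mul_zero]

omit [NeZero m] in
theorem g7_alg {A B D : MvPolynomial (Fin m) ℂ} (hAa : ∀ β, IsAlgebraic ℚ (MvPolynomial.coeff β A))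
    (hBa : ∀ β, IsAlgebraic ℚ (MvPolynomial.coeff β B)) (hDa : ∀ β, IsAlgebraic ℚ (MvPolynomial.coeff β D)) :
    AlgC (Lin A B D) := by
  intro α β
  have hi : ∀ (P : MvPolynomial (Fin m) ℂ) (q : Prop) [Decidable q], (∀ β, IsAlgebraic ℚ (MvPolynomial.coeff β P)) →
      IsAlgebraic ℚ (MvPolynomial.coeff β (if q then P else 0)) := by
    intro P q _ hP
    split_ifs
    · exact hP β
    · rw [MvPolynomial.coeff_zero]
      exact isAlgebraic_zero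
  rw [g7_coeff, MvPolynomial.coeff_sub, MvPolynomial.coeff_add]
  exact ((hi A _ hAa).add (hi B _ hBa)).sub (hi D _ hDa)

theorem g7_mem_VS {A B D : MvPolynomial (Fin m) ℂ} {x : Fin 2 ⊕ Fin m → ℂˣ} :
    x ∈ VS C (Lin A B D) ↔ (fun i => x (Sum.inr i)) ∈ C ∧
      MvPolynomial.eval (co fun i => x (Sum.inr i)) A * (x (Sum.inl 0) : ℂ) +
        MvPolynomial.eval (co fun i => x (Sum.inr i)) B * (x (Sum.inl 1) : ℂ) =
          MvPolynomial.eval (co fun i => x (Sum.inr i)) D := by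
  unfold VS
  rw [Set.mem_ofPred_eq, evP_Lin, sub_eq_zero]
  rfl

theorem g7_dom (h : HC C) {A B D : MvPolynomial (Fin m) ℂ}
    (hA : ∃ y ∈ C, MvPolynomial.eval (co y) A ≠ 0) (hB : ∃ y ∈ C, MvPolynomial.eval (co y) B ≠ 0)
    (hD : ∃ y ∈ C, MvPolynomial.eval (co y) D ≠ 0) :
    {y : Fin m → ℂˣ | ∃ x ∈ VS C (Lin A B D), (fun i => x (Sum.inr i)) = y}.Infinite := by
  have hfin := ((h.fin_poly hA).union (h.fin_poly hB)).union (h.fin_poly hD)
  refine (h.infinite.sdiff hfin).mono ?_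
  rintro y ⟨hyC, hy⟩
  simp only [Set.mem_union, Set.mem_ofPred_eq, not_or, not_and] at hy
  have hA0 := hy.1.1 hyC
  have hB0 := hy.1.2 hyC
  have hD0 := hy.2 hyC
  obtain ⟨s, hs0, hs2⟩ : ∃ s : ℂ, s ≠ 0 ∧ MvPolynomial.eval (co y) D - MvPolynomial.eval (co y) A * s ≠ 0 := by
    have hinf : ({0, (MvPolynomial.eval (co y) A)⁻¹ * MvPolynomial.eval (co y) D} : Set ℂ)ᶜ.Infinite :=
      Set.Finite.infinite_compl (Set.toFinite _)
    obtain ⟨s, hs⟩ := hinf.nonempty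
    simp only [Set.mem_compl_iff, Set.mem_insert_iff, Set.mem_singleton_iff, not_or] at hs
    refine ⟨s, hs.1, fun h => hs.2 ?_⟩
    field_simp
    linear_combination -h
  refine ⟨Sum.elim ![Units.mk0 s hs0, Units.mk0 ((MvPolynomial.eval (co y) B)⁻¹ *
    (MvPolynomial.eval (co y) D - MvPolynomial.eval (co y) A * s)) (mul_ne_zero (inv_ne_zero hB0) hs2)] y, ?_, rfl⟩
  rw [g7_mem_VS]
  refine ⟨hyC, ?_⟩
  show MvPolynomial.eval (co y) A * s + MvPolynomial.eval (co y) B * ((MvPolynomial.eval (co y) B)⁻¹ *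
    (MvPolynomial.eval (co y) D - MvPolynomial.eval (co y) A * s)) = MvPolynomial.eval (co y) D
  field_simp
  ring

/-- Row Z7-G7c. Full finiteness for lines. `zp_mod` with `Φ = Lin A B D` (`nr_Lin`; `hdom`: over every `y ∈ C` with `A, B, D ≠ 0` there are points `(x, y)` of the surface, e.g. `x_0` with `x_0 ≠ 0`, `A x_0 ≠ D`). For each of the finitely many `y0 ∈ F`: the maximal atypical `X` over `y0` with `1 ≤ td X` are at most one (`fibre_unique`, `hcop`); those with `td X = 0` are points `{P}`, `P` algebraic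
(`cl_VS`, `MaxE.closed`), `3 ≤ rk {P}`; if infinitely many, `fibre_Y` gives `Y ⊆ V` with `1 ≤ td Y`, `3 ≤ cd Y` containing one of them, contradicting its maximality. -/
theorem zp_lines (h : HC C) (hm : 2 ≤ m) {A B D : MvPolynomial (Fin m) ℂ}
    (hA : ∃ y ∈ C, MvPolynomial.eval (co y) A ≠ 0) (hB : ∃ y ∈ C, MvPolynomial.eval (co y) B ≠ 0)
    (hD : ∃ y ∈ C, MvPolynomial.eval (co y) D ≠ 0)
    (hcop : ∀ y ∈ C, ¬ (MvPolynomial.eval (co y) A = 0 ∧ MvPolynomial.eval (co y) B = 0 ∧ MvPolynomial.eval (co y) D = 0))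
    (hAa : ∀ β, IsAlgebraic ℚ (MvPolynomial.coeff β A)) (hBa : ∀ β, IsAlgebraic ℚ (MvPolynomial.coeff β B))
    (hDa : ∀ β, IsAlgebraic ℚ (MvPolynomial.coeff β D)) :
    dm (VS C (Lin A B D)) = (2 : WithBot ℕ∞) ∧ {X | Maximal (Atypical (VS C (Lin A B D))) X}.Finite := by
  classical
  have hNR := nr_Lin h hA hB hD
  have hΦa := g7_alg hAa hBa hDa
  have hdom := g7_dom h hA hB hD
  have hdm := dm_VS h hNR hdom
  refine ⟨hdm, ?_⟩
  have hcard : Fintype.card (Fin 2 ⊕ Fin m) = m + 2 := by simp [add_comm]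
  have hV : ZClosed (VS C (Lin A B D)) := zclosed_VS h.irr.closed
  have hcl : cl (acl (∅ : Set ℂ)) (VS C (Lin A B D)) = VS C (Lin A B D) := cl_VS h hΦa
  have hac : IsAlgClosed (acl (∅ : Set ℂ)) := isAlgClosed_acl _
  have hdm' : dm (VS C (Lin A B D)) = ((2 : ℕ) : WithBot ℕ∞) := hdm
  have hcdZ : ∀ Z : Set (Fin 2 ⊕ Fin m → ℂˣ), cd Z = rk Z + td ℂ Z := fun Z => rfl
  obtain ⟨F, hF, hFC, hfin⟩ := zp_mod h hm hNR hΦa hdom
  -- one fibre
  have hone : ∀ y0 ∈ F, {X | Maximal (Atypical (VS C (Lin A B D))) X ∧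
      ∀ x ∈ X, ∀ i, x (Sum.inr i) = y0 i}.Finite := by
    intro y0 hy0
    have habc := hcop y0 (hFC hy0)
    have hline : ∀ x ∈ VS C (Lin A B D), (∀ i, x (Sum.inr i) = y0 i) →
        MvPolynomial.eval (co y0) A * (x (Sum.inl 0) : ℂ) + MvPolynomial.eval (co y0) B * (x (Sum.inl 1) : ℂ) =
          MvPolynomial.eval (co y0) D := by
      intro x hx hy
      have h1 := (g7_mem_VS.1 hx).2
      have h2 : (fun i => x (Sum.inr i)) = y0 := funext hy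
      rw [h2] at h1
      exact h1
    obtain ⟨Ps, hPs⟩ : ∃ Ps : Set (Fin 2 ⊕ Fin m → ℂˣ), Ps = {P | Maximal (Atypical (VS C (Lin A B D))) {P} ∧
      ∀ i, P (Sum.inr i) = y0 i} := ⟨_, rfl⟩
    have hPmem : ∀ P ∈ Ps, Maximal (Atypical (VS C (Lin A B D))) {P} ∧ ∀ i, P (Sum.inr i) = y0 i := fun P hP => by
      rw [hPs] at hP
      exact hP
    have hPfin : Ps.Finite := by
      by_contra hinf
      have hE : ∀ P ∈ Ps, ({P} : Set (Fin 2 ⊕ Fin m → ℂˣ)) ⊆ VS C (Lin A B D) ∧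
          (∀ i, IsAlgebraic ℚ (P i : ℂ)) ∧ 3 ≤ rk ({P} : Set (Fin 2 ⊕ Fin m → ℂˣ)) := by
        intro P hP
        have hX' := (hPmem P hP).1
        rw [maximal_atypical_iff hV hdm' (by omega) {P}] at hX'
        have hXi := MaxE.irr hX'
        have hlt := MaxE.lt hX'
        have hcd1 := hcdZ {P}
        rw [td_singleton'] at hcd1
        obtain ⟨w, hwX, hwa⟩ := Z6.g5_algpt hXi (MaxE.closed hX' hcl)
        rw [Set.mem_singleton_iff] at hwX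
        rw [hwX] at hwa
        exact ⟨MaxE.subset hX', hwa, by omega⟩
      obtain ⟨Y, hY, hYV, htd, hcd, P, hP, hPY⟩ := fibre_Y habc hV (Ps := Ps) (y0 := y0)
        (fun P hP => hline P ((hE P hP).1 rfl) (hPmem P hP).2) (fun P hP => (hE P hP).1 rfl)
        (fun P hP => (hE P hP).2.1) (fun P hP => (hPmem P hP).2) (fun P hP => (hE P hP).2.2) hinf
      have hX' := (hPmem P hP).1
      rw [maximal_atypical_iff hV hdm' (by omega) {P}] at hX'
      have h4 : {P} = Y := MaxE.eq hX' hY hYV (by omega) (Set.singleton_subset_iff.2 hPY)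
      rw [← h4, td_singleton'] at htd
      omega
    have hsub : {X | (Maximal (Atypical (VS C (Lin A B D))) X ∧ ∀ x ∈ X, ∀ i, x (Sum.inr i) = y0 i) ∧
        1 ≤ td ℂ X}.Subsingleton := by
      rintro X ⟨⟨hX, hXy⟩, htd⟩ X' ⟨⟨hX', hXy'⟩, htd'⟩
      rw [maximal_atypical_iff hV hdm' (by omega) X] at hX
      rw [maximal_atypical_iff hV hdm' (by omega) X'] at hX'
      exact fibre_unique habc (MaxE.irr hX) (MaxE.irr hX') htd htd' (fun P hP => hline P (MaxE.subset hX hP) (hXy P hP))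
        hXy (fun P hP => hline P (MaxE.subset hX' hP) (hXy' P hP)) hXy'
    refine (hsub.finite.union (hPfin.image fun P => ({P} : Set (Fin 2 ⊕ Fin m → ℂˣ)))).subset ?_
    rintro X ⟨hX, hXy⟩
    by_cases htd : 1 ≤ td ℂ X
    · left
      exact ⟨⟨hX, hXy⟩, htd⟩
    · right
      have hX' := hX
      rw [maximal_atypical_iff hV hdm' (by omega) X] at hX'
      have hXi := MaxE.irr hX'
      obtain ⟨w, hwX⟩ := hXi.nonempty
      have h3 : ({w} : Set (Fin 2 ⊕ Fin m → ℂˣ)) = X := eq_of_td_le (irr_singleton w) hXi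
        (Set.singleton_subset_iff.2 hwX) (by omega)
      refine ⟨w, ?_, h3⟩
      rw [hPs]
      refine ⟨?_, hXy w hwX⟩
      rw [h3]
      exact hX
  refine (hfin.union (hF.biUnion hone)).subset ?_
  intro X hX
  by_cases hy : ∃ y0 ∈ F, ∀ x ∈ X, ∀ i, x (Sum.inr i) = y0 i
  · right
    obtain ⟨y0, hy0, hy⟩ := hy
    simp only [Set.mem_iUnion]
    exact ⟨y0, hy0, hX, hy⟩
  · left
    exact ⟨hX, hy⟩

end Pool.Agent.Z7
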