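import Pool.Agent.Z7.B3
import Pool.Agent.Z7.W1

namespace Pool.Agent.Z7

open Pool.Agent.ZL2 Filter Topology
open Pool.Agent.Z5 (fr Gen ev2 Alg)
open Pool.Agent.Z6 (dt)

variable {m : ℕ} [NeZero m]

/-- Row Z7-H1a. Strengthening of `log_indep` (row S3), same proof: write `v i = ∑_k θ_k n_k i` with a `ℚ`-basis `θ` of the `ℚ`-span of the `v i` (up to a common denominator) and integers `n_k i`; `∑_k θ_k S_k'/S_k = 0` for `S_k = ∏_i R_i^(n_k i)`, so all `S_k` are constant (`no_log`, row S1 of Z6, as in the proof of `log_indep`). -/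
theorem log_span {t0 : ℂ} {ρ : ℝ} (hρ : 0 < ρ) {r : ℕ} (R : Fin r → ℂ → ℂ) (hR : ∀ i, Alg t0 ρ (R i))
    (hR0 : ∀ i, ∀ t ∈ Metric.ball t0 ρ, R i t ≠ 0) (v : Fin r → ℂ)
    (hd : ∀ t ∈ Metric.ball t0 ρ, ∑ i, v i * (deriv (R i) t / R i t) = 0) :
    ∃ (q : ℕ) (θ : Fin q → ℂ) (n : Fin q → Fin r → ℤ), (∀ i, v i = ∑ k, θ k * n k i) ∧
      ∀ k, ∃ z : ℂ, ∀ t ∈ Metric.ball t0 ρ, ∏ i, R i t ^ n k i = z := by
  obtain ⟨q, b, n, -, hv, hz⟩ := s3_holo hρ R hR hR0 v hd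
  exact ⟨q, b, fun k i => n i k, fun i => (hv i).trans (Finset.sum_congr rfl fun k _ => mul_comm _ _), hz⟩

/-- Row Z7-H1b. Let `R_i` be as in `log_span` and suppose that the equation `∑ v_i R_i'/R_i = 0` holds for two real vectors `u, v` which are linearly independent over `ℝ`. Then two linearly independent integer vectors `n, n'` exist with `∏ R_i^(n_i)`, `∏ R_i^(n'_i)` constant: the subgroup of all such integer vectors has `u, v` in its complex span (`log_span`), so its rank is at least two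
(real vectors independent over `ℝ` are independent over `ℂ`). -/
theorem two_int {t0 : ℂ} {ρ : ℝ} (hρ : 0 < ρ) {r : ℕ} (R : Fin r → ℂ → ℂ) (hR : ∀ i, Alg t0 ρ (R i))
    (hR0 : ∀ i, ∀ t ∈ Metric.ball t0 ρ, R i t ≠ 0) (u v : Fin r → ℝ) (huv : LinearIndependent ℝ ![u, v])
    (hu : ∀ t ∈ Metric.ball t0 ρ, ∑ i, (u i : ℂ) * (deriv (R i) t / R i t) = 0)
    (hv : ∀ t ∈ Metric.ball t0 ρ, ∑ i, (v i : ℂ) * (deriv (R i) t / R i t) = 0) :
    ∃ n n' : Fin r → ℤ, LinearIndependent ℤ ![n, n'] ∧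
      (∃ z : ℂ, ∀ t ∈ Metric.ball t0 ρ, ∏ i, R i t ^ n i = z) ∧
      ∃ z : ℂ, ∀ t ∈ Metric.ball t0 ρ, ∏ i, R i t ^ n' i = z := by
  obtain ⟨q, θ, n, hn, hz⟩ := log_span hρ R hR hR0 (fun i => (u i : ℂ)) hu
  obtain ⟨q', θ', n', hn', hz'⟩ := log_span hρ R hR hR0 (fun i => (v i : ℂ)) hv
  by_contra hcon
  have hdep : ∀ a b : Fin r → ℤ, (∃ z : ℂ, ∀ t ∈ Metric.ball t0 ρ, ∏ i, R i t ^ a i = z) →
      (∃ z : ℂ, ∀ t ∈ Metric.ball t0 ρ, ∏ i, R i t ^ b i = z) → ¬ LinearIndependent ℤ ![a, b] := fun a b ha hb h =>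
    hcon ⟨a, b, h, ha, hb⟩
  have hpair := LinearIndependent.pair_iff.1 huv
  have hu0 : u ≠ 0 := by
    rintro rfl
    exact one_ne_zero (hpair 1 0 (by simp)).1
  obtain ⟨k0, hk0⟩ : ∃ k, n k ≠ 0 := by
    by_contra H
    push Not at H
    apply hu0
    funext i
    have h1 := hn i
    have h2 : ∑ k, θ k * (n k i : ℂ) = 0 := Finset.sum_eq_zero fun k _ => by rw [H k]; simp
    rw [h2] at h1
    exact Complex.ofReal_eq_zero.1 h1
  obtain ⟨n0, hn0⟩ : ∃ n0, n0 = n k0 := ⟨_, rfl⟩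
  rw [← hn0] at hk0
  have hG0 : ∃ z : ℂ, ∀ t ∈ Metric.ball t0 ρ, ∏ i, R i t ^ n0 i = z := by rw [hn0]; exact hz k0
  have key : ∀ w : Fin r → ℤ, (∃ z : ℂ, ∀ t ∈ Metric.ball t0 ρ, ∏ i, R i t ^ w i = z) →
      ∃ c : ℂ, ∀ i, (w i : ℂ) = c * n0 i := by
    intro w hw
    have h1 := hdep n0 w hG0 hw
    rw [LinearIndependent.pair_iff] at h1
    push Not at h1
    obtain ⟨s, t, h2, h3⟩ := h1
    have ht : t ≠ 0 := by
      intro h
      subst h
      rw [zero_smul, add_zero, smul_eq_zero] at h2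
      rcases h2 with h2 | h2
      · exact h3 h2 rfl
      · exact hk0 h2
    refine ⟨-(s : ℂ) / t, fun i => ?_⟩
    have h4 := congrFun h2 i
    simp only [Pi.add_apply, Pi.smul_apply, smul_eq_mul, Pi.zero_apply] at h4
    have h5 := congrArg (Int.cast : ℤ → ℂ) h4
    push_cast at h5
    have ht' : (t : ℂ) ≠ 0 := Int.cast_ne_zero.2 ht
    field_simp
    linear_combination h5
  obtain ⟨i0, hi0⟩ : ∃ i, n0 i ≠ 0 := by
    by_contra H
    push Not at H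
    exact hk0 (funext H)
  have real : ∀ (w : Fin r → ℝ) {p : ℕ} (ϑ : Fin p → ℂ) (a : Fin p → Fin r → ℤ), (∀ i, (w i : ℂ) = ∑ k, ϑ k * a k i) →
      (∀ k, ∃ z : ℂ, ∀ t ∈ Metric.ball t0 ρ, ∏ i, R i t ^ a k i = z) → ∃ c : ℝ, ∀ i, w i = c * n0 i := by
    intro w p ϑ a hw ha
    choose c hc using fun k => key (a k) (ha k)
    have h1 : ∀ i, (w i : ℂ) = (∑ k, ϑ k * c k) * n0 i := by
      intro i
      rw [hw i, Finset.sum_mul]
      exact Finset.sum_congr rfl fun k _ => by rw [hc k i]; ring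
    have hi0' : (n0 i0 : ℂ) ≠ 0 := Int.cast_ne_zero.2 hi0
    have h2 : ∑ k, ϑ k * c k = ((w i0 / n0 i0 : ℝ) : ℂ) := by
      push_cast
      rw [h1 i0]
      field_simp
    refine ⟨w i0 / n0 i0, fun i => ?_⟩
    have h3 := h1 i
    rw [h2] at h3
    exact_mod_cast h3
  obtain ⟨c, hc⟩ := real u θ n hn hz
  obtain ⟨c', hc'⟩ := real v θ' n' hn' hz'
  have h1 := hpair c' (-c) (by
    funext i
    simp only [Pi.add_apply, Pi.smul_apply, smul_eq_mul, Pi.zero_apply]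
    rw [hc i, hc' i]
    ring)
  apply hu0
  funext i
  rw [hc i, neg_eq_zero.1 h1.2, zero_mul]
  rfl

/-- Row Z7-H1c. Local form of a holomorphic function of order `k` at a point: `f t - f t0 = (ψ t)^k` with `ψ` locally invertible; here stated with the inverse `τ` of `ψ` (`τ 0 = t0`, `τ` injective holomorphic near `0`, `f (τ w) = f t0 + w^k`, every `t` near `t0` is `τ w` for a small `w`). `f` is not locally constant at `t0`. (Order of vanishing, `f t - f t0 = (t - t0)^k g t` with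
`g t0 ≠ 0`, a `k`-th root of `g` near `t0`, inverse function theorem.) -/
theorem root_form {f : ℂ → ℂ} {t0 : ℂ} (hf : AnalyticAt ℂ f t0) (hnc : ¬ ∀ᶠ t in 𝓝 t0, f t = f t0) :
    ∃ (k : ℕ) (ε : ℝ) (τ : ℂ → ℂ), 0 < k ∧ 0 < ε ∧ τ 0 = t0 ∧ DifferentiableOn ℂ τ (Metric.ball 0 ε) ∧
      (∀ w ∈ Metric.ball (0 : ℂ) ε, deriv τ w ≠ 0) ∧ Set.InjOn τ (Metric.ball 0 ε) ∧
      (∀ w ∈ Metric.ball (0 : ℂ) ε, f (τ w) = f t0 + w ^ k) ∧
      ∀ δ : ℝ, 0 < δ → ∀ᶠ t in 𝓝 t0, ∃ w ∈ Metric.ball (0 : ℂ) (min δ ε), τ w = t := by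
  have hfa : AnalyticAt ℂ (fun t => f t - f t0) t0 := hf.sub analyticAt_const
  obtain ⟨k, g, hg, hg0, hfg⟩ := hfa.exists_eventuallyEq_pow_smul_nonzero_iff.2 (by
    intro h
    exact hnc (h.mono fun t ht => sub_eq_zero.1 ht))
  have hk : 0 < k := by
    rcases Nat.eq_zero_or_pos k with h | h
    · exfalso
      have h1 := hfg.self_of_nhds
      rw [h, sub_self, pow_zero, one_smul] at h1
      exact hg0 h1.symm
    · exact h
  have hk' : (k : ℂ) ≠ 0 := Nat.cast_ne_zero.2 hk.ne'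
  obtain ⟨r, hr⟩ : ∃ r : ℂ → ℂ, r = fun t => Complex.exp ((Complex.log (g t / g t0) + Complex.log (g t0)) / k) :=
    ⟨_, rfl⟩
  have hslit : g t0 / g t0 ∈ Complex.slitPlane := by
    rw [div_self hg0]
    exact Complex.one_mem_slitPlane
  have hra : AnalyticAt ℂ r t0 := by
    rw [hr]
    exact ((((hg.div_const).clog hslit).add analyticAt_const).div_const).cexp
  have hrk : ∀ᶠ t in 𝓝 t0, r t ^ k = g t := by
    filter_upwards [hg.continuousAt.eventually_ne hg0] with t ht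
    rw [hr]
    simp only
    rw [← Complex.exp_nat_mul, mul_div_cancel₀ _ hk', Complex.exp_add, Complex.exp_log hg0,
      Complex.exp_log (div_ne_zero ht hg0), div_mul_cancel₀ _ hg0]
  obtain ⟨ψ, hψ⟩ : ∃ ψ : ℂ → ℂ, ψ = fun t => (t - t0) * r t := ⟨_, rfl⟩
  have hψa : AnalyticAt ℂ ψ t0 := by
    rw [hψ]
    exact (analyticAt_id.sub analyticAt_const).mul hra
  have hψ0 : ψ t0 = 0 := by rw [hψ]; simp
  have hr0 : r t0 ≠ 0 := by rw [hr]; exact Complex.exp_ne_zero _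
  have hψd : HasDerivAt ψ (r t0) t0 := by
    rw [hψ]
    have h1 := ((hasDerivAt_id t0).sub_const t0).mul hra.differentiableAt.hasDerivAt
    refine h1.congr_deriv ?_
    simp
  have hfd : HasFDerivAt ψ ((ContinuousLinearEquiv.unitsEquivAut ℂ (Units.mk0 (r t0) hr0) : ℂ ≃L[ℂ] ℂ) :
      ℂ →L[ℂ] ℂ) t0 := hψd.hasFDerivAt_equiv hr0
  have hcd : ContDiffAt ℂ 1 ψ t0 := hψa.contDiffAt
  have h10 : (1 : WithTop ℕ∞) ≠ 0 := one_ne_zero
  obtain ⟨τ, hτ⟩ : ∃ τ : ℂ → ℂ, τ = hcd.localInverse hfd h10 := ⟨_, rfl⟩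
  have hτc : ContDiffAt ℂ 1 τ 0 := by
    have h := hcd.to_localInverse hfd h10
    rwa [← hτ, hψ0] at h
  have hleft : ∀ᶠ t in 𝓝 t0, τ (ψ t) = t := by
    rw [hτ]
    exact (hcd.hasStrictFDerivAt' hfd h10).eventually_left_inverse
  have hright : ∀ᶠ w in 𝓝 (0 : ℂ), ψ (τ w) = w := by
    rw [hτ, ← hψ0]
    exact (hcd.hasStrictFDerivAt' hfd h10).eventually_right_inverse
  have hτ0 : τ 0 = t0 := by
    have h := hleft.self_of_nhds
    rwa [hψ0] at h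
  have hτd : ∀ᶠ w in 𝓝 (0 : ℂ), DifferentiableAt ℂ τ w := by
    filter_upwards [hτc.eventually (by simp)] with w hw
    exact hw.differentiableAt (by simp)
  have hτt : Tendsto τ (𝓝 0) (𝓝 t0) := by
    have h := hτc.continuousAt
    unfold ContinuousAt at h
    rwa [hτ0] at h
  have hψdf : ∀ᶠ t in 𝓝 t0, DifferentiableAt ℂ ψ t := hψa.eventually_analyticAt.mono fun t ht => ht.differentiableAt
  have hfall : ∀ᶠ t in 𝓝 t0, f t = f t0 + ψ t ^ k := by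
    filter_upwards [hfg, hrk] with t h1 h2
    rw [hψ]
    simp only
    rw [mul_pow, h2, ← smul_eq_mul (a := (t - t0) ^ k), ← h1]
    ring
  have hall : ∀ᶠ w in 𝓝 (0 : ℂ), DifferentiableAt ℂ τ w ∧ ψ (τ w) = w ∧ DifferentiableAt ℂ ψ (τ w) ∧
      f (τ w) = f t0 + ψ (τ w) ^ k := by
    filter_upwards [hτd, hright, hτt.eventually hψdf, hτt.eventually hfall] with w h1 h2 h3 h4
    exact ⟨h1, h2, h3, h4⟩
  obtain ⟨ε, hε, hball⟩ := Metric.eventually_nhds_iff_ball.1 hall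
  refine ⟨k, ε, τ, hk, hε, hτ0, fun w hw => (hball w hw).1.differentiableWithinAt, ?_, ?_, ?_, ?_⟩
  · intro w hw h0
    obtain ⟨h1, h2, h3, -⟩ := hball w hw
    have h4 : HasDerivAt (fun w => ψ (τ w)) (deriv ψ (τ w) * deriv τ w) w := h3.hasDerivAt.comp w h1.hasDerivAt
    have h5 : HasDerivAt (fun w : ℂ => w) (deriv ψ (τ w) * deriv τ w) w :=
      h4.congr_of_eventuallyEq (Filter.eventually_of_mem (Metric.isOpen_ball.mem_nhds hw) fun x hx => (hball x hx).2.1.symm)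
    have h6 := h5.unique (hasDerivAt_id' w)
    rw [h0, mul_zero] at h6
    exact zero_ne_one h6
  · intro a ha b hb hab
    rw [← (hball a ha).2.1, ← (hball b hb).2.1, hab]
  · intro w hw
    obtain ⟨-, h2, -, h4⟩ := hball w hw
    rw [h4, h2]
  · intro δ hδ
    have h1 : Tendsto ψ (𝓝 t0) (𝓝 0) := by
      have h := hψa.continuousAt
      unfold ContinuousAt at h
      rwa [hψ0] at h
    filter_upwards [hleft, h1.eventually (Metric.ball_mem_nhds 0 (lt_min hδ hε))] with t h2 h3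
    exact ⟨ψ t, h3, h2⟩

/-- A real part which is constant on real points accumulating at `s1` is constant on the real diameter. -/
theorem h1_real {F : ℂ → ℂ} {ε : ℝ} (hF : DifferentiableOn ℂ F (Metric.ball 0 ε)) {s1 c : ℝ} (hs1 : |s1| < ε)
    (hacc : ∃ᶠ s : ℝ in 𝓝[≠] s1, (F s).re = c) : ∀ s : ℝ, |s| < ε → (F s).re = c := by
  have hmem : ∀ s : ℝ, |s| < ε → (s : ℂ) ∈ Metric.ball (0 : ℂ) ε := by
    intro s hs
    rw [mem_ball_zero_iff, Complex.norm_real]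
    exact hs
  have hval : ∀ s : ℝ, F s + (starRingEnd ℂ) (F ((starRingEnd ℂ) (s : ℂ))) - 2 * c = ((2 * ((F s).re - c) : ℝ) : ℂ) := by
    intro s
    rw [Complex.conj_ofReal, Complex.add_conj]
    push_cast
    ring
  have hH : DifferentiableOn ℂ (fun z => F z + (starRingEnd ℂ) (F ((starRingEnd ℂ) z)) - 2 * c) (Metric.ball 0 ε) := by
    intro z hz
    have hz' : (starRingEnd ℂ) z ∈ Metric.ball (0 : ℂ) ε := by
      rw [mem_ball_zero_iff, Complex.norm_conj]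
      exact mem_ball_zero_iff.1 hz
    have h1 := hF.differentiableAt (Metric.isOpen_ball.mem_nhds hz)
    have h2 := hF.differentiableAt (Metric.isOpen_ball.mem_nhds hz')
    have h3 : DifferentiableAt ℂ (fun z => (starRingEnd ℂ) (F ((starRingEnd ℂ) z))) z := by
      have h4 := h2.conj_conj
      rw [Complex.conj_conj] at h4
      exact h4
    exact ((h1.add h3).sub_const _).differentiableWithinAt
  have h := (hH.analyticOnNhd Metric.isOpen_ball).eqOn_zero_of_preconnected_of_frequently_eq_zero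
    (convex_ball (0 : ℂ) ε).isPreconnected (hmem s1 hs1) (by
      have hmap : Tendsto (fun s : ℝ => (s : ℂ)) (𝓝[≠] s1) (𝓝[≠] (s1 : ℂ)) := by
        refine tendsto_nhdsWithin_iff.2 ⟨(Complex.continuous_ofReal.tendsto s1).mono_left nhdsWithin_le_nhds, ?_⟩
        filter_upwards [self_mem_nhdsWithin] with s hs
        intro e
        exact hs (Complex.ofReal_injective e)
      refine hmap.frequently (hacc.mono fun s hs => ?_)
      rw [hval s, hs, sub_self, mul_zero, Complex.ofReal_zero])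
  intro s hs
  have e := h (hmem s hs)
  simp only [Pi.zero_apply] at e
  rw [hval s, Complex.ofReal_eq_zero] at e
  linarith

section arc

open Pool.Agent.Z5 (w1_an w1_ident2 w1_congr w1_dep w1_zero_deriv w1_kconj schwarz reflect)
open Pool.Agent.Z6 (w6_sum w6_L)

/-- The regular points: two relations on an arc give two integer relations with constants. -/
theorem h1_arc {D : Cv m} {y0 : Fin m → ℂ} {ρ0 : ℝ} {η ℓ : Fin m → ℂ → ℂ} (hch : Chart D y0 ρ0 η ℓ)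
    (hacc0 : ∀ O ∈ 𝓝 y0, ∃ y ∈ O, y ∈ D.C ∧ y 0 ≠ y0 0) {u v : Fin m → ℝ} (huv : LinearIndependent ℝ ![u, v])
    {t1 : ℂ} (ht1 : t1 ∈ Metric.ball (y0 0) ρ0) (hcr : ∑ i, (u i : ℂ) * (deriv (η i) t1 / η i t1) ≠ 0)
    (h0 : (∑ i, (u i : ℂ) * ℓ i t1).re = 0)
    (hacc : ∀ O ∈ 𝓝 t1, ∃ t ∈ O, t ≠ t1 ∧ (∑ i, (u i : ℂ) * ℓ i t).re = 0 ∧ (∑ i, (v i : ℂ) * ℓ i t).re = 0) :
    ∃ (n n' : Fin m → ℤ) (ρ c c' : ℝ), LinearIndependent ℤ ![n, n'] ∧ 0 < ρ ∧
      ∀ t ∈ Metric.ball t1 ρ, (∑ i, (u i : ℂ) * ℓ i t).re = 0 →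
        ∑ i, (n i : ℝ) * (ℓ i t).re = c ∧ ∑ i, (n' i : ℝ) * (ℓ i t).re = c' := by
  obtain ⟨ρ1, hρ1, hsub1⟩ := Metric.isOpen_iff.1 Metric.isOpen_ball t1 ht1
  obtain ⟨f', hf'd⟩ : ∃ f' : ℂ → ℂ, f' = fun t => ∑ i, (u i : ℂ) * (deriv (η i) t / η i t) := ⟨_, rfl⟩
  obtain ⟨g', hg'd⟩ : ∃ g' : ℂ → ℂ, g' = fun t => ∑ i, (v i : ℂ) * (deriv (η i) t / η i t) := ⟨_, rfl⟩
  obtain ⟨f, hfd⟩ : ∃ f : ℂ → ℂ, f = fun t => ∑ i, (u i : ℂ) * ℓ i t := ⟨_, rfl⟩
  obtain ⟨g, hgd⟩ : ∃ g : ℂ → ℂ, g = fun t => ∑ i, (v i : ℂ) * ℓ i t := ⟨_, rfl⟩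
  have hf'c : ContinuousAt f' t1 := by
    rw [hf'd]
    exact ((b3_der_diff hch u).differentiableAt (Metric.isOpen_ball.mem_nhds ht1)).continuousAt
  obtain ⟨r4, hr4, hb4⟩ := Metric.mem_nhds_iff.1 (hf'c.eventually_ne (by rw [hf'd]; exact hcr))
  obtain ⟨ρ2, hρ2, hρ21, hρ24⟩ : ∃ ρ2, 0 < ρ2 ∧ ρ2 ≤ ρ1 ∧ ρ2 ≤ r4 :=
    ⟨min ρ1 r4, lt_min hρ1 hr4, min_le_left _ _, min_le_right _ _⟩
  have s2 : Metric.ball t1 ρ2 ⊆ Metric.ball (y0 0) ρ0 := (Metric.ball_subset_ball hρ21).trans hsub1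
  have hf'ne : ∀ t ∈ Metric.ball t1 ρ2, f' t ≠ 0 := fun t ht => hb4 (Metric.ball_subset_ball hρ24 ht)
  have hf : ∀ t ∈ Metric.ball t1 ρ2, HasDerivAt f (f' t) t := by
    intro t ht
    rw [hfd, hf'd]
    exact HasDerivAt.fun_sum fun i _ => (hch.der i t (s2 ht)).const_mul _
  have hg : ∀ t ∈ Metric.ball t1 ρ2, HasDerivAt g (g' t) t := by
    intro t ht
    rw [hgd, hg'd]
    exact HasDerivAt.fun_sum fun i _ => (hch.der i t (s2 ht)).const_mul _
  have hf00 : (f t1).re = 0 := by rw [hfd]; exact h0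
  have hf't0 : deriv f t1 ≠ 0 := by
    rw [(hf t1 (Metric.mem_ball_self hρ2)).deriv]
    exact hf'ne t1 (Metric.mem_ball_self hρ2)
  obtain ⟨ρ3, hρ3, χ, hχd, hχc⟩ := schwarz (f := f) (t0 := t1) (Filter.eventually_of_mem
    (Metric.ball_mem_nhds t1 hρ2) fun t ht => (hf t ht).differentiableAt) hf't0 hf00
  obtain ⟨ρ4, hρ4, hρ42, hρ43⟩ : ∃ ρ4, 0 < ρ4 ∧ ρ4 ≤ ρ2 ∧ ρ4 ≤ ρ3 :=
    ⟨min ρ2 ρ3, lt_min hρ2 hρ3, min_le_left _ _, min_le_right _ _⟩
  have s42 := Metric.ball_subset_ball (x := t1) hρ42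
  have s43 := Metric.ball_subset_ball (x := t1) hρ43
  obtain ⟨r5, hr5, hr54, hR0⟩ := reflect (f := f) (g := g) hρ4
    (fun t ht => (hg t (s42 ht)).differentiableAt.differentiableWithinAt)
    (hχd.mono s43) (fun t ht => hχc t (s43 ht)) hf00 (fun O hO => by
      obtain ⟨t, q1, q2, q3, q4⟩ := hacc O hO
      exact ⟨t, q1, q2, by rw [hfd]; exact q3, by rw [hgd]; exact q4⟩)
  obtain ⟨r7, hr7, hr74, hR2⟩ := reflect (f := f) (g := f) hρ4
    (fun t ht => (hf t (s42 ht)).differentiableAt.differentiableWithinAt)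
    (hχd.mono s43) (fun t ht => hχc t (s43 ht)) hf00 (fun O hO => by
      obtain ⟨t, q1, q2, q3, q4⟩ := hacc O hO
      exact ⟨t, q1, q2, by rw [hfd]; exact q3, by rw [hfd]; exact q3⟩)
  obtain ⟨ρ, hρ, hρr5, hρr7⟩ : ∃ ρ, 0 < ρ ∧ ρ ≤ r5 ∧ ρ ≤ r7 :=
    ⟨min r5 r7, lt_min hr5 hr7, min_le_left _ _, min_le_right _ _⟩
  have b5 := Metric.ball_subset_ball (x := t1) hρr5
  have b7 := Metric.ball_subset_ball (x := t1) hρr7
  have hρρ4 : ρ ≤ ρ4 := hρr5.trans hr54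
  have s4 := Metric.ball_subset_ball (x := t1) hρρ4
  have m1 : t1 ∈ Metric.ball t1 ρ := Metric.mem_ball_self hρ
  have hτ : ∀ t ∈ Metric.ball t1 ρ, (starRingEnd ℂ) (χ t) ∈ Metric.ball t1 ρ4 := fun t ht => (hR0 t (b5 ht)).1
  have hRf : ∀ t ∈ Metric.ball t1 ρ, f t + (starRingEnd ℂ) (f ((starRingEnd ℂ) (χ t))) = 0 :=
    fun t ht => (hR2 t (b7 ht)).2
  have hRg : ∀ t ∈ Metric.ball t1 ρ, g t + (starRingEnd ℂ) (g ((starRingEnd ℂ) (χ t))) = 0 :=
    fun t ht => (hR0 t (b5 ht)).2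
  have hfix : ∀ t ∈ Metric.ball t1 ρ, (f t).re = 0 → (starRingEnd ℂ) (χ t) = t := by
    intro t ht h
    rw [hχc t (s43 (s4 ht)) h, Complex.conj_conj]
  obtain ⟨k, hkd⟩ : ∃ k : ℂ → ℂ, k = fun t => g' t / f' t := ⟨_, rfl⟩
  have hkc : ∀ t ∈ Metric.ball t1 ρ, k t = (starRingEnd ℂ) (k ((starRingEnd ℂ) (χ t))) := by
    intro t ht
    rw [hkd]
    exact w1_kconj (fun t ht => hf t (s42 ht)) (fun t ht => hg t (s42 ht)) (fun t ht => hf'ne t (s42 ht)) hρρ4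
      (hχd.mono s43) hτ hRf hRg t ht
  -- algebraic functions
  have hηA : ∀ i, Alg t1 ρ4 (η i) := fun i => ⟨(hch.diff i).mono (s42.trans s2), D.q i, D.hq0 i,
    fun t ht => hch.eq i t (s2 (s42 ht))⟩
  have hη0 : ∀ i, ∀ t ∈ Metric.ball t1 ρ4, η i t ≠ 0 := fun i t ht => hch.ne i t (s2 (s42 ht))
  have hldA : ∀ i, Alg t1 ρ4 (fun t => deriv (η i) t / η i t) := fun i =>
    w1_congr (Z5.Alg.mul hρ4 (Z5.Alg.deriv hρ4 (hηA i)) (Z5.Alg.inv hρ4 (hηA i) (hη0 i))) fun t _ => div_eq_mul_inv _ _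
  have hsumA : ∀ v : Fin m → ℝ, Alg t1 ρ4 (fun t => ∑ i, (v i : ℂ) * (deriv (η i) t / η i t)) := fun v =>
    w6_sum hρ4 (v := fun i => (v i : ℂ)) hldA
  have hkA : Alg t1 ρ4 k := by
    refine w1_congr (Z5.Alg.mul hρ4 (hsumA v) (Z5.Alg.inv hρ4 (hsumA u) fun t ht => by
        have h := hf'ne t (s42 ht)
        rw [hf'd] at h
        exact h)) fun t _ => ?_
    rw [hkd, hg'd, hf'd]
    exact div_eq_mul_inv _ _
  have hkρ : Alg t1 ρ k := hkA.mono s4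
  -- `k` is not constant
  have hpair := LinearIndependent.pair_iff.1 huv
  have hnc : ¬ ∀ t ∈ Metric.ball t1 ρ, k t = k t1 := by
    intro h
    have hreal : ((k t1).re : ℂ) = k t1 := by
      have e1 := hkc t1 m1
      rw [hfix t1 m1 hf00] at e1
      exact Complex.conj_eq_iff_re.1 e1.symm
    obtain ⟨c, hc⟩ : ∃ c : ℝ, c = (k t1).re := ⟨_, rfl⟩
    rw [← hc] at hreal
    refine hch.not_const hacc0 (u := v - c • u) ?_ ?_
    · intro e
      have h1 := hpair (-c) 1 (by rw [one_smul, neg_smul, neg_add_eq_sub]; exact e)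
      exact one_ne_zero h1.2
    · refine w1_ident2 (b3_der_diff hch (v - c • u)) hρ ht1 fun t ht => ?_
      have e1 := h t ht
      rw [← hreal, hkd] at e1
      simp only at e1
      rw [div_eq_iff (hf'ne t (s42 (s4 ht))), hg'd, hf'd] at e1
      simp only at e1
      have e2 : ∑ i, ((v - c • u) i : ℂ) * (deriv (η i) t / η i t) =
          ∑ i, (v i : ℂ) * (deriv (η i) t / η i t) - (c : ℂ) * ∑ i, (u i : ℂ) * (deriv (η i) t / η i t) := by
        rw [Finset.mul_sum, ← Finset.sum_sub_distrib]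
        refine Finset.sum_congr rfl fun i _ => ?_
        simp only [Pi.sub_apply, Pi.smul_apply, smul_eq_mul]
        push_cast
        ring
      rw [e2, e1, sub_self]
  have hχρ : DifferentiableOn ℂ χ (Metric.ball t1 ρ) := hχd.mono (s4.trans s43)
  have hχA : Alg t1 ρ χ := Z5.Alg.exchange hρ hkρ hχρ (w1_dep hkA hτ hkc) hnc
  have hχnc : ¬ ∀ t ∈ Metric.ball t1 ρ, χ t = χ t1 := by
    intro h
    apply hnc
    intro t ht
    rw [hkc t ht, h t ht, ← hkc t1 m1]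
  have hSA : ∀ i, Alg t1 ρ (w7_S η χ i) := fun i =>
    w7_trans hρ hχA (fun t ht => (w7_S_deriv (fun i => (hηA i).1) hχρ hτ i t ht).differentiableAt.differentiableWithinAt)
      (w7_dep (hηA i) hτ) hχnc
  have hRA : ∀ i, Alg t1 ρ (fun t => η i t * w7_S η χ i t) := fun i =>
    Z5.Alg.mul hρ ((hηA i).mono s4) (hSA i)
  have hRne : ∀ i, ∀ t ∈ Metric.ball t1 ρ, η i t * w7_S η χ i t ≠ 0 := fun i t ht =>
    mul_ne_zero (hη0 i t (s4 ht)) ((_root_.map_ne_zero _).2 (hη0 i _ (hτ t ht)))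
  have hLd := w7_L_deriv hρρ4 (fun i => (hηA i).1) hη0 (fun i t ht => hch.der i t (s2 (s42 ht))) hχρ hτ
  have hrel : ∀ w : Fin m → ℝ, (∀ t ∈ Metric.ball t1 ρ, (∑ i, (w i : ℂ) * ℓ i t) +
      (starRingEnd ℂ) (∑ i, (w i : ℂ) * ℓ i ((starRingEnd ℂ) (χ t))) = 0) →
      ∀ t ∈ Metric.ball t1 ρ, ∑ i, (w i : ℂ) * (deriv (fun t => η i t * w7_S η χ i t) t / (η i t * w7_S η χ i t)) = 0 := by
    intro w hw t ht
    have hD : HasDerivAt (fun t => ∑ i, (w i : ℂ) * w6_L ℓ χ i t)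
        (∑ i, (w i : ℂ) * (deriv (fun t => η i t * w7_S η χ i t) t / (η i t * w7_S η χ i t) / 2)) t :=
      HasDerivAt.fun_sum fun i _ => (hLd i t ht).const_mul _
    have hz : ∀ t ∈ Metric.ball t1 ρ, ∑ i, (w i : ℂ) * w6_L ℓ χ i t = 0 := by
      intro t ht
      have e1 := hw t ht
      rw [map_sum, ← Finset.sum_add_distrib] at e1
      have e2 : ∑ i, (w i : ℂ) * w6_L ℓ χ i t = (∑ i, ((w i : ℂ) * ℓ i t +
          (starRingEnd ℂ) ((w i : ℂ) * ℓ i ((starRingEnd ℂ) (χ t))))) / 2 := by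
        rw [Finset.sum_div]
        refine Finset.sum_congr rfl fun i _ => ?_
        unfold Z6.w6_L
        rw [map_mul, Complex.conj_ofReal]
        ring
      rw [e2, e1, zero_div]
    have e3 := w1_zero_deriv (Metric.isOpen_ball.mem_nhds ht) hz hD
    have e4 : ∑ i, (w i : ℂ) * (deriv (fun t => η i t * w7_S η χ i t) t / (η i t * w7_S η χ i t)) =
        2 * ∑ i, (w i : ℂ) * (deriv (fun t => η i t * w7_S η χ i t) t / (η i t * w7_S η χ i t) / 2) := by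
      rw [Finset.mul_sum]
      exact Finset.sum_congr rfl fun i _ => by ring
    rw [e4, e3, mul_zero]
  obtain ⟨n, n', hnn, ⟨z, hz⟩, z', hz'⟩ := two_int hρ (fun i t => η i t * w7_S η χ i t) hRA hRne u v huv
    (hrel u (by rw [hfd] at hRf; exact hRf)) (hrel v (by rw [hgd] at hRg; exact hRg))
  have hfin : ∀ (a : Fin m → ℤ) (z : ℂ), (∀ t ∈ Metric.ball t1 ρ, ∏ i, (η i t * w7_S η χ i t) ^ a i = z) →
      ∀ t ∈ Metric.ball t1 ρ, (∑ i, (u i : ℂ) * ℓ i t).re = 0 → ∑ i, (a i : ℝ) * (ℓ i t).re = Real.log ‖z‖ / 2 := by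
    intro a z ha t ht hre
    have e1 := hfix t ht (by rw [hfd]; exact hre)
    have hne : ∀ i, η i t ≠ 0 := fun i => hη0 i t (s4 ht)
    rw [← ha t ht, norm_prod, Real.log_prod (fun i _ => norm_ne_zero_iff.2 (zpow_ne_zero _ (hRne i t ht))), Finset.sum_div]
    refine Finset.sum_congr rfl fun i _ => ?_
    have e2 : (ℓ i t).re = Real.log ‖η i t‖ := hch.re_eq i (s2 (s42 (s4 ht)))
    have e3 : w7_S η χ i t = (starRingEnd ℂ) (η i t) := by
      unfold w7_S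
      rw [e1]
    rw [norm_zpow, Real.log_zpow, norm_mul, e3, Complex.norm_conj, Real.log_mul (norm_ne_zero_iff.2 (hne i))
      (norm_ne_zero_iff.2 (hne i)), e2]
    ring
  exact ⟨n, n', ρ, _, _, hnn, hρ, fun t ht hre => ⟨hfin n z hz t ht hre, hfin n' z' hz' t ht hre⟩⟩

end arc

/-- Row Z7-H1d. Two independent real relations do not accumulate at a point of `C \ E`, if the same is true for integer relations with constants (finiteness). PROOF. Suppose they accumulate at `y0` (different points `y ∈ C` near `y0`, with `dt u (lg y) = 0 = dt v (lg y)`). By `D.fib` their `y 0` are different from `y0 0` (near `y0`), so `hacc` holds; `exists_chart` at `y0`, `t0 = y0 0`, `f = ∑ u_i ℓ_i`, `g = ∑ v_i ℓ_i` (`Chart.re_eq`),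
`Re f = Re g = 0` at the `t = y 0`, which accumulate at `t0`; also `Re f t0 = Re g t0 = 0`. `f` is not constant (`Chart.not_const`): `root_form`. `Re (w^k) = 0` (because `Re f t0 = 0`) means that `w` is on one of `2k` rays `ω_j ℝ_{≥0}`; one ray `w = ω s`, `s ∈ (0, ε')`, contains infinitely many of the points, accumulating at `s = 0`. The function `s ↦ Re g (τ (ω s))` is real-analytic on `(-ε', ε')`, its
zeros accumulate at `0`, so it vanishes identically. Take one `s1 ∈ (0, ε')`, `t1 = τ (ω s1)`: `f' t1 ≠ 0` (`k w^(k-1) ≠ 0`). `Z5.schwarz` for `f` at `t1`: `χ`; `Re f = Re g = 0` on the arc through `t1`, so `g + g^* ∘ χ = 0`, `f + f^* ∘ χ = 0` near `t1` (`Z5.reflect`-like lemma, see `Z7.W1`), i.e. `∑ u_i Λ_i = ∑ v_i Λ_i = 0`, `Λ_i = (ℓ_i + ℓ_i^* ∘ χ)/2`. `χ` is `Alg`: as in `W1`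
(`k = g'/f'` satisfies `k = k^* ∘ χ`, and `k` is not constant: otherwise `g' = c f'` with `c` real (on the level curve `k` is real), `v - c u ≠ 0` contradicts `Chart.not_const`). So `R_i = η_i · (η_i^* ∘ χ)` is `Alg` without zeros on a small ball, `∑ u_i R_i'/R_i = ∑ v_i R_i'/R_i = 0`: `two_int` gives `n, n'`. On the arc `R_i (t) = ‖η_i t‖^2`, so `‖∏ η_i^(n_i)‖` and `‖∏ η_i^(n'_i)‖` are
constant on the arc near `s1`; these are real-analytic functions of `s ∈ (0, ε')` (their logarithms are `∑ n_i Re ℓ_i (τ (ω s))`), real-analytic on `(-ε', ε')`, so they are constant on `(-ε', ε')`. The infinitely many points `y ∈ C` of the ray contradict `hint`. -/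
theorem hh_of_int (D : Cv m) (hint : ∀ n n' : Fin m → ℤ, LinearIndependent ℤ ![n, n'] → ∀ r r' : ℝ,
    {y | y ∈ D.C ∧ ‖∏ i, y i ^ n i‖ = r ∧ ‖∏ i, y i ^ n' i‖ = r'}.Finite) : HHp D := by
  intro u v huv y0 hy0 hy0E
  by_contra hcon
  push Not at hcon
  have hpair := LinearIndependent.pair_iff.1 huv
  have hu0 : u ≠ 0 := by
    rintro rfl
    exact one_ne_zero (hpair 1 0 (by simp)).1
  -- the points have another first coordinate
  have hacc : ∀ O ∈ 𝓝 y0, ∃ y ∈ O, y ∈ D.C ∧ y 0 ≠ y0 0 ∧ dt u (lg y) = 0 ∧ dt v (lg y) = 0 := by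
    intro O hO
    have hfin : ({y | y ∈ D.C ∧ y 0 = y0 0} \ {y0}).Finite := (D.fib (y0 0)).sdiff
    obtain ⟨y, h1, h2, h3, h4, h5⟩ := hcon (O ∩ ({y | y ∈ D.C ∧ y 0 = y0 0} \ {y0})ᶜ)
      (Filter.inter_mem hO (hfin.isClosed.isOpen_compl.mem_nhds (by simp)))
    exact ⟨y, h1.1, h2, fun e => h1.2 ⟨⟨h2, e⟩, h5⟩, h3, h4⟩
  have hacc0 : ∀ O ∈ 𝓝 y0, ∃ y ∈ O, y ∈ D.C ∧ y 0 ≠ y0 0 := by
    intro O hO
    obtain ⟨y, h1, h2, h3, -⟩ := hacc O hO
    exact ⟨y, h1, h2, h3⟩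
  obtain ⟨ρ, η, ℓ, -, hch⟩ := exists_chart D hy0 hy0E hacc0 (ρ0 := 1) one_pos
  have hρ := hch.pos
  obtain ⟨t0, ht0⟩ : ∃ t0, t0 = y0 0 := ⟨_, rfl⟩
  obtain ⟨f, hfd⟩ : ∃ f : ℂ → ℂ, f = fun t => ∑ i, (u i : ℂ) * ℓ i t := ⟨_, rfl⟩
  have hsumre : ∀ (w : Fin m → ℝ) (t : ℂ), (∑ i, (w i : ℂ) * ℓ i t).re = ∑ i, w i * (ℓ i t).re := by
    intro w t
    simp only [Complex.re_sum, Complex.re_ofReal_mul]
  have hdt : ∀ (w : Fin m → ℝ), ∀ t ∈ Metric.ball (y0 0) ρ, (∑ i, (w i : ℂ) * ℓ i t).re = dt w (lg fun i => η i t) := by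
    intro w t ht
    rw [hsumre]
    unfold Pool.Agent.Z6.dt
    exact Finset.sum_congr rfl fun i _ => by rw [hch.re_eq i ht]
  have hwd : ∀ (w : Fin m → ℂ), ∀ t ∈ Metric.ball (y0 0) ρ, HasDerivAt (fun t => ∑ i, w i * ℓ i t)
      (∑ i, w i * (deriv (η i) t / η i t)) t := fun w t ht =>
    HasDerivAt.fun_sum fun i _ => (hch.der i t ht).const_mul _
  -- the points in the coordinate `t`
  obtain ⟨T, hT⟩ : ∃ T : Set ℂ, T = {t | t ∈ Metric.ball (y0 0) ρ ∧ t ≠ y0 0 ∧ (fun i => η i t) ∈ D.C ∧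
      (∑ i, (u i : ℂ) * ℓ i t).re = 0 ∧ (∑ i, (v i : ℂ) * ℓ i t).re = 0} := ⟨_, rfl⟩
  have hTacc : ∀ O ∈ 𝓝 (y0 0), ∃ t ∈ O, t ∈ T := by
    intro O hO
    have hc : ContinuousAt (fun y : Fin m → ℂ => y 0) y0 := (continuous_apply 0).continuousAt
    obtain ⟨y, h1, h2, h3, h4, h5⟩ := hacc _ ((hc.eventually_mem hO).and hch.uniq)
    obtain ⟨h6, h7⟩ := h1.2 h2
    have h8 : (fun i => η i (y 0)) = y := funext fun i => (h7 i).symm
    refine ⟨y 0, h1.1, ?_⟩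
    rw [hT]
    refine ⟨h6, h3, ?_, ?_, ?_⟩
    · rw [h8]; exact h2
    · rw [hdt u _ h6, h8]; exact h4
    · rw [hdt v _ h6, h8]; exact h5
  have hfa : AnalyticAt ℂ f (y0 0) := by
    have h1 : DifferentiableOn ℂ f (Metric.ball (y0 0) ρ) := by
      intro t ht
      rw [hfd]
      exact (hwd (fun i => (u i : ℂ)) t ht).differentiableAt.differentiableWithinAt
    exact h1.analyticAt (Metric.ball_mem_nhds _ hρ)
  have hf0 : (f (y0 0)).re = 0 := by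
    by_contra h
    have h1 : ContinuousAt (fun t => (f t).re) (y0 0) := Complex.continuous_re.continuousAt.comp hfa.continuousAt
    obtain ⟨t, h2, h3⟩ := hTacc _ (h1.eventually_ne h)
    rw [hT] at h3
    apply h2
    rw [hfd]
    exact h3.2.2.2.1
  have hfnc : ¬ ∀ᶠ t in 𝓝 (y0 0), f t = f (y0 0) := by
    intro h
    obtain ⟨r, hr, hb⟩ := Metric.eventually_nhds_iff_ball.1 h
    obtain ⟨r', hr', h1, h2⟩ : ∃ r', 0 < r' ∧ r' ≤ r ∧ r' ≤ ρ := ⟨min r ρ, lt_min hr hρ, min_le_left _ _, min_le_right _ _⟩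
    refine hch.not_const hacc0 hu0 ?_
    refine Z5.w1_ident2 (b3_der_diff hch u) hr' (Metric.mem_ball_self hρ) fun t ht => ?_
    have h3 := hwd (fun i => (u i : ℂ)) t (Metric.ball_subset_ball h2 ht)
    have h4 : HasDerivAt f 0 t := (hasDerivAt_const t (f (y0 0))).congr_of_eventuallyEq
      (Filter.eventually_of_mem (Metric.isOpen_ball.mem_nhds ht) fun x hx => hb x (Metric.ball_subset_ball h1 hx))
    rw [hfd] at h4
    exact h3.unique h4
  obtain ⟨k, ε0, τ, hk, hε0, hτ0, hτd, hτ', hτi, hτf, hτs⟩ := root_form hfa hfnc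
  -- a smaller ball which is mapped into the chart
  have hτc : ContinuousAt τ 0 := (hτd.differentiableAt (Metric.ball_mem_nhds 0 hε0)).continuousAt
  obtain ⟨ε1, hε1, hb1⟩ := Metric.mem_nhds_iff.1 (hτc.preimage_mem_nhds (by rw [hτ0]; exact Metric.ball_mem_nhds _ hρ))
  obtain ⟨ε, hε, hεε0, hεε1⟩ : ∃ ε, 0 < ε ∧ ε ≤ ε0 ∧ ε ≤ ε1 := ⟨min ε0 ε1, lt_min hε0 hε1, min_le_left _ _, min_le_right _ _⟩
  have se0 := Metric.ball_subset_ball (x := (0 : ℂ)) hεε0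
  have hin : ∀ w ∈ Metric.ball (0 : ℂ) ε, τ w ∈ Metric.ball (y0 0) ρ := fun w hw => hb1 (Metric.ball_subset_ball hεε1 hw)
  -- the rays
  have hΩ : {ω : ℂ | ω ^ (2 * k) = -1}.Finite := by
    have h1 : (Polynomial.X ^ (2 * k) - Polynomial.C (-1 : ℂ)) ≠ 0 := Polynomial.X_pow_sub_C_ne_zero (by omega) _
    refine (Polynomial.finite_setOfPred_isRoot h1).subset fun ω hω => ?_
    have h2 : ω ^ (2 * k) = -1 := hω
    show Polynomial.IsRoot _ ω
    rw [Polynomial.IsRoot.def, Polynomial.eval_sub, Polynomial.eval_pow, Polynomial.eval_X, Polynomial.eval_C, h2, sub_self]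
  obtain ⟨ω, hω, hfr⟩ : ∃ ω : ℂ, ω ^ (2 * k) = -1 ∧ ∃ᶠ s : ℝ in 𝓝[>] 0, τ (ω * s) ∈ T := by
    by_contra H
    push Not at H
    have h1 : ∀ᶠ s : ℝ in 𝓝[>] 0, ∀ ω ∈ {ω : ℂ | ω ^ (2 * k) = -1}, τ (ω * s) ∉ T :=
      (Filter.eventually_all_finite hΩ).2 fun ω hω => H ω hω
    obtain ⟨δ, hδ, h2⟩ := mem_nhdsGT_iff_exists_Ioo_subset.1 h1
    have hδ' : (0 : ℝ) < δ := hδ
    obtain ⟨t, ⟨w, hw, hwt⟩, htT⟩ := hTacc _ (hτs δ hδ')
    have htT' := htT
    rw [hT] at htT'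
    obtain ⟨q1, q2, q3, q4, q5⟩ := htT'
    have hw0 : w ≠ 0 := by
      rintro rfl
      rw [hτ0] at hwt
      exact q2 hwt.symm
    have hwn : 0 < ‖w‖ := norm_pos_iff.2 hw0
    have hwb := mem_ball_zero_iff.1 hw
    have hwk : (w ^ k).re = 0 := by
      have e1 := hτf w (mem_ball_zero_iff.2 (lt_of_lt_of_le hwb (min_le_right _ _)))
      rw [hwt] at e1
      have e2 := congrArg Complex.re e1
      rw [Complex.add_re, hf0, zero_add] at e2
      rw [← e2, hfd]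
      exact q4
    have hns : ((‖w‖ : ℝ) : ℂ) ≠ 0 := Complex.ofReal_ne_zero.2 hwn.ne'
    refine h2 (⟨hwn, lt_of_lt_of_le hwb (min_le_left _ _)⟩ : ‖w‖ ∈ Set.Ioo 0 δ) (w / (‖w‖ : ℝ)) ?_ ?_
    · show (w / ((‖w‖ : ℝ) : ℂ)) ^ (2 * k) = -1
      have e1 : w ^ k = ((w ^ k).im : ℂ) * Complex.I := by
        apply Complex.ext <;> simp [hwk]
      have e2 : ((w ^ k).im) ^ 2 = ‖w‖ ^ (2 * k) := by
        have e3 : ‖w ^ k‖ = |(w ^ k).im| := by rw [e1]; simp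
        rw [norm_pow] at e3
        rw [← sq_abs, ← e3, ← pow_mul, mul_comm]
      have e4 : w ^ (2 * k) = -((‖w‖ : ℝ) : ℂ) ^ (2 * k) := by
        rw [mul_comm, pow_mul, e1, mul_pow, Complex.I_sq]
        have e5 : (((w ^ k).im : ℝ) : ℂ) ^ 2 = ((‖w‖ : ℝ) : ℂ) ^ (k * 2) := by
          rw [mul_comm k 2]
          exact_mod_cast e2
        rw [e5]
        ring
      rw [div_pow, e4, neg_div, div_self (pow_ne_zero _ hns)]
    · rw [div_mul_cancel₀ _ hns, hwt]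
      exact htT
  have hωn : ‖ω‖ = 1 := by
    have h1 := congrArg norm hω
    rw [norm_pow, norm_neg, norm_one] at h1
    exact (pow_eq_one_iff_of_nonneg (norm_nonneg _) (by omega)).1 h1
  have hω0 : ω ≠ 0 := by
    intro h
    rw [h, norm_zero] at hωn
    exact zero_ne_one hωn
  have hωk : (ω ^ k).re = 0 := by
    have h1 : (ω ^ k) ^ 2 = -1 := by rw [← pow_mul, mul_comm, hω]
    have h2 := congrArg Complex.im h1
    have h3 := congrArg Complex.re h1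
    rw [sq, Complex.mul_im, Complex.neg_im, Complex.one_im] at h2
    rw [sq, Complex.mul_re, Complex.neg_re, Complex.one_re] at h3
    nlinarith [sq_nonneg (ω ^ k).re, sq_nonneg (ω ^ k).im]
  have hray : ∀ z ∈ Metric.ball (0 : ℂ) ε, ω * z ∈ Metric.ball (0 : ℂ) ε := by
    intro z hz
    rw [mem_ball_zero_iff, norm_mul, hωn, one_mul]
    exact mem_ball_zero_iff.1 hz
  have hreal : ∀ s : ℝ, |s| < ε → (s : ℂ) ∈ Metric.ball (0 : ℂ) ε := by
    intro s hs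
    rw [mem_ball_zero_iff, Complex.norm_real]
    exact hs
  have hFd : ∀ w : Fin m → ℂ, DifferentiableOn ℂ (fun z => ∑ i, w i * ℓ i (τ (ω * z))) (Metric.ball 0 ε) := by
    intro w z hz
    have h1 : DifferentiableAt ℂ (fun z => τ (ω * z)) z :=
      (hτd.differentiableAt (Metric.isOpen_ball.mem_nhds (se0 (hray z hz)))).comp z (differentiableAt_id.const_mul ω)
    have h2 : DifferentiableAt ℂ (fun t => ∑ i, w i * ℓ i t) (τ (ω * z)) :=
      (hwd w _ (hin _ (hray z hz))).differentiableAt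
    exact (h2.comp z h1).differentiableWithinAt
  -- both relations on the ray
  have hru : ∀ s : ℝ, |s| < ε → (∑ i, (u i : ℂ) * ℓ i (τ (ω * s))).re = 0 := by
    intro s hs
    have e1 := hτf (ω * s) (se0 (hray _ (hreal s hs)))
    have e2 : (∑ i, (u i : ℂ) * ℓ i (τ (ω * s))) = f (y0 0) + (ω * s) ^ k := by
      rw [← e1, hfd]
    rw [e2, Complex.add_re, hf0, zero_add, mul_pow, ← Complex.ofReal_pow, Complex.re_mul_ofReal, hωk, zero_mul]
  have hrv : ∀ s : ℝ, |s| < ε → (∑ i, (v i : ℂ) * ℓ i (τ (ω * s))).re = 0 := by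
    refine h1_real (hFd fun i => (v i : ℂ)) (s1 := 0) (by rw [abs_zero]; exact hε) ?_
    have h1 : (𝓝[>] (0 : ℝ)) ≤ 𝓝[≠] 0 := nhdsWithin_mono _ fun s hs => (ne_of_gt hs : s ≠ 0)
    refine (hfr.filter_mono h1).mono fun s hs => ?_
    rw [hT] at hs
    exact hs.2.2.2.2
  -- a regular point of the ray
  obtain ⟨s1, hs1, hs1ε⟩ : ∃ s1 : ℝ, 0 < s1 ∧ s1 < ε := ⟨ε / 2, by linarith, by linarith⟩
  have hs1a : |s1| < ε := by rw [abs_of_pos hs1]; exact hs1ε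
  have hw1 := hray _ (hreal s1 hs1a)
  have hw10 : ω * s1 ≠ 0 := mul_ne_zero hω0 (Complex.ofReal_ne_zero.2 hs1.ne')
  have ht1 := hin _ hw1
  have hcr : ∑ i, (u i : ℂ) * (deriv (η i) (τ (ω * s1)) / η i (τ (ω * s1))) ≠ 0 := by
    intro h
    have h1 := (hwd (fun i => (u i : ℂ)) _ ht1)
    rw [h] at h1
    have h2 : HasDerivAt τ (deriv τ (ω * s1)) (ω * s1) :=
      (hτd.differentiableAt (Metric.isOpen_ball.mem_nhds (se0 hw1))).hasDerivAt
    have h3 := h1.comp (ω * s1 : ℂ) h2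
    rw [zero_mul] at h3
    have h4 : HasDerivAt (fun w : ℂ => f (y0 0) + w ^ k) 0 (ω * s1) := by
      refine h3.congr_of_eventuallyEq (Filter.eventually_of_mem (Metric.isOpen_ball.mem_nhds (se0 hw1)) fun x hx => ?_)
      have h5 := hτf x hx
      rw [hfd] at h5
      rw [hfd]
      exact h5.symm
    have h5 := h4.unique ((hasDerivAt_pow k (ω * s1 : ℂ)).const_add (f (y0 0)))
    exact mul_ne_zero (Nat.cast_ne_zero.2 hk.ne') (pow_ne_zero _ hw10) h5.symm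
  have hτs1 : ContinuousAt (fun s : ℝ => τ (ω * s)) s1 := by
    have h1 : ContinuousAt τ (ω * s1) := (hτd.differentiableAt (Metric.isOpen_ball.mem_nhds (se0 hw1))).continuousAt
    exact h1.comp_of_eq (by fun_prop) rfl
  have hεs : ∀ᶠ s : ℝ in 𝓝 s1, |s| < ε := (continuous_abs.tendsto s1).eventually (gt_mem_nhds hs1a)
  obtain ⟨n, n', ρ', c, c', hnn, hρ', harc⟩ := h1_arc hch hacc0 huv ht1 hcr (hru s1 hs1a) (by
    intro O hO
    have h1 : ∀ᶠ s : ℝ in 𝓝[≠] s1, τ (ω * s) ∈ O ∧ |s| < ε :=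
      ((hτs1.eventually_mem hO).and hεs).filter_mono nhdsWithin_le_nhds
    obtain ⟨s, ⟨h2, h3⟩, h4⟩ := (h1.and self_mem_nhdsWithin).exists
    refine ⟨_, h2, fun e => h4 ?_, hru s h3, hrv s h3⟩
    have h5 := hτi (se0 (hray _ (hreal s h3))) (se0 hw1) e
    exact Complex.ofReal_injective (mul_left_cancel₀ hω0 h5))
  -- the integer relations on the whole ray
  have hall : ∀ s : ℝ, |s| < ε → ∑ i, (n i : ℝ) * (ℓ i (τ (ω * s))).re = c ∧
      ∑ i, (n' i : ℝ) * (ℓ i (τ (ω * s))).re = c' := by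
    have h1 : ∀ᶠ s : ℝ in 𝓝[≠] s1, τ (ω * s) ∈ Metric.ball (τ (ω * s1)) ρ' ∧ |s| < ε :=
      ((hτs1.eventually_mem (Metric.ball_mem_nhds _ hρ')).and hεs).filter_mono nhdsWithin_le_nhds
    have h2 : ∀ (a : Fin m → ℤ) (r : ℝ), (∀ t ∈ Metric.ball (τ (ω * s1)) ρ', (∑ i, (u i : ℂ) * ℓ i t).re = 0 →
        ∑ i, (a i : ℝ) * (ℓ i t).re = r) → ∀ s : ℝ, |s| < ε → ∑ i, (a i : ℝ) * (ℓ i (τ (ω * s))).re = r := by
      intro a r ha s hs
      have h3 := h1_real (hFd fun i => ((a i : ℝ) : ℂ)) hs1a (c := r) ((h1.mono fun s hs => by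
        rw [hsumre (fun i => (a i : ℝ))]
        exact ha _ hs.1 (hru s hs.2)).frequently) s hs
      rwa [hsumre (fun i => (a i : ℝ))] at h3
    exact fun s hs => ⟨h2 n c (fun t ht hre => (harc t ht hre).1) s hs, h2 n' c' (fun t ht hre => (harc t ht hre).2) s hs⟩
  -- infinitely many points with both integer relations
  have hnorm : ∀ (a : Fin m → ℤ) (t : ℂ), t ∈ Metric.ball (y0 0) ρ →
      ‖∏ i, η i t ^ a i‖ = Real.exp (∑ i, (a i : ℝ) * (ℓ i t).re) := by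
    intro a t ht
    rw [norm_prod, Real.exp_sum]
    refine Finset.prod_congr rfl fun i _ => ?_
    have e1 : Real.exp (ℓ i t).re = ‖η i t‖ := by rw [← hch.exp i t ht, Complex.norm_exp]
    rw [norm_zpow, ← e1, mul_comm, Real.exp_mul, Real.rpow_intCast]
  have hF := hint n n' hnn (Real.exp c) (Real.exp c')
  have hF0 : (((fun y : Fin m → ℂ => y 0) '' {y | y ∈ D.C ∧ ‖∏ i, y i ^ n i‖ = Real.exp c ∧
      ‖∏ i, y i ^ n' i‖ = Real.exp c'}) \ {y0 0}).Finite := (hF.image _).sdiff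
  have hτt : Tendsto (fun s : ℝ => τ (ω * s)) (𝓝[>] 0) (𝓝 (y0 0)) := by
    have h1 : ContinuousAt (fun s : ℝ => τ (ω * s)) 0 := by
      have h2 : ContinuousAt τ (ω * ((0 : ℝ) : ℂ)) := by rw [Complex.ofReal_zero, mul_zero]; exact hτc
      exact h2.comp_of_eq (by fun_prop) rfl
    have h3 := h1.tendsto.mono_left (nhdsWithin_le_nhds (s := Set.Ioi 0))
    rwa [Complex.ofReal_zero, mul_zero, hτ0] at h3
  have hmem := hτt.eventually (hF0.isClosed.isOpen_compl.mem_nhds (by simp))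
  have hεs0 : ∀ᶠ s : ℝ in 𝓝[>] 0, |s| < ε :=
    ((continuous_abs.tendsto (0 : ℝ)).eventually (gt_mem_nhds (by rw [abs_zero]; exact hε))).filter_mono nhdsWithin_le_nhds
  obtain ⟨s, hsT, hsF, hsε⟩ := (hfr.and_eventually (hmem.and hεs0)).exists
  rw [hT] at hsT
  obtain ⟨q1, q2, q3, -⟩ := hsT
  apply hsF
  refine ⟨⟨fun i => η i (τ (ω * s)), ⟨q3, ?_, ?_⟩, ?_⟩, q2⟩
  · rw [hnorm n _ q1, (hall s hsε).1]
  · rw [hnorm n' _ q1, (hall s hsε).2]
  · exact hch.id0 _ q1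

end Pool.Agent.Z7
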