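import Pool.Agent.Z7.H2
import Pool.Agent.Z5.C2

namespace Pool.Agent.Z7

open Pool.Agent.ZL2 Filter Topology
open Pool.Agent.Z5 (fr Gen ev2 Alg)
open Pool.Agent.Z6 (dt)

section local3

open Pool.Agent.Z5 (w1_an w1_ident2 w1_congr w1_cmul w1_sub w1_dep w1_zero_deriv w1_kconj schwarz reflect)
open Pool.Agent.Z6 (w6_sum w6_L)

variable {m : ℕ}

/-- If the level curve `dt u (lg (η t)) = 0` contains, near the regular point `t0`, infinitely many points of a real algebraic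
curve `G(t, conj t) = 0`, then integral vectors with `u` in their real span are constant on it. As `h1_local`; the Schwarz
function is algebraic because of `G`. -/
theorem h3_local {t0 : ℂ} {ρ0 : ℝ} (hρ0 : 0 < ρ0) {η ℓ : Fin m → ℂ → ℂ}
    (hη : ∀ i, Alg t0 ρ0 (η i)) (hη0 : ∀ i, ∀ t ∈ Metric.ball t0 ρ0, η i t ≠ 0)
    (hℓ : ∀ i, ∀ t ∈ Metric.ball t0 ρ0, HasDerivAt (ℓ i) (deriv (η i) t / η i t) t)
    (hexp : ∀ i, ∀ t ∈ Metric.ball t0 ρ0, Complex.exp (ℓ i t) = η i t) {u : Fin m → ℝ}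
    (hcr : ∑ i, (u i : ℂ) * (deriv (η i) t0 / η i t0) ≠ 0)
    {G : Polynomial (Polynomial ℂ)} (hG : G ≠ 0)
    (hacc : ∀ O ∈ 𝓝 t0, ∃ t ∈ O, t ≠ t0 ∧ dt u (lg fun i => η i t) = 0 ∧ ev2 G t ((starRingEnd ℂ) t) = 0) :
    ∃ (J : Type) (_ : Fintype J) (N : J → Fin m → ℤ) (s : J → ℝ),
      (∃ a : J → ℝ, ∀ i, u i = ∑ j, a j * (N j i : ℝ)) ∧
      ∀ᶠ t in 𝓝 t0, dt u (lg fun i => η i t) = 0 → ∀ j, ∑ i, (N j i : ℝ) * lg (fun i => η i t) i = s j := by
  classical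
  have ht0 : t0 ∈ Metric.ball t0 ρ0 := Metric.mem_ball_self hρ0
  -- the functions
  obtain ⟨F, hF⟩ : ∃ F : (Fin m → ℝ) → ℂ → ℂ, F = fun w t => ∑ i, (w i : ℂ) * ℓ i t := ⟨_, rfl⟩
  obtain ⟨F', hF'⟩ : ∃ F' : (Fin m → ℝ) → ℂ → ℂ, F' = fun w t => ∑ i, (w i : ℂ) * (deriv (η i) t / η i t) :=
    ⟨_, rfl⟩
  have hFd : ∀ w, ∀ t ∈ Metric.ball t0 ρ0, HasDerivAt (F w) (F' w t) t := by
    intro w t ht
    rw [hF, hF']
    exact HasDerivAt.fun_sum fun i _ => (hℓ i t ht).const_mul _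
  have hℓre : ∀ i, ∀ t ∈ Metric.ball t0 ρ0, (ℓ i t).re = Real.log ‖η i t‖ := by
    intro i t ht
    rw [← hexp i t ht, Complex.norm_exp, Real.log_exp]
  have hFre : ∀ w, ∀ t ∈ Metric.ball t0 ρ0, (F w t).re = dt w (lg fun i => η i t) := by
    intro w t ht
    rw [hF]
    simp only [Complex.re_sum, Pool.Agent.Z6.dt, Complex.re_ofReal_mul]
    exact Finset.sum_congr rfl fun i _ => by rw [hℓre i t ht]; rfl
  -- Re (F u t0) = 0
  have hf00 : (F u t0).re = 0 := by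
    by_contra hne
    have hc : ContinuousAt (fun t => (F u t).re) t0 :=
      Complex.continuous_re.continuousAt.comp (hFd u t0 ht0).continuousAt
    obtain ⟨t, ⟨h1, h2⟩, -, h3, -⟩ := hacc _ (Filter.inter_mem (hc.eventually_ne hne) (Metric.ball_mem_nhds t0 hρ0))
    exact h1 (by rw [hFre u t h2, h3])
  -- noncritical
  have hf'c : ContinuousAt (F' u) t0 := by
    rw [hF']
    refine tendsto_finsetSum _ fun i _ => ?_
    have h1 : ContinuousAt (deriv (η i)) t0 := ((w1_an (hη i).1).deriv t0 ht0).continuousAt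
    have h2 : ContinuousAt (η i) t0 :=
      ((hη i).1.differentiableAt (Metric.ball_mem_nhds t0 hρ0)).continuousAt
    exact continuousAt_const.mul (h1.div h2 (hη0 i t0 ht0))
  obtain ⟨r1, hr1, hb1⟩ := Metric.mem_nhds_iff.1 (hf'c.eventually_ne (by rw [hF']; exact hcr))
  -- the Schwarz function
  obtain ⟨ρ3, hρ3, χ, hχd, hχc⟩ := schwarz (f := F u) (t0 := t0) (Filter.eventually_of_mem
    (Metric.ball_mem_nhds t0 hρ0) fun t ht => (hFd u t ht).differentiableAt)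
    (by rw [(hFd u t0 ht0).deriv, hF']; exact hcr) hf00
  obtain ⟨ρ4, hρ4, hρ40, hρ41, hρ43⟩ : ∃ ρ4, 0 < ρ4 ∧ ρ4 ≤ ρ0 ∧ ρ4 ≤ r1 ∧ ρ4 ≤ ρ3 :=
    ⟨min ρ0 (min r1 ρ3), lt_min hρ0 (lt_min hr1 hρ3), min_le_left _ _,
      (min_le_right _ _).trans (min_le_left _ _), (min_le_right _ _).trans (min_le_right _ _)⟩
  have s40 := Metric.ball_subset_ball (x := t0) hρ40
  have s41 := Metric.ball_subset_ball (x := t0) hρ41
  have s43 := Metric.ball_subset_ball (x := t0) hρ43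
  have hf'ne : ∀ t ∈ Metric.ball t0 ρ4, F' u t ≠ 0 := fun t ht => hb1 (s41 ht)
  have hacc2 : ∀ O ∈ 𝓝 t0, ∃ t ∈ O, t ≠ t0 ∧ (F u t).re = 0 ∧ ev2 G t ((starRingEnd ℂ) t) = 0 := by
    intro O hO
    obtain ⟨t, ⟨h1, h2⟩, h3, h4, h5⟩ := hacc _ (Filter.inter_mem hO (Metric.ball_mem_nhds t0 hρ0))
    exact ⟨t, h1, h3, by rw [hFre u t h2, h4], h5⟩
  obtain ⟨ρ, hρ, hρρ4, hR5⟩ := reflect (f := F u) (g := F u) hρ4
    (fun t ht => (hFd u t (s40 ht)).differentiableAt.differentiableWithinAt)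
    (hχd.mono s43) (fun t ht => hχc t (s43 ht)) hf00 (fun O hO => by
      obtain ⟨t, h1, h2, h3, -⟩ := hacc2 O hO
      exact ⟨t, h1, h2, h3, h3⟩)
  have s4 := Metric.ball_subset_ball (x := t0) hρρ4
  have hτ : ∀ t ∈ Metric.ball t0 ρ, (starRingEnd ℂ) (χ t) ∈ Metric.ball t0 ρ4 := fun t ht => (hR5 t ht).1
  have hRf : ∀ t ∈ Metric.ball t0 ρ, F u t + (starRingEnd ℂ) (F u ((starRingEnd ℂ) (χ t))) = 0 :=
    fun t ht => (hR5 t ht).2
  have hχd4 := hχd.mono s43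
  have hχρ := hχd4.mono s4
  have hfix : ∀ t ∈ Metric.ball t0 ρ, (F u t).re = 0 → (starRingEnd ℂ) (χ t) = t := by
    intro t ht h
    rw [hχc t (s43 (s4 ht)) h, Complex.conj_conj]
  have ht0ρ : t0 ∈ Metric.ball t0 ρ := Metric.mem_ball_self hρ
  have hηA : ∀ i, Alg t0 ρ4 (η i) := fun i => (hη i).mono s40
  have hη04 : ∀ i, ∀ t ∈ Metric.ball t0 ρ4, η i t ≠ 0 := fun i t ht => hη0 i t (s40 ht)
  have hℓ4 : ∀ i, ∀ t ∈ Metric.ball t0 ρ4, HasDerivAt (ℓ i) (deriv (η i) t / η i t) t := fun i t ht =>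
    hℓ i t (s40 ht)
  -- `χ` is algebraic
  have hGd : DifferentiableOn ℂ (fun t => ev2 G t (χ t)) (Metric.ball t0 ρ) := by
    intro t ht
    have h1 : DifferentiableAt ℂ (fun p : ℂ × ℂ => ev2 G p.1 p.2) (t, χ t) :=
      (Z5.c2_contDiff G).contDiffAt.differentiableAt one_ne_zero
    have h2 : DifferentiableAt ℂ (fun t : ℂ => ((t, χ t) : ℂ × ℂ)) t :=
      differentiableAt_id.prodMk (hχρ.differentiableAt (Metric.isOpen_ball.mem_nhds ht))
    exact (DifferentiableAt.comp t (f := fun t : ℂ => ((t, χ t) : ℂ × ℂ)) h1 h2).differentiableWithinAt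
  have hχA : Alg t0 ρ χ := by
    refine ⟨hχρ, G, hG, Z5.w1_ident hρ hGd fun O hO => ?_⟩
    obtain ⟨t, ⟨h1, h2⟩, h3, h4, h5⟩ := hacc2 _ (Filter.inter_mem hO (Metric.ball_mem_nhds t0 hρ))
    exact ⟨t, h1, h3, by rw [hχc t (s43 (s4 h2)) h4]; exact h5⟩
  have hχnc : ¬ ∀ t ∈ Metric.ball t0 ρ, χ t = χ t0 := by
    intro h
    obtain ⟨t, h2, h3, h4, -⟩ := hacc2 _ (Metric.ball_mem_nhds t0 hρ)
    have h5 := h t h2
    rw [hχc t (s43 (s4 h2)) h4, hχc t0 (s43 (s4 ht0ρ)) hf00] at h5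
    exact h3 ((starRingEnd ℂ).injective h5)
  have hSA : ∀ i, Alg t0 ρ (h1_S η χ i) := fun i =>
    h1_trans hρ hχA (fun t ht => (h1_S_deriv (fun i => (hηA i).1) hχρ hτ i t ht).differentiableAt.differentiableWithinAt)
      (h1_dep (hηA i) hτ) hχnc
  have hRA : ∀ i, Alg t0 ρ (fun t => η i t * h1_S η χ i t) := fun i => Alg.mul hρ ((hηA i).mono s4) (hSA i)
  have hR0 : ∀ i, ∀ t ∈ Metric.ball t0 ρ, η i t * h1_S η χ i t ≠ 0 := fun i t ht =>
    mul_ne_zero (hη04 i t (s4 ht)) ((_root_.map_ne_zero _).2 (hη04 i _ (hτ t ht)))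
  have hLd := h1_L_deriv hρρ4 (fun i => (hηA i).1) hη04 hℓ4 hχρ hτ
  have hrel : ∀ w : Fin m → ℝ, (∀ t ∈ Metric.ball t0 ρ, F w t + (starRingEnd ℂ) (F w ((starRingEnd ℂ) (χ t))) = 0) →
      ∀ t ∈ Metric.ball t0 ρ, ∑ i, (w i : ℂ) * (deriv (fun t => η i t * h1_S η χ i t) t / (η i t * h1_S η χ i t)) = 0 := by
    intro w hw t ht
    have h1 : ∀ t ∈ Metric.ball t0 ρ, ∑ i, (w i : ℂ) * w6_L ℓ χ i t = 0 := by
      intro t ht
      have h2 := hw t ht
      rw [hF] at h2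
      simp only [map_sum, map_mul, Complex.conj_ofReal] at h2
      have h3 : ∑ i, (w i : ℂ) * w6_L ℓ χ i t = (∑ i, (w i : ℂ) * ℓ i t +
          ∑ i, (w i : ℂ) * (starRingEnd ℂ) (ℓ i ((starRingEnd ℂ) (χ t)))) / 2 := by
        rw [← Finset.sum_add_distrib, Finset.sum_div]
        refine Finset.sum_congr rfl fun i _ => ?_
        unfold w6_L
        ring
      rw [h3, h2, zero_div]
    have h4 := w1_zero_deriv (Metric.isOpen_ball.mem_nhds ht) h1
      (HasDerivAt.fun_sum (u := Finset.univ) fun i _ => (hLd i t ht).const_mul (w i : ℂ))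
    have h5 : ∑ i, (w i : ℂ) * (deriv (fun t => η i t * h1_S η χ i t) t / (η i t * h1_S η χ i t)) =
        2 * ∑ i, (w i : ℂ) * (deriv (fun t => η i t * h1_S η χ i t) t / (η i t * h1_S η χ i t) / 2) := by
      rw [Finset.mul_sum]
      exact Finset.sum_congr rfl fun i _ => by ring
    rw [h5, h4, mul_zero]
  obtain ⟨q, b, n, -, hb, hz⟩ := s3_holo hρ (fun i t => η i t * h1_S η χ i t) hRA hR0 (fun i => (u i : ℂ)) (hrel u hRf)
  choose z hz using hz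
  have hre : ∀ {q : ℕ} (b : Fin q → ℂ) (n : Fin m → Fin q → ℤ) (w : Fin m → ℝ), (∀ i, (w i : ℂ) = ∑ k, (n i k : ℂ) * b k) →
      ∀ i, w i = ∑ k, (b k).re * (n i k : ℝ) := by
    intro q b n w hw i
    have h := congrArg Complex.re (hw i)
    rw [Complex.ofReal_re, Complex.re_sum] at h
    rw [h]
    refine Finset.sum_congr rfl fun k _ => ?_
    have e : ((n i k : ℤ) : ℂ) = (((n i k : ℤ) : ℝ) : ℂ) := by push_cast; rfl
    rw [e, Complex.re_ofReal_mul, mul_comm]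
  have hval : ∀ (N : Fin m → ℤ) (z : ℂ), (∀ t ∈ Metric.ball t0 ρ, ∏ i, (η i t * h1_S η χ i t) ^ N i = z) →
      ∀ t ∈ Metric.ball t0 ρ, dt u (lg fun i => η i t) = 0 → ∑ i, (N i : ℝ) * lg (fun i => η i t) i = Real.log ‖z‖ / 2 := by
    intro N z hN t ht hd
    have h1 : (F u t).re = 0 := by rw [hFre u t (s40 (s4 ht)), hd]
    have h2 : ∀ i, ‖η i t * h1_S η χ i t‖ = ‖η i t‖ ^ 2 := by
      intro i
      unfold h1_S
      rw [hfix t ht h1, norm_mul, RCLike.norm_conj, sq]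
    have h3 := congrArg (fun w : ℂ => Real.log ‖w‖) (hN t ht)
    simp only [norm_prod, norm_zpow, h2] at h3
    rw [Real.log_prod] at h3
    · rw [← h3, Finset.sum_div]
      refine Finset.sum_congr rfl fun i _ => ?_
      rw [Real.log_zpow, Real.log_pow]
      show (N i : ℝ) * Real.log ‖η i t‖ = _
      push_cast
      ring
    · intro i _
      exact zpow_ne_zero _ (pow_ne_zero _ (norm_ne_zero_iff.2 (hη04 i t (s4 ht))))
  refine ⟨Fin q, inferInstance, fun k i => n i k, fun k => Real.log ‖z k‖ / 2, ⟨fun k => (b k).re, hre b n u hb⟩, ?_⟩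
  exact Filter.eventually_of_mem (Metric.ball_mem_nhds t0 hρ) fun t ht hd k => hval (fun i => n i k) (z k) (hz k) t ht hd

end local3

variable {m : ℕ} [NeZero m]

/-- Row Z7-H3. Let `B` be a subset of the curve which satisfies a real algebraic equation `G(y_0, conj y_0) = 0` and contains
only finitely many points with a given absolute value of a given nontrivial character. Then `B` contains no arc of a
level curve `dt u (lg y) = 0`. The ray argument of `hh_of_int` with `h3_local`. -/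
theorem arc_of_int (D : Cv m) (B : Set (Fin m → ℂ)) (hG : ∃ G : Polynomial (Polynomial ℂ), G ≠ 0 ∧
      ∀ y ∈ D.C, y ∈ B → ev2 G (y 0) ((starRingEnd ℂ) (y 0)) = 0)
    (hI : ∀ n : Fin m → ℤ, n ≠ 0 → ∀ r : ℝ, {y | y ∈ D.C ∧ y ∈ B ∧ ‖∏ i, y i ^ n i‖ = r}.Finite)
    {u : Fin m → ℝ} (hu0 : u ≠ 0) {y0 : Fin m → ℂ} (hy0 : y0 ∈ D.C) (hy0E : y0 ∉ D.E)
    (hacc1 : ∀ O ∈ 𝓝 y0, ∃ y ∈ O, y ∈ D.C ∧ y 0 ≠ y0 0 ∧ dt u (lg y) = 0) :
    ∀ O ∈ 𝓝 y0, ∃ y ∈ O, y ∈ D.C ∧ y ∉ D.E ∧ y 0 ≠ y0 0 ∧ dt u (lg y) = 0 ∧ y ∉ B := by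
  intro O1 hO1
  by_contra hcon
  push Not at hcon
  obtain ⟨G, hG0, hGB⟩ := hG
  have hacc : ∀ O ∈ 𝓝 y0, ∃ y ∈ O, y ∈ D.C ∧ y 0 ≠ y0 0 ∧ dt u (lg y) = 0 ∧ y ∈ B := by
    intro O hO
    obtain ⟨y, ⟨⟨h1, h2⟩, h3⟩, h4, h5, h6⟩ := hacc1 _ (Filter.inter_mem (Filter.inter_mem hO hO1)
      (D.hE.isClosed.isOpen_compl.mem_nhds hy0E))
    exact ⟨y, h1, h4, h5, h6, hcon y h2 h4 h3 h5 h6⟩
  have hacc0 : ∀ O ∈ 𝓝 y0, ∃ y ∈ O, y ∈ D.C ∧ y 0 ≠ y0 0 := by
    intro O hO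
    obtain ⟨y, h1, h2, h3, -⟩ := hacc O hO
    exact ⟨y, h1, h2, h3⟩
  obtain ⟨ρ, η, ℓ, -, hch⟩ := exists_chart D hy0 hy0E hacc0 (ρ0 := 1) one_pos
  have hρ := hch.pos
  obtain ⟨t0, ht0⟩ : ∃ t0, t0 = y0 0 := ⟨_, rfl⟩
  obtain ⟨f, hfd⟩ : ∃ f : ℂ → ℂ, f = fun t => ∑ i, (u i : ℂ) * ℓ i t := ⟨_, rfl⟩
  have hsumre : ∀ (w : Fin m → ℝ) (t : ℂ), (∑ i, (w i : ℂ) * ℓ i t).re = ∑ i, w i * (ℓ i t).re := by
    intro w t
    simp only [Complex.re_sum, Complex.re_ofReal_mul]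
  have hdt : ∀ (w : Fin m → ℝ), ∀ t ∈ Metric.ball (y0 0) ρ, (∑ i, (w i : ℂ) * ℓ i t).re = dt w (lg fun i => η i t) := by
    intro w t ht
    rw [hsumre]
    unfold Pool.Agent.Z6.dt
    exact Finset.sum_congr rfl fun i _ => by rw [hch.re_eq i ht]
  have hwd : ∀ (w : Fin m → ℂ), ∀ t ∈ Metric.ball (y0 0) ρ, HasDerivAt (fun t => ∑ i, w i * ℓ i t)
      (∑ i, w i * (deriv (η i) t / η i t)) t := fun w t ht =>
    HasDerivAt.fun_sum fun i _ => (hch.der i t ht).const_mul _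
  -- the points in the coordinate `t`
  obtain ⟨T, hT⟩ : ∃ T : Set ℂ, T = {t | t ∈ Metric.ball (y0 0) ρ ∧ t ≠ y0 0 ∧ (fun i => η i t) ∈ D.C ∧
      (∑ i, (u i : ℂ) * ℓ i t).re = 0 ∧ (fun i => η i t) ∈ B} := ⟨_, rfl⟩
  have hTacc : ∀ O ∈ 𝓝 (y0 0), ∃ t ∈ O, t ∈ T := by
    intro O hO
    have hc : ContinuousAt (fun y : Fin m → ℂ => y 0) y0 := (continuous_apply 0).continuousAt
    obtain ⟨y, h1, h2, h3, h4, h5⟩ := hacc _ ((hc.eventually_mem hO).and hch.uniq)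
    obtain ⟨h6, h7⟩ := h1.2 h2
    have h8 : (fun i => η i (y 0)) = y := funext fun i => (h7 i).symm
    refine ⟨y 0, h1.1, ?_⟩
    rw [hT]
    refine ⟨h6, h3, ?_, ?_, ?_⟩
    · rw [h8]; exact h2
    · rw [hdt u _ h6, h8]; exact h4
    · rw [h8]; exact h5
  have hfa : AnalyticAt ℂ f (y0 0) := by
    have h1 : DifferentiableOn ℂ f (Metric.ball (y0 0) ρ) := by
      intro t ht
      rw [hfd]
      exact (hwd (fun i => (u i : ℂ)) t ht).differentiableAt.differentiableWithinAt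
    exact h1.analyticAt (Metric.ball_mem_nhds _ hρ)
  have hf0 : (f (y0 0)).re = 0 := by
    by_contra h
    have h1 : ContinuousAt (fun t => (f t).re) (y0 0) := Complex.continuous_re.continuousAt.comp hfa.continuousAt
    obtain ⟨t, h2, h3⟩ := hTacc _ (h1.eventually_ne h)
    rw [hT] at h3
    apply h2
    rw [hfd]
    exact h3.2.2.2.1
  have hfnc : ¬ ∀ᶠ t in 𝓝 (y0 0), f t = f (y0 0) := by
    intro h
    obtain ⟨r, hr, hb⟩ := Metric.eventually_nhds_iff_ball.1 h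
    obtain ⟨r', hr', h1, h2⟩ : ∃ r', 0 < r' ∧ r' ≤ r ∧ r' ≤ ρ := ⟨min r ρ, lt_min hr hρ, min_le_left _ _, min_le_right _ _⟩
    refine hch.not_const hacc0 hu0 ?_
    refine Z5.w1_ident2 (b3_der_diff hch u) hr' (Metric.mem_ball_self hρ) fun t ht => ?_
    have h3 := hwd (fun i => (u i : ℂ)) t (Metric.ball_subset_ball h2 ht)
    have h4 : HasDerivAt f 0 t := (hasDerivAt_const t (f (y0 0))).congr_of_eventuallyEq
      (Filter.eventually_of_mem (Metric.isOpen_ball.mem_nhds ht) fun x hx => hb x (Metric.ball_subset_ball h1 hx))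
    rw [hfd] at h4
    exact h3.unique h4
  obtain ⟨k, ε0, τ, hk, hε0, hτ0, hτd, hτ', hτi, hτf, hτs⟩ := root_form hfa hfnc
  -- a smaller ball which is mapped into the chart
  have hτc : ContinuousAt τ 0 := (hτd.differentiableAt (Metric.ball_mem_nhds 0 hε0)).continuousAt
  obtain ⟨ε1, hε1, hb1⟩ := Metric.mem_nhds_iff.1 (hτc.preimage_mem_nhds (by rw [hτ0]; exact Metric.ball_mem_nhds _ hρ))
  obtain ⟨ε, hε, hεε0, hεε1⟩ : ∃ ε, 0 < ε ∧ ε ≤ ε0 ∧ ε ≤ ε1 := ⟨min ε0 ε1, lt_min hε0 hε1, min_le_left _ _, min_le_right _ _⟩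
  have se0 := Metric.ball_subset_ball (x := (0 : ℂ)) hεε0
  have hin : ∀ w ∈ Metric.ball (0 : ℂ) ε, τ w ∈ Metric.ball (y0 0) ρ := fun w hw => hb1 (Metric.ball_subset_ball hεε1 hw)
  -- the rays
  have hΩ : {ω : ℂ | ω ^ (2 * k) = -1}.Finite := by
    have h1 : (Polynomial.X ^ (2 * k) - Polynomial.C (-1 : ℂ)) ≠ 0 := Polynomial.X_pow_sub_C_ne_zero (by omega) _
    refine (Polynomial.finite_setOfPred_isRoot h1).subset fun ω hω => ?_
    have h2 : ω ^ (2 * k) = -1 := hω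
    show Polynomial.IsRoot _ ω
    rw [Polynomial.IsRoot.def, Polynomial.eval_sub, Polynomial.eval_pow, Polynomial.eval_X, Polynomial.eval_C, h2, sub_self]
  obtain ⟨ω, hω, hfr⟩ : ∃ ω : ℂ, ω ^ (2 * k) = -1 ∧ ∃ᶠ s : ℝ in 𝓝[>] 0, τ (ω * s) ∈ T := by
    by_contra H
    push Not at H
    have h1 : ∀ᶠ s : ℝ in 𝓝[>] 0, ∀ ω ∈ {ω : ℂ | ω ^ (2 * k) = -1}, τ (ω * s) ∉ T :=
      (Filter.eventually_all_finite hΩ).2 fun ω hω => H ω hω
    obtain ⟨δ, hδ, h2⟩ := mem_nhdsGT_iff_exists_Ioo_subset.1 h1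
    have hδ' : (0 : ℝ) < δ := hδ
    obtain ⟨t, ⟨w, hw, hwt⟩, htT⟩ := hTacc _ (hτs δ hδ')
    have htT' := htT
    rw [hT] at htT'
    obtain ⟨q1, q2, q3, q4, q5⟩ := htT'
    have hw0 : w ≠ 0 := by
      rintro rfl
      rw [hτ0] at hwt
      exact q2 hwt.symm
    have hwn : 0 < ‖w‖ := norm_pos_iff.2 hw0
    have hwb := mem_ball_zero_iff.1 hw
    have hwk : (w ^ k).re = 0 := by
      have e1 := hτf w (mem_ball_zero_iff.2 (lt_of_lt_of_le hwb (min_le_right _ _)))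
      rw [hwt] at e1
      have e2 := congrArg Complex.re e1
      rw [Complex.add_re, hf0, zero_add] at e2
      rw [← e2, hfd]
      exact q4
    have hns : ((‖w‖ : ℝ) : ℂ) ≠ 0 := Complex.ofReal_ne_zero.2 hwn.ne'
    refine h2 (⟨hwn, lt_of_lt_of_le hwb (min_le_left _ _)⟩ : ‖w‖ ∈ Set.Ioo 0 δ) (w / (‖w‖ : ℝ)) ?_ ?_
    · show (w / ((‖w‖ : ℝ) : ℂ)) ^ (2 * k) = -1
      have e1 : w ^ k = ((w ^ k).im : ℂ) * Complex.I := by
        apply Complex.ext <;> simp [hwk]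
      have e2 : ((w ^ k).im) ^ 2 = ‖w‖ ^ (2 * k) := by
        have e3 : ‖w ^ k‖ = |(w ^ k).im| := by rw [e1]; simp
        rw [norm_pow] at e3
        rw [← sq_abs, ← e3, ← pow_mul, mul_comm]
      have e4 : w ^ (2 * k) = -((‖w‖ : ℝ) : ℂ) ^ (2 * k) := by
        rw [mul_comm, pow_mul, e1, mul_pow, Complex.I_sq]
        have e5 : (((w ^ k).im : ℝ) : ℂ) ^ 2 = ((‖w‖ : ℝ) : ℂ) ^ (k * 2) := by
          rw [mul_comm k 2]
          exact_mod_cast e2
        rw [e5]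
        ring
      rw [div_pow, e4, neg_div, div_self (pow_ne_zero _ hns)]
    · rw [div_mul_cancel₀ _ hns, hwt]
      exact htT
  have hωn : ‖ω‖ = 1 := by
    have h1 := congrArg norm hω
    rw [norm_pow, norm_neg, norm_one] at h1
    exact (pow_eq_one_iff_of_nonneg (norm_nonneg _) (by omega)).1 h1
  have hω0 : ω ≠ 0 := by
    intro h
    rw [h, norm_zero] at hωn
    exact zero_ne_one hωn
  have hωk : (ω ^ k).re = 0 := by
    have h1 : (ω ^ k) ^ 2 = -1 := by rw [← pow_mul, mul_comm, hω]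
    have h2 := congrArg Complex.im h1
    have h3 := congrArg Complex.re h1
    rw [sq, Complex.mul_im, Complex.neg_im, Complex.one_im] at h2
    rw [sq, Complex.mul_re, Complex.neg_re, Complex.one_re] at h3
    nlinarith [sq_nonneg (ω ^ k).re, sq_nonneg (ω ^ k).im]
  have hray : ∀ z ∈ Metric.ball (0 : ℂ) ε, ω * z ∈ Metric.ball (0 : ℂ) ε := by
    intro z hz
    rw [mem_ball_zero_iff, norm_mul, hωn, one_mul]
    exact mem_ball_zero_iff.1 hz
  have hreal : ∀ s : ℝ, |s| < ε → (s : ℂ) ∈ Metric.ball (0 : ℂ) ε := by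
    intro s hs
    rw [mem_ball_zero_iff, Complex.norm_real]
    exact hs
  have hFd : ∀ w : Fin m → ℂ, DifferentiableOn ℂ (fun z => ∑ i, w i * ℓ i (τ (ω * z))) (Metric.ball 0 ε) := by
    intro w z hz
    have h1 : DifferentiableAt ℂ (fun z => τ (ω * z)) z :=
      (hτd.differentiableAt (Metric.isOpen_ball.mem_nhds (se0 (hray z hz)))).comp z (differentiableAt_id.const_mul ω)
    have h2 : DifferentiableAt ℂ (fun t => ∑ i, w i * ℓ i t) (τ (ω * z)) :=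
      (hwd w _ (hin _ (hray z hz))).differentiableAt
    exact (h2.comp z h1).differentiableWithinAt
  -- both relations on the ray
  have hru : ∀ s : ℝ, |s| < ε → (∑ i, (u i : ℂ) * ℓ i (τ (ω * s))).re = 0 := by
    intro s hs
    have e1 := hτf (ω * s) (se0 (hray _ (hreal s hs)))
    have e2 : (∑ i, (u i : ℂ) * ℓ i (τ (ω * s))) = f (y0 0) + (ω * s) ^ k := by
      rw [← e1, hfd]
    rw [e2, Complex.add_re, hf0, zero_add, mul_pow, ← Complex.ofReal_pow, Complex.re_mul_ofReal, hωk, zero_mul]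
  have hGray : ∀ s : ℝ, |s| < ε → ev2 G (τ (ω * s)) ((starRingEnd ℂ) (τ (ω * s))) = 0 := by
    have hd1 : DifferentiableOn ℂ (fun z => τ (ω * z)) (Metric.ball 0 ε) := fun z hz =>
      ((hτd.differentiableAt (Metric.isOpen_ball.mem_nhds (se0 (hray z hz)))).comp z
        (differentiableAt_id.const_mul ω)).differentiableWithinAt
    have hd2 : DifferentiableOn ℂ (fun z => (starRingEnd ℂ) (τ (ω * (starRingEnd ℂ) z))) (Metric.ball 0 ε) := by
      intro z hz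
      have hz' : (starRingEnd ℂ) z ∈ Metric.ball (0 : ℂ) ε := by
        rw [mem_ball_zero_iff, Complex.norm_conj]
        exact mem_ball_zero_iff.1 hz
      have h4 := (hd1.differentiableAt (Metric.isOpen_ball.mem_nhds hz')).conj_conj
      rw [Complex.conj_conj] at h4
      exact h4.differentiableWithinAt
    have hd3 : DifferentiableOn ℂ (fun z => ev2 G (τ (ω * z)) ((starRingEnd ℂ) (τ (ω * (starRingEnd ℂ) z))))
        (Metric.ball 0 ε) := by
      intro z hz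
      have h1 : DifferentiableAt ℂ (fun p : ℂ × ℂ => ev2 G p.1 p.2)
          (τ (ω * z), (starRingEnd ℂ) (τ (ω * (starRingEnd ℂ) z))) :=
        (Z5.c2_contDiff G).contDiffAt.differentiableAt one_ne_zero
      have h2 : DifferentiableAt ℂ (fun z : ℂ => ((τ (ω * z), (starRingEnd ℂ) (τ (ω * (starRingEnd ℂ) z))) : ℂ × ℂ)) z :=
        (hd1.differentiableAt (Metric.isOpen_ball.mem_nhds hz)).prodMk
          (hd2.differentiableAt (Metric.isOpen_ball.mem_nhds hz))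
      exact (DifferentiableAt.comp z
        (f := fun z : ℂ => ((τ (ω * z), (starRingEnd ℂ) (τ (ω * (starRingEnd ℂ) z))) : ℂ × ℂ)) h1 h2).differentiableWithinAt
    have h5 := (hd3.analyticOnNhd Metric.isOpen_ball).eqOn_zero_of_preconnected_of_frequently_eq_zero
      (convex_ball (0 : ℂ) ε).isPreconnected (Metric.mem_ball_self hε) (by
        have hmap : Tendsto (fun s : ℝ => (s : ℂ)) (𝓝[>] (0 : ℝ)) (𝓝[≠] (0 : ℂ)) := by
          refine tendsto_nhdsWithin_iff.2 ⟨?_, ?_⟩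
          · have h6 := (Complex.continuous_ofReal.tendsto (0 : ℝ)).mono_left (nhdsWithin_le_nhds (s := Set.Ioi 0))
            rwa [Complex.ofReal_zero] at h6
          · filter_upwards [self_mem_nhdsWithin] with s hs
            have hs' : (0 : ℝ) < s := hs
            exact Complex.ofReal_ne_zero.2 hs'.ne'
        refine hmap.frequently (hfr.mono fun s hs => ?_)
        rw [hT] at hs
        obtain ⟨q1, -, q3, -, q5⟩ := hs
        have h6 := hGB _ q3 q5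
        rw [hch.id0 _ q1] at h6
        show ev2 G (τ (ω * s)) ((starRingEnd ℂ) (τ (ω * (starRingEnd ℂ) (s : ℂ)))) = 0
        rw [Complex.conj_ofReal]
        exact h6)
    intro s hs
    have h6 := h5 (hreal s hs)
    have h7 : ev2 G (τ (ω * s)) ((starRingEnd ℂ) (τ (ω * (starRingEnd ℂ) (s : ℂ)))) = 0 := h6
    rwa [Complex.conj_ofReal] at h7
  -- a regular point of the ray
  obtain ⟨s1, hs1, hs1ε⟩ : ∃ s1 : ℝ, 0 < s1 ∧ s1 < ε := ⟨ε / 2, by linarith, by linarith⟩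
  have hs1a : |s1| < ε := by rw [abs_of_pos hs1]; exact hs1ε
  have hw1 := hray _ (hreal s1 hs1a)
  have hw10 : ω * s1 ≠ 0 := mul_ne_zero hω0 (Complex.ofReal_ne_zero.2 hs1.ne')
  have ht1 := hin _ hw1
  have hcr : ∑ i, (u i : ℂ) * (deriv (η i) (τ (ω * s1)) / η i (τ (ω * s1))) ≠ 0 := by
    intro h
    have h1 := (hwd (fun i => (u i : ℂ)) _ ht1)
    rw [h] at h1
    have h2 : HasDerivAt τ (deriv τ (ω * s1)) (ω * s1) :=
      (hτd.differentiableAt (Metric.isOpen_ball.mem_nhds (se0 hw1))).hasDerivAt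
    have h3 := h1.comp (ω * s1 : ℂ) h2
    rw [zero_mul] at h3
    have h4 : HasDerivAt (fun w : ℂ => f (y0 0) + w ^ k) 0 (ω * s1) := by
      refine h3.congr_of_eventuallyEq (Filter.eventually_of_mem (Metric.isOpen_ball.mem_nhds (se0 hw1)) fun x hx => ?_)
      have h5 := hτf x hx
      rw [hfd] at h5
      rw [hfd]
      exact h5.symm
    have h5 := h4.unique ((hasDerivAt_pow k (ω * s1 : ℂ)).const_add (f (y0 0)))
    exact mul_ne_zero (Nat.cast_ne_zero.2 hk.ne') (pow_ne_zero _ hw10) h5.symm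
  have hτs1 : ContinuousAt (fun s : ℝ => τ (ω * s)) s1 := by
    have h1 : ContinuousAt τ (ω * s1) := (hτd.differentiableAt (Metric.isOpen_ball.mem_nhds (se0 hw1))).continuousAt
    exact h1.comp_of_eq (by fun_prop) rfl
  have hεs : ∀ᶠ s : ℝ in 𝓝 s1, |s| < ε := (continuous_abs.tendsto s1).eventually (gt_mem_nhds hs1a)
  obtain ⟨ρ1, hρ1, hsub1⟩ := Metric.isOpen_iff.1 Metric.isOpen_ball _ ht1
  obtain ⟨J, hJ, N, sv, ⟨av, hua⟩, hev⟩ := h3_local (t0 := τ (ω * s1)) hρ1 (η := η) (ℓ := ℓ)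
    (fun i => ⟨(hch.diff i).mono hsub1, D.q i, D.hq0 i, fun t ht => hch.eq i t (hsub1 ht)⟩)
    (fun i t ht => hch.ne i t (hsub1 ht)) (fun i t ht => hch.der i t (hsub1 ht)) (fun i t ht => hch.exp i t (hsub1 ht))
    (u := u) hcr hG0
    (fun O hO => by
      have h1 : ∀ᶠ s : ℝ in 𝓝[≠] s1, τ (ω * s) ∈ O ∧ |s| < ε :=
        ((hτs1.eventually_mem hO).and hεs).filter_mono nhdsWithin_le_nhds
      obtain ⟨s, ⟨h2, h3⟩, h4⟩ := (h1.and self_mem_nhdsWithin).exists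
      refine ⟨_, h2, fun e => h4 ?_, ?_, hGray s h3⟩
      · have h5 := hτi (se0 (hray _ (hreal s h3))) (se0 hw1) e
        exact Complex.ofReal_injective (mul_left_cancel₀ hω0 h5)
      · rw [← hdt u _ (hin _ (hray _ (hreal s h3)))]
        exact hru s h3)
  obtain ⟨j, hj⟩ : ∃ j, N j ≠ 0 := by
    by_contra H
    push Not at H
    apply hu0
    funext i
    rw [hua i]
    refine Finset.sum_eq_zero fun j _ => ?_
    rw [H j, Pi.zero_apply, Int.cast_zero, mul_zero]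
  -- the integral relation on the whole ray
  have hall : ∀ s : ℝ, |s| < ε → ∑ i, (N j i : ℝ) * (ℓ i (τ (ω * s))).re = sv j := by
    intro s hs
    have h1 : ∀ᶠ s : ℝ in 𝓝[≠] s1, (dt u (lg fun i => η i (τ (ω * s))) = 0 →
        ∀ j, ∑ i, (N j i : ℝ) * lg (fun i => η i (τ (ω * s))) i = sv j) ∧ |s| < ε :=
      ((hτs1.eventually hev).and hεs).filter_mono nhdsWithin_le_nhds
    have h3 := h1_real (hFd fun i => ((N j i : ℝ) : ℂ)) hs1a (c := sv j) ((h1.mono fun s hs => by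
      have h4 := hin _ (hray _ (hreal s hs.2))
      rw [hdt (fun i => (N j i : ℝ)) _ h4]
      exact hs.1 (by rw [← hdt u _ h4]; exact hru s hs.2) j).frequently) s hs
    rwa [hsumre (fun i => (N j i : ℝ))] at h3
  have hnorm : ∀ (a : Fin m → ℤ) (t : ℂ), t ∈ Metric.ball (y0 0) ρ →
      ‖∏ i, η i t ^ a i‖ = Real.exp (∑ i, (a i : ℝ) * (ℓ i t).re) := by
    intro a t ht
    rw [norm_prod, Real.exp_sum]
    refine Finset.prod_congr rfl fun i _ => ?_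
    have e1 : Real.exp (ℓ i t).re = ‖η i t‖ := by rw [← hch.exp i t ht, Complex.norm_exp]
    rw [norm_zpow, ← e1, mul_comm, Real.exp_mul, Real.rpow_intCast]
  have hF := hI (N j) hj (Real.exp (sv j))
  have hF0 : (((fun y : Fin m → ℂ => y 0) '' {y | y ∈ D.C ∧ y ∈ B ∧ ‖∏ i, y i ^ N j i‖ = Real.exp (sv j)}) \ {y0 0}).Finite :=
    (hF.image _).sdiff
  have hτt : Tendsto (fun s : ℝ => τ (ω * s)) (𝓝[>] 0) (𝓝 (y0 0)) := by
    have h1 : ContinuousAt (fun s : ℝ => τ (ω * s)) 0 := by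
      have h2 : ContinuousAt τ (ω * ((0 : ℝ) : ℂ)) := by rw [Complex.ofReal_zero, mul_zero]; exact hτc
      exact h2.comp_of_eq (by fun_prop) rfl
    have h3 := h1.tendsto.mono_left (nhdsWithin_le_nhds (s := Set.Ioi 0))
    rwa [Complex.ofReal_zero, mul_zero, hτ0] at h3
  have hmem := hτt.eventually (hF0.isClosed.isOpen_compl.mem_nhds (by simp))
  have hεs0 : ∀ᶠ s : ℝ in 𝓝[>] 0, |s| < ε :=
    ((continuous_abs.tendsto (0 : ℝ)).eventually (gt_mem_nhds (by rw [abs_zero]; exact hε))).filter_mono nhdsWithin_le_nhds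
  obtain ⟨s, hsT, hsF, hsε⟩ := (hfr.and_eventually (hmem.and hεs0)).exists
  rw [hT] at hsT
  obtain ⟨q1, q2, q3, -, q5⟩ := hsT
  exact hsF ⟨⟨fun i => η i (τ (ω * s)), ⟨q3, q5, by rw [hnorm (N j) _ q1, hall s hsε]⟩, hch.id0 _ q1⟩, q2⟩

end Pool.Agent.Z7
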