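import Pool.Agent.Z7.R0
import Pool.Agent.Z7.A2
import Pool.Agent.Z6.K0

namespace Pool.Agent.Z7

open Pool.Agent.ZL2 Filter Topology
open Pool.Agent.Z5 (fr Gen ev2 sum_le_hh bp_ineq fr_mono fr_true k0_ev k0_roots n2_hh_inv n2_hh_mul)
open Pool.Agent.Z6 (dt)

/-- A sequence of points `(x, y)` of the surface over number fields `K n`, extensions of `F`, inside `ℂ`. -/
structure Ar (F : Type) [Field F] [NumberField F] [Algebra F ℂ] {m : ℕ} [NeZero m] (S : Sf m) where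
  hm : 2 ≤ m
  rat : Rat S.toCv
  hH : HHp S.toCv
  Φ : MvPolynomial (Fin 2) (MvPolynomial (Fin m) F)
  hΦ : MvPolynomial.map (MvPolynomial.map (algebraMap F ℂ)) Φ = S.Φ
  K : ℕ → Type
  [fld : ∀ n, Field (K n)]
  [nf : ∀ n, NumberField (K n)]
  [alg : ∀ n, Algebra F (K n)]
  [fd : ∀ n, FiniteDimensional F (K n)]
  j : ∀ n, K n →ₐ[F] ℂ
  x : ∀ n, Fin 2 → K n
  y : ∀ n, Fin m → K n
  hx : ∀ n i, x n i ≠ 0
  hy : ∀ n (σ : K n →ₐ[F] ℂ), (fun i => σ (y n i)) ∈ S.C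
  hyE : ∀ n (σ : K n →ₐ[F] ℂ), (fun i => σ (y n i)) ∉ S.E
  hP : ∀ n (σ : K n →ₐ[F] ℂ), evP S.Φ (fun i => σ (x n i)) (fun i => σ (y n i)) = 0
  inj : Function.Injective (fun n i => j n (y n i))

attribute [instance] Ar.fld Ar.nf Ar.alg Ar.fd

variable {F : Type} [Field F] [NumberField F] [Algebra F ℂ] {m : ℕ} [NeZero m] {S : Sf m}

theorem Ar.y_ne (A : Ar F S) (n : ℕ) (i : Fin m) : A.y n i ≠ 0 := by
  intro h
  apply S.ne _ (A.hy n (A.j n)) i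
  show A.j n (A.y n i) = 0
  rw [h, map_zero]

theorem Ar.infinite (A : Ar F S) : S.C.Infinite :=
  Set.infinite_of_injective_forall_mem A.inj (fun n => A.hy n (A.j n))

/-- The value of the coefficient `α` of `Φ` at the point `y n`. -/
noncomputable def Ar.co (A : Ar F S) (n : ℕ) (α : Fin 2 →₀ ℕ) : A.K n := MvPolynomial.aeval (A.y n) (A.Φ.coeff α)

/-- Row Z7-K0a. -/
theorem Ar.map_co (A : Ar F S) (n : ℕ) (σ : A.K n →ₐ[F] ℂ) (α : Fin 2 →₀ ℕ) :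
    σ (A.co n α) = MvPolynomial.eval (fun i => σ (A.y n i)) (S.Φ.coeff α) := by
  have h1 : S.Φ.coeff α = MvPolynomial.map (algebraMap F ℂ) (A.Φ.coeff α) := by
    rw [← A.hΦ, MvPolynomial.coeff_map]
  have h2 : σ (A.co n α) = MvPolynomial.aeval (fun i => σ (A.y n i)) (A.Φ.coeff α) := by
    unfold Ar.co
    rw [MvPolynomial.comp_aeval_apply]
  rw [h2, h1, MvPolynomial.eval_map, MvPolynomial.aeval_def]

/-- Row Z7-K0b. `S.coef` and `map_co`. -/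
theorem Ar.co_ne (A : Ar F S) (n : ℕ) {α : Fin 2 →₀ ℕ} (hα : α ∈ S.Φ.support) : A.co n α ≠ 0 := by
  intro h
  apply S.coef _ (A.hy n (A.j n)) (A.hyE n (A.j n)) α hα
  rw [← A.map_co n (A.j n) α, h, map_zero]

/-- Row Z7-K0c. As `Z6.Ar.gen1`: the `j n (y n 0)` take every value finitely often (`S.fib`, `inj`). -/
theorem Ar.gen1 (A : Ar F S) {U : Filter ℕ} (hU : U ≤ cofinite) {B0 : ℝ}
    (hB : ∀ᶠ n in U, hh (A.y n 0) ≤ B0 * Module.finrank ℚ (A.K n)) :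
    Gen (k := 1) U ((Module.finrank ℚ F : ℝ) * (((1 : ℕ) : ℝ) * B0 + (((1 : ℕ) : ℝ) + 1) * Real.log 2))
      (fun n (σ : A.K n →ₐ[F] ℂ) _ => σ (A.y n 0)) := by
  intro L f hL hf0 hf C0 hC
  have hfin := k0_roots f hf0
  have h1 : {n : ℕ | ev f (fun _ => A.j n (A.y n 0)) = 0}.Finite := by
    have h2 : (⋃ x ∈ {x : ℂ | ev f (fun _ => x) = 0}, {y | y ∈ S.C ∧ y 0 = x}).Finite :=
      hfin.biUnion fun x _ => S.fib x
    refine Set.Finite.subset (h2.preimage (A.inj.injOn)) ?_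
    intro n hn
    simp only [Set.mem_preimage, Set.mem_iUnion]
    exact ⟨A.j n (A.y n 0), hn, A.hy n (A.j n), rfl⟩
  have h3 : ∀ᶠ n in U, ¬ (ev f (fun _ => A.j n (A.y n 0)) = 0) := by
    refine hU ?_
    rw [Filter.mem_cofinite]
    refine h1.subset ?_
    intro n hn
    by_contra h
    exact hn h
  filter_upwards [h3, hB] with n hn hBn
  have ht0 : A.y n 0 ≠ 0 := A.y_ne n 0
  have hev0 : ev f (fun _ : Fin 1 => A.y n 0) ≠ 0 := by
    intro h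
    apply hn
    have h4 := k0_ev (A.j n : A.K n →+* ℂ) f (fun _ => A.y n 0)
    rw [h, map_zero] at h4
    exact h4.symm
  exact bp_ineq hL f hf (fun _ : Fin 1 => A.y n 0) (fun _ => ht0) (fun _ => hBn) hev0 hC

/-- Row Z7-K0d. `hb` (row R0) for the `y n i`, `hh_mv` (row T1) for the coefficients. -/
theorem Ar.exists_bound (A : Ar F S) : ∃ B0 : ℝ, 0 ≤ B0 ∧ ∀ n (u : Fin m → ℝ), dt u u = 1 →
    (∀ p : Pl (A.K n), ∑ i, u i * lv p (A.y n i) = 0) →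
      (∀ i, hh (A.y n i) ≤ B0 * Module.finrank ℚ (A.K n)) ∧
      ∀ α ∈ S.Φ.support, hh (A.co n α) ≤ B0 * Module.finrank ℚ (A.K n) := by
  obtain ⟨B1, hB1, hb1⟩ := hb S.toCv A.rat A.infinite
  choose Cf hCf hCf1 using fun α : Fin 2 →₀ ℕ => hh_mv (A.Φ.coeff α)
  have hS0 : 0 ≤ ∑ α ∈ S.Φ.support, Cf α := Finset.sum_nonneg fun α _ => hCf α
  have hm0 : (0 : ℝ) ≤ (m : ℝ) * B1 + 1 := by positivity
  refine ⟨B1 + (∑ α ∈ S.Φ.support, Cf α) * ((m : ℝ) * B1 + 1), by positivity, fun n u hu hr => ?_⟩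
  have h1 := hb1 (A.K n) (A.j n : A.K n →+* ℂ) (A.y n) (A.hy n (A.j n)) u hu hr
  have hD : (0 : ℝ) ≤ (Module.finrank ℚ (A.K n) : ℝ) := Nat.cast_nonneg _
  have hP : 0 ≤ (∑ α ∈ S.Φ.support, Cf α) * ((m : ℝ) * B1 + 1) := mul_nonneg hS0 hm0
  refine ⟨fun i => (h1 i).trans (mul_le_mul_of_nonneg_right (by linarith) hD), fun α hα => ?_⟩
  have h2 := hCf1 α (A.K n) (A.y n)
  have h3 : ∑ i, hh (A.y n i) ≤ (m : ℝ) * B1 * Module.finrank ℚ (A.K n) := by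
    refine (Finset.sum_le_sum fun i _ => h1 i).trans (le_of_eq ?_)
    rw [Finset.sum_const, Finset.card_univ, Fintype.card_fin, nsmul_eq_mul]
    ring
  have h4 : Cf α ≤ ∑ α ∈ S.Φ.support, Cf α := Finset.single_le_sum (fun α _ => hCf α) hα
  have h5 : hh (A.co n α) ≤ Cf α * (((m : ℝ) * B1 + 1) * Module.finrank ℚ (A.K n)) := by
    refine h2.trans (mul_le_mul_of_nonneg_left ?_ (hCf α))
    linarith
  refine h5.trans ?_
  have h6 : Cf α * (((m : ℝ) * B1 + 1) * Module.finrank ℚ (A.K n)) ≤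
      (∑ α ∈ S.Φ.support, Cf α) * (((m : ℝ) * B1 + 1) * Module.finrank ℚ (A.K n)) :=
    mul_le_mul_of_nonneg_right h4 (mul_nonneg hm0 hD)
  have h7 : 0 ≤ B1 * (Module.finrank ℚ (A.K n) : ℝ) := mul_nonneg hB1 hD
  have h8 : (B1 + (∑ α ∈ S.Φ.support, Cf α) * ((m : ℝ) * B1 + 1)) * (Module.finrank ℚ (A.K n) : ℝ) =
      B1 * (Module.finrank ℚ (A.K n) : ℝ) +
        (∑ α ∈ S.Φ.support, Cf α) * (((m : ℝ) * B1 + 1) * Module.finrank ℚ (A.K n)) := by ring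
  rw [h8]
  linarith

/-- The constant of `exists_bound`. -/
noncomputable def Ar.B0 (A : Ar F S) : ℝ := Classical.choose A.exists_bound

theorem Ar.hB0 (A : Ar F S) : 0 ≤ A.B0 ∧ ∀ n (u : Fin m → ℝ), dt u u = 1 →
    (∀ p : Pl (A.K n), ∑ i, u i * lv p (A.y n i) = 0) →
      (∀ i, hh (A.y n i) ≤ A.B0 * Module.finrank ℚ (A.K n)) ∧
      ∀ α ∈ S.Φ.support, hh (A.co n α) ≤ A.B0 * Module.finrank ℚ (A.K n) :=
  Classical.choose_spec A.exists_bound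

theorem Ar.lg_eq (A : Ar F S) (n : ℕ) (σ : A.K n →ₐ[F] ℂ) (i : Fin m) :
    lg (fun i => σ (A.y n i)) i = lv (Sum.inl (σ : A.K n →+* ℂ) : Pl (A.K n)) (A.y n i) := rfl

/-- Row Z7-K0e. As `Z6.Ar.no_two` (`lemI` of row A2 with `J = Unit`). -/
theorem Ar.no_two (A : Ar F S) (u v : ℕ → Fin m → ℝ) (hu : ∀ n, dt (u n) (u n) = 1)
    (hv : ∀ n, dt (v n) (v n) = 1) (huv : ∀ n, dt (u n) (v n) = 0)
    (h1 : ∀ n (p : Pl (A.K n)), ∑ i, u n i * lv p (A.y n i) = 0)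
    (h2 : ∀ n (p : Pl (A.K n)), ∑ i, v n i * lv p (A.y n i) = 0) : False := by
  have hne : ∀ n, Nonempty (A.K n →ₐ[F] ℂ) := fun n => ⟨A.j n⟩
  have hU : ((Filter.hyperfilter ℕ : Ultrafilter ℕ) : Filter ℕ) ≤ cofinite := Filter.hyperfilter_le_cofinite
  have hg := A.gen1 hU (Eventually.of_forall fun n => (A.hB0.2 n (u n) (hu n) (h1 n)).1 0)
  refine lemI S.toCv A.hH (Filter.hyperfilter ℕ) (ι := fun n => A.K n →ₐ[F] ℂ)
    (B := 2 * A.B0 * (Module.finrank ℚ F : ℝ)) (J := Unit) (fun n σ i => σ (A.y n i)) hg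
    (fun n σ => A.hy n σ) ?_ u (fun n _ => v n) hu
    (fun n _ => hv n) (fun n _ => huv n) (fun _ => 0) tendsto_const_nhds ?_
  · intro n i
    exact sum_le_hh (F := F) (A.y_ne n i) ((A.hB0.2 n (u n) (hu n) (h1 n)).1 i)
  · refine Eventually.of_forall fun n => ?_
    have h3 : (1 : ℝ) ≤ fr (fun σ : A.K n →ₐ[F] ℂ => ∃ j : Unit,
        |dt (u n) (lg (fun i => σ (A.y n i)))| ≤ 0 ∧
        |dt (v n) (lg (fun i => σ (A.y n i)))| ≤ 0) := by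
      rw [← fr_true (ι := A.K n →ₐ[F] ℂ)]
      refine fr_mono fun σ _ => ⟨(), ?_, ?_⟩
      · simp only [Z6.dt, A.lg_eq]
        rw [h1 n, abs_zero]
      · simp only [Z6.dt, A.lg_eq]
        rw [h2 n, abs_zero]
    exact le_trans (by norm_num) h3

/-- A sequence of points with the real relations `u, M`. -/
structure ArM (F : Type) [Field F] [NumberField F] [Algebra F ℂ] {m : ℕ} [NeZero m] (S : Sf m) extends Ar F S where
  u : ℕ → Fin m → ℝ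
  M : ℕ → Fin 2 → Fin m → ℝ
  hu : ∀ n, dt (u n) (u n) = 1
  hM : ∀ n j, dt (M n j) (u n) = 0
  r0 : ∀ n (p : Pl (K n)), ∑ i, u n i * lv p (y n i) = 0
  r1 : ∀ n (p : Pl (K n)) (j : Fin 2), lv p (x n j) = ∑ i, M n j i * lv p (y n i)

/-- The sequence of Galois orbits. Row Z7-K0f: the fields `gen`, `hB`, `hφ` as in `Z6.ArM.sq` (`sum_le_hh`). -/
noncomputable def ArM.sq (A : ArM F S) (U : Ultrafilter ℕ) (hU : (U : Filter ℕ) ≤ cofinite) : Sq S U where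
  ι n := A.K n →ₐ[F] ℂ
  fin n := inferInstance
  ne n := ⟨A.j n⟩
  x n σ j := σ (A.x n j)
  y n σ i := σ (A.y n i)
  u := A.u
  M := A.M
  B := 2 * A.B0 * (Module.finrank ℚ F : ℝ)
  κ := (Module.finrank ℚ F : ℝ) * (((1 : ℕ) : ℝ) * A.B0 + (((1 : ℕ) : ℝ) + 1) * Real.log 2)
  hx n σ j := (map_ne_zero _).2 (A.hx n j)
  hy n σ := A.hy n σ
  hyE n σ := A.hyE n σ
  hΦ n σ := A.hP n σ
  hu := A.hu
  hM := A.hM
  r0 n σ := A.r0 n (Sum.inl (σ : A.K n →+* ℂ))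
  r1 n σ j := A.r1 n (Sum.inl (σ : A.K n →+* ℂ)) j
  hB n i := sum_le_hh (F := F) (A.y_ne n i) ((A.hB0.2 n (A.u n) (A.hu n) (A.r0 n)).1 i)
  hφ n α hα := by
    have h1 := sum_le_hh (F := F) (A.co_ne n hα) ((A.hB0.2 n (A.u n) (A.hu n) (A.r0 n)).2 α hα)
    refine le_trans (le_of_eq ?_) h1
    exact Finset.sum_congr rfl fun σ _ => by rw [A.map_co]
  gen := A.gen1 hU (Eventually.of_forall fun n => (A.hB0.2 n (A.u n) (A.hu n) (A.r0 n)).1 0)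

end Pool.Agent.Z7
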