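import Pool.Agent.Z6.N2

namespace Pool.Agent.Z7

open Pool.Agent.ZL2 Filter Topology

/-- Row Z7-T1a. In a vanishing sum of nonzero terms two terms are comparable at every place. Let `k ∈ s` with `lv p (T k)` maximal; `T k = - ∑_{l ≠ k} T l`; archimedean: `‖σ (T k)‖ ≤ (card - 1) max ‖σ (T l)‖`, `log (card - 1) ≤ card * log 2`; finite place: `v (T k) ≤ max v (T l)` (ultrametric inequality). (`s` has at least two elements.) -/
theorem two_terms {K : Type} [Field K] [NumberField K] {ι : Type} (s : Finset ι) (T : ι → K) (hT : ∀ k ∈ s, T k ≠ 0)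
    (hs : s.Nonempty) (h : ∑ k ∈ s, T k = 0) (p : Pl K) :
    ∃ k ∈ s, ∃ l ∈ s, k ≠ l ∧ |lv p (T k) - lv p (T l)| ≤ s.card * ell p := by
  classical
  obtain ⟨k, hk, hmax⟩ := Finset.exists_max_image s (fun k => lv p (T k)) hs
  have h1 : T k = - ∑ l ∈ s.erase k, T l := by
    have := Finset.add_sum_erase s T hk
    rw [h] at this
    exact eq_neg_of_add_eq_zero_left this
  have hne : (s.erase k).Nonempty := by
    rw [Finset.nonempty_iff_ne_empty]
    intro h0
    rw [h0, Finset.sum_empty, neg_zero] at h1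
    exact hT k hk h1
  obtain ⟨l, hl, hmax'⟩ := Finset.exists_max_image (s.erase k) (fun k => lv p (T k)) hne
  have hls := Finset.mem_of_mem_erase hl
  refine ⟨k, hk, l, hls, (Finset.ne_of_mem_erase hl).symm, ?_⟩
  rw [abs_of_nonneg (sub_nonneg.2 (hmax l hls))]
  have hT' : ∀ l' ∈ s.erase k, T l' ≠ 0 := fun l' hl' => hT l' (Finset.mem_of_mem_erase hl')
  rcases p with σ | v
  · simp only [lv, ell, Sum.elim_inl] at hmax' ⊢
    have h2 : ∀ l' ∈ s.erase k, ‖σ (T l')‖ ≤ ‖σ (T l)‖ := fun l' hl' =>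
      (Real.log_le_log_iff (norm_pos_iff.2 ((map_ne_zero σ).2 (hT' l' hl')))
        (norm_pos_iff.2 ((map_ne_zero σ).2 (hT l hls)))).1 (hmax' l' hl')
    have h3 : ‖σ (T k)‖ ≤ (s.erase k).card * ‖σ (T l)‖ := by
      rw [h1, map_neg, norm_neg, map_sum]
      refine (norm_sum_le _ _).trans ?_
      have := Finset.sum_le_card_nsmul _ _ _ h2
      rwa [nsmul_eq_mul] at this
    have hc : (0 : ℝ) < (s.erase k).card := by exact_mod_cast Finset.card_pos.2 hne
    have h4 := Real.log_le_log (norm_pos_iff.2 ((map_ne_zero σ).2 (hT k hk))) h3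
    rw [Real.log_mul hc.ne' (norm_ne_zero_iff.2 ((map_ne_zero σ).2 (hT l hls)))] at h4
    have h5 : Real.log (s.erase k).card ≤ s.card * Real.log 2 := by
      rw [← Real.log_pow]
      refine Real.log_le_log hc ?_
      have h6 : (s.erase k).card ≤ 2 ^ s.card :=
        (Finset.card_le_card (Finset.erase_subset _ _)).trans s.card.lt_two_pow_self.le
      exact_mod_cast h6
    linarith
  · simp only [lv, ell, Sum.elim_inr] at hmax' ⊢
    have h2 : ∀ l' ∈ s.erase k, v (T l') ≤ v (T l) := fun l' hl' =>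
      (Real.log_le_log_iff (NumberField.FinitePlace.pos_iff.2 (hT' l' hl'))
        (NumberField.FinitePlace.pos_iff.2 (hT l hls))).1 (hmax' l' hl')
    have h3 : v (T k) ≤ v (T l) := by
      have e1 := bp6_fin_sum v (s.erase k) T (v (T l)) (apply_nonneg v _) h2
      have e2 := congrArg Real.exp (lv_neg (Sum.inr v : Pl K) (∑ l ∈ s.erase k, T l))
      rw [← h1] at e2
      simp only [lv, Sum.elim_inr] at e2
      have hk0 : 0 < v (T k) := NumberField.FinitePlace.pos_iff.2 (hT k hk)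
      have hs0 : 0 < v (∑ l ∈ s.erase k, T l) := by
        rw [NumberField.FinitePlace.pos_iff]
        intro h0
        rw [h0, neg_zero] at h1
        exact hT k hk h1
      rw [Real.exp_log hk0, Real.exp_log hs0] at e2
      rw [e2]
      exact e1
    have h4 := Real.log_le_log (NumberField.FinitePlace.pos_iff.2 (hT k hk)) h3
    rw [mul_zero]
    linarith

theorem t1_lv0 {K : Type} [Field K] [NumberField K] (p : Pl K) : lv p (0 : K) = 0 := by
  rcases p with σ | v <;> simp [lv]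

theorem t1_FS {K : Type} [Field K] [NumberField K] (x : K) : FS (fun p : Pl K => |lv p x|) := by
  rcases eq_or_ne x 0 with hx | hx
  · subst hx
    simp only [t1_lv0, abs_zero]
    exact FS.zero
  · exact (FS_lv hx).abs

theorem t1_Sm {K : Type} [Field K] [NumberField K] (x : K) : Sm (fun p : Pl K => |lv p x|) = 2 * hh x := by
  rcases eq_or_ne x 0 with hx | hx
  · subst hx
    simp only [t1_lv0, abs_zero]
    rw [Sm_zero, Pool.Agent.Z5.n2_hh_zero, mul_zero]
  · exact Sm_abs hx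

/-- Row Z7-T1b. The height of a root of a polynomial which is not the zero polynomial. Let `L` be the largest index with `a L ≠ 0`; `L ≥ 1`. At a place `p` with `0 < lv p q`: `a_L q^L = - ∑_{k < L} a_k q^k` gives `lv p q ≤ N * ell p + max_k (0 ⊔ lv p (a k)) - lv p (a L)`. So `max 0 (lv p q) ≤ N ell p + ∑_k max 0 (lv p (a k)) + max 0 (- lv p (a L))`;
sum over the places (`Sm_ell`, `hh a⁻¹ = hh a`: `Z5.n2_hh_inv`). `hh 0 = 0`. -/
theorem root_height (N : ℕ) : ∃ C : ℝ, 0 ≤ C ∧ ∀ (K : Type) [Field K] [NumberField K] (a : Fin (N + 1) → K) (q : K),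
    q ≠ 0 → (∃ k, a k ≠ 0) → ∑ k, a k * q ^ (k : ℕ) = 0 →
      hh q ≤ C * (∑ k, hh (a k) + Module.finrank ℚ K) := by
  classical
  have hl2 : 0 ≤ Real.log 2 := Real.log_nonneg (by norm_num)
  have hl2' : Real.log 2 ≤ 1 := by
    have := Real.log_two_lt_d9
    linarith
  refine ⟨N + 1, by positivity, ?_⟩
  intro K _ _ a q hq ha h
  set s : Finset (Fin (N + 1)) := Finset.univ.filter (fun k => a k ≠ 0) with hs
  have h0 : ∑ k ∈ s, a k * q ^ (k : ℕ) = 0 := by
    rw [← h, hs, Finset.sum_filter]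
    refine Finset.sum_congr rfl fun k _ => ?_
    split_ifs with h1
    · rfl
    · rw [not_not.1 h1, zero_mul]
  have hne : s.Nonempty := by
    obtain ⟨k, hk⟩ := ha
    exact ⟨k, Finset.mem_filter.2 ⟨Finset.mem_univ _, hk⟩⟩
  have hak : ∀ k ∈ s, a k ≠ 0 := fun k hk => (Finset.mem_filter.1 hk).2
  have hplace : ∀ p : Pl K, |lv p q| ≤ (N + 1 : ℝ) * ell p + ∑ k, |lv p (a k)| := by
    intro p
    obtain ⟨k, hk, l, hl, hkl, h1⟩ := two_terms s (fun k => a k * q ^ (k : ℕ))
      (fun k hk => mul_ne_zero (hak k hk) (pow_ne_zero _ hq)) hne h0 p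
    rw [lv_mul p (hak k hk) (pow_ne_zero _ hq), lv_mul p (hak l hl) (pow_ne_zero _ hq), lv_pow, lv_pow] at h1
    have h2 : (s.card : ℝ) * ell p ≤ (N + 1 : ℝ) * ell p := by
      refine mul_le_mul_of_nonneg_right ?_ (ell_nonneg p)
      have : s.card ≤ N + 1 := by
        have := Finset.card_le_univ s
        rwa [Fintype.card_fin] at this
      exact_mod_cast this
    have h3 : |lv p (a k)| + |lv p (a l)| ≤ ∑ k, |lv p (a k)| := by
      rw [← Finset.sum_pair (f := fun k => |lv p (a k)|) hkl]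
      exact Finset.sum_le_sum_of_subset_of_nonneg (Finset.subset_univ _) fun _ _ _ => abs_nonneg _
    have h4 : (1 : ℝ) ≤ |((k : ℕ) : ℝ) - ((l : ℕ) : ℝ)| := by
      have h5 : ((k : ℕ) : ℤ) - ((l : ℕ) : ℤ) ≠ 0 := by
        intro h6
        apply hkl
        ext
        omega
      have := Int.one_le_abs h5
      exact_mod_cast this
    have h5 : |lv p q| ≤ |((k : ℕ) : ℝ) - ((l : ℕ) : ℝ)| * |lv p q| := by nlinarith [abs_nonneg (lv p q)]
    have h6 : |((k : ℕ) : ℝ) - ((l : ℕ) : ℝ)| * |lv p q| ≤ s.card * ell p + |lv p (a k)| + |lv p (a l)| := by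
      rw [← abs_mul]
      have e1 := abs_le.1 h1
      have e2 := neg_abs_le (lv p (a k))
      have e3 := le_abs_self (lv p (a k))
      have e4 := neg_abs_le (lv p (a l))
      have e5 := le_abs_self (lv p (a l))
      refine abs_le.2 ⟨?_, ?_⟩ <;> linarith [e1.1, e1.2]
    linarith
  have hFS : ∀ k ∈ (Finset.univ : Finset (Fin (N + 1))), FS (fun p : Pl K => |lv p (a k)|) := fun k _ => t1_FS _
  have h1 := Sm_mono (t1_FS q) ((FS_ell.smul (N + 1 : ℝ)).add (FS.sum Finset.univ hFS)) hplace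
  rw [Sm_add (FS_ell.smul (N + 1 : ℝ)) (FS.sum Finset.univ hFS), Sm_smul, Sm_sum _ hFS, t1_Sm, Sm_ell] at h1
  simp only [t1_Sm] at h1
  rw [← Finset.mul_sum] at h1
  have hD : (0 : ℝ) ≤ Module.finrank ℚ K := Nat.cast_nonneg _
  have hS : 0 ≤ ∑ k, hh (a k) := Finset.sum_nonneg fun k _ => hh_nonneg _
  have hN : (0 : ℝ) ≤ N := Nat.cast_nonneg _
  have h2 : (Module.finrank ℚ K : ℝ) * Real.log 2 ≤ Module.finrank ℚ K := by nlinarith
  have h3 : ((N : ℝ) + 1) * ((Module.finrank ℚ K : ℝ) * Real.log 2) ≤ ((N : ℝ) + 1) * Module.finrank ℚ K :=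
    mul_le_mul_of_nonneg_left h2 (by positivity)
  have h4 : 0 ≤ (N : ℝ) * ∑ k, hh (a k) := mul_nonneg hN hS
  have h5 : 0 ≤ ((N : ℝ) + 1) * Module.finrank ℚ K := by positivity
  nlinarith

/-- Row Z7-T1c. The height of the value of a polynomial in several variables (compare `Z6.hh_poly`): induction on the polynomial, or the sum of the heights of the terms: `hh (a + b) ≤ hh a + hh b + Sm ell`, `hh (a b) ≤ hh a + hh b`, `hh_ext` for the coefficients. -/
theorem hh_mv {F : Type} [Field F] [NumberField F] {m : ℕ} (P : MvPolynomial (Fin m) F) :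
    ∃ C : ℝ, 0 ≤ C ∧ ∀ (K : Type) [Field K] [NumberField K] [Algebra F K] (y : Fin m → K),
      hh (MvPolynomial.aeval y P) ≤ C * (∑ i, hh (y i) + Module.finrank ℚ K) := by
  have hl2 : 0 ≤ Real.log 2 := Real.log_nonneg (by norm_num)
  induction P using MvPolynomial.induction_on with
  | C a =>
    obtain ⟨C, hC, h⟩ := Pool.Agent.Z5.n2_ext a
    refine ⟨C, hC, ?_⟩
    intro K _ _ _ y
    rw [MvPolynomial.aeval_C]
    have h1 := h K
    have h2 : 0 ≤ C * ∑ i, hh (y i) := mul_nonneg hC (Finset.sum_nonneg fun i _ => hh_nonneg _)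
    rw [mul_add]
    linarith
  | add p q hp hq =>
    obtain ⟨C1, hC1, h1⟩ := hp
    obtain ⟨C2, hC2, h2⟩ := hq
    refine ⟨C1 + C2 + Real.log 2, by positivity, ?_⟩
    intro K _ _ _ y
    rw [map_add]
    have e1 := Pool.Agent.Z5.n2_hh_add (MvPolynomial.aeval y p) (MvPolynomial.aeval y q)
    have e2 := h1 K y
    have e3 := h2 K y
    have e4 : 0 ≤ Real.log 2 * ∑ i, hh (y i) := mul_nonneg hl2 (Finset.sum_nonneg fun i _ => hh_nonneg _)
    nlinarith
  | mul_X p i hp =>
    obtain ⟨C1, hC1, h1⟩ := hp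
    refine ⟨C1 + 1, by positivity, ?_⟩
    intro K _ _ _ y
    rw [map_mul, MvPolynomial.aeval_X]
    have e1 := Pool.Agent.Z5.n2_hh_mul (MvPolynomial.aeval y p) (y i)
    have e2 := h1 K y
    have e3 : hh (y i) ≤ ∑ i, hh (y i) := Finset.single_le_sum (f := fun i => hh (y i)) (fun j _ => hh_nonneg _) (Finset.mem_univ i)
    have e4 : (0 : ℝ) ≤ Module.finrank ℚ K := Nat.cast_nonneg _
    nlinarith

end Pool.Agent.Z7
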