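import Pool.Agent.Z6.Defs

namespace Pool.Agent.Z7

open Pool.Agent.Z6 (dt)

/-- Row Z7-T2a. Elementary: if for all pairs `i ≠ k` some nonzero integer relation `e.1 l_i + e.2 l_k` from a finite list is small, then `l` is close to one of finitely many lines. PROOF. Let `i0` be the index with `|l i0|` maximal and choose `e_k ∈ E i0 k` for `k ≠ i0`. If one of the `(e_k).2` is zero then `(e_k).1 ≠ 0`, `|l i0| ≤ c`, so all
`|l i| ≤ c`: `r = 0`. Otherwise `|l k + (e_k.1 / e_k.2) l i0| ≤ c`; `r i0 = ∏_k e_k.2`, `r k = - e_k.1 ∏_{k' ≠ k} e_k'.2`, `s = l i0 / ∏_k e_k.2`. `R` = `0` and all these `r` for all `i0` and all choices `k ↦ e_k` (finitely many). -/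
theorem near_line {m : ℕ} (E : Fin m → Fin m → Finset (ℤ × ℤ)) (hE : ∀ i k, ((0 : ℤ), (0 : ℤ)) ∉ E i k) :
    ∃ (R : Finset (Fin m → ℤ)) (κ : ℝ), 0 ≤ κ ∧ ∀ (l : Fin m → ℝ) (c : ℝ), 0 ≤ c →
      (∀ i k, i ≠ k → ∃ e ∈ E i k, |(e.1 : ℝ) * l i + e.2 * l k| ≤ c) →
        ∃ r ∈ R, ∃ s : ℝ, ∀ i, |l i - s * r i| ≤ κ * c := by
  classical
  set rr : Fin m → (Fin m → ℤ × ℤ) → Fin m → ℤ := fun i0 e k =>
    if k = i0 then ∏ k' ∈ Finset.univ.erase i0, (e k').2
    else - (e k).1 * ∏ k' ∈ (Finset.univ.erase i0).erase k, (e k').2 with hrr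
  refine ⟨insert 0 (Finset.univ.biUnion fun i0 =>
    (Fintype.piFinset (fun k => insert (0, 0) (E i0 k))).image (rr i0)), 1, zero_le_one, ?_⟩
  intro l c hc h
  rcases isEmpty_or_nonempty (Fin m) with hm | hm
  · exact ⟨0, Finset.mem_insert_self _ _, 0, fun i => (hm.false i).elim⟩
  obtain ⟨i0, -, hi0⟩ := Finset.exists_max_image Finset.univ (fun i => |l i|) Finset.univ_nonempty
  have h' : ∀ k, ∃ e : ℤ × ℤ, e ∈ insert (0, 0) (E i0 k) ∧ (k ≠ i0 → e ∈ E i0 k ∧
      |(e.1 : ℝ) * l i0 + e.2 * l k| ≤ c) := by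
    intro k
    by_cases hk : k = i0
    · exact ⟨(0, 0), Finset.mem_insert_self _ _, fun h => absurd hk h⟩
    · obtain ⟨e, he, he2⟩ := h i0 k (Ne.symm hk)
      exact ⟨e, Finset.mem_insert_of_mem he, fun _ => ⟨he, he2⟩⟩
  choose e he he' using h'
  by_cases hz : ∃ k, k ≠ i0 ∧ (e k).2 = 0
  · obtain ⟨k, hk, hk0⟩ := hz
    obtain ⟨h1, h2⟩ := he' k hk
    have h3 : (e k).1 ≠ 0 := by
      intro h4
      apply hE i0 k
      have : e k = (0, 0) := Prod.ext h4 hk0
      rw [← this]; exact h1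
    have h4 : (1 : ℝ) ≤ |((e k).1 : ℝ)| := by
      have := Int.one_le_abs h3
      exact_mod_cast this
    have h5 : |l i0| ≤ c := by
      rw [hk0, Int.cast_zero, zero_mul, add_zero, abs_mul] at h2
      nlinarith [abs_nonneg (l i0)]
    refine ⟨0, Finset.mem_insert_self _ _, 0, fun i => ?_⟩
    rw [zero_mul, sub_zero, one_mul]
    exact (hi0 i (Finset.mem_univ i)).trans h5
  · push Not at hz
    refine ⟨rr i0 e, Finset.mem_insert_of_mem (Finset.mem_biUnion.2 ⟨i0, Finset.mem_univ _,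
      Finset.mem_image_of_mem _ (Fintype.mem_piFinset.2 he)⟩),
      l i0 / ∏ k' ∈ Finset.univ.erase i0, ((e k').2 : ℝ), fun k => ?_⟩
    have hP : ∏ k' ∈ Finset.univ.erase i0, ((e k').2 : ℝ) ≠ 0 := by
      rw [Finset.prod_ne_zero_iff]
      intro k' hk'
      exact_mod_cast hz k' (Finset.ne_of_mem_erase hk')
    rw [one_mul]
    by_cases hk : k = i0
    · subst hk
      simp only [hrr, if_true]
      push_cast
      rw [div_mul_cancel₀ _ hP, sub_self, abs_zero]
      exact hc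
    · obtain ⟨h1, h2⟩ := he' k hk
      have h3 : ((e k).2 : ℝ) ≠ 0 := by exact_mod_cast hz k hk
      have h4 : (1 : ℝ) ≤ |((e k).2 : ℝ)| := by
        have := Int.one_le_abs (hz k hk)
        exact_mod_cast this
      have h5 : ((e k).2 : ℝ) * ∏ k' ∈ (Finset.univ.erase i0).erase k, ((e k').2 : ℝ) =
          ∏ k' ∈ Finset.univ.erase i0, ((e k').2 : ℝ) :=
        Finset.mul_prod_erase _ (fun k' => ((e k').2 : ℝ)) (Finset.mem_erase.2 ⟨hk, Finset.mem_univ _⟩)
      have h6 : l k - l i0 / (∏ k' ∈ Finset.univ.erase i0, ((e k').2 : ℝ)) * (rr i0 e k : ℤ) =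
          (((e k).1 : ℝ) * l i0 + (e k).2 * l k) / (e k).2 := by
        simp only [hrr, if_neg hk]
        push_cast
        rw [← h5] at hP ⊢
        have hP2 := right_ne_zero_of_mul hP
        field_simp
        ring
      rw [h6, abs_div, div_le_iff₀ (abs_pos.2 h3)]
      nlinarith

/-- The dichotomy for a finite set of integer vectors. -/
theorem t2_dich {m : ℕ} (I : Finset (Fin m → ℤ)) :
    ∃ (w : Fin m → ℤ) (B : ℝ), 0 < B ∧ ((w ≠ 0 ∧ ∀ r ∈ I, ∑ i, w i * r i = 0) ∨
    ∀ u : Fin m → ℝ, dt u u = 1 → ∃ r ∈ I, 1 ≤ B * |∑ i, u i * (r i : ℝ)|) := by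
  classical
  set V : Submodule ℚ (Fin m → ℚ) := Submodule.span ℚ ((fun (r : Fin m → ℤ) (i : Fin m) => (r i : ℚ)) '' (I : Set (Fin m → ℤ)))
    with hV
  by_cases h : V = ⊤
  · have h1 : ∀ i : Fin m, ∃ a : (Fin m → ℤ) → ℚ, ∀ k, (if k = i then (1 : ℚ) else 0) = ∑ r ∈ I, a r * (r k : ℚ) := by
      intro i
      have h2 : (Pi.single i 1 : Fin m → ℚ) ∈ V := by rw [h]; exact Submodule.mem_top
      rw [hV, Submodule.mem_span_image_finset_iff_exists_fun'] at h2
      obtain ⟨a, ha⟩ := h2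
      refine ⟨a, fun k => ?_⟩
      have h3 := congrFun ha k
      rw [Finset.sum_apply] at h3
      simp only [Pi.smul_apply, smul_eq_mul, Pi.single_apply] at h3
      exact h3.symm
    choose a ha using h1
    set A : Fin m → ℝ := fun i => ∑ r ∈ I, |(a i r : ℝ)| with hA
    have hA0 : ∀ i, 0 ≤ A i := fun i => Finset.sum_nonneg fun _ _ => abs_nonneg _
    have hAs : 0 ≤ ∑ i, A i := Finset.sum_nonneg fun i _ => hA0 i
    refine ⟨0, 1 + ∑ i, A i, by positivity, Or.inr ?_⟩
    intro u hu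
    by_contra hc
    push Not at hc
    set B : ℝ := 1 + ∑ i, A i with hB
    have hB0 : 0 < B := by positivity
    have h2 : ∀ i, u i = ∑ r ∈ I, (a i r : ℝ) * ∑ k, u k * (r k : ℝ) := by
      intro i
      have h3 : ∀ k, (if k = i then (1 : ℝ) else 0) = ∑ r ∈ I, (a i r : ℝ) * (r k : ℝ) := by
        intro k
        have := ha i k
        have h4 := congrArg (fun x : ℚ => (x : ℝ)) this
        simp only [Rat.cast_sum, Rat.cast_mul, Rat.cast_intCast] at h4
        rw [← h4]
        split_ifs <;> simp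
      calc u i = ∑ k, u k * (if k = i then (1 : ℝ) else 0) := by simp
        _ = ∑ k, ∑ r ∈ I, u k * ((a i r : ℝ) * (r k : ℝ)) := by
            refine Finset.sum_congr rfl fun k _ => ?_
            rw [h3 k, Finset.mul_sum]
        _ = ∑ r ∈ I, (a i r : ℝ) * ∑ k, u k * (r k : ℝ) := by
            rw [Finset.sum_comm]
            refine Finset.sum_congr rfl fun r _ => ?_
            rw [Finset.mul_sum]
            exact Finset.sum_congr rfl fun k _ => by ring
    have h3 : ∀ i, |u i| * B ≤ A i := by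
      intro i
      have h4 : |u i| ≤ ∑ r ∈ I, |(a i r : ℝ)| * |∑ k, u k * (r k : ℝ)| := by
        conv_lhs => rw [h2 i]
        refine (Finset.abs_sum_le_sum_abs _ _).trans (Finset.sum_le_sum fun r _ => ?_)
        rw [abs_mul]
      calc |u i| * B ≤ (∑ r ∈ I, |(a i r : ℝ)| * |∑ k, u k * (r k : ℝ)|) * B :=
            mul_le_mul_of_nonneg_right h4 hB0.le
        _ = ∑ r ∈ I, |(a i r : ℝ)| * (B * |∑ k, u k * (r k : ℝ)|) := by
            rw [Finset.sum_mul]
            exact Finset.sum_congr rfl fun r _ => by ring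
        _ ≤ ∑ r ∈ I, |(a i r : ℝ)| * 1 := Finset.sum_le_sum fun r hr =>
            mul_le_mul_of_nonneg_left (hc r hr).le (abs_nonneg _)
        _ = A i := by simp only [mul_one, hA]
    have h4 : B ^ 2 ≤ (∑ i, A i) ^ 2 := by
      calc B ^ 2 = dt u u * B ^ 2 := by rw [hu, one_mul]
        _ = ∑ i, (|u i| * B) ^ 2 := by
            unfold Pool.Agent.Z6.dt
            rw [Finset.sum_mul]
            refine Finset.sum_congr rfl fun i _ => ?_
            rw [mul_pow, sq_abs]; ring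
        _ ≤ ∑ i, (A i) ^ 2 := Finset.sum_le_sum fun i _ => pow_le_pow_left₀ (by positivity) (h3 i) 2
        _ ≤ (∑ i, A i) ^ 2 := Finset.sum_sq_le_sq_sum_of_nonneg fun i _ => hA0 i
    rw [hB] at h4
    nlinarith
  · obtain ⟨f, hf0, hf⟩ := V.exists_le_ker_of_lt_top (lt_top_iff_ne_top.2 h)
    obtain ⟨b, hb⟩ := IsLocalization.exist_integer_multiples_of_finite (nonZeroDivisors ℤ)
      (fun i : Fin m => f (Pi.single i 1))
    choose w hw using hb
    have hb0 : ((b : ℤ) : ℚ) ≠ 0 := by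
      have := nonZeroDivisors.coe_ne_zero b
      exact_mod_cast this
    have hw' : ∀ i, ((w i : ℤ) : ℚ) = (b : ℤ) * f (Pi.single i 1) := by
      intro i
      have h1 := hw i
      rw [zsmul_eq_mul] at h1
      simpa using h1
    have hfs : ∀ v : Fin m → ℚ, f v = ∑ i, v i * f (Pi.single i 1) := by
      intro v
      rw [LinearMap.pi_apply_eq_sum_univ f v]
      refine Finset.sum_congr rfl fun i _ => ?_
      rw [smul_eq_mul]
      congr 2
      ext j
      simp [Pi.single_apply, eq_comm]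
    refine ⟨w, 1, one_pos, Or.inl ⟨?_, ?_⟩⟩
    · intro hw0
      apply hf0
      refine LinearMap.ext fun v => ?_
      rw [hfs v, LinearMap.zero_apply]
      refine Finset.sum_eq_zero fun i _ => ?_
      have h1 := hw' i
      rw [hw0, Pi.zero_apply, Int.cast_zero] at h1
      rcases mul_eq_zero.1 h1.symm with h2 | h2
      · exact absurd h2 hb0
      · rw [h2, mul_zero]
    · intro r hr
      have h1 : (fun i => (r i : ℚ)) ∈ V := Submodule.subset_span ⟨r, hr, rfl⟩
      have h2 := hf h1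
      rw [LinearMap.mem_ker, hfs] at h2
      have h3 : ((∑ i, w i * r i : ℤ) : ℚ) = 0 := by
        push_cast
        calc ∑ i, ((w i : ℤ) : ℚ) * (r i : ℚ) = (b : ℤ) * ∑ i, (r i : ℚ) * f (Pi.single i 1) := by
              rw [Finset.mul_sum]
              refine Finset.sum_congr rfl fun i _ => ?_
              rw [hw' i]; ring
          _ = 0 := by rw [h2, mul_zero]
      exact_mod_cast h3

/-- Row Z7-T2b. For a subset `I ⊆ R` either the vectors of `I` span `ℝ^m` and then `β_I > 0` exists such that every `u` with `dt u u = 1` has some `r ∈ I` with `|∑ u_i r_i| ≥ β_I` (otherwise a limit point of unit vectors, or linear algebra: the basis vectors are combinations of the `r`), or there is a nonzero integer vector `w_I` orthogonal to `I`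
(rational linear algebra). `δ = min β_I`; for `u` let `I = {r ∈ R | |∑ u_i r_i| < δ}`: it does not span, `w = w_I`. -/
theorem choose_w {m : ℕ} (R : Finset (Fin m → ℤ)) :
    ∃ (W : Finset (Fin m → ℤ)) (B : ℝ), 0 < B ∧ (∀ w ∈ W, w ≠ 0) ∧ ∀ u : Fin m → ℝ, dt u u = 1 →
      ∃ w ∈ W, ∀ r ∈ R, (∑ i, w i * r i = 0) ∨ 1 ≤ B * |∑ i, u i * (r i : ℝ)| := by
  classical
  choose w B hB hd using fun I : Finset (Fin m → ℤ) => t2_dich I
  have hS : 0 ≤ ∑ I ∈ R.powerset, B I := Finset.sum_nonneg fun I _ => (hB I).le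
  refine ⟨(R.powerset.image w).filter (fun v => v ≠ 0), 1 + ∑ I ∈ R.powerset, B I, by positivity,
    fun v hv => (Finset.mem_filter.1 hv).2, ?_⟩
  intro u hu
  set B0 : ℝ := 1 + ∑ I ∈ R.powerset, B I with hB0
  set I : Finset (Fin m → ℤ) := R.filter (fun r => B0 * |∑ i, u i * (r i : ℝ)| < 1) with hI
  have hIR : I ∈ R.powerset := Finset.mem_powerset.2 (Finset.filter_subset _ _)
  have hBI : B I ≤ B0 := by
    have := Finset.single_le_sum (f := B) (fun J _ => (hB J).le) hIR
    linarith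
  rcases hd I with ⟨h1, h2⟩ | h1
  · refine ⟨w I, Finset.mem_filter.2 ⟨Finset.mem_image_of_mem _ hIR, h1⟩, fun r hr => ?_⟩
    by_cases h3 : B0 * |∑ i, u i * (r i : ℝ)| < 1
    · exact Or.inl (h2 r (Finset.mem_filter.2 ⟨hr, h3⟩))
    · exact Or.inr (not_lt.1 h3)
  · obtain ⟨r, hr, hr1⟩ := h1 u hu
    have h3 := (Finset.mem_filter.1 hr).2
    have h4 : B I * |∑ i, u i * (r i : ℝ)| ≤ B0 * |∑ i, u i * (r i : ℝ)| :=
      mul_le_mul_of_nonneg_right hBI (abs_nonneg _)
    linarith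

end Pool.Agent.Z7
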