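import Pool.Agent.Z7.Defs
import Pool.Agent.Z7.T1
import Pool.Agent.Z7.T2

namespace Pool.Agent.Z7

open Pool.Agent.ZL2 Filter Topology
open Pool.Agent.Z5 (fr Gen ev2)
open Pool.Agent.Z6 (dt)

variable {m : ℕ} [NeZero m]

/-- The value at `(a, x)` of a polynomial with rational coefficients. -/
noncomputable def evQ {R : Type} [CommRing R] [Algebra ℚ R] (Q : Polynomial (Polynomial ℚ)) (a x : R) : R :=
  ∑ k ∈ Q.support, Polynomial.aeval a (Q.coeff k) * x ^ k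

/-- Any two monomials on the curve satisfy a polynomial relation with rational coefficients. -/
def Rat (D : Cv m) : Prop :=
  ∀ v w : Fin m → ℤ, ∃ Q : Polynomial (Polynomial ℚ), Q ≠ 0 ∧
    ∀ y ∈ D.C, evQ Q (∏ i, y i ^ v i) (∏ i, y i ^ w i) = 0

theorem r0_evQ_map {R : Type} [CommRing R] [Algebra ℚ R] (Q : Polynomial (Polynomial ℚ)) (a x : R) :
    evQ Q a x = (Q.map ((Polynomial.aeval a : Polynomial ℚ →ₐ[ℚ] R) : Polynomial ℚ →+* R)).eval x := by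
  rw [Polynomial.eval_map, Polynomial.eval₂_eq_sum, Polynomial.sum_def]
  rfl

theorem r0_evQ_mul {R : Type} [CommRing R] [Algebra ℚ R] (g : Polynomial ℚ) (Q : Polynomial (Polynomial ℚ)) (a x : R) :
    evQ (Polynomial.C g * Q) a x = Polynomial.aeval a g * evQ Q a x := by
  rw [r0_evQ_map, r0_evQ_map, Polynomial.map_mul, Polynomial.eval_mul, Polynomial.map_C, Polynomial.eval_C]
  rfl

theorem r0_evQ_hom {K : Type} [Field K] [NumberField K] (j : K →+* ℂ) (Q : Polynomial (Polynomial ℚ)) (a x : K) :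
    evQ Q (j a) (j x) = j (evQ Q a x) := by
  unfold evQ
  rw [map_sum]
  refine Finset.sum_congr rfl fun k _ => ?_
  rw [map_mul, map_pow]
  congr 1
  exact Polynomial.aeval_algHom_apply j.toRatAlgHom a (Q.coeff k)

/-- division by the greatest common divisor of the coefficients -/
theorem r0_gcd {Q : Polynomial (Polynomial ℚ)} (hQ : Q ≠ 0) :
    ∃ (g : Polynomial ℚ) (Q' : Polynomial (Polynomial ℚ)), g ≠ 0 ∧ Q = Polynomial.C g * Q' ∧
      ∀ a : ℂ, ∃ k, Polynomial.aeval a (Q'.coeff k) ≠ 0 := by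
  obtain ⟨g, hg⟩ := (IsPrincipalIdealRing.principal (Ideal.span (Set.range Q.coeff))).principal
  have hdvd : ∀ k, g ∣ Q.coeff k := by
    intro k
    have h1 : Q.coeff k ∈ Ideal.span (Set.range Q.coeff) := Ideal.subset_span ⟨k, rfl⟩
    rw [hg] at h1
    exact Ideal.mem_span_singleton.1 h1
  obtain ⟨Q', hQ'⟩ := (Polynomial.C_dvd_iff_dvd_coeff g Q).2 hdvd
  have hg0 : g ≠ 0 := by
    rintro rfl
    apply hQ
    rw [hQ', Polynomial.C_0, zero_mul]
  refine ⟨g, Q', hg0, hQ', ?_⟩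
  have hmem : g ∈ Ideal.span (Set.range Q.coeff) := by
    rw [hg]
    exact Ideal.mem_span_singleton_self g
  obtain ⟨c, hc⟩ := Finsupp.mem_ideal_span_range_iff_exists_finsupp.1 hmem
  have h1 : ∑ k ∈ c.support, c k * Q'.coeff k = 1 := by
    apply mul_left_cancel₀ hg0
    rw [mul_one, Finset.mul_sum]
    conv_rhs => rw [← hc]
    rw [Finsupp.sum]
    refine Finset.sum_congr rfl fun k _ => ?_
    have h2 : Q.coeff k = g * Q'.coeff k := by
      conv_lhs => rw [hQ']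
      rw [Polynomial.coeff_C_mul]
    rw [h2]
    ring
  intro a
  by_contra hcon
  push Not at hcon
  have h3 := congr_arg (Polynomial.aeval a) h1
  rw [map_sum, map_one] at h3
  apply one_ne_zero (α := ℂ)
  rw [← h3]
  refine Finset.sum_eq_zero fun k _ => ?_
  rw [map_mul, hcon k, mul_zero]

/-- the Laurent polynomial functions -/
def r0_A (m : ℕ) : Subalgebra ℂ ({y : Fin m → ℂ // ∀ i, y i ≠ 0} → ℂ) where
  carrier := {f | ∃ (N : ℕ) (P : MvPolynomial (Fin m) ℂ), ∀ y, (∏ l, y.1 l) ^ N * f y = MvPolynomial.eval y.1 P}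
  mul_mem' := by
    rintro f g ⟨N, P, h⟩ ⟨N', P', h'⟩
    refine ⟨N + N', P * P', fun y => ?_⟩
    rw [map_mul, ← h y, ← h' y, Pi.mul_apply]
    ring
  add_mem' := by
    rintro f g ⟨N, P, h⟩ ⟨N', P', h'⟩
    refine ⟨N + N', (∏ l, MvPolynomial.X l) ^ N' * P + (∏ l, MvPolynomial.X l) ^ N * P', fun y => ?_⟩
    rw [map_add, map_mul, map_mul, ← h y, ← h' y, Pi.add_apply, map_pow, map_pow, map_prod]
    simp only [MvPolynomial.eval_X]
    ring
  algebraMap_mem' := by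
    intro c
    refine ⟨0, MvPolynomial.C c, fun y => ?_⟩
    simp

theorem r0_A_coord {m : ℕ} (i : Fin m) (n : ℤ) : (fun y : {y : Fin m → ℂ // ∀ i, y i ≠ 0} => y.1 i ^ n) ∈ r0_A m := by
  have h1 : (fun y : {y : Fin m → ℂ // ∀ i, y i ≠ 0} => y.1 i) ∈ r0_A m :=
    ⟨0, MvPolynomial.X i, fun y => by simp⟩
  have h2 : (fun y : {y : Fin m → ℂ // ∀ i, y i ≠ 0} => (y.1 i)⁻¹) ∈ r0_A m := by
    classical
    refine ⟨1, ∏ l ∈ Finset.univ.erase i, MvPolynomial.X l, fun y => ?_⟩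
    rw [map_prod, pow_one, ← Finset.mul_prod_erase Finset.univ (fun l => y.1 l) (Finset.mem_univ i)]
    simp only [MvPolynomial.eval_X]
    have := y.2 i
    field_simp
  rcases n with n | n
  · have := (r0_A m).pow_mem h1 n
    refine (congr_arg (· ∈ r0_A m) ?_).mp this
    funext y
    simp
  · have := (r0_A m).pow_mem h2 (n + 1)
    refine (congr_arg (· ∈ r0_A m) ?_).mp this
    funext y
    simp [zpow_negSucc]

theorem r0_A_mon {m : ℕ} (w : Fin m → ℤ) :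
    (fun y : {y : Fin m → ℂ // ∀ i, y i ≠ 0} => ∏ i, y.1 i ^ w i) ∈ r0_A m := by
  have := (r0_A m).prod_mem (t := Finset.univ) (f := fun i => fun y : {y : Fin m → ℂ // ∀ i, y i ≠ 0} => y.1 i ^ w i)
    fun i _ => r0_A_coord i (w i)
  refine (congr_arg (· ∈ r0_A m) ?_).mp this
  funext y
  simp

theorem r0_A_evQ {m : ℕ} (Q : Polynomial (Polynomial ℚ)) {f g : {y : Fin m → ℂ // ∀ i, y i ≠ 0} → ℂ}
    (hf : f ∈ r0_A m) (hg : g ∈ r0_A m) : (fun y => evQ Q (f y) (g y)) ∈ r0_A m := by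
  have h1 : ∀ P : Polynomial ℚ, (fun y => Polynomial.aeval (f y) P) ∈ r0_A m := by
    intro P
    have h2 : (∑ n ∈ Finset.range (P.natDegree + 1), (P.coeff n : ℂ) • f ^ n) ∈ r0_A m :=
      (r0_A m).sum_mem fun n _ => (r0_A m).smul_mem ((r0_A m).pow_mem hf n) _
    refine (congr_arg (· ∈ r0_A m) ?_).mp h2
    funext y
    rw [Polynomial.aeval_eq_sum_range, Finset.sum_apply]
    refine Finset.sum_congr rfl fun n _ => ?_
    rw [Pi.smul_apply, Pi.pow_apply, smul_eq_mul, Algebra.smul_def, eq_ratCast]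
  have h3 : (∑ k ∈ Q.support, (fun y => Polynomial.aeval (f y) (Q.coeff k)) * g ^ k) ∈ r0_A m :=
    (r0_A m).sum_mem fun k _ => (r0_A m).mul_mem (h1 _) ((r0_A m).pow_mem hg k)
  refine (congr_arg (· ∈ r0_A m) ?_).mp h3
  funext y
  rw [Finset.sum_apply]
  rfl

/-- Row Z7-R0a. A relation which is not trivial for any value of the first monomial. `Q` from `Rat` for `w` and the unit vector of `i`; `g` = the gcd of the coefficients of `Q` (in `ℚ[X]`, a principal ideal domain), `Q = C g * Q'`, the coefficients of `Q'` generate the unit ideal (Bezout), so for every `a` one is nonzero at `a`. `g (∏ y^w) = 0` for finitely many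
`y ∈ C` only (`D.mon`); for the others `evQ Q' = 0`, and as `(∏ y_l)^N evQ Q' (∏ y^w) (y i)` is a polynomial in `y` for large `N`, `D.irr` gives all `y ∈ C`. -/
theorem Rat.prim {D : Cv m} (h : Rat D) (hinf : D.C.Infinite) {w : Fin m → ℤ} (hw : w ≠ 0) (i : Fin m) :
    ∃ Q : Polynomial (Polynomial ℚ), (∀ a : ℂ, ∃ k, Polynomial.aeval a (Q.coeff k) ≠ 0) ∧
      ∀ y ∈ D.C, evQ Q (∏ l, y l ^ w l) (y i) = 0 := by
  classical
  obtain ⟨Q, hQ, hQC⟩ := h w (Pi.single i 1)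
  obtain ⟨g, Q', hg, hgQ, hQ'⟩ := r0_gcd hQ
  refine ⟨Q', hQ', ?_⟩
  have hsing : ∀ y : Fin m → ℂ, ∏ l, y l ^ (Pi.single i (1 : ℤ) : Fin m → ℤ) l = y i := by
    intro y
    rw [Finset.prod_eq_single i]
    · simp
    · intro l _ hl
      simp [hl]
    · intro h
      exact absurd (Finset.mem_univ i) h
  have h1 : ∀ y ∈ D.C, Polynomial.aeval (∏ l, y l ^ w l) g ≠ 0 → evQ Q' (∏ l, y l ^ w l) (y i) = 0 := by
    intro y hy hne
    have h2 := hQC y hy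
    rw [hsing y, hgQ, r0_evQ_mul] at h2
    exact (mul_eq_zero.1 h2).resolve_left hne
  have hfin : {y | y ∈ D.C ∧ Polynomial.aeval (∏ l, y l ^ w l) g = 0}.Finite := by
    have h2 : {z : ℂ | Polynomial.aeval z g = 0}.Finite := by
      have h3 : g.map (algebraMap ℚ ℂ) ≠ 0 := (Polynomial.map_ne_zero_iff (algebraMap ℚ ℂ).injective).2 hg
      refine ((g.map (algebraMap ℚ ℂ)).roots.toFinset.finite_toSet).subset ?_
      intro z hz
      rw [Finset.mem_coe, Multiset.mem_toFinset, Polynomial.mem_roots h3, Polynomial.IsRoot.def,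
        Polynomial.eval_map_algebraMap]
      exact hz
    refine (h2.biUnion fun z _ => D.mon w hw z).subset ?_
    rintro y ⟨hy, hy2⟩
    exact Set.mem_biUnion (x := ∏ l, y l ^ w l) hy2 ⟨hy, rfl⟩
  have hinf2 : {y | y ∈ D.C ∧ evQ Q' (∏ l, y l ^ w l) (y i) = 0}.Infinite := by
    refine (hinf.sdiff hfin).mono ?_
    rintro y ⟨hy, hy2⟩
    exact ⟨hy, h1 y hy fun h => hy2 ⟨hy, h⟩⟩
  have hmem : (fun y : {y : Fin m → ℂ // ∀ i, y i ≠ 0} => evQ Q' (∏ l, y.1 l ^ w l) (y.1 i)) ∈ r0_A m := by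
    refine r0_A_evQ Q' (r0_A_mon w) (g := fun y => y.1 i) ?_
    have := r0_A_coord i 1
    simpa using this
  obtain ⟨N, P, hP⟩ := hmem
  have hprod : ∀ y ∈ D.C, (∏ l, y l) ^ N ≠ 0 := fun y hy =>
    pow_ne_zero _ (Finset.prod_ne_zero_iff.2 fun l _ => D.ne y hy l)
  have hall := D.irr P (hinf2.mono (by
    rintro y ⟨hy, hy2⟩
    refine ⟨hy, ?_⟩
    have := hP ⟨y, D.ne y hy⟩
    simp only at this
    rw [← this, hy2, mul_zero]))
  intro y hy
  have h5 := hP ⟨y, D.ne y hy⟩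
  simp only at h5
  rw [hall y hy] at h5
  exact (mul_eq_zero.1 h5).resolve_left (hprod y hy)

/-- the height of a root of a relation with rational coefficients -/
theorem r0_root (Q : Polynomial (Polynomial ℚ)) (hQ : ∀ a : ℂ, ∃ k, Polynomial.aeval a (Q.coeff k) ≠ 0) :
    ∃ C : ℝ, 0 ≤ C ∧ ∀ (K : Type) [Field K] [NumberField K] (j : K →+* ℂ) (a q : K), q ≠ 0 →
      evQ Q (j a) (j q) = 0 → hh q ≤ C * (hh a + Module.finrank ℚ K) := by
  obtain ⟨C1, hC1, h1⟩ := root_height Q.natDegree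
  choose C2 hC2 h2 using fun k : Fin (Q.natDegree + 1) => Z6.hh_poly (F := ℚ) (Q.coeff k)
  refine ⟨C1 * (∑ k, C2 k + 1), mul_nonneg hC1 (add_nonneg (Finset.sum_nonneg fun k _ => hC2 k) zero_le_one), ?_⟩
  intro K _ _ j a q hq hrel
  rw [r0_evQ_hom] at hrel
  have hrel' : evQ Q a q = 0 := (map_eq_zero j).1 hrel
  have hsum : ∑ k : Fin (Q.natDegree + 1), Polynomial.aeval a (Q.coeff k) * q ^ (k : ℕ) = 0 := by
    rw [← hrel', Finset.sum_range (fun k => Polynomial.aeval a (Q.coeff k) * q ^ k) |>.symm]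
    unfold evQ
    refine (Finset.sum_subset (fun k hk => ?_) fun k _ hk => ?_).symm
    · exact Finset.mem_range_succ_iff.2 (Polynomial.le_natDegree_of_mem_supp k hk)
    · rw [Polynomial.notMem_support_iff.1 hk, map_zero, zero_mul]
  have hne : ∃ k : Fin (Q.natDegree + 1), Polynomial.aeval a (Q.coeff k) ≠ 0 := by
    obtain ⟨k, hk⟩ := hQ (j a)
    have hk0 : Q.coeff k ≠ 0 := fun h => hk (by rw [h, map_zero])
    refine ⟨⟨k, Nat.lt_succ_of_le (Polynomial.le_natDegree_of_ne_zero hk0)⟩, fun h => hk ?_⟩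
    have h3 := Polynomial.aeval_algHom_apply j.toRatAlgHom a (Q.coeff k)
    have h4 : Polynomial.aeval (j a) (Q.coeff k) = j (Polynomial.aeval a (Q.coeff k)) := h3
    rw [h4, h, map_zero]
  have h3 := h1 K (fun k => Polynomial.aeval a (Q.coeff k)) q hq hne hsum
  have h4 : ∑ k : Fin (Q.natDegree + 1), hh (Polynomial.aeval a (Q.coeff k)) ≤
      (∑ k, C2 k) * (hh a + Module.finrank ℚ K) := by
    rw [Finset.sum_mul]
    exact Finset.sum_le_sum fun k _ => h2 k K a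
  have h5 : 0 ≤ hh a := hh_nonneg a
  refine h3.trans ?_
  rw [mul_assoc]
  refine mul_le_mul_of_nonneg_left ?_ hC1
  rw [add_mul, one_mul]
  linarith

omit [NeZero m] in
/-- The logarithm of a monomial. -/
theorem r0_lv_mon {K : Type} [Field K] [NumberField K] {y : Fin m → K} (hy : ∀ i, y i ≠ 0) (w : Fin m → ℤ) (p : Pl K) :
    lv p (∏ i, y i ^ w i) = ∑ i, (w i : ℝ) * lv p (y i) := by
  classical
  have h : ∀ s : Finset (Fin m), lv p (∏ i ∈ s, y i ^ w i) = ∑ i ∈ s, (w i : ℝ) * lv p (y i) := by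
    intro s
    induction s using Finset.induction_on with
    | empty => simp [lv_one]
    | insert a s ha ih =>
      rw [Finset.prod_insert ha, Finset.sum_insert ha, lv_mul p (zpow_ne_zero _ (hy a))
        (Finset.prod_ne_zero_iff.2 fun i _ => zpow_ne_zero _ (hy i)), ih, lv_zpow]
  exact h Finset.univ

omit [NeZero m] in
/-- the estimate of the monomial at one place -/
theorem r0_place {l u : Fin m → ℝ} {w r : Fin m → ℤ} {s c B G : ℝ} (hB : 0 < B) (hc : 0 ≤ c)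
    (hu1 : ∀ i, |u i| ≤ 1) (hul : ∑ i, u i * l i = 0) (hls : ∀ i, |l i - s * r i| ≤ c)
    (hw : (∑ i, w i * r i = 0) ∨ 1 ≤ B * |∑ i, u i * (r i : ℝ)|)
    (hG : (∑ i, |(w i : ℝ)|) * (1 + B * m * ∑ i, |(r i : ℝ)|) ≤ G) :
    |∑ i, (w i : ℝ) * l i| ≤ G * c := by
  have hW0 : 0 ≤ ∑ i, |(w i : ℝ)| := Finset.sum_nonneg fun _ _ => abs_nonneg _
  have hR0 : 0 ≤ ∑ i, |(r i : ℝ)| := Finset.sum_nonneg fun _ _ => abs_nonneg _
  have hm0 : (0 : ℝ) ≤ m := Nat.cast_nonneg _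
  have hwsum : ∀ (v : Fin m → ℝ) (d : ℝ), (∀ i, |v i| ≤ d) → |∑ i, (w i : ℝ) * v i| ≤ (∑ i, |(w i : ℝ)|) * d := by
    intro v d hv
    refine (Finset.abs_sum_le_sum_abs _ _).trans ?_
    rw [Finset.sum_mul]
    refine Finset.sum_le_sum fun i _ => ?_
    rw [abs_mul]
    exact mul_le_mul_of_nonneg_left (hv i) (abs_nonneg _)
  have hBm : 0 ≤ B * m * ∑ i, |(r i : ℝ)| := by positivity
  rcases hw with h0 | h1
  · have e1 : ∑ i, (w i : ℝ) * l i = ∑ i, (w i : ℝ) * (l i - s * r i) := by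
      have e2 : ∑ i, (w i : ℝ) * (l i - s * r i) = ∑ i, (w i : ℝ) * l i - s * ∑ i, (w i : ℝ) * r i := by
        rw [Finset.mul_sum, ← Finset.sum_sub_distrib]
        exact Finset.sum_congr rfl fun i _ => by ring
      have e3 : ∑ i, (w i : ℝ) * (r i : ℝ) = 0 := by exact_mod_cast h0
      rw [e2, e3, mul_zero, sub_zero]
    rw [e1]
    refine (hwsum _ c hls).trans ?_
    refine mul_le_mul_of_nonneg_right ?_ hc
    nlinarith
  · have e1 : s * ∑ i, u i * (r i : ℝ) = - ∑ i, u i * (l i - s * r i) := by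
      have e2 : ∑ i, u i * (l i - s * r i) = ∑ i, u i * l i - s * ∑ i, u i * (r i : ℝ) := by
        rw [Finset.mul_sum, ← Finset.sum_sub_distrib]
        exact Finset.sum_congr rfl fun i _ => by ring
      rw [e2, hul, zero_sub, neg_neg]
    have e3 : |∑ i, u i * (l i - s * r i)| ≤ m * c := by
      refine (Finset.abs_sum_le_sum_abs _ _).trans ?_
      have : ∑ i, |u i * (l i - s * r i)| ≤ ∑ _i : Fin m, c := by
        refine Finset.sum_le_sum fun i _ => ?_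
        rw [abs_mul]
        calc |u i| * |l i - s * r i| ≤ 1 * c := mul_le_mul (hu1 i) (hls i) (abs_nonneg _) zero_le_one
          _ = c := one_mul c
      simpa using this
    have e4 : |s| ≤ B * (m * c) := by
      calc |s| = 1 * |s| := (one_mul _).symm
        _ ≤ (B * |∑ i, u i * (r i : ℝ)|) * |s| := mul_le_mul_of_nonneg_right h1 (abs_nonneg _)
        _ = B * |s * ∑ i, u i * (r i : ℝ)| := by rw [abs_mul]; ring
        _ ≤ B * (m * c) := by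
          rw [e1, abs_neg]
          exact mul_le_mul_of_nonneg_left e3 hB.le
    have e5 : ∀ i, |l i| ≤ (1 + B * m * ∑ i, |(r i : ℝ)|) * c := by
      intro i
      have e6 : |l i| ≤ |l i - s * r i| + |s * r i| := by
        have := abs_add_le (l i - s * r i) (s * r i)
        rwa [sub_add_cancel] at this
      have e7 : |(r i : ℝ)| ≤ ∑ i, |(r i : ℝ)| :=
        Finset.single_le_sum (f := fun i => |(r i : ℝ)|) (fun j _ => abs_nonneg _) (Finset.mem_univ i)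
      have e8 : |s * r i| ≤ B * (m * c) * ∑ i, |(r i : ℝ)| := by
        rw [abs_mul]
        exact mul_le_mul e4 e7 (abs_nonneg _) (by positivity)
      have e9 := hls i
      nlinarith
    refine (hwsum l _ e5).trans ?_
    rw [← mul_assoc]
    exact mul_le_mul_of_nonneg_right hG hc

/-- the terms of a polynomial in two variables -/
noncomputable def r0_T (Q : Polynomial (Polynomial ℚ)) : Finset (Σ _ : ℕ, ℕ) := Q.support.sigma fun b => (Q.coeff b).support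

theorem r0_T_ne {Q : Polynomial (Polynomial ℚ)} {t : Σ _ : ℕ, ℕ} (ht : t ∈ r0_T Q) : (Q.coeff t.1).coeff t.2 ≠ 0 := by
  unfold r0_T at ht
  rw [Finset.mem_sigma] at ht
  exact Polynomial.mem_support_iff.1 ht.2

theorem r0_T_nonempty {Q : Polynomial (Polynomial ℚ)} (hQ : Q ≠ 0) : (r0_T Q).Nonempty := by
  obtain ⟨b, hb⟩ := Polynomial.support_nonempty.2 hQ
  obtain ⟨a, ha⟩ := Polynomial.support_nonempty.2 (Polynomial.mem_support_iff.1 hb)
  exact ⟨⟨b, a⟩, Finset.mem_sigma.2 ⟨hb, ha⟩⟩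

theorem r0_terms {K : Type} [Field K] [NumberField K] (Q : Polynomial (Polynomial ℚ)) (a x : K) :
    evQ Q a x = ∑ t ∈ r0_T Q, algebraMap ℚ K ((Q.coeff t.1).coeff t.2) * a ^ t.2 * x ^ t.1 := by
  unfold evQ r0_T
  rw [Finset.sum_sigma]
  refine Finset.sum_congr rfl fun b _ => ?_
  rw [Polynomial.aeval_def, Polynomial.eval₂_eq_sum, Polynomial.sum_def, Finset.sum_mul]

/-- the bound at a place -/
noncomputable def r0_c (Q : Polynomial (Polynomial ℚ)) {K : Type} [Field K] [NumberField K] (p : Pl K) : ℝ :=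
  (r0_T Q).card * ell p + 2 * ∑ t ∈ r0_T Q, |lv p (algebraMap ℚ K ((Q.coeff t.1).coeff t.2))|

theorem r0_c_nonneg (Q : Polynomial (Polynomial ℚ)) {K : Type} [Field K] [NumberField K] (p : Pl K) :
    0 ≤ r0_c Q p := by
  unfold r0_c
  have h1 := ell_nonneg p
  have h2 : 0 ≤ ∑ t ∈ r0_T Q, |lv p (algebraMap ℚ K ((Q.coeff t.1).coeff t.2))| :=
    Finset.sum_nonneg fun _ _ => abs_nonneg _
  positivity

theorem r0_c_FS (Q : Polynomial (Polynomial ℚ)) {K : Type} [Field K] [NumberField K] :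
    FS (fun p : Pl K => r0_c Q p) := by
  unfold r0_c
  refine (FS_ell.smul _).add ((FS.sum _ fun t ht => ?_).smul 2)
  exact (FS_lv ((map_ne_zero _).2 (r0_T_ne ht))).abs

theorem r0_c_Sm (Q : Polynomial (Polynomial ℚ)) : ∃ C : ℝ, 0 ≤ C ∧ ∀ (K : Type) [Field K] [NumberField K],
    Sm (fun p : Pl K => r0_c Q p) ≤ C * Module.finrank ℚ K := by
  choose Cq hCq0 hCq using fun t : Σ _ : ℕ, ℕ => Z5.n2_ext ((Q.coeff t.1).coeff t.2)
  have hl2 : 0 ≤ Real.log 2 := Real.log_nonneg (by norm_num)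
  refine ⟨(r0_T Q).card * Real.log 2 + 2 * ∑ t ∈ r0_T Q, 2 * Cq t, ?_, ?_⟩
  · have : 0 ≤ ∑ t ∈ r0_T Q, 2 * Cq t := Finset.sum_nonneg fun t _ => by have := hCq0 t; positivity
    positivity
  intro K _ _
  have hFS : ∀ t ∈ r0_T Q, FS (fun p : Pl K => |lv p (algebraMap ℚ K ((Q.coeff t.1).coeff t.2))|) :=
    fun t ht => (FS_lv ((map_ne_zero _).2 (r0_T_ne ht))).abs
  unfold r0_c
  rw [Sm_add (FS_ell.smul _) ((FS.sum _ hFS).smul 2), Sm_smul, Sm_smul, Sm_ell, Sm_sum _ hFS]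
  have h1 : ∑ t ∈ r0_T Q, Sm (fun p : Pl K => |lv p (algebraMap ℚ K ((Q.coeff t.1).coeff t.2))|) ≤
      (∑ t ∈ r0_T Q, 2 * Cq t) * Module.finrank ℚ K := by
    rw [Finset.sum_mul]
    refine Finset.sum_le_sum fun t ht => ?_
    rw [Sm_abs ((map_ne_zero _).2 (r0_T_ne ht))]
    have := hCq t K
    linarith
  nlinarith

open Classical in
/-- the differences of the exponents -/
noncomputable def r0_E (Q : Polynomial (Polynomial ℚ)) : Finset (ℤ × ℤ) :=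
  ((r0_T Q ×ˢ r0_T Q).filter fun t => t.1 ≠ t.2).image fun t =>
    ((t.1.2 : ℤ) - t.2.2, (t.1.1 : ℤ) - t.2.1)

theorem r0_E_zero (Q : Polynomial (Polynomial ℚ)) : ((0 : ℤ), (0 : ℤ)) ∉ r0_E Q := by
  classical
  intro h
  unfold r0_E at h
  obtain ⟨t, ht, h2⟩ := Finset.mem_image.1 h
  obtain ⟨-, hne⟩ := Finset.mem_filter.1 ht
  apply hne
  obtain ⟨⟨a, b⟩, ⟨a', b'⟩⟩ := t
  simp only [Prod.mk.injEq] at h2
  obtain ⟨h3, h4⟩ := h2
  have h5 : b = b' := by omega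
  have h6 : a = a' := by omega
  subst h5 h6
  rfl

theorem r0_pair {Q : Polynomial (Polynomial ℚ)} (hQ : Q ≠ 0) {K : Type} [Field K] [NumberField K] {a x : K}
    (ha : a ≠ 0) (hx : x ≠ 0) (h : evQ Q a x = 0) (p : Pl K) :
    ∃ e ∈ r0_E Q, |(e.1 : ℝ) * lv p a + e.2 * lv p x| ≤ r0_c Q p := by
  classical
  rw [r0_terms] at h
  obtain ⟨t, ht, t', ht', hne, hle⟩ := two_terms (r0_T Q)
    (fun t => algebraMap ℚ K ((Q.coeff t.1).coeff t.2) * a ^ t.2 * x ^ t.1)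
    (fun t ht => mul_ne_zero (mul_ne_zero ((map_ne_zero _).2 (r0_T_ne ht)) (pow_ne_zero _ ha)) (pow_ne_zero _ hx))
    (r0_T_nonempty hQ) h p
  refine ⟨((t.2 : ℤ) - t'.2, (t.1 : ℤ) - t'.1), ?_, ?_⟩
  · unfold r0_E
    exact Finset.mem_image.2 ⟨(t, t'), Finset.mem_filter.2 ⟨Finset.mem_product.2 ⟨ht, ht'⟩, hne⟩, rfl⟩
  · have hlv : ∀ t ∈ r0_T Q, lv p (algebraMap ℚ K ((Q.coeff t.1).coeff t.2) * a ^ t.2 * x ^ t.1) =
        lv p (algebraMap ℚ K ((Q.coeff t.1).coeff t.2)) + t.2 * lv p a + t.1 * lv p x := by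
      intro t ht
      rw [lv_mul p (mul_ne_zero ((map_ne_zero _).2 (r0_T_ne ht)) (pow_ne_zero _ ha)) (pow_ne_zero _ hx),
        lv_mul p ((map_ne_zero _).2 (r0_T_ne ht)) (pow_ne_zero _ ha), lv_pow, lv_pow]
    rw [hlv t ht, hlv t' ht'] at hle
    have h1 := Finset.single_le_sum (f := fun t : Σ _ : ℕ, ℕ => |lv p (algebraMap ℚ K ((Q.coeff t.1).coeff t.2))|)
      (fun t _ => abs_nonneg _) ht
    have h2 := Finset.single_le_sum (f := fun t : Σ _ : ℕ, ℕ => |lv p (algebraMap ℚ K ((Q.coeff t.1).coeff t.2))|)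
      (fun t _ => abs_nonneg _) ht'
    unfold r0_c
    push_cast
    have h3 := abs_le.1 hle
    have h4 := abs_le.1 h1
    have h5 := abs_le.1 h2
    have h6 := le_abs_self (lv p (algebraMap ℚ K ((Q.coeff t.1).coeff t.2)))
    have h7 := neg_abs_le (lv p (algebraMap ℚ K ((Q.coeff t.1).coeff t.2)))
    have h8 := le_abs_self (lv p (algebraMap ℚ K ((Q.coeff t'.1).coeff t'.2)))
    have h9 := neg_abs_le (lv p (algebraMap ℚ K ((Q.coeff t'.1).coeff t'.2)))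
    exact abs_le.2 ⟨by linarith, by linarith⟩

omit [NeZero m] in
theorem r0_single (y : Fin m → ℂ) (i : Fin m) : ∏ l, y l ^ (Pi.single i (1 : ℤ) : Fin m → ℤ) l = y i := by
  classical
  rw [Finset.prod_eq_single i]
  · simp
  · intro l _ hl
    simp [hl]
  · intro h
    exact absurd (Finset.mem_univ i) h

/-- Row Z7-R0b. At every place of a number field the logarithms of the coordinates of a point of the curve are close to one of finitely many lines. For every pair `i ≠ k` take `Q_ik` from `Rat` for the unit vectors; the terms of `Q_ik(y_i, y_k) = 0` are `q y_i^a y_k^b` (`q ≠ 0` rational); `two_terms` gives `(a,b) ≠ (a',b')` with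
`|(a - a') lv p (y i) + (b - b') lv p (y k)| ≤ N ell p + |lv p q| + |lv p q'|`. `c p` = the sum of all these bounds over all terms of all `Q_ik`; `Sm c` is at most a constant times the degree (`hh_ext`-like for the rational coefficients, `Sm_abs`: `Sm |lv x| = 2 hh x`). `near_line` with `E i k` = the finite set of the differences of exponents. -/
theorem near (D : Cv m) (h : Rat D) : ∃ (R : Finset (Fin m → ℤ)) (C0 : ℝ), 0 ≤ C0 ∧
    ∀ (K : Type) [Field K] [NumberField K] (j : K →+* ℂ) (y : Fin m → K), (fun i => j (y i)) ∈ D.C →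
      ∃ c : Pl K → ℝ, FS c ∧ (∀ p, 0 ≤ c p) ∧ Sm c ≤ C0 * Module.finrank ℚ K ∧
        ∀ p : Pl K, ∃ r ∈ R, ∃ s : ℝ, ∀ i, |lv p (y i) - s * r i| ≤ c p := by
  classical
  choose Q hQ0 hQC using fun q : Fin m × Fin m => h (Pi.single q.1 1) (Pi.single q.2 1)
  obtain ⟨R, κ, hκ, hR⟩ := near_line (fun i k => r0_E (Q (i, k))) fun i k => r0_E_zero _
  choose Cs hCs0 hCs using fun q : Fin m × Fin m => r0_c_Sm (Q q)
  refine ⟨R, κ * ∑ q, Cs q, mul_nonneg hκ (Finset.sum_nonneg fun q _ => hCs0 q), ?_⟩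
  intro K _ _ j y hy
  have hy0 : ∀ i, y i ≠ 0 := fun i h0 => D.ne _ hy i (by simp [h0])
  have hFS : ∀ q ∈ (Finset.univ : Finset (Fin m × Fin m)), FS (fun p : Pl K => r0_c (Q q) p) :=
    fun q _ => r0_c_FS (Q q)
  have hnn : ∀ p : Pl K, 0 ≤ ∑ q, r0_c (Q q) p := fun p => Finset.sum_nonneg fun q _ => r0_c_nonneg (Q q) p
  refine ⟨fun p => κ * ∑ q, r0_c (Q q) p, (FS.sum _ hFS).smul κ, fun p => mul_nonneg hκ (hnn p), ?_, ?_⟩
  · rw [Sm_smul, Sm_sum _ hFS, mul_assoc]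
    refine mul_le_mul_of_nonneg_left ?_ hκ
    rw [Finset.sum_mul]
    exact Finset.sum_le_sum fun q _ => hCs q K
  · intro p
    refine hR (fun i => lv p (y i)) (∑ q, r0_c (Q q) p) (hnn p) ?_
    intro i k _
    have h1 : evQ (Q (i, k)) (y i) (y k) = 0 := by
      have h2 : evQ (Q (i, k)) (∏ l, (fun i => j (y i)) l ^ (Pi.single i (1 : ℤ) : Fin m → ℤ) l)
          (∏ l, (fun i => j (y i)) l ^ (Pi.single k (1 : ℤ) : Fin m → ℤ) l) = 0 := hQC (i, k) _ hy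
      rw [r0_single, r0_single] at h2
      simp only [r0_evQ_hom] at h2
      exact (map_eq_zero j).1 h2
    obtain ⟨e, he, hle⟩ := r0_pair (hQ0 (i, k)) (hy0 i) (hy0 k) h1 p
    refine ⟨e, he, hle.trans ?_⟩
    exact Finset.single_le_sum (f := fun q => r0_c (Q q) p) (fun q _ => r0_c_nonneg (Q q) p) (Finset.mem_univ (i, k))

/-- Row Z7-R0c. Bounded height of the points of the curve with one real relation. `near` gives `R`, `choose_w` gives `W, B`; for `u` take `w`. At a place `p`: `r, s`. If `∑ w_i r_i = 0` then `|∑ w_i lv p (y i)| ≤ (∑ |w_i|) c p`. Otherwise `|s| ≤ B |∑ u_i (lv p (y i) - s r_i)| ≤ B m c p` (`|u_i| ≤ 1`), so `|lv p (y i)| ≤ (1 + B m |r_i|) c p`. So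
`hh (∏ y^w) ≤ const * finrank`. `Rat.prim` for `w` (finitely many) and `i`: `root_height` with `a_k = aeval (∏ y^w) (Q.coeff k)` in `K` (the relation holds in `K` because `j` is injective), `Z6.hh_poly` for the `hh (a_k)`. -/
theorem hb (D : Cv m) (h : Rat D) (hinf : D.C.Infinite) : ∃ B : ℝ, 0 ≤ B ∧
    ∀ (K : Type) [Field K] [NumberField K] (j : K →+* ℂ) (y : Fin m → K), (fun i => j (y i)) ∈ D.C →
      ∀ u : Fin m → ℝ, dt u u = 1 → (∀ p : Pl K, ∑ i, u i * lv p (y i) = 0) →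
        ∀ i, hh (y i) ≤ B * Module.finrank ℚ K := by
  classical
  obtain ⟨R, C0, hC0, hnear⟩ := near D h
  obtain ⟨W, B, hB, hW0, hW⟩ := choose_w R
  have hex : ∀ q : W × Fin m, ∃ C : ℝ, 0 ≤ C ∧ ∀ (K : Type) [Field K] [NumberField K] (j : K →+* ℂ)
      (y : Fin m → K), (fun i => j (y i)) ∈ D.C → hh (y q.2) ≤ C * (hh (∏ l, y l ^ q.1.1 l) + Module.finrank ℚ K) := by
    rintro ⟨⟨w, hw⟩, i⟩
    obtain ⟨Q, hQ, hQC⟩ := h.prim hinf (hW0 w hw) i
    obtain ⟨C, hC, hroot⟩ := r0_root Q hQ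
    refine ⟨C, hC, ?_⟩
    intro K _ _ j y hy
    have hyi : y i ≠ 0 := fun h0 => D.ne _ hy i (by simp [h0])
    refine hroot K j _ (y i) hyi ?_
    have h1 := hQC _ hy
    rw [map_prod]
    simp only [map_zpow₀]
    exact h1
  choose Cr hCr0 hCr using hex
  obtain ⟨G, hG0, hG⟩ : ∃ G : ℝ, 0 ≤ G ∧ ∀ w ∈ W, ∀ r ∈ R,
      (∑ i, |(w i : ℝ)|) * (1 + B * m * ∑ i, |(r i : ℝ)|) ≤ G := by
    refine ⟨∑ w ∈ W, ∑ r ∈ R, (∑ i, |(w i : ℝ)|) * (1 + B * m * ∑ i, |(r i : ℝ)|), by positivity, ?_⟩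
    intro w hw r hr
    have e1 := Finset.single_le_sum (f := fun r : Fin m → ℤ => (∑ i, |(w i : ℝ)|) * (1 + B * m * ∑ i, |(r i : ℝ)|))
      (fun r _ => by positivity) hr
    have e2 := Finset.single_le_sum (f := fun w : Fin m → ℤ => ∑ r ∈ R, (∑ i, |(w i : ℝ)|) *
      (1 + B * m * ∑ i, |(r i : ℝ)|)) (fun w _ => by positivity) hw
    exact e1.trans e2
  refine ⟨(∑ q, Cr q) * (G * C0 + 1), mul_nonneg (Finset.sum_nonneg fun q _ => hCr0 q) (by positivity), ?_⟩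
  intro K _ _ j y hy u hu hrel i
  have hy0 : ∀ i, y i ≠ 0 := fun i h0 => D.ne _ hy i (by simp [h0])
  obtain ⟨c, hcFS, hc0, hcS, hc⟩ := hnear K j y hy
  obtain ⟨w, hw, hwr⟩ := hW u hu
  have hmon0 : ∏ l, y l ^ w l ≠ 0 := Finset.prod_ne_zero_iff.2 fun l _ => zpow_ne_zero _ (hy0 l)
  have h1 : hh (∏ l, y l ^ w l) ≤ G * C0 * Module.finrank ℚ K := by
    have h2 : hh (∏ l, y l ^ w l) ≤ Sm (fun p : Pl K => G * c p) := by
      refine Sm_mono (FS_max0 hmon0) (hcFS.smul G) fun p => ?_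
      obtain ⟨r, hr, s, hs⟩ := hc p
      have h3 := r0_place hB (hc0 p) (Z6.n2_le_one hu) (hrel p) hs (hwr r hr) (hG w hw r hr)
      rw [r0_lv_mon hy0]
      exact max_le (mul_nonneg hG0 (hc0 p)) ((le_abs_self _).trans h3)
    rw [Sm_smul] at h2
    have h4 := mul_le_mul_of_nonneg_left hcS hG0
    linarith
  have h5 := hCr (⟨w, hw⟩, i) K j y hy
  simp only at h5
  have h6 : Cr (⟨w, hw⟩, i) ≤ ∑ q, Cr q :=
    Finset.single_le_sum (f := Cr) (fun q _ => hCr0 q) (Finset.mem_univ _)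
  have hD0 : (0 : ℝ) ≤ (Module.finrank ℚ K : ℝ) := Nat.cast_nonneg _
  have h7 : hh (∏ l, y l ^ w l) + Module.finrank ℚ K ≤ (G * C0 + 1) * Module.finrank ℚ K := by
    rw [add_mul, one_mul]; linarith
  calc hh (y i) ≤ Cr (⟨w, hw⟩, i) * (hh (∏ l, y l ^ w l) + Module.finrank ℚ K) := h5
    _ ≤ (∑ q, Cr q) * ((G * C0 + 1) * Module.finrank ℚ K) :=
        mul_le_mul h6 h7 (add_nonneg (hh_nonneg _) hD0) (Finset.sum_nonneg fun q _ => hCr0 q)
    _ = _ := by ring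

section

open Pool.Agent.Z5 (n2_hh_zero n2_hh_one n2_hh_add n2_hh_mul n2_hh_inv)

/-- The height of a power. -/
theorem x1_zpow {K : Type} [Field K] [NumberField K] {x : K} (hx : x ≠ 0) (k : ℤ) :
    hh (x ^ k) = |(k : ℝ)| * hh x := by
  have h1 : ∀ {n : ℕ} {y : K}, y ≠ 0 → hh (y ^ n) = (n : ℝ) * hh y := by
    intro n y hy
    unfold hh
    rw [← Sm_smul]
    refine Sm_congr fun p => ?_
    rw [lv_pow]
    rcases le_total 0 (lv p y) with h | h
    · rw [max_eq_right h, max_eq_right (mul_nonneg (Nat.cast_nonneg _) h)]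
    · rw [max_eq_left h, mul_zero, max_eq_left (mul_nonpos_of_nonneg_of_nonpos (Nat.cast_nonneg _) h)]
  obtain ⟨n, rfl | rfl⟩ := k.eq_nat_or_neg
  · rw [zpow_natCast, h1 hx, Int.cast_natCast, abs_of_nonneg (Nat.cast_nonneg _)]
  · rw [zpow_neg, zpow_natCast, n2_hh_inv, h1 hx, Int.cast_neg, Int.cast_natCast, abs_neg,
      abs_of_nonneg (Nat.cast_nonneg _)]

/-- The height of a finite sum. -/
theorem x1_sum {K : Type} [Field K] [NumberField K] {ι : Type} (s : Finset ι) (f : ι → K) :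
    hh (∑ i ∈ s, f i) ≤ ∑ i ∈ s, hh (f i) + (s.card : ℝ) * ((Module.finrank ℚ K : ℝ) * Real.log 2) := by
  classical
  induction s using Finset.induction_on with
  | empty => simp [n2_hh_zero]
  | insert a s ha ih =>
    rw [Finset.sum_insert ha, Finset.sum_insert ha, Finset.card_insert_of_notMem ha]
    have h1 := n2_hh_add (f a) (∑ i ∈ s, f i)
    push_cast
    linarith

/-- The change of coordinates. -/
theorem x1_coord {L : Type} [Field L] {x : Fin 2 → L} (hx : ∀ i, x i ≠ 0) {a1 b1 a2 b2 : ℤ}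
    (h : a1 * b2 - a2 * b1 = 1) :
    x 0 = (x 0 ^ a1 * x 1 ^ b1) ^ b2 * (x 0 ^ a2 * x 1 ^ b2) ^ (-b1) ∧
      x 1 = (x 0 ^ a1 * x 1 ^ b1) ^ (-a2) * (x 0 ^ a2 * x 1 ^ b2) ^ a1 := by
  have h0 := hx 0
  have h1 := hx 1
  constructor
  · have e1 : (x 0 ^ a1 * x 1 ^ b1) ^ b2 * (x 0 ^ a2 * x 1 ^ b2) ^ (-b1) =
        x 0 ^ (a1 * b2 + a2 * (-b1)) * x 1 ^ (b1 * b2 + b2 * (-b1)) := by
      rw [mul_zpow, mul_zpow, ← zpow_mul, ← zpow_mul, ← zpow_mul, ← zpow_mul, zpow_add₀ h0, zpow_add₀ h1]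
      ring
    rw [e1, show a1 * b2 + a2 * (-b1) = 1 by linarith, show b1 * b2 + b2 * (-b1) = 0 by ring, zpow_one, zpow_zero,
      mul_one]
  · have e1 : (x 0 ^ a1 * x 1 ^ b1) ^ (-a2) * (x 0 ^ a2 * x 1 ^ b2) ^ a1 =
        x 0 ^ (a1 * (-a2) + a2 * a1) * x 1 ^ (b1 * (-a2) + b2 * a1) := by
      rw [mul_zpow, mul_zpow, ← zpow_mul, ← zpow_mul, ← zpow_mul, ← zpow_mul, zpow_add₀ h0, zpow_add₀ h1]
      ring
    rw [e1, show a1 * (-a2) + a2 * a1 = 0 by ring, show b1 * (-a2) + b2 * a1 = 1 by linarith, zpow_one, zpow_zero,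
      one_mul]

/-- The monomials in the new coordinates. -/
theorem x1_mon {L : Type} [Field L] {p q : L} (hp : p ≠ 0) (hq : q ≠ 0) (a1 b1 a2 b2 : ℤ) (c : Fin 2 → ℤ) :
    ∏ i, (![p ^ b2 * q ^ (-b1), p ^ (-a2) * q ^ a1] : Fin 2 → L) i ^ c i =
      p ^ (b2 * c 0 - a2 * c 1) * q ^ (-b1 * c 0 + a1 * c 1) := by
  rw [Fin.prod_univ_two]
  simp only [Matrix.cons_val_zero, Matrix.cons_val_one]
  rw [mul_zpow, mul_zpow, ← zpow_mul, ← zpow_mul, ← zpow_mul, ← zpow_mul, zpow_add₀ hq, sub_eq_add_neg,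
    zpow_add₀ hp, ← neg_mul]
  ring

/-- The sum over the monomials in the new coordinates. -/
theorem x1_fib {L : Type} [Field L] (s : Finset (Fin 2 →₀ ℕ)) (a1 b1 a2 b2 : ℤ) (N : ℕ)
    (hN : ∀ α ∈ s, |-b1 * (α 0 : ℤ) + a1 * (α 1 : ℤ)| ≤ (N : ℤ)) {P Q : L} (hP : P ≠ 0) (hQ : Q ≠ 0)
    (ψ : (Fin 2 →₀ ℕ) → L) :
    ∑ i : Fin (2 * N + 1), (∑ α ∈ s with (Fin.ofNat (2 * N + 1) (-b1 * (α 0 : ℤ) + a1 * (α 1 : ℤ) + N).toNat = i),
      ψ α * P ^ (b2 * (α 0 : ℤ) - a2 * (α 1 : ℤ))) * Q ^ (i : ℕ) =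
      Q ^ N * ∑ α ∈ s, ψ α * ∏ i, (![P ^ b2 * Q ^ (-b1), P ^ (-a2) * Q ^ a1] : Fin 2 → L) i ^ α i := by
  classical
  have h1 : ∀ i : Fin (2 * N + 1), (∑ α ∈ s with (Fin.ofNat (2 * N + 1) (-b1 * (α 0 : ℤ) + a1 * (α 1 : ℤ) + N).toNat = i),
      ψ α * P ^ (b2 * (α 0 : ℤ) - a2 * (α 1 : ℤ))) * Q ^ (i : ℕ) =
      ∑ α ∈ s with (Fin.ofNat (2 * N + 1) (-b1 * (α 0 : ℤ) + a1 * (α 1 : ℤ) + N).toNat = i),
        Q ^ N * (ψ α * ∏ i, (![P ^ b2 * Q ^ (-b1), P ^ (-a2) * Q ^ a1] : Fin 2 → L) i ^ α i) := by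
    intro i
    rw [Finset.sum_mul]
    refine Finset.sum_congr rfl fun α hα => ?_
    rw [Finset.mem_filter] at hα
    have h2 := abs_le.1 (hN α hα.1)
    have h3 : (((-b1 * (α 0 : ℤ) + a1 * (α 1 : ℤ) + N).toNat : ℕ) : ℤ) = -b1 * (α 0 : ℤ) + a1 * (α 1 : ℤ) + N :=
      Int.toNat_of_nonneg (by linarith)
    have h4 : (i : ℕ) = (-b1 * (α 0 : ℤ) + a1 * (α 1 : ℤ) + N).toNat := by
      rw [← hα.2, Fin.val_ofNat]
      exact Nat.mod_eq_of_lt (by omega)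
    have h5 : ∏ i, (![P ^ b2 * Q ^ (-b1), P ^ (-a2) * Q ^ a1] : Fin 2 → L) i ^ α i =
        P ^ (b2 * (α 0 : ℤ) - a2 * (α 1 : ℤ)) * Q ^ (-b1 * (α 0 : ℤ) + a1 * (α 1 : ℤ)) := by
      rw [← x1_mon hP hQ a1 b1 a2 b2 (fun i => (α i : ℤ))]
      exact Finset.prod_congr rfl fun i _ => (zpow_natCast _ _).symm
    have h6 : Q ^ (i : ℕ) = Q ^ N * Q ^ (-b1 * (α 0 : ℤ) + a1 * (α 1 : ℤ)) := by
      rw [h4, ← zpow_natCast Q, h3, zpow_add₀ hQ, zpow_natCast, mul_comm]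
    rw [h5, h6]
    ring
  rw [Finset.sum_congr rfl fun i _ => h1 i, Finset.sum_fiberwise, Finset.mul_sum]

/-- Row Z7-X1. The height of a point `x` of a curve `∑ φ_α x^α = 0` in terms of the heights of the coefficients and of one monomial `x^e`, if the monomial takes every value finitely often on the curve. PROOF. `e = d (a1, b1)` with `(a1, b1)` primitive, `a1 b2 - a2 b1 = 1`; `p = x_0^a1 x_1^b1`, `q = x_0^a2 x_1^b2`, so `x_0 = p^b2 q^(-b1)`, `x_1 = p^(-a2) q^a1`.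
`∑_α φ_α p^(b2 α_0 - a2 α_1) q^(- b1 α_0 + a1 α_1) = 0`; multiply by `q^N` and collect: `∑_k a_k q^k = 0`, `a_k = ∑_{- b1 α_0 + a1 α_1 + N = k} φ_α p^(b2 α_0 - a2 α_1)`. Not all `a_k` are zero, otherwise all `(j(p)^b2 q'^(-b1), j(p)^(-a2) q'^a1)`, `q' ∈ ℂ^×`, are on the curve with `x^e = j(p)^d`: contradiction with `hfin`. `root_height` bounds `hh q`;
`hh p = hh (p^d) / |d|`. -/
theorem x_bound (s : Finset (Fin 2 →₀ ℕ)) (e : Fin 2 → ℤ) (he : e ≠ 0) : ∃ C : ℝ, 0 ≤ C ∧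
    ∀ (K : Type) [Field K] [NumberField K] (j : K →+* ℂ) (φ : (Fin 2 →₀ ℕ) → K) (x : Fin 2 → K), (∀ i, x i ≠ 0) →
      ∑ α ∈ s, φ α * ∏ i, x i ^ α i = 0 →
      (∀ z : ℂ, {x : Fin 2 → ℂ | (∀ i, x i ≠ 0) ∧ ∏ i, x i ^ e i = z ∧ ∑ α ∈ s, j (φ α) * ∏ i, x i ^ α i = 0}.Finite) →
      ∀ i, hh (x i) ≤ C * (∑ α ∈ s, hh (φ α) + hh (∏ i, x i ^ e i) + Module.finrank ℚ K) := by
  classical
  -- the primitive direction
  have hg : (Int.gcd (e 0) (e 1) : ℤ) ≠ 0 := by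
    intro h
    apply he
    have h1 := Int.gcd_eq_zero_iff.1 (by exact_mod_cast h : Int.gcd (e 0) (e 1) = 0)
    funext i
    fin_cases i
    · exact h1.1
    · exact h1.2
  obtain ⟨d, a1, b1, a2, b2, hd, hd1, e0, e1, hdet⟩ : ∃ d a1 b1 a2 b2 : ℤ, d ≠ 0 ∧ 1 ≤ |(d : ℝ)| ∧
      e 0 = d * a1 ∧ e 1 = d * b1 ∧ a1 * b2 - a2 * b1 = 1 := by
    obtain ⟨a1, ha1⟩ : ((Int.gcd (e 0) (e 1) : ℕ) : ℤ) ∣ e 0 := Int.gcd_dvd_left ..
    obtain ⟨b1, hb1⟩ : ((Int.gcd (e 0) (e 1) : ℕ) : ℤ) ∣ e 1 := Int.gcd_dvd_right ..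
    obtain ⟨A, B, h3⟩ : ∃ A B : ℤ, ((Int.gcd (e 0) (e 1) : ℕ) : ℤ) = e 0 * A + e 1 * B :=
      ⟨_, _, Int.gcd_eq_gcd_ab (e 0) (e 1)⟩
    have h2 : (1 : ℤ) ≤ |((Int.gcd (e 0) (e 1) : ℕ) : ℤ)| := Int.one_le_abs hg
    generalize ((Int.gcd (e 0) (e 1) : ℕ) : ℤ) = g at *
    refine ⟨g, a1, b1, -B, A, hg, ?_, ha1, hb1, ?_⟩
    · exact_mod_cast h2
    · have h4 : g * (a1 * A - -B * b1) = g * 1 := by
        rw [ha1, hb1] at h3
        linarith
      exact mul_left_cancel₀ hg h4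
  obtain ⟨N, hN⟩ : ∃ N : ℕ, ∀ α ∈ s, |-b1 * (α 0 : ℤ) + a1 * (α 1 : ℤ)| ≤ (N : ℤ) := by
    refine ⟨∑ α ∈ s, (-b1 * (α 0 : ℤ) + a1 * (α 1 : ℤ)).natAbs, fun α hα => ?_⟩
    rw [Int.abs_eq_natAbs]
    exact_mod_cast Finset.single_le_sum (f := fun α : Fin 2 →₀ ℕ => (-b1 * (α 0 : ℤ) + a1 * (α 1 : ℤ)).natAbs)
      (fun _ _ => Nat.zero_le _) hα
  obtain ⟨C1, hC1, hroot⟩ := root_height (2 * N)
  have hl2 : 0 ≤ Real.log 2 := Real.log_nonneg (by norm_num)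
  set Cc : ℝ := ∑ α ∈ s, |((b2 * (α 0 : ℤ) - a2 * (α 1 : ℤ) : ℤ) : ℝ)| with hCc
  have hCc0 : 0 ≤ Cc := Finset.sum_nonneg fun _ _ => abs_nonneg _
  set C2 : ℝ := C1 * (Cc + s.card * Real.log 2 + 2) with hC2
  have hC20 : 0 ≤ C2 := by positivity
  refine ⟨(|(b2 : ℝ)| + |(a2 : ℝ)|) + (|(b1 : ℝ)| + |(a1 : ℝ)|) * C2, by positivity, ?_⟩
  intro K _ _ j φ x hx hsum hfin
  have hD : (0 : ℝ) ≤ (Module.finrank ℚ K : ℝ) := Nat.cast_nonneg _
  have hj : Function.Injective j := j.injective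
  -- the new coordinates
  obtain ⟨p, hp⟩ : ∃ p : K, p = x 0 ^ a1 * x 1 ^ b1 := ⟨_, rfl⟩
  obtain ⟨q, hq⟩ : ∃ q : K, q = x 0 ^ a2 * x 1 ^ b2 := ⟨_, rfl⟩
  have hp0 : p ≠ 0 := by rw [hp]; exact mul_ne_zero (zpow_ne_zero _ (hx 0)) (zpow_ne_zero _ (hx 1))
  have hq0 : q ≠ 0 := by rw [hq]; exact mul_ne_zero (zpow_ne_zero _ (hx 0)) (zpow_ne_zero _ (hx 1))
  obtain ⟨hx0, hx1⟩ := x1_coord hx hdet
  rw [← hp, ← hq] at hx0 hx1
  have hxv : x = ![p ^ b2 * q ^ (-b1), p ^ (-a2) * q ^ a1] := by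
    funext i
    fin_cases i
    · exact hx0
    · exact hx1
  -- the equation of `q`
  obtain ⟨a, ha⟩ : ∃ a : Fin (2 * N + 1) → K, a = fun i =>
      ∑ α ∈ s with (Fin.ofNat (2 * N + 1) (-b1 * (α 0 : ℤ) + a1 * (α 1 : ℤ) + N).toNat = i),
      φ α * p ^ (b2 * (α 0 : ℤ) - a2 * (α 1 : ℤ)) := ⟨_, rfl⟩
  have heq : ∑ i, a i * q ^ (i : ℕ) = 0 := by
    rw [ha]
    have h1 := x1_fib s a1 b1 a2 b2 N hN hp0 hq0 φ
    rw [← hxv, hsum, mul_zero] at h1
    exact h1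
  have hane : ∃ i, a i ≠ 0 := by
    by_contra hc
    push Not at hc
    have hP : j p ≠ 0 := (map_ne_zero j).2 hp0
    have h1 : ∀ Q : ℂ, Q ≠ 0 → ∑ α ∈ s, j (φ α) *
        ∏ i, (![j p ^ b2 * Q ^ (-b1), j p ^ (-a2) * Q ^ a1] : Fin 2 → ℂ) i ^ α i = 0 := by
      intro Q hQ
      have h2 := x1_fib s a1 b1 a2 b2 N hN hP hQ (fun α => j (φ α))
      have h3 : ∀ i : Fin (2 * N + 1), (∑ α ∈ s with (Fin.ofNat (2 * N + 1)
          (-b1 * (α 0 : ℤ) + a1 * (α 1 : ℤ) + N).toNat = i),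
          j (φ α) * j p ^ (b2 * (α 0 : ℤ) - a2 * (α 1 : ℤ))) = 0 := by
        intro i
        have h4 := congrArg j (hc i)
        rw [ha] at h4
        simp only [map_sum, map_mul, map_zpow₀, map_zero] at h4
        exact h4
      have h5 : Q ^ N * ∑ α ∈ s, j (φ α) *
          ∏ i, (![j p ^ b2 * Q ^ (-b1), j p ^ (-a2) * Q ^ a1] : Fin 2 → ℂ) i ^ α i = 0 := by
        rw [← h2]
        refine Finset.sum_eq_zero fun i _ => ?_
        rw [h3 i, zero_mul]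
      exact (mul_eq_zero.1 h5).resolve_left (pow_ne_zero _ hQ)
    have hinf : {Q : ℂ | Q ≠ 0}.Infinite := by
      have : {Q : ℂ | Q ≠ 0} = ({0} : Set ℂ)ᶜ := by ext; simp
      rw [this]
      exact (Set.finite_singleton (0 : ℂ)).infinite_compl
    have hmap : Set.MapsTo (fun Q : ℂ => (![j p ^ b2 * Q ^ (-b1), j p ^ (-a2) * Q ^ a1] : Fin 2 → ℂ)) {Q : ℂ | Q ≠ 0}
        {x : Fin 2 → ℂ | (∀ i, x i ≠ 0) ∧ ∏ i, x i ^ e i = j p ^ d ∧ ∑ α ∈ s, j (φ α) * ∏ i, x i ^ α i = 0} := by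
      intro Q hQ
      refine ⟨fun i => ?_, ?_, h1 Q hQ⟩
      · fin_cases i
        · exact mul_ne_zero (zpow_ne_zero _ hP) (zpow_ne_zero _ hQ)
        · exact mul_ne_zero (zpow_ne_zero _ hP) (zpow_ne_zero _ hQ)
      · have h6 := x1_mon hP hQ a1 b1 a2 b2 e
        rw [h6, e0, e1, show b2 * (d * a1) - a2 * (d * b1) = d * (a1 * b2 - a2 * b1) by ring, hdet,
          show -b1 * (d * a1) + a1 * (d * b1) = 0 by ring, mul_one, zpow_zero, mul_one]
    have hinj : Set.InjOn (fun Q : ℂ => (![j p ^ b2 * Q ^ (-b1), j p ^ (-a2) * Q ^ a1] : Fin 2 → ℂ)) {Q : ℂ | Q ≠ 0} := by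
      intro Q hQ Q' hQ' h
      have h7 : ∀ R : ℂ, R ≠ 0 → (j p ^ b2 * R ^ (-b1)) ^ a2 * (j p ^ (-a2) * R ^ a1) ^ b2 = R := by
        intro R hR
        have h8 := x1_mon hP hR a1 b1 a2 b2 ![a2, b2]
        rw [Fin.prod_univ_two] at h8
        simp only [Matrix.cons_val_zero, Matrix.cons_val_one] at h8
        rw [h8, show b2 * a2 - a2 * b2 = 0 by ring, show -b1 * a2 + a1 * b2 = 1 by linarith, zpow_zero, zpow_one, one_mul]
      have h9 : j p ^ b2 * Q ^ (-b1) = j p ^ b2 * Q' ^ (-b1) := congrFun h 0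
      have h10 : j p ^ (-a2) * Q ^ a1 = j p ^ (-a2) * Q' ^ a1 := congrFun h 1
      rw [← h7 Q hQ, ← h7 Q' hQ', h9, h10]
    exact (Set.infinite_of_injOn_mapsTo hinj hmap hinf) (hfin (j p ^ d))
  have hqh := hroot K a q hq0 hane heq
  -- the heights
  obtain ⟨H, hH⟩ : ∃ H : ℝ, H = ∑ α ∈ s, hh (φ α) + hh (∏ i, x i ^ e i) + Module.finrank ℚ K := ⟨_, rfl⟩
  have hH1 : 0 ≤ ∑ α ∈ s, hh (φ α) := Finset.sum_nonneg fun _ _ => hh_nonneg _
  have hH2 : 0 ≤ hh (∏ i, x i ^ e i) := hh_nonneg _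
  have hH0 : 0 ≤ H := by linarith
  have hpd : p ^ d = ∏ i, x i ^ e i := by
    rw [hp, Fin.prod_univ_two, mul_zpow, ← zpow_mul, ← zpow_mul, e0, e1, mul_comm a1 d, mul_comm b1 d]
  have hph : hh p ≤ hh (∏ i, x i ^ e i) := by
    rw [← hpd, x1_zpow hp0]
    have := hh_nonneg p
    nlinarith
  have hpH : hh p ≤ H := by linarith
  have hasum : ∑ i, hh (a i) ≤ (Cc + s.card * Real.log 2 + 1) * H := by
    have h1 : ∑ i, hh (a i) ≤ ∑ i : Fin (2 * N + 1), ∑ α ∈ s with (Fin.ofNat (2 * N + 1)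
        (-b1 * (α 0 : ℤ) + a1 * (α 1 : ℤ) + N).toNat = i),
        (hh (φ α) + |((b2 * (α 0 : ℤ) - a2 * (α 1 : ℤ) : ℤ) : ℝ)| * hh p + (Module.finrank ℚ K : ℝ) * Real.log 2) := by
      refine Finset.sum_le_sum fun i _ => ?_
      rw [ha]
      refine (x1_sum _ _).trans ?_
      rw [Finset.sum_add_distrib, Finset.sum_const, nsmul_eq_mul]
      refine add_le_add (Finset.sum_le_sum fun α _ => ?_) le_rfl
      refine (n2_hh_mul _ _).trans ?_
      rw [x1_zpow hp0]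
    rw [Finset.sum_fiberwise, Finset.sum_add_distrib, Finset.sum_add_distrib, ← Finset.sum_mul, Finset.sum_const,
      nsmul_eq_mul, ← hCc] at h1
    have h2 : Cc * hh p ≤ Cc * H := mul_le_mul_of_nonneg_left hpH hCc0
    have h3 : (s.card : ℝ) * ((Module.finrank ℚ K : ℝ) * Real.log 2) ≤ (s.card : ℝ) * (H * Real.log 2) := by
      refine mul_le_mul_of_nonneg_left (mul_le_mul_of_nonneg_right ?_ hl2) (Nat.cast_nonneg _)
      linarith
    have h4 : (Cc + s.card * Real.log 2 + 1) * H = Cc * H + (s.card : ℝ) * (H * Real.log 2) + H := by ring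
    rw [h4]
    linarith
  have hqH : hh q ≤ C2 * H := by
    refine hqh.trans ?_
    rw [hC2, mul_assoc]
    refine mul_le_mul_of_nonneg_left ?_ hC1
    have h4 : (Cc + s.card * Real.log 2 + 2) * H = (Cc + s.card * Real.log 2 + 1) * H + H := by ring
    rw [h4]
    linarith
  rw [← hH]
  have hmul : ∀ u v : ℤ, hh (p ^ u * q ^ v) ≤ (|(u : ℝ)| + |(v : ℝ)| * C2) * H := by
    intro u v
    refine (n2_hh_mul _ _).trans ?_
    rw [x1_zpow hp0, x1_zpow hq0]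
    have h1 : |(u : ℝ)| * hh p ≤ |(u : ℝ)| * H := mul_le_mul_of_nonneg_left hpH (abs_nonneg _)
    have h2 : |(v : ℝ)| * hh q ≤ |(v : ℝ)| * (C2 * H) := mul_le_mul_of_nonneg_left hqH (abs_nonneg _)
    have h3 : (|(u : ℝ)| + |(v : ℝ)| * C2) * H = |(u : ℝ)| * H + |(v : ℝ)| * (C2 * H) := by ring
    rw [h3]
    linarith
  have hA0 := abs_nonneg (b2 : ℝ)
  have hA1 := abs_nonneg (a2 : ℝ)
  have hA2 := mul_nonneg (abs_nonneg (b1 : ℝ)) hC20
  have hA3 := mul_nonneg (abs_nonneg (a1 : ℝ)) hC20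
  intro i
  fin_cases i
  · show hh (x 0) ≤ _
    rw [hx0]
    refine (hmul b2 (-b1)).trans (mul_le_mul_of_nonneg_right ?_ hH0)
    push_cast
    rw [abs_neg]
    linarith
  · show hh (x 1) ≤ _
    rw [hx1]
    refine (hmul (-a2) a1).trans (mul_le_mul_of_nonneg_right ?_ hH0)
    push_cast
    rw [abs_neg]
    linarith

end

end Pool.Agent.Z7
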